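import Mathlib

set_option autoImplicit false

/-!
# Project RA2 (problem MP_619363_an): equilibrium measure of the annulus, all `d - 2 < s < d`

Definitions.  `α = d - s ∈ (0, 2)`, kernel `‖y - z‖ₑ ^ (α - d)`, `κ = r / R ∈ (0, 1)`.  The whole proof is in
`PROOF.md` in this folder.
-/

namespace Pool.Agent.Lib.H16RA

open MeasureTheory Set Metric
open scoped ENNReal Real

/-- `ℝ^d` -/
abbrev V (d : ℕ) := EuclideanSpace ℝ (Fin d)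

/-- area of the unit sphere of `ℝ^d` -/
noncomputable def sig (d : ℕ) : ℝ≥0∞ := (volume : Measure (V d)).toSphere univ

/-- `π / sin (π α / 2)` -/
noncomputable def Pc (α : ℝ) : ℝ := π / Real.sin (π * α / 2)

/-- `(σ_d / 2) π / sin (π α / 2)` -/
noncomputable def Cc (d : ℕ) (α : ℝ) : ℝ≥0∞ := sig d / 2 * ENNReal.ofReal (Pc α)

/-- the weight `w(y) = y ^ (d/2 - 1) ((κ - y) / (1 - κ y)) ^ (α/2)` on `(0, κ)` -/
noncomputable def wt (d : ℕ) (α κ y : ℝ) : ℝ :=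
  y ^ ((d : ℝ) / 2 - 1) * ((κ - y) / (1 - κ * y)) ^ (α / 2)

/-- the operator `T f (x) = (sin (π α / 2) / π) ∫_0^κ w(y) f(y) / (1 - x y) dy` -/
noncomputable def T (d : ℕ) (α κ : ℝ) (f : ℝ → ℝ≥0∞) (x : ℝ) : ℝ≥0∞ :=
  ENNReal.ofReal (Real.sin (π * α / 2) / π) *
    ∫⁻ y in Ioo (0 : ℝ) κ, ENNReal.ofReal (wt d α κ y / (1 - x * y)) * f y

/-- `T^n 1` -/
noncomputable def it (d : ℕ) (α κ : ℝ) : ℕ → ℝ → ℝ≥0∞
  | 0 => fun _ => 1
  | n + 1 => T d α κ (it d α κ n)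

/-- the density `(1 - κ ‖y‖²) ^ (-α/2) a(‖y‖²)` (used for `κ ‖y‖² < 1`) -/
noncomputable def Ain (d : ℕ) (α κ : ℝ) (a : ℝ → ℝ≥0∞) (y : V d) : ℝ≥0∞ :=
  ENNReal.ofReal ((1 - κ * ‖y‖ ^ 2) ^ (-(α / 2))) * a (‖y‖ ^ 2)

/-- the density `(‖y‖² - κ) ^ (-α/2) ‖y‖^(-d) b(1 / ‖y‖²)` (used for `‖y‖² > κ`) -/
noncomputable def Bout (d : ℕ) (α κ : ℝ) (b : ℝ → ℝ≥0∞) (y : V d) : ℝ≥0∞ :=
  ENNReal.ofReal ((‖y‖ ^ 2 - κ) ^ (-(α / 2)) * (‖y‖ ^ 2) ^ (-((d : ℝ) / 2))) * b (1 / ‖y‖ ^ 2)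

/-- the regions -/
def Din (d : ℕ) (κ : ℝ) : Set (V d) := {y | ‖y‖ ^ 2 < κ}
def Dball (d : ℕ) (κ : ℝ) : Set (V d) := {y | κ * ‖y‖ ^ 2 < 1}
def Dco (d : ℕ) (κ : ℝ) : Set (V d) := {y | κ < ‖y‖ ^ 2}
def Dext (d : ℕ) (κ : ℝ) : Set (V d) := {y | 1 < κ * ‖y‖ ^ 2}
def Ann (d : ℕ) (κ : ℝ) : Set (V d) := {y | κ ≤ ‖y‖ ^ 2 ∧ κ * ‖y‖ ^ 2 ≤ 1}

/-- the constant `κ ^ (-α/2) C_d` -/
noncomputable def CK (d : ℕ) (α κ : ℝ) : ℝ≥0∞ := ENNReal.ofReal (κ ^ (-(α / 2))) * Cc d α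

/-- `φ = ∑ T^(2n) 1` -/
noncomputable def phi (d : ℕ) (α κ : ℝ) (x : ℝ) : ℝ≥0∞ := ∑' n, it d α κ (2 * n) x
/-- `χ = ∑ T^(2n+1) 1` -/
noncomputable def chi (d : ℕ) (α κ : ℝ) (x : ℝ) : ℝ≥0∞ := ∑' n, it d α κ (2 * n + 1) x

theorem measurableSet_Din (d : ℕ) (κ : ℝ) : MeasurableSet (Din d κ) :=
  measurableSet_lt (by fun_prop) (by fun_prop)
theorem measurableSet_Dball (d : ℕ) (κ : ℝ) : MeasurableSet (Dball d κ) :=
  measurableSet_lt (by fun_prop) (by fun_prop)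
theorem measurableSet_Dco (d : ℕ) (κ : ℝ) : MeasurableSet (Dco d κ) :=
  measurableSet_lt (by fun_prop) (by fun_prop)
theorem measurableSet_Dext (d : ℕ) (κ : ℝ) : MeasurableSet (Dext d κ) :=
  measurableSet_lt (by fun_prop) (by fun_prop)
theorem measurableSet_Ann (d : ℕ) (κ : ℝ) : MeasurableSet (Ann d κ) := by
  show MeasurableSet ({y : V d | κ ≤ ‖y‖ ^ 2} ∩ {y : V d | κ * ‖y‖ ^ 2 ≤ 1})
  exact (measurableSet_le (by fun_prop) (by fun_prop)).inter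
    (measurableSet_le (by fun_prop) (by fun_prop))

theorem sin_pos_of {α : ℝ} (h0 : 0 < α) (h2 : α < 2) : 0 < Real.sin (π * α / 2) := by
  have hp := Real.pi_pos
  refine Real.sin_pos_of_pos_of_lt_pi (by positivity) ?_
  nlinarith

theorem Pc_pos {α : ℝ} (h0 : 0 < α) (h2 : α < 2) : 0 < Pc α :=
  div_pos Real.pi_pos (sin_pos_of h0 h2)

theorem T_meas (d : ℕ) (α κ : ℝ) {f : ℝ → ℝ≥0∞} (hf : Measurable f) :
    Measurable (T d α κ f) := by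
  unfold T
  refine Measurable.const_mul ?_ _
  refine Measurable.lintegral_prod_right' (f := fun q : ℝ × ℝ =>
    ENNReal.ofReal (wt d α κ q.2 / (1 - q.1 * q.2)) * f q.2) ?_
  unfold wt
  fun_prop

theorem it_meas (d : ℕ) (α κ : ℝ) (n : ℕ) : Measurable (it d α κ n) := by
  induction n with
  | zero => exact measurable_const
  | succ n ih => exact T_meas d α κ ih

theorem Ain_meas (d : ℕ) (α κ : ℝ) {a : ℝ → ℝ≥0∞} (ha : Measurable a) :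
    Measurable (Ain d α κ a) := by
  unfold Ain
  fun_prop

theorem Bout_meas (d : ℕ) (α κ : ℝ) {b : ℝ → ℝ≥0∞} (hb : Measurable b) :
    Measurable (Bout d α κ b) := by
  unfold Bout
  refine Measurable.mul (by fun_prop) ?_
  exact hb.comp (by fun_prop)

theorem kern_meas (d : ℕ) (e : ℝ) (z : V d) : Measurable fun y : V d => ‖y - z‖ₑ ^ e := by
  fun_prop

theorem sig_ne_top (d : ℕ) : sig d ≠ ⊤ := measure_ne_top _ _

theorem sig_ne_zero (d : ℕ) [NeZero d] : sig d ≠ 0 := by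
  unfold sig
  rw [Measure.toSphere_apply_univ]
  refine mul_ne_zero ?_ ?_
  · rw [finrank_euclideanSpace, Fintype.card_fin]
    exact_mod_cast NeZero.ne d
  · exact (isOpen_ball.measure_pos _ ⟨0, by simp⟩).ne'

theorem Cc_ne_top (d : ℕ) (α : ℝ) : Cc d α ≠ ⊤ := by
  unfold Cc
  exact ENNReal.mul_ne_top (ENNReal.div_ne_top (sig_ne_top d) (by norm_num)) ENNReal.ofReal_ne_top

theorem Cc_ne_zero (d : ℕ) [NeZero d] {α : ℝ} (h0 : 0 < α) (h2 : α < 2) : Cc d α ≠ 0 := by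
  unfold Cc
  refine mul_ne_zero ?_ ?_
  · exact (ENNReal.div_pos (sig_ne_zero d) (by norm_num)).ne'
  · exact (ENNReal.ofReal_pos.mpr (Pc_pos h0 h2)).ne'

end Pool.Agent.Lib.H16RA
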