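import Mathlib
import Pool.Agent.Lib.H16RA.Defs

set_option autoImplicit false

/-!
# RA2 chunk EUL: Euler's integral
-/

namespace Pool.Agent.Lib.H16RA

open MeasureTheory Set Metric
open scoped ENNReal Real

/-- **EUL1.** `B(a, 1 - a) = π / sin (π a)` as a `lintegral`. -/
theorem beta_refl {a : ℝ} (ha : 0 < a) (ha1 : a < 1) :
    ∫⁻ w in Ioo (0 : ℝ) 1, ENNReal.ofReal (w ^ (a - 1) * (1 - w) ^ (-a)) =
      ENNReal.ofReal (π / Real.sin (π * a)) := by
  have hb : 0 < 1 - a := by linarith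
  have h := ProbabilityTheory.lintegral_betaPDF_eq_one ha hb
  rw [ProbabilityTheory.lintegral_betaPDF] at h
  have hB : ProbabilityTheory.beta a (1 - a) = π / Real.sin (π * a) := by
    unfold ProbabilityTheory.beta
    rw [Real.Gamma_mul_Gamma_one_sub, show a + (1 - a) = 1 by ring, Real.Gamma_one, div_one]
  have hBp : 0 < ProbabilityTheory.beta a (1 - a) := ProbabilityTheory.beta_pos ha hb
  have h2 : ∀ w : ℝ, ENNReal.ofReal (1 / ProbabilityTheory.beta a (1 - a) * w ^ (a - 1) *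
      (1 - w) ^ (1 - a - 1)) =
      ENNReal.ofReal (1 / ProbabilityTheory.beta a (1 - a)) *
        ENNReal.ofReal (w ^ (a - 1) * (1 - w) ^ (-a)) := by
    intro w
    rw [← ENNReal.ofReal_mul (by positivity)]
    congr 1
    rw [show 1 - a - 1 = -a by ring]
    ring
  simp_rw [h2] at h
  rw [lintegral_const_mul' _ _ ENNReal.ofReal_ne_top] at h
  rw [← hB]
  have h3 : ENNReal.ofReal (ProbabilityTheory.beta a (1 - a)) *
      ENNReal.ofReal (1 / ProbabilityTheory.beta a (1 - a)) = 1 := by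
    rw [← ENNReal.ofReal_mul hBp.le, mul_one_div_cancel hBp.ne', ENNReal.ofReal_one]
  calc ∫⁻ w in Ioo (0 : ℝ) 1, ENNReal.ofReal (w ^ (a - 1) * (1 - w) ^ (-a))
      = (ENNReal.ofReal (ProbabilityTheory.beta a (1 - a)) *
      ENNReal.ofReal (1 / ProbabilityTheory.beta a (1 - a))) *
        ∫⁻ w in Ioo (0 : ℝ) 1, ENNReal.ofReal (w ^ (a - 1) * (1 - w) ^ (-a)) := by
        rw [h3, one_mul]
    _ = ENNReal.ofReal (ProbabilityTheory.beta a (1 - a)) := by
        rw [mul_assoc, h, mul_one]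

/-- **EUL2.** Euler's integral. -/
theorem euler_int {a x : ℝ} (ha : 0 < a) (ha1 : a < 1) (hx : x < 1) :
    ∫⁻ w in Ioo (0 : ℝ) 1, ENNReal.ofReal (w ^ (a - 1) * (1 - w) ^ (-a) / (1 - x * w)) =
      ENNReal.ofReal (π / Real.sin (π * a) * (1 - x) ^ (-a)) := by
  have h1x : 0 < 1 - x := by linarith
  have hden : ∀ u ∈ Ioo (0 : ℝ) 1, 0 < 1 - x + x * u := by
    intro u hu
    nlinarith [hu.1, hu.2, mul_pos h1x (sub_pos.mpr hu.2)]
  set f : ℝ → ℝ := fun u => u / (1 - x + x * u) with hf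
  have hf' : ∀ u ∈ Ioo (0 : ℝ) 1, HasDerivWithinAt f ((1 - x) / (1 - x + x * u) ^ 2)
      (Ioo (0 : ℝ) 1) u := by
    intro u hu
    have hd := hden u hu
    have h2 : HasDerivAt (fun u : ℝ => 1 - x + x * u) x u := by
      have := ((hasDerivAt_id u).const_mul x).const_add (1 - x)
      simpa using this
    have h3 := (hasDerivAt_id u).div h2 hd.ne'
    have h4 : (1 * (1 - x + x * u) - id u * x) / (1 - x + x * u) ^ 2 =
        (1 - x) / (1 - x + x * u) ^ 2 := by
      congr 1
      simp only [id]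
      ring
    rw [h4] at h3
    exact h3.hasDerivWithinAt
  have hinj : InjOn f (Ioo (0 : ℝ) 1) := by
    intro u hu v hv huv
    have hdu := hden u hu
    have hdv := hden v hv
    simp only [hf] at huv
    rw [div_eq_div_iff hdu.ne' hdv.ne'] at huv
    have : (1 - x) * (u - v) = 0 := by linear_combination huv
    rcases mul_eq_zero.mp this with h | h
    · exact absurd h h1x.ne'
    · linarith
  have himg : f '' Ioo (0 : ℝ) 1 = Ioo (0 : ℝ) 1 := by
    ext w
    constructor
    · rintro ⟨u, hu, rfl⟩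
      have hd := hden u hu
      refine ⟨div_pos hu.1 hd, ?_⟩
      rw [hf]
      simp only
      rw [div_lt_one hd]
      nlinarith [hu.1, hu.2, mul_pos h1x (sub_pos.mpr hu.2)]
    · intro hw
      have hxw : 0 < 1 - x * w := by nlinarith [hw.1, hw.2]
      refine ⟨(1 - x) * w / (1 - x * w), ⟨?_, ?_⟩, ?_⟩
      · exact div_pos (mul_pos h1x hw.1) hxw
      · rw [div_lt_one hxw]
        nlinarith [hw.1, hw.2]
      · simp only [hf]
        have : 1 - x + x * ((1 - x) * w / (1 - x * w)) = (1 - x) / (1 - x * w) := by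
          field_simp
          ring
        rw [this]
        field_simp
  have key := lintegral_image_eq_lintegral_abs_deriv_mul measurableSet_Ioo hf' hinj
    (fun w => ENNReal.ofReal (w ^ (a - 1) * (1 - w) ^ (-a) / (1 - x * w)))
  rw [himg] at key
  rw [key]
  have h5 : ∀ u ∈ Ioo (0 : ℝ) 1, ENNReal.ofReal |(1 - x) / (1 - x + x * u) ^ 2| *
      ENNReal.ofReal ((f u) ^ (a - 1) * (1 - f u) ^ (-a) / (1 - x * f u)) =
      ENNReal.ofReal ((1 - x) ^ (-a)) * ENNReal.ofReal (u ^ (a - 1) * (1 - u) ^ (-a)) := by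
    intro u hu
    have hd := hden u hu
    have hu1 : 0 < 1 - u := by linarith [hu.2]
    rw [← ENNReal.ofReal_mul (abs_nonneg _), ← ENNReal.ofReal_mul (by positivity)]
    congr 1
    have e1 : 1 - f u = (1 - x) * (1 - u) / (1 - x + x * u) := by
      simp only [hf]
      rw [eq_div_iff hd.ne', sub_mul, div_mul_cancel₀ _ hd.ne']
      ring
    have e2 : 1 - x * f u = (1 - x) / (1 - x + x * u) := by
      simp only [hf]
      rw [eq_div_iff hd.ne', sub_mul, mul_assoc, div_mul_cancel₀ _ hd.ne']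
      ring
    rw [e1, e2, abs_of_pos (by positivity)]
    simp only [hf]
    rw [Real.div_rpow hu.1.le hd.le, Real.div_rpow (by positivity) hd.le,
      Real.mul_rpow h1x.le hu1.le]
    set D := 1 - x + x * u with hD
    have e3 : D ^ (a - 1) * D ^ (-a) = D⁻¹ := by
      rw [← Real.rpow_add hd, show a - 1 + -a = -1 by ring, Real.rpow_neg_one]
    have hDa : 0 < D ^ (a - 1) := Real.rpow_pos_of_pos hd _
    have hDb : 0 < D ^ (-a) := Real.rpow_pos_of_pos hd _
    have e4 : D ^ (a - 1) * D ^ (-a) * D = 1 := by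
      rw [e3]
      exact inv_mul_cancel₀ hd.ne'
    have e5 : (1 - x) / D ^ 2 * (u ^ (a - 1) / D ^ (a - 1) *
        ((1 - x) ^ (-a) * (1 - u) ^ (-a) / D ^ (-a)) / ((1 - x) / D)) =
        (1 - x) ^ (-a) * (u ^ (a - 1) * (1 - u) ^ (-a)) / (D ^ (a - 1) * D ^ (-a) * D) := by
      field_simp
    rw [e5, e4, div_one]
  rw [setLIntegral_congr_fun measurableSet_Ioo h5, lintegral_const_mul' _ _ ENNReal.ofReal_ne_top,
    beta_refl ha ha1, ← ENNReal.ofReal_mul (by positivity)]
  congr 1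
  ring

end Pool.Agent.Lib.H16RA
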