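import Mathlib
import Pool.Agent.Lib.H16RA.Euler

set_option autoImplicit false

/-!
# RA2 chunk CH: the chord integral
-/

namespace Pool.Agent.Lib.H16RA

open MeasureTheory Set Metric
open scoped ENNReal Real

theorem chord_half0 {a p : ℝ} (ha : 0 < a) (ha1 : a < 1) (hp : 0 < p) :
    ∫⁻ t in Ioo (0 : ℝ) p, ENNReal.ofReal (((p - t) * t) ^ (-a) * |t| ^ (2 * a - 1)) =
      ENNReal.ofReal (π / Real.sin (π * a)) := by
  have himg : (fun w : ℝ => p * w) '' Ioo (0 : ℝ) 1 = Ioo (0 : ℝ) p := by
    ext t
    simp only [mem_image, mem_Ioo]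
    constructor
    · rintro ⟨w, ⟨h0, h1⟩, rfl⟩
      exact ⟨by positivity, by nlinarith⟩
    · rintro ⟨h0, h1⟩
      exact ⟨t / p, ⟨by positivity, by rwa [div_lt_one hp]⟩, by field_simp⟩
  rw [← himg, lintegral_image_eq_lintegral_abs_deriv_mul (f' := fun _ => p) measurableSet_Ioo
    (fun w _ => by simpa using ((hasDerivAt_id w).const_mul p).hasDerivWithinAt)
    (fun w _ w' _ h => mul_left_cancel₀ hp.ne' h), ← beta_refl ha ha1]
  refine setLIntegral_congr_fun measurableSet_Ioo fun w hw => ?_
  obtain ⟨h0, h1⟩ := hw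
  have h1' : 0 < 1 - w := by linarith
  have hpw : 0 < p * w := by positivity
  beta_reduce
  rw [← ENNReal.ofReal_mul (abs_nonneg _), abs_of_pos hp, abs_of_pos hpw]
  congr 1
  have e1 : (p - p * w) * (p * w) = p * (1 - w) * (p * w) := by ring
  rw [e1]
  apply Real.log_injOn_pos (Set.mem_Ioi.mpr (by positivity)) (Set.mem_Ioi.mpr (by positivity))
  rw [Real.log_mul (by positivity) (by positivity), Real.log_mul (by positivity) (by positivity),
    Real.log_rpow (by positivity), Real.log_rpow (by positivity),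
    Real.log_mul (by positivity) (by positivity), Real.log_mul (by positivity) (by positivity),
    Real.log_mul (by positivity) (by positivity), Real.log_mul (by positivity) (by positivity),
    Real.log_rpow (by positivity), Real.log_rpow (by positivity)]
  ring

theorem chord_half {a p q : ℝ} (hp : 0 < p) (hq : 0 < q) :
    ∫⁻ t in Ioo (0 : ℝ) p, ENNReal.ofReal (((p - t) * (q + t)) ^ (-a) * |t| ^ (2 * a - 1)) =
      ∫⁻ y in Ioo (0 : ℝ) 1, ENNReal.ofReal ((p * q) ^ a * 2 ^ (2 * a) * (p + q) ^ (1 - 2 * a) *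
        (y ^ (2 * a - 1) * (1 - y ^ 2) ^ (-a)) * ((p + q) + (q - p) * y)⁻¹) := by
  have hE : ∀ y ∈ Ioo (0 : ℝ) 1, 0 < (p + q) + (q - p) * y := by
    rintro y ⟨h0, h1⟩
    nlinarith [mul_pos hp (sub_pos.mpr h1), mul_pos hq h0]
  have himg : (fun y : ℝ => 2 * p * q * y / ((p + q) + (q - p) * y)) '' Ioo (0 : ℝ) 1
      = Ioo (0 : ℝ) p := by
    ext t
    simp only [mem_image, mem_Ioo]
    constructor
    · rintro ⟨w, ⟨h0, h1⟩, rfl⟩
      have := hE w ⟨h0, h1⟩
      refine ⟨by positivity, ?_⟩
      rw [div_lt_iff₀ this]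
      nlinarith [mul_pos (mul_pos hp (add_pos hp hq)) (sub_pos.mpr h1)]
    · rintro ⟨h0, h1⟩
      have hden : 0 < 2 * p * q - (q - p) * t := by
        nlinarith [mul_pos hq (sub_pos.mpr h1), mul_pos hp hq, mul_pos hp h0]
      have hden' := hden.ne'
      obtain ⟨D, hD⟩ : ∃ D, D = 2 * p * q - (q - p) * t := ⟨_, rfl⟩
      rw [← hD] at hden hden'
      have hden3 : (p + q) + (q - p) * ((p + q) * t / D) = 2 * p * q * (p + q) / D := by
        field_simp
        rw [hD]
        ring
      refine ⟨(p + q) * t / D, ⟨by positivity, ?_⟩, ?_⟩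
      · rw [div_lt_one hden, hD]
        nlinarith [mul_pos hq (sub_pos.mpr h1)]
      · rw [hden3]
        field_simp
  have hder : ∀ w ∈ Ioo (0 : ℝ) 1, HasDerivWithinAt
      (fun y => 2 * p * q * y / ((p + q) + (q - p) * y))
      (2 * p * q * (p + q) / ((p + q) + (q - p) * w) ^ 2) (Ioo 0 1) w := by
    intro w hw
    have hEw := hE w hw
    have := ((hasDerivAt_id w).const_mul (2 * p * q)).div
      (((hasDerivAt_id w).const_mul (q - p)).const_add (p + q)) hEw.ne'
    refine HasDerivAt.hasDerivWithinAt ?_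
    refine this.congr_deriv ?_
    simp only [id]
    have hEw' := hEw.ne'
    field_simp
    ring
  have hinj : InjOn (fun y => 2 * p * q * y / ((p + q) + (q - p) * y)) (Ioo (0 : ℝ) 1) := by
    intro y hy y' hy' h
    have h1 := hE y hy
    have h2 := hE y' hy'
    beta_reduce at h
    rw [div_eq_div_iff h1.ne' h2.ne'] at h
    have h3 : 2 * p * q * (p + q) * (y - y') = 0 := by linear_combination h
    have h4 : 2 * p * q * (p + q) ≠ 0 := by positivity
    have := (mul_eq_zero.mp h3).resolve_left h4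
    linarith
  rw [← himg, lintegral_image_eq_lintegral_abs_deriv_mul
    (f' := fun y => 2 * p * q * (p + q) / ((p + q) + (q - p) * y) ^ 2) measurableSet_Ioo
    hder hinj]
  · refine setLIntegral_congr_fun measurableSet_Ioo fun y hy => ?_
    have hEy := hE y hy
    obtain ⟨h0, h1⟩ := hy
    have h1' : 0 < 1 - y := by linarith
    have h1'' : 0 < 1 - y ^ 2 := by nlinarith
    beta_reduce
    set E := (p + q) + (q - p) * y with hEdef
    have hS : 0 < p + q := by positivity
    rw [← ENNReal.ofReal_mul (abs_nonneg _), abs_of_pos (a := 2 * p * q * (p + q) / E ^ 2)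
      (by positivity), abs_of_pos (a := 2 * p * q * y / E) (by positivity)]
    congr 1
    have e1 : (p - 2 * p * q * y / E) * (q + 2 * p * q * y / E) =
        p * q * (p + q) ^ 2 * (1 - y ^ 2) / E ^ 2 := by
      field_simp
      rw [hEdef]
      ring
    rw [e1]
    apply Real.log_injOn_pos (Set.mem_Ioi.mpr (by positivity)) (Set.mem_Ioi.mpr (by positivity))
    rw [Real.log_mul (by positivity) (by positivity), Real.log_mul (by positivity) (by positivity),
      Real.log_div (by positivity) (by positivity), Real.log_rpow (by positivity),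
      Real.log_rpow (by positivity), Real.log_div (by positivity) (by positivity),
      Real.log_div (by positivity) (by positivity), Real.log_pow, Real.log_mul (by positivity) (by positivity),
      Real.log_mul (x := 2 * p) (by positivity) (by positivity), Real.log_mul (by positivity) (by positivity),
      Real.log_mul (by positivity) (by positivity), Real.log_mul (by positivity) (by positivity),
      Real.log_mul (by positivity) (by positivity), Real.log_mul (by positivity) (by positivity),
      Real.log_mul (y := E⁻¹) (by positivity) (by positivity),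
      Real.log_mul (y := y ^ (2 * a - 1) * (1 - y ^ 2) ^ (-a)) (by positivity) (by positivity),
      Real.log_mul (x := (p * q) ^ a * 2 ^ (2 * a)) (by positivity) (by positivity),
      Real.log_mul (x := (p * q) ^ a) (by positivity) (by positivity),
      Real.log_mul (x := y ^ (2 * a - 1)) (by positivity) (by positivity),
      Real.log_inv, Real.log_rpow (by positivity), Real.log_rpow (by positivity),
      Real.log_rpow (by positivity), Real.log_rpow (by positivity), Real.log_rpow (by positivity),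
      Real.log_mul (x := p) (by positivity) (by positivity), Real.log_pow]
    have e2 : Real.log (2 * p * q) = Real.log 2 + Real.log p + Real.log q := by
      rw [Real.log_mul (by positivity) (by positivity), Real.log_mul (by positivity) (by positivity)]
    push_cast
    simp only [e2]
    ring

/-- **CH.** `∫_{-q}^p ((p - t) (q + t)) ^ (-α/2) |t| ^ (α - 1) dt = π / sin (π α / 2)`.
Proof.  If `p = 0` (or `q = 0`, by `t ↦ -t`): `t = -q w` gives `beta_refl` with `a = α / 2`.
If `p, q > 0` put `S = p + q`, `D = q - p` (so `|D| < S`) and substitute `t = 2 p q y / (S + D y)`,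
`y ∈ (-1, 1)` (increasing, derivative `2 p q S / (S + D y) ^ 2`);
`p - t = p S (1 - y) / (S + D y)`, `q + t = q S (1 + y) / (S + D y)`, so the integrand becomes
`(p q) ^ (α/2) 2 ^ α S ^ (1 - α) (1 - y²) ^ (-α/2) |y| ^ (α - 1) / (S + D y)`.
Fold `y ↦ -y`: `1 / (S + D y) + 1 / (S - D y) = 2 S / (S² - D² y²)`, and put `w = y²`:
`(4 p q) ^ (α/2) S ^ (-α) ∫_0^1 w ^ (α/2 - 1) (1 - w) ^ (-α/2) / (1 - x w) dw` with `x = (D / S)² < 1`,
`1 - x = 4 p q / S²`; conclude by `euler_int` with `a = α / 2`. -/
theorem chord {α p q : ℝ} (h0 : 0 < α) (h2 : α < 2) (hp : 0 ≤ p) (hq : 0 ≤ q) (hpq : 0 < p + q) :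
    ∫⁻ t in Ioo (-q) p, ENNReal.ofReal (((p - t) * (q + t)) ^ (-(α / 2)) * |t| ^ (α - 1)) =
      ENNReal.ofReal (Pc α) := by
  obtain ⟨a, rfl⟩ : ∃ a, α = 2 * a := ⟨α / 2, by ring⟩
  have ha : 0 < a := by linarith
  have ha1 : a < 1 := by linarith
  have ea : 2 * a / 2 = a := by ring
  have eP : Pc (2 * a) = π / Real.sin (π * a) := by
    unfold Pc
    congr 2
    ring
  rw [ea, eP]
  -- reflection
  have hrefl : ∀ p q : ℝ, ∫⁻ t in Ioo (-q) 0,
      ENNReal.ofReal (((p - t) * (q + t)) ^ (-a) * |t| ^ (2 * a - 1)) =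
      ∫⁻ t in Ioo 0 q, ENNReal.ofReal (((q - t) * (p + t)) ^ (-a) * |t| ^ (2 * a - 1)) := by
    intro p q
    have himg : (fun t : ℝ => -t) '' Ioo 0 q = Ioo (-q) 0 := by
      simp
    rw [← himg, lintegral_image_eq_lintegral_abs_deriv_mul (f' := fun _ => -1) measurableSet_Ioo
      (fun w _ => by simpa using (hasDerivAt_neg w).hasDerivWithinAt)
      (fun w _ w' _ h => neg_injective h)]
    refine setLIntegral_congr_fun measurableSet_Ioo fun t ht => ?_
    beta_reduce
    rw [abs_neg, abs_neg, abs_one, ENNReal.ofReal_one, one_mul]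
    congr 2
    congr 1
    ring
  rcases hp.eq_or_lt with rfl | hp
  · have hq' : 0 < q := by linarith
    rw [hrefl 0 q, ← chord_half0 ha ha1 hq']
    refine setLIntegral_congr_fun measurableSet_Ioo fun t ht => ?_
    beta_reduce
    rw [zero_add]
  rcases hq.eq_or_lt with rfl | hq
  · rw [neg_zero, ← chord_half0 ha ha1 hp]
    refine setLIntegral_congr_fun measurableSet_Ioo fun t ht => ?_
    beta_reduce
    rw [zero_add]
  have hsplit : (Ioo (-q) p : Set ℝ) =ᵐ[volume] (Ioo (-q) 0 ∪ Ioo 0 p : Set ℝ) := by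
    have h1 : (Ioo (-q) p : Set ℝ) = Ioo (-q) 0 ∪ Ico 0 p :=
      (Ioo_union_Ico_eq_Ioo (by linarith) hp.le).symm
    rw [h1]
    exact ae_eq_set_union (ae_eq_refl _) Ioo_ae_eq_Ico.symm
  have hdis : Disjoint (Ioo (-q) 0 : Set ℝ) (Ioo 0 p) := by
    rw [Set.disjoint_left]
    intro t h1 h2
    exact lt_asymm h1.2 h2.1
  rw [setLIntegral_congr hsplit, lintegral_union measurableSet_Ioo hdis, hrefl p q,
    chord_half hp hq, chord_half hq hp]
  have hSp : 0 < p + q := by positivity
  have hE1 : ∀ y ∈ Ioo (0 : ℝ) 1, 0 < (p + q) + (q - p) * y := by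
    rintro y ⟨h0, h1⟩
    nlinarith [mul_pos hp (sub_pos.mpr h1), mul_pos hq h0]
  have hE2 : ∀ y ∈ Ioo (0 : ℝ) 1, 0 < (p + q) - (q - p) * y := by
    rintro y ⟨h0, h1⟩
    nlinarith [mul_pos hq (sub_pos.mpr h1), mul_pos hp h0]
  set x : ℝ := ((q - p) / (p + q)) ^ 2 with hx
  have hx1 : x < 1 := by
    rw [hx, div_pow, div_lt_one (by positivity)]
    nlinarith [mul_pos hp hq]
  have h1x : 1 - x = 4 * (p * q) / (p + q) ^ 2 := by
    rw [hx]
    field_simp
    ring
  rw [← lintegral_add_left (by fun_prop)]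
  have himg : (fun y : ℝ => y ^ 2) '' Ioo (0 : ℝ) 1 = Ioo (0 : ℝ) 1 := by
    ext t
    simp only [mem_image, mem_Ioo]
    constructor
    · rintro ⟨w, ⟨h0, h1⟩, rfl⟩
      exact ⟨by positivity, by nlinarith⟩
    · rintro ⟨h0, h1⟩
      refine ⟨Real.sqrt t, ⟨Real.sqrt_pos.mpr h0, ?_⟩, Real.sq_sqrt h0.le⟩
      rw [Real.sqrt_lt' one_pos]
      simpa using h1
  have heul := euler_int ha ha1 hx1
  rw [← himg, lintegral_image_eq_lintegral_abs_deriv_mul (f' := fun y => 2 * y) measurableSet_Ioo
    (fun w _ => by simpa using (hasDerivAt_pow 2 w).hasDerivWithinAt)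
    (fun y hy y' hy' h => by
      have h1 : (y - y') * (y + y') = 0 := by
        beta_reduce at h
        linear_combination h
      have h2 : y + y' ≠ 0 := (add_pos hy.1 hy'.1).ne'
      have := (mul_eq_zero.mp h1).resolve_right h2
      linarith)] at heul
  have hC : (p * q) ^ a * 2 ^ (2 * a) * (p + q) ^ (-(2 * a)) * (1 - x) ^ (-a) = 1 := by
    rw [h1x]
    apply Real.log_injOn_pos (Set.mem_Ioi.mpr (by positivity)) (Set.mem_Ioi.mpr (by positivity))
    have e4 : Real.log 4 = 2 * Real.log 2 := by
      rw [show (4 : ℝ) = 2 ^ 2 by norm_num, Real.log_pow]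
      norm_num
    rw [Real.log_mul (by positivity) (by positivity), Real.log_mul (by positivity) (by positivity),
      Real.log_mul (by positivity) (by positivity), Real.log_rpow (by positivity),
      Real.log_rpow (by positivity), Real.log_rpow (by positivity), Real.log_rpow (by positivity),
      Real.log_div (by positivity) (by positivity), Real.log_mul (x := p) (by positivity) (by positivity),
      Real.log_mul (x := 4) (by positivity) (by positivity), Real.log_mul (x := p) (by positivity)
      (by positivity), Real.log_pow, Real.log_one, e4]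
    push_cast
    ring
  have hpos : 0 ≤ (p * q) ^ a * 2 ^ (2 * a) * (p + q) ^ (-(2 * a)) := by positivity
  calc _ = ∫⁻ y in Ioo (0 : ℝ) 1, ENNReal.ofReal ((p * q) ^ a * 2 ^ (2 * a) * (p + q) ^ (-(2 * a))) *
        (ENNReal.ofReal |2 * y| * ENNReal.ofReal ((y ^ 2) ^ (a - 1) * (1 - y ^ 2) ^ (-a) /
          (1 - x * y ^ 2))) := by
        refine setLIntegral_congr_fun measurableSet_Ioo fun y hy => ?_
        have hE1y := hE1 y hy
        have hE2y := hE2 y hy
        obtain ⟨h0, h1⟩ := hy
        have h1'' : 0 < 1 - y ^ 2 := by nlinarith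
        have hE3 : 0 < (q + p) + (p - q) * y := by linarith
        beta_reduce
        rw [← ENNReal.ofReal_add (by positivity) (by positivity), ← ENNReal.ofReal_mul (abs_nonneg _),
          ← ENNReal.ofReal_mul hpos, abs_of_pos (by positivity : 0 < 2 * y)]
        congr 1
        have e1 : (y ^ 2) ^ (a - 1) * y = y ^ (2 * a - 1) := by
          rw [← Real.rpow_natCast y 2, ← Real.rpow_mul h0.le]
          nth_rewrite 2 [← Real.rpow_one y]
          rw [← Real.rpow_add h0]
          congr 1
          push_cast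
          ring
        have e2 : (p + q) ^ (1 - 2 * a) = (p + q) ^ (-(2 * a)) * (p + q) := by
          nth_rewrite 3 [← Real.rpow_one (p + q)]
          rw [← Real.rpow_add hSp]
          congr 1
          ring
        have e3 : 1 - x * y ^ 2 = ((p + q) + (q - p) * y) * ((q + p) + (p - q) * y) / (p + q) ^ 2 := by
          rw [hx]
          field_simp
          ring
        rw [e3, add_comm q p, mul_comm q p, e2, ← e1, add_comm p q, ← add_comm p q]
        have hE3' : 0 < (p + q) + (p - q) * y := by linarith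
        obtain ⟨E, hE⟩ : ∃ E, E = (p + q) + (q - p) * y := ⟨_, rfl⟩
        obtain ⟨E', hE'⟩ : ∃ E', E' = (p + q) + (p - q) * y := ⟨_, rfl⟩
        rw [← hE, ← hE']
        rw [← hE] at hE1y
        rw [← hE'] at hE3'
        have hEE : E + E' = 2 * (p + q) := by rw [hE, hE']; ring
        obtain ⟨Z, hZ⟩ : ∃ Z, Z = (p * q) ^ a * 2 ^ (2 * a) * (p + q) ^ (-(2 * a)) := ⟨_, rfl⟩
        have hfin : E⁻¹ + E'⁻¹ = 2 * (p + q) / (E * E') := by
          rw [← hEE]
          field_simp
          ring
        calc _ = Z * (p + q) * ((y ^ 2) ^ (a - 1) * y * (1 - y ^ 2) ^ (-a)) * (E⁻¹ + E'⁻¹) := by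
              rw [hZ]; ring
          _ = _ := by
              rw [hfin, hZ]
              field_simp
    _ = ENNReal.ofReal ((p * q) ^ a * 2 ^ (2 * a) * (p + q) ^ (-(2 * a))) *
        ENNReal.ofReal (π / Real.sin (π * a) * (1 - x) ^ (-a)) := by
        rw [lintegral_const_mul _ (by fun_prop), heul]
    _ = ENNReal.ofReal (π / Real.sin (π * a)) := by
        rw [← ENNReal.ofReal_mul hpos]
        congr 1
        rw [show (p * q) ^ a * 2 ^ (2 * a) * (p + q) ^ (-(2 * a)) *
          (π / Real.sin (π * a) * (1 - x) ^ (-a)) = ((p * q) ^ a * 2 ^ (2 * a) *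
          (p + q) ^ (-(2 * a)) * (1 - x) ^ (-a)) * (π / Real.sin (π * a)) by ring, hC, one_mul]

end Pool.Agent.Lib.H16RA
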