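import Mathlib
import Pool.Agent.Lib.H16RA.Defs

set_option autoImplicit false

/-!
# RA2 chunk POL: polar coordinates around `x`
-/

namespace Pool.Agent.Lib.H16RA

open MeasureTheory Set Metric
open scoped ENNReal Real

/-- **POL1.** Polar coordinates centred at `x`.
Proof: translate (`lintegral_add_left_eq_self`), remove the null point `0`, and use
`Measure.measurePreserving_homeomorphUnitSphereProd` with `Measure.volumeIoiPow (d - 1)`
(`finrank_euclideanSpace`, `Measure.lintegral_withDensity…`, Tonelli for `lintegral_prod`). -/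
theorem polar (d : ℕ) [NeZero d] (x : V d) {G : V d → ℝ≥0∞} (hG : Measurable G) :
    ∫⁻ y, G y = ∫⁻ ω : sphere (0 : V d) 1, (∫⁻ t in Ioi (0 : ℝ),
      G (x + t • (ω : V d)) * ENNReal.ofReal (t ^ (d - 1)))
        ∂((volume : Measure (V d)).toSphere) := by
  have h1 : ∫⁻ y, G y = ∫⁻ y, G (x + y) := (lintegral_add_left_eq_self G x).symm
  have hfin : Module.finrank ℝ (V d) = d := by simp
  have : Nontrivial (V d) := by
    refine Module.nontrivial_of_finrank_pos (R := ℝ) ?_
    rw [hfin]
    exact Nat.pos_of_ne_zero (NeZero.ne d)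
  rw [h1]
  calc ∫⁻ y, G (x + y)
      = ∫⁻ y : ({(0 : V d)}ᶜ : Set (V d)), G (x + y.1)
          ∂(Measure.comap Subtype.val (volume : Measure (V d))) := by
        rw [lintegral_subtype_comap (measurableSet_singleton _).compl (fun y => G (x + y)),
          restrict_compl_singleton]
    _ = ∫⁻ q : sphere (0 : V d) 1 × Ioi (0 : ℝ), G (x + (q.2 : ℝ) • (q.1 : V d))
          ∂((volume : Measure (V d)).toSphere.prod
            (Measure.volumeIoiPow (Module.finrank ℝ (V d) - 1))) := by
        rw [← (Measure.measurePreserving_homeomorphUnitSphereProd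
          (volume : Measure (V d))).lintegral_comp_emb (Homeomorph.measurableEmbedding _)]
        refine lintegral_congr fun y => ?_
        have hy : (y : V d) ≠ 0 := y.2
        have hn : ‖(y : V d)‖ ≠ 0 := norm_ne_zero_iff.mpr hy
        congr 2
        simp [smul_smul, hn]
    _ = ∫⁻ ω : sphere (0 : V d) 1, (∫⁻ t : Ioi (0 : ℝ), G (x + (t : ℝ) • (ω : V d))
          ∂(Measure.volumeIoiPow (Module.finrank ℝ (V d) - 1)))
          ∂((volume : Measure (V d)).toSphere) := by
        refine lintegral_prod _ ?_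
        refine Measurable.aemeasurable ?_
        fun_prop
    _ = _ := by
        refine lintegral_congr fun ω => ?_
        rw [hfin, Measure.volumeIoiPow, lintegral_withDensity_eq_lintegral_mul _ (by fun_prop)
          (by fun_prop)]
        rw [← lintegral_subtype_comap measurableSet_Ioi (fun t : ℝ =>
          G (x + t • (ω : V d)) * ENNReal.ofReal (t ^ (d - 1)))]
        refine lintegral_congr fun t => ?_
        simp only [Pi.mul_apply]
        exact mul_comm _ _

/-- **POL2.** With a kernel: for `t > 0`, `‖t • ω‖ₑ ^ (e - d) * ofReal (t ^ (d - 1)) = ofReal (t ^ (e - 1))`. -/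
theorem polar_kernel (d : ℕ) [NeZero d] (x : V d) (e : ℝ) {G : V d → ℝ≥0∞} (hG : Measurable G) :
    ∫⁻ y, G y * ‖y - x‖ₑ ^ (e - d) = ∫⁻ ω : sphere (0 : V d) 1, (∫⁻ t in Ioi (0 : ℝ),
      G (x + t • (ω : V d)) * ENNReal.ofReal (t ^ (e - 1)))
        ∂((volume : Measure (V d)).toSphere) := by
  rw [polar d x (G := fun y => G y * ‖y - x‖ₑ ^ (e - d)) (by fun_prop)]
  refine lintegral_congr fun ω => ?_
  refine setLIntegral_congr_fun measurableSet_Ioi ?_
  intro t ht
  have ht' : 0 < t := ht
  have hω : ‖(ω : V d)‖ = 1 := norm_eq_of_mem_sphere ω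
  have hen : ‖x + t • (ω : V d) - x‖ₑ = ENNReal.ofReal t := by
    rw [add_sub_cancel_left, ← ofReal_norm, norm_smul, hω, mul_one,
      Real.norm_of_nonneg ht'.le]
  have hd : 1 ≤ d := Nat.one_le_iff_ne_zero.mpr (NeZero.ne d)
  simp only [hen]
  rw [mul_assoc, ENNReal.ofReal_rpow_of_pos ht', ← ENNReal.ofReal_mul (by positivity),
    ← Real.rpow_natCast, ← Real.rpow_add ht']
  congr 3
  rw [Nat.cast_sub hd]
  push_cast
  ring

/-- **POL3.** Symmetrised over `ω ↦ -ω`: `toSphere` is invariant under the antipode (e.g. from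
`polar_kernel` for the function `y ↦ G (2x - y)`, i.e. the reflection `y ↦ 2x - y` preserves volume, so that
`∫ ω, ∫ t > 0, G (x + t ω) t^(e-1) = ∫ ω, ∫ t > 0, G (x - t ω) t^(e-1)`), then join the half lines. -/
theorem polar_sym (d : ℕ) [NeZero d] (x : V d) (e : ℝ) {G : V d → ℝ≥0∞} (hG : Measurable G) :
    2 * ∫⁻ y, G y * ‖y - x‖ₑ ^ (e - d) = ∫⁻ ω : sphere (0 : V d) 1, (∫⁻ t : ℝ,
      G (x + t • (ω : V d)) * ENNReal.ofReal (|t| ^ (e - 1)))
        ∂((volume : Measure (V d)).toSphere) := by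
  have hrefl : ∫⁻ y, G y * ‖y - x‖ₑ ^ (e - d) =
      ∫⁻ y, G ((2 : ℝ) • x - y) * ‖y - x‖ₑ ^ (e - d) := by
    rw [← lintegral_sub_left_eq_self (fun y => G y * ‖y - x‖ₑ ^ (e - d)) ((2 : ℝ) • x)]
    refine lintegral_congr fun y => ?_
    congr 2
    have : (2 : ℝ) • x - y - x = -(y - x) := by
      rw [two_smul]; abel
    rw [this, enorm_neg]
  rw [two_mul]
  nth_rewrite 2 [hrefl]
  rw [polar_kernel d x e hG, polar_kernel d x e (G := fun y => G ((2 : ℝ) • x - y)) (by fun_prop)]
  rw [← lintegral_add_left]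
  · refine lintegral_congr fun ω => ?_
    have hsplit : ∫⁻ t : ℝ, G (x + t • (ω : V d)) * ENNReal.ofReal (|t| ^ (e - 1)) =
        (∫⁻ t in Ioi (0 : ℝ), G (x + t • (ω : V d)) * ENNReal.ofReal (|t| ^ (e - 1))) +
        ∫⁻ t in Iic (0 : ℝ), G (x + t • (ω : V d)) * ENNReal.ofReal (|t| ^ (e - 1)) := by
      rw [← compl_Ioi, lintegral_add_compl _ measurableSet_Ioi]
    rw [hsplit]
    congr 1
    · refine setLIntegral_congr_fun measurableSet_Ioi ?_
      intro t ht
      have ht' : (0 : ℝ) < t := ht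
      simp only [abs_of_pos ht']
    · have hneg : ∫⁻ t in Iic (0 : ℝ), G (x + t • (ω : V d)) * ENNReal.ofReal (|t| ^ (e - 1)) =
          ∫⁻ t in Iio (0 : ℝ), G (x + t • (ω : V d)) * ENNReal.ofReal (|t| ^ (e - 1)) :=
        setLIntegral_congr Iio_ae_eq_Iic.symm
      rw [hneg]
      have hmp := (Measure.measurePreserving_neg (volume : Measure ℝ)).setLIntegral_comp_preimage_emb
        (MeasurableEquiv.neg ℝ).measurableEmbedding
        (fun t : ℝ => G (x + t • (ω : V d)) * ENNReal.ofReal (|t| ^ (e - 1))) (Iio (0 : ℝ))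
      rw [← hmp]
      have hpre : (Neg.neg ⁻¹' Iio (0 : ℝ)) = Ioi 0 := by
        ext t; simp
      rw [hpre]
      refine setLIntegral_congr_fun measurableSet_Ioi ?_
      intro t ht
      have ht' : (0 : ℝ) < t := ht
      simp only [abs_neg, abs_of_pos ht']
      congr 2
      rw [two_smul, neg_smul]
      abel
  · refine Measurable.lintegral_prod_right' (f := fun q : (sphere (0 : V d) 1) × ℝ =>
      G (x + q.2 • (q.1 : V d)) * ENNReal.ofReal (q.2 ^ (e - 1))) ?_
    fun_prop

end Pool.Agent.Lib.H16RA
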