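import Mathlib
import Pool.Agent.Lib.H16RA.Polar
import Pool.Agent.Lib.H16RA.Chord

set_option autoImplicit false

/-!
# RA2 chunk BALL: the potential of the ball
-/

namespace Pool.Agent.Lib.H16RA

open MeasureTheory Set Metric
open scoped ENNReal Real RealInnerProductSpace Pointwise

/-- **BALL1.** Directions orthogonal to `z ≠ 0` form a null set of the sphere.
Proof: `Measure.toSphere_apply'` (measurable set), the cone over it lies in the hyperplane
`{y | ⟪z, y⟫ = 0}`, which is null (`Measure.addHaar_submodule`). -/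
theorem tangent_null (d : ℕ) {z : V d} (hz : z ≠ 0) :
    (volume : Measure (V d)).toSphere {ω : sphere (0 : V d) 1 | inner ℝ z (ω : V d) = 0} = 0 := by
  have hmeas : MeasurableSet {ω : sphere (0 : V d) 1 | inner ℝ z (ω : V d) = 0} := by
    refine measurableSet_eq_fun ?_ measurable_const
    exact (continuous_const.inner continuous_subtype_val).measurable
  rw [Measure.toSphere_apply' _ hmeas]
  have hsub : Ioo (0 : ℝ) 1 • ((↑) '' {ω : sphere (0 : V d) 1 | inner ℝ z (ω : V d) = 0} : Set (V d))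
      ⊆ ((ℝ ∙ z)ᗮ : Submodule ℝ (V d)) := by
    rintro y hy
    obtain ⟨t, ht, w, ⟨ω, hω, rfl⟩, rfl⟩ := Set.mem_smul.mp hy
    rw [SetLike.mem_coe, Submodule.mem_orthogonal_singleton_iff_inner_right]
    change inner ℝ z (t • (ω : V d)) = 0
    rw [inner_smul_right]
    have : inner ℝ z (ω : V d) = 0 := hω
    rw [this, mul_zero]
  have hne : ((ℝ ∙ z)ᗮ : Submodule ℝ (V d)) ≠ ⊤ := by
    intro h
    have : z ∈ ((ℝ ∙ z)ᗮ : Submodule ℝ (V d)) := by rw [h]; exact Submodule.mem_top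
    rw [Submodule.mem_orthogonal_singleton_iff_inner_right] at this
    exact hz (inner_self_eq_zero.mp this)
  have h0 := measure_mono_null hsub (Measure.addHaar_submodule volume _ hne)
  rw [h0, mul_zero]

/-- **BALL2.** `∫_{‖y‖² < B} (B - ‖y‖²) ^ (-α/2) ‖y - z‖ ^ (α - d) dy = C_d` for `‖z‖² ≤ B`.
Proof: twice the left side by `polar_sym` (`e = α`, the function extended by `0`); for `y = z + t ω`, `τ = ⟪z, ω⟫`,
`B - ‖y‖² = (p - t) (q + t)` with `p = -τ + √(τ² + B - ‖z‖²)`, `q = τ + √(τ² + B - ‖z‖²)`, both `≥ 0`, and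
`{t | ‖z + t ω‖² < B} = (-q, p)`; `p + q > 0` unless `‖z‖² = B` and `τ = 0`, a null set of `ω`; then `chord`. -/
theorem ball_potential (d : ℕ) [NeZero d] {α B : ℝ} (h0 : 0 < α) (h2 : α < 2) (hB : 0 < B)
    (z : V d) (hz : ‖z‖ ^ 2 ≤ B) :
    ∫⁻ y in {y : V d | ‖y‖ ^ 2 < B},
      ENNReal.ofReal ((B - ‖y‖ ^ 2) ^ (-(α / 2))) * ‖y - z‖ₑ ^ (α - d) = Cc d α := by
  have hms : MeasurableSet {y : V d | ‖y‖ ^ 2 < B} := measurableSet_lt (by fun_prop) (by fun_prop)
  set G : V d → ℝ≥0∞ := {y : V d | ‖y‖ ^ 2 < B}.indicator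
    (fun y => ENNReal.ofReal ((B - ‖y‖ ^ 2) ^ (-(α / 2)))) with hG
  have hGm : Measurable G := Measurable.indicator (by fun_prop) hms
  have hLHS : ∫⁻ y in {y : V d | ‖y‖ ^ 2 < B},
      ENNReal.ofReal ((B - ‖y‖ ^ 2) ^ (-(α / 2))) * ‖y - z‖ₑ ^ (α - d) =
      ∫⁻ y, G y * ‖y - z‖ₑ ^ (α - d) := by
    rw [← lintegral_indicator hms]
    refine lintegral_congr fun y => ?_
    by_cases hy : y ∈ {y : V d | ‖y‖ ^ 2 < B}
    · rw [hG, indicator_of_mem hy, indicator_of_mem hy]
    · rw [hG, indicator_of_notMem hy, indicator_of_notMem hy, zero_mul]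
  have hpol := polar_sym d z α hGm
  have hae : ∀ᵐ ω : sphere (0 : V d) 1 ∂((volume : Measure (V d)).toSphere),
      0 < inner ℝ z (ω : V d) ^ 2 + B - ‖z‖ ^ 2 := by
    rcases hz.lt_or_eq with hlt | heq
    · refine Filter.Eventually.of_forall fun ω => ?_
      have := sq_nonneg (inner ℝ z (ω : V d))
      linarith
    · have hz0 : z ≠ 0 := by
        rintro rfl
        rw [norm_zero] at heq
        norm_num at heq
        linarith
      have h1 := tangent_null d hz0
      have h3 : ∀ᵐ ω : sphere (0 : V d) 1 ∂((volume : Measure (V d)).toSphere),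
          inner ℝ z (ω : V d) ≠ 0 := by
        rw [ae_iff]
        simpa using h1
      filter_upwards [h3] with ω hω
      have : 0 < inner ℝ z (ω : V d) ^ 2 := by positivity
      linarith
  have hinner : ∀ᵐ ω : sphere (0 : V d) 1 ∂((volume : Measure (V d)).toSphere),
      ∫⁻ t : ℝ, G (z + t • (ω : V d)) * ENNReal.ofReal (|t| ^ (α - 1)) = ENNReal.ofReal (Pc α) := by
    filter_upwards [hae] with ω hω
    obtain ⟨τ, hτ⟩ : ∃ τ, τ = inner ℝ z (ω : V d) := ⟨_, rfl⟩
    rw [← hτ] at hω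
    obtain ⟨S, hS⟩ : ∃ S, S = Real.sqrt (τ ^ 2 + B - ‖z‖ ^ 2) := ⟨_, rfl⟩
    have hS0 : 0 < S := by rw [hS]; exact Real.sqrt_pos.mpr hω
    have hS2 : S ^ 2 = τ ^ 2 + B - ‖z‖ ^ 2 := by rw [hS]; exact Real.sq_sqrt hω.le
    have hτS : |τ| ≤ S := by
      apply abs_le_of_sq_le_sq _ hS0.le
      linarith
    have hω1 : ‖(ω : V d)‖ = 1 := by simpa using ω.2
    have hnorm : ∀ t : ℝ, B - ‖z + t • (ω : V d)‖ ^ 2 = ((-τ + S) - t) * ((τ + S) + t) := by
      intro t
      rw [norm_add_sq_real, inner_smul_right, norm_smul, hω1, ← hτ]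
      have : ((-τ + S) - t) * ((τ + S) + t) = S ^ 2 - τ ^ 2 - 2 * τ * t - t ^ 2 := by ring
      rw [this, hS2]
      rw [mul_one, Real.norm_eq_abs, sq_abs]
      ring
    have hp : 0 ≤ -τ + S := by linarith [le_abs_self τ]
    have hq : 0 ≤ τ + S := by linarith [neg_abs_le τ]
    rw [← chord h0 h2 hp hq (by linarith), ← lintegral_indicator measurableSet_Ioo]
    refine lintegral_congr fun t => ?_
    by_cases ht : t ∈ Ioo (-(τ + S)) (-τ + S)
    · have h3 : 0 < ((-τ + S) - t) * ((τ + S) + t) :=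
        mul_pos (by linarith [ht.2]) (by linarith [ht.1])
      have hmem : z + t • (ω : V d) ∈ {y : V d | ‖y‖ ^ 2 < B} := by
        change ‖z + t • (ω : V d)‖ ^ 2 < B
        linarith [hnorm t]
      rw [indicator_of_mem ht, hG, indicator_of_mem hmem, hnorm t, ENNReal.ofReal_mul (by positivity)]
    · have hmem : z + t • (ω : V d) ∉ {y : V d | ‖y‖ ^ 2 < B} := by
        intro hmem
        have h3 : ‖z + t • (ω : V d)‖ ^ 2 < B := hmem
        have h4 : 0 < ((-τ + S) - t) * ((τ + S) + t) := by linarith [hnorm t]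
        apply ht
        rcases pos_and_pos_or_neg_and_neg_of_mul_pos h4 with ⟨h5, h6⟩ | ⟨h5, h6⟩
        · exact ⟨by linarith, by linarith⟩
        · exfalso
          linarith
      rw [indicator_of_notMem ht, hG, indicator_of_notMem hmem, zero_mul]
  rw [lintegral_congr_ae hinner, lintegral_const] at hpol
  rw [hLHS]
  have h2' : (2 : ℝ≥0∞) ≠ 0 := by norm_num
  have h2'' : (2 : ℝ≥0∞) ≠ ⊤ := by norm_num
  have : 2 * Cc d α = ENNReal.ofReal (Pc α) * (volume : Measure (V d)).toSphere univ := by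
    unfold Cc sig
    rw [← mul_assoc, ENNReal.mul_div_cancel h2' h2'', mul_comm]
  rw [← this] at hpol
  exact (ENNReal.mul_right_inj h2' h2'').mp hpol

end Pool.Agent.Lib.H16RA
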