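import Mathlib

set_option autoImplicit false

/-!
# Project RA2: definitions used by the final theorem
-/

namespace Pool.Agent.Lib.H16RA

open MeasureTheory Set Metric
open scoped ENNReal Real

/-- The Riesz kernel `K_s(x) = 1 / (s |x|^s)` (`s ≠ 0`), `K_0(x) = -log |x|`, with values in `[-∞, ∞]`
(so `K_s(0) = ∞` for `s ≥ 0` and `K_s(0) = 0` for `s < 0`). -/
noncomputable def rieszKernel {d : ℕ} (s : ℝ) (x : EuclideanSpace ℝ (Fin d)) : EReal :=
  if s = 0 then -(ENNReal.log ‖x‖ₑ) else (s⁻¹ : ℝ) * ((‖x‖ₑ ^ (-s) : ℝ≥0∞) : EReal)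

/-- The Riesz energy `I_s(μ) = ∬ K_s(x - y) dμ(x) dμ(y)`: integral of the positive part minus
integral of the negative part. -/
noncomputable def rieszEnergy {d : ℕ} (s : ℝ) (μ : Measure (EuclideanSpace ℝ (Fin d))) : EReal :=
  ((∫⁻ x, ∫⁻ y, (rieszKernel s (x - y)).toENNReal ∂μ ∂μ : ℝ≥0∞) : EReal) -
    ((∫⁻ x, ∫⁻ y, (-(rieszKernel s (x - y))).toENNReal ∂μ ∂μ : ℝ≥0∞) : EReal)

/-- The closed annulus `{x | r ≤ |x| ≤ R}`. -/
def annulus (d : ℕ) (r R : ℝ) : Set (EuclideanSpace ℝ (Fin d)) := {x | r ≤ ‖x‖ ∧ ‖x‖ ≤ R}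

/-- `μ` is an equilibrium measure of `I_s` on the closed set `K`: a probability measure carried by `K` with
the least Riesz energy among all probability measures carried by `K`. -/
structure IsEquilibrium {d : ℕ} (s : ℝ) (K : Set (EuclideanSpace ℝ (Fin d)))
    (μ : Measure (EuclideanSpace ℝ (Fin d))) : Prop where
  prob : IsProbabilityMeasure μ
  carried : μ Kᶜ = 0
  min : ∀ ν : Measure (EuclideanSpace ℝ (Fin d)), IsProbabilityMeasure ν → ν Kᶜ = 0 →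
    rieszEnergy s μ ≤ rieszEnergy s ν

/-- The explicit integral operator
`(T f)(x) = (sin (π (d - s) / 2) / π) ∫_0^κ y^(d/2 - 1) ((κ - y) / (1 - κ y))^((d - s)/2) f(y) / (1 - x y) dy`. -/
noncomputable def rT (d : ℕ) (s κ : ℝ) (f : ℝ → ℝ) (x : ℝ) : ℝ :=
  Real.sin (π * (d - s) / 2) / π *
    ∫ y in Ioo (0 : ℝ) κ,
      y ^ ((d : ℝ) / 2 - 1) * ((κ - y) / (1 - κ * y)) ^ (((d : ℝ) - s) / 2) * f y / (1 - x * y)

/-- The iterates `T^n 1`. -/
noncomputable def rit (d : ℕ) (s κ : ℝ) : ℕ → ℝ → ℝ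
  | 0 => fun _ => 1
  | n + 1 => rT d s κ (rit d s κ n)

/-- The profile
`(1 - κ u)^(-(d-s)/2) ∑_n (T^(2n) 1)(u) + u^(-d/2) (u - κ)^(-(d-s)/2) ∑_n (T^(2n+1) 1)(1/u)`
on `κ < u < 1/κ`. -/
noncomputable def prof (d : ℕ) (s κ u : ℝ) : ℝ :=
  (1 - κ * u) ^ (-(((d : ℝ) - s) / 2)) * ∑' n, rit d s κ (2 * n) u +
    (u - κ) ^ (-(((d : ℝ) - s) / 2)) * u ^ (-((d : ℝ) / 2)) * ∑' n, rit d s κ (2 * n + 1) (1 / u)

/-- The total mass of the function `prof d s (r/R) (|x|² / (r R))` on the annulus. -/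
noncomputable def mass (d : ℕ) (s r R : ℝ) : ℝ :=
  ∫ x in annulus d r R, prof d s (r / R) (‖x‖ ^ 2 / (r * R))

/-- The explicit probability density. -/
noncomputable def dens (d : ℕ) (s r R : ℝ) (x : EuclideanSpace ℝ (Fin d)) : ℝ :=
  (annulus d r R).indicator (fun x => prof d s (r / R) (‖x‖ ^ 2 / (r * R)) / mass d s r R) x

/-- The explicit measure. -/
noncomputable def muStar (d : ℕ) (s r R : ℝ) : Measure (EuclideanSpace ℝ (Fin d)) :=
  volume.withDensity fun x => ENNReal.ofReal (dens d s r R x)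

end Pool.Agent.Lib.H16RA
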