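import Mathlib
import Pool.Agent.Lib.H16RA.Euler

set_option autoImplicit false

/-!
# RA2 chunk CON: `T` is a contraction with constant `q = κ ^ (α/2) sin (π α / 2) < 1`
-/

namespace Pool.Agent.Lib.H16RA

open MeasureTheory Set Metric
open scoped ENNReal Real

/-- the rate `q = κ ^ (α/2) sin (π α / 2)` -/
noncomputable def qq (α κ : ℝ) : ℝ := κ ^ (α / 2) * Real.sin (π * α / 2)

theorem qq_pos {α κ : ℝ} (h0 : 0 < α) (h2 : α < 2) (hκ : 0 < κ) : 0 < qq α κ :=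
  mul_pos (Real.rpow_pos_of_pos hκ _) (sin_pos_of h0 h2)

theorem qq_lt_one {α κ : ℝ} (h0 : 0 < α) (h2 : α < 2) (hκ : 0 < κ) (hκ1 : κ < 1) : qq α κ < 1 := by
  have h1 : κ ^ (α / 2) < 1 := Real.rpow_lt_one hκ.le hκ1 (by positivity)
  have h3 : Real.sin (π * α / 2) ≤ 1 := Real.sin_le_one _
  have h4 := sin_pos_of h0 h2
  have h5 : 0 < κ ^ (α / 2) := Real.rpow_pos_of_pos hκ _
  unfold qq
  nlinarith

/-- The pointwise bound: `w y * h y ≤ κ ^ (α/2) y ^ (-1/2) (1 - y) ^ (-1/2)` on `(0, κ)`. -/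
theorem wt_bound (d : ℕ) {α κ : ℝ} (h0 : 0 < α) (hκ : 0 < κ) (hκ1 : κ < 1)
    {y : ℝ} (hy0 : 0 < y) (hyκ : y < κ) :
    wt d α κ y * (y ^ (-(((d : ℝ) - 1) / 2)) * (1 - y) ^ (-(1 / 2 : ℝ))) ≤
      κ ^ (α / 2) * (y ^ ((1 / 2 : ℝ) - 1) * (1 - y) ^ (-(1 / 2 : ℝ))) := by
  have hy1 : y < 1 := hyκ.trans hκ1
  have hden : 0 < 1 - κ * y := by nlinarith
  have hfr0 : 0 ≤ (κ - y) / (1 - κ * y) := div_nonneg (by linarith) hden.le
  have hfr : (κ - y) / (1 - κ * y) ≤ κ := by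
    rw [div_le_iff₀ hden]
    nlinarith [mul_pos hκ hy0, mul_pos (sub_pos.mpr hκ1) hy0]
  have hpow : ((κ - y) / (1 - κ * y)) ^ (α / 2) ≤ κ ^ (α / 2) :=
    Real.rpow_le_rpow hfr0 hfr (by positivity)
  have hyy : y ^ ((d : ℝ) / 2 - 1) * y ^ (-(((d : ℝ) - 1) / 2)) = y ^ ((1 / 2 : ℝ) - 1) := by
    rw [← Real.rpow_add hy0]
    congr 1
    ring
  have h1y : 0 < (1 - y) ^ (-(1 / 2 : ℝ)) := Real.rpow_pos_of_pos (by linarith) _
  have hyp : 0 < y ^ ((1 / 2 : ℝ) - 1) := Real.rpow_pos_of_pos hy0 _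
  have heq : wt d α κ y * (y ^ (-(((d : ℝ) - 1) / 2)) * (1 - y) ^ (-(1 / 2 : ℝ))) =
      ((κ - y) / (1 - κ * y)) ^ (α / 2) * (y ^ ((1 / 2 : ℝ) - 1) * (1 - y) ^ (-(1 / 2 : ℝ))) := by
    rw [← hyy]
    unfold wt
    ring
  rw [heq]
  exact mul_le_mul_of_nonneg_right hpow (mul_pos hyp h1y).le

theorem wt_nonneg' (d : ℕ) {α κ : ℝ} (hκ : 0 < κ) (hκ1 : κ < 1)
    {y : ℝ} (hy0 : 0 < y) (hyκ : y < κ) : 0 ≤ wt d α κ y := by
  have hden : 0 < 1 - κ * y := by nlinarith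
  have hfr0 : 0 ≤ (κ - y) / (1 - κ * y) := div_nonneg (by linarith) hden.le
  unfold wt
  exact mul_nonneg (Real.rpow_nonneg hy0.le _) (Real.rpow_nonneg hfr0 _)

/-- **CON1.** With `h y = y ^ (-(d-1)/2) (1 - y) ^ (-1/2)`: for `0 < x < 1`, `(T h) x ≤ q h x`.
Proof: for `0 < y < κ`, `w y * h y ≤ κ ^ (α/2) y ^ (-1/2) (1 - y) ^ (-1/2)` because `(κ - y) / (1 - κ y) ≤ κ`; enlarge
`(0, κ)` to `(0, 1)` and use `euler_int` with `a = 1/2` (value `π (1 - x) ^ (-1/2)`); finally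
`1 ≤ x ^ (-(d-1)/2)`. -/
theorem T_bound_aux (d : ℕ) [NeZero d] {α κ : ℝ} (h0 : 0 < α) (h2 : α < 2) (hκ : 0 < κ) (hκ1 : κ < 1)
    {x : ℝ} (hx0 : 0 < x) (hx1 : x < 1) :
    T d α κ (fun y => ENNReal.ofReal (y ^ (-(((d : ℝ) - 1) / 2)) * (1 - y) ^ (-(1 / 2 : ℝ)))) x ≤
      ENNReal.ofReal (qq α κ * (x ^ (-(((d : ℝ) - 1) / 2)) * (1 - x) ^ (-(1 / 2 : ℝ)))) := by
  have hs := sin_pos_of h0 h2
  have hk : 0 < κ ^ (α / 2) := Real.rpow_pos_of_pos hκ _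
  have hpi := Real.pi_pos
  have h1x : 0 < (1 - x) ^ (-(1 / 2 : ℝ)) := Real.rpow_pos_of_pos (by linarith) _
  have hE := euler_int (a := 1 / 2) (x := x) (by norm_num) (by norm_num) hx1
  have hstep : ∫⁻ y in Ioo (0 : ℝ) κ, ENNReal.ofReal (wt d α κ y / (1 - x * y)) *
      ENNReal.ofReal (y ^ (-(((d : ℝ) - 1) / 2)) * (1 - y) ^ (-(1 / 2 : ℝ))) ≤
      ENNReal.ofReal (κ ^ (α / 2)) *
        ENNReal.ofReal (π / Real.sin (π * (1 / 2)) * (1 - x) ^ (-(1 / 2 : ℝ))) := by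
    rw [← hE, ← lintegral_const_mul' _ _ ENNReal.ofReal_ne_top]
    refine (setLIntegral_mono' measurableSet_Ioo ?_).trans
      (lintegral_mono_set (Ioo_subset_Ioo_right hκ1.le))
    intro y hy
    have hxy : 0 < 1 - x * y := by nlinarith [hy.1, hy.2, mul_pos hx0 hy.1]
    have hw := wt_nonneg' d (α := α) hκ hκ1 hy.1 hy.2
    rw [← ENNReal.ofReal_mul (div_nonneg hw hxy.le), ← ENNReal.ofReal_mul hk.le]
    refine ENNReal.ofReal_le_ofReal ?_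
    have hb := wt_bound d h0 hκ hκ1 hy.1 hy.2
    rw [div_mul_eq_mul_div, ← mul_div_assoc]
    exact div_le_div_of_nonneg_right hb hxy.le
  have hsin1 : Real.sin (π * (1 / 2)) = 1 := by
    rw [show π * (1 / 2) = π / 2 by ring, Real.sin_pi_div_two]
  unfold T
  refine (mul_le_mul_right hstep _).trans ?_
  rw [hsin1, ← ENNReal.ofReal_mul hk.le, ← ENNReal.ofReal_mul (div_pos hs hpi).le]
  refine ENNReal.ofReal_le_ofReal ?_
  have hx : 1 ≤ x ^ (-(((d : ℝ) - 1) / 2)) := by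
    refine Real.one_le_rpow_of_pos_of_le_one_of_nonpos hx0 hx1.le ?_
    have : (1 : ℝ) ≤ d := by exact_mod_cast Nat.one_le_iff_ne_zero.mpr (NeZero.ne d)
    linarith
  have hval : Real.sin (π * α / 2) / π * (κ ^ (α / 2) * (π / 1 * (1 - x) ^ (-(1 / 2 : ℝ)))) =
      qq α κ * (1 * (1 - x) ^ (-(1 / 2 : ℝ))) := by
    unfold qq
    field_simp
  rw [hval]
  exact mul_le_mul_of_nonneg_left (mul_le_mul_of_nonneg_right hx h1x.le) (qq_pos h0 h2 hκ).le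

/-- `T` is monotone in the values on `(0, κ)`. -/
theorem T_mono_Ioo (d : ℕ) (α κ : ℝ) {f g : ℝ → ℝ≥0∞} (h : ∀ y, 0 < y → y < κ → f y ≤ g y)
    (x : ℝ) : T d α κ f x ≤ T d α κ g x := by
  unfold T
  refine mul_le_mul_right (setLIntegral_mono' measurableSet_Ioo ?_) _
  intro y hy
  exact mul_le_mul_right (h y hy.1 hy.2) _

theorem T_const_mul' (d : ℕ) (α κ : ℝ) (c : ℝ≥0∞) (hc : c ≠ ⊤) (f : ℝ → ℝ≥0∞) (x : ℝ) :
    T d α κ (fun y => c * f y) x = c * T d α κ f x := by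
  unfold T
  rw [← mul_assoc, mul_comm c, mul_assoc, ← lintegral_const_mul' _ _ hc]
  congr 2
  funext y
  rw [mul_left_comm]

/-- **CON2.** `T^n 1 ≤ q^n h` on `(0, 1)`: induction with `T_bound_aux` (`T` uses only the values on `(0, κ)`, is
monotone and homogeneous; `1 ≤ h` on `(0, 1)`). -/
theorem it_le_h (d : ℕ) [NeZero d] {α κ : ℝ} (h0 : 0 < α) (h2 : α < 2) (hκ : 0 < κ) (hκ1 : κ < 1)
    (n : ℕ) {x : ℝ} (hx0 : 0 < x) (hx1 : x < 1) :
    it d α κ n x ≤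
      ENNReal.ofReal (qq α κ ^ n * (x ^ (-(((d : ℝ) - 1) / 2)) * (1 - x) ^ (-(1 / 2 : ℝ)))) := by
  have hq := qq_pos h0 h2 hκ
  induction n generalizing x with
  | zero =>
    have hx : 1 ≤ x ^ (-(((d : ℝ) - 1) / 2)) := by
      refine Real.one_le_rpow_of_pos_of_le_one_of_nonpos hx0 hx1.le ?_
      have : (1 : ℝ) ≤ d := by exact_mod_cast Nat.one_le_iff_ne_zero.mpr (NeZero.ne d)
      linarith
    have h1x : 1 ≤ (1 - x) ^ (-(1 / 2 : ℝ)) :=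
      Real.one_le_rpow_of_pos_of_le_one_of_nonpos (by linarith) (by linarith) (by norm_num)
    show (1 : ℝ≥0∞) ≤ _
    rw [pow_zero, one_mul, ← ENNReal.ofReal_one]
    exact ENNReal.ofReal_le_ofReal (by nlinarith)
  | succ n ih =>
    show T d α κ (it d α κ n) x ≤ _
    have h1 : T d α κ (it d α κ n) x ≤ T d α κ (fun y => ENNReal.ofReal (qq α κ ^ n) *
        ENNReal.ofReal (y ^ (-(((d : ℝ) - 1) / 2)) * (1 - y) ^ (-(1 / 2 : ℝ)))) x := by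
      refine T_mono_Ioo d α κ ?_ x
      intro y hy0 hyκ
      refine (ih hy0 (hyκ.trans hκ1)).trans (le_of_eq ?_)
      rw [ENNReal.ofReal_mul (pow_nonneg hq.le n)]
    refine h1.trans ?_
    rw [T_const_mul' d α κ _ ENNReal.ofReal_ne_top]
    refine (mul_le_mul_right (T_bound_aux d h0 h2 hκ hκ1 hx0 hx1) _).trans ?_
    rw [← ENNReal.ofReal_mul (pow_nonneg hq.le n), pow_succ, mul_assoc]

/-- **CON3.** `T^n 1 (x) ≤ q^n / (1 - κ x)` for `0 ≤ x < 1/κ`.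
Proof: `n = 0` trivial.  For `n + 1`: `T (T^n 1) x ≤ (sin / π) ∫_0^κ w(y) q^n h(y) / (1 - x y) dy` by `it_le_h`,
`w(y) h(y) ≤ κ ^ (α/2) y ^ (-1/2) (1 - y) ^ (-1/2)`, `1 / (1 - x y) ≤ 1 / (1 - κ x)` for `y < κ`, and
`∫_0^1 y ^ (-1/2) (1 - y) ^ (-1/2) dy = π` (`beta_refl`, `a = 1/2`). -/
theorem it_le (d : ℕ) [NeZero d] {α κ : ℝ} (h0 : 0 < α) (h2 : α < 2) (hκ : 0 < κ) (hκ1 : κ < 1)
    (n : ℕ) {x : ℝ} (hx0 : 0 ≤ x) (hx : κ * x < 1) :
    it d α κ n x ≤ ENNReal.ofReal (qq α κ ^ n / (1 - κ * x)) := by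
  have hq := qq_pos h0 h2 hκ
  have hs := sin_pos_of h0 h2
  have hk : 0 < κ ^ (α / 2) := Real.rpow_pos_of_pos hκ _
  have hpi := Real.pi_pos
  have hkx : 0 < 1 - κ * x := by linarith
  cases n with
  | zero =>
    show (1 : ℝ≥0∞) ≤ _
    rw [pow_zero, ← ENNReal.ofReal_one]
    refine ENNReal.ofReal_le_ofReal ?_
    rw [le_div_iff₀ hkx]
    nlinarith [mul_nonneg hκ.le hx0]
  | succ n =>
    show T d α κ (it d α κ n) x ≤ _
    have hB := beta_refl (a := 1 / 2) (by norm_num) (by norm_num)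
    have hsin1 : Real.sin (π * (1 / 2)) = 1 := by
      rw [show π * (1 / 2) = π / 2 by ring, Real.sin_pi_div_two]
    have hqn : 0 ≤ qq α κ ^ n := pow_nonneg hq.le n
    have hstep : ∫⁻ y in Ioo (0 : ℝ) κ, ENNReal.ofReal (wt d α κ y / (1 - x * y)) *
        it d α κ n y ≤
        ENNReal.ofReal (qq α κ ^ n * κ ^ (α / 2) / (1 - κ * x)) *
          ENNReal.ofReal (π / Real.sin (π * (1 / 2))) := by
      rw [← hB, ← lintegral_const_mul' _ _ ENNReal.ofReal_ne_top]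
      refine (setLIntegral_mono' measurableSet_Ioo ?_).trans
        (lintegral_mono_set (Ioo_subset_Ioo_right hκ1.le))
      intro y hy
      have hy1 : y < 1 := hy.2.trans hκ1
      have hxy' : x * y ≤ κ * x := by nlinarith [hy.2]
      have hxy : 0 < 1 - x * y := by linarith
      have hw := wt_nonneg' d (α := α) hκ hκ1 hy.1 hy.2
      have hb := wt_bound d h0 hκ hκ1 hy.1 hy.2
      have hyp : 0 < y ^ ((1 / 2 : ℝ) - 1) := Real.rpow_pos_of_pos hy.1 _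
      have h1y : 0 < (1 - y) ^ (-(1 / 2 : ℝ)) := Real.rpow_pos_of_pos (by linarith) _
      refine (mul_le_mul_right (it_le_h d h0 h2 hκ hκ1 n hy.1 hy1) _).trans ?_
      rw [← ENNReal.ofReal_mul (div_nonneg hw hxy.le),
        ← ENNReal.ofReal_mul (div_nonneg (mul_nonneg hqn hk.le) hkx.le)]
      refine ENNReal.ofReal_le_ofReal ?_
      calc wt d α κ y / (1 - x * y) * (qq α κ ^ n *
            (y ^ (-(((d : ℝ) - 1) / 2)) * (1 - y) ^ (-(1 / 2 : ℝ))))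
          = qq α κ ^ n * (wt d α κ y *
            (y ^ (-(((d : ℝ) - 1) / 2)) * (1 - y) ^ (-(1 / 2 : ℝ)))) / (1 - x * y) := by ring
        _ ≤ qq α κ ^ n * (κ ^ (α / 2) * (y ^ ((1 / 2 : ℝ) - 1) * (1 - y) ^ (-(1 / 2 : ℝ)))) /
            (1 - x * y) :=
          div_le_div_of_nonneg_right (mul_le_mul_of_nonneg_left hb hqn) hxy.le
        _ ≤ qq α κ ^ n * (κ ^ (α / 2) * (y ^ ((1 / 2 : ℝ) - 1) * (1 - y) ^ (-(1 / 2 : ℝ)))) /
            (1 - κ * x) := by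
          refine div_le_div_of_nonneg_left ?_ hkx (by linarith)
          positivity
        _ = _ := by ring
    unfold T
    refine (mul_le_mul_right hstep _).trans ?_
    rw [hsin1, ← ENNReal.ofReal_mul (div_nonneg (mul_nonneg hqn hk.le) hkx.le),
      ← ENNReal.ofReal_mul (div_pos hs hpi).le]
    refine ENNReal.ofReal_le_ofReal (le_of_eq ?_)
    unfold qq
    field_simp
    ring

end Pool.Agent.Lib.H16RA
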