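import Mathlib
import Pool.Agent.Lib.H16RA.Polar

set_option autoImplicit false

/-!
# RA2 chunk INV: inversion with centre `x` and power `c` (of any sign) preserves `dy / ‖y - x‖^d`
-/

namespace Pool.Agent.Lib.H16RA

open MeasureTheory Set Metric
open scoped ENNReal Real

/-- **INV1.** `dt / |t|` is invariant under `t ↦ c / t`.
Proof: `lintegral_image_eq_lintegral_abs_deriv_mul` on `{t | t ≠ 0}` for the injective map `t ↦ c / t`
(image `{t | t ≠ 0}`, derivative `-c / t ^ 2`), `|c / t²| · |c / t|⁻¹ = |t|⁻¹`. -/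
theorem inv_line (c : ℝ) (hc : c ≠ 0) {g : ℝ → ℝ≥0∞} (hg : Measurable g) :
    ∫⁻ t : ℝ, g (c / t) * ENNReal.ofReal (|t| ^ ((0 : ℝ) - 1)) =
      ∫⁻ t : ℝ, g t * ENNReal.ofReal (|t| ^ ((0 : ℝ) - 1)) := by
  have hS : MeasurableSet ({0}ᶜ : Set ℝ) := (measurableSet_singleton 0).compl
  have hae : ∀ F : ℝ → ℝ≥0∞, ∫⁻ t : ℝ, F t = ∫⁻ t in ({0}ᶜ : Set ℝ), F t := by
    intro F
    rw [← lintegral_add_compl F hS, compl_compl]
    simp
  have himg : (fun t : ℝ => c / t) '' ({0}ᶜ : Set ℝ) = ({0}ᶜ : Set ℝ) := by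
    ext t
    simp only [mem_image, mem_compl_iff, mem_singleton_iff]
    constructor
    · rintro ⟨s, hs, rfl⟩
      exact div_ne_zero hc hs
    · intro ht
      refine ⟨c / t, div_ne_zero hc ht, ?_⟩
      field_simp
  have hinj : InjOn (fun t : ℝ => c / t) ({0}ᶜ : Set ℝ) := by
    intro s hs t ht hst
    simp only [mem_compl_iff, mem_singleton_iff] at hs ht
    simp only at hst
    rw [div_eq_div_iff hs ht] at hst
    exact (mul_left_cancel₀ hc hst).symm
  have hder : ∀ t ∈ ({0}ᶜ : Set ℝ),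
      HasDerivWithinAt (fun t : ℝ => c / t) (-c / t ^ 2) ({0}ᶜ : Set ℝ) t := by
    intro t ht
    simp only [mem_compl_iff, mem_singleton_iff] at ht
    have h := ((hasDerivAt_const t c).fun_div (hasDerivAt_id' t) ht).hasDerivWithinAt
      (s := ({0}ᶜ : Set ℝ))
    have e : ((0 : ℝ) * t - c * 1) / t ^ 2 = -c / t ^ 2 := by ring
    rw [e] at h
    exact h
  rw [hae (fun t => g (c / t) * ENNReal.ofReal (|t| ^ ((0 : ℝ) - 1))),
    hae (fun t => g t * ENNReal.ofReal (|t| ^ ((0 : ℝ) - 1)))]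
  conv_rhs => rw [← himg]
  rw [lintegral_image_eq_lintegral_abs_deriv_mul hS hder hinj]
  refine setLIntegral_congr_fun hS ?_
  intro t ht
  simp only [mem_compl_iff, mem_singleton_iff] at ht
  simp only
  rw [mul_comm (g (c / t)), mul_comm (g (c / t)), ← mul_assoc, ← ENNReal.ofReal_mul (abs_nonneg _)]
  congr 2
  rw [zero_sub, Real.rpow_neg_one, Real.rpow_neg_one, abs_div, abs_div, abs_neg, abs_pow]
  have h1 : |t| ≠ 0 := abs_ne_zero.mpr ht
  have h2 : |c| ≠ 0 := abs_ne_zero.mpr hc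
  field_simp

/-- **INV2.** Proof: twice both sides by `polar_sym` with `e = 0`; for `y = x + t • ω`, `t ≠ 0`,
`x + (c / ‖y - x‖ ^ 2) • (y - x) = x + (c / t) • ω`; then `inv_line`. -/
theorem inversion (d : ℕ) [NeZero d] (x : V d) (c : ℝ) (hc : c ≠ 0) {G : V d → ℝ≥0∞}
    (hG : Measurable G) :
    ∫⁻ y, G (x + (c / ‖y - x‖ ^ 2) • (y - x)) * ‖y - x‖ₑ ^ (-(d : ℝ)) =
      ∫⁻ y, G y * ‖y - x‖ₑ ^ (-(d : ℝ)) := by
  have hG' : Measurable fun y : V d => G (x + (c / ‖y - x‖ ^ 2) • (y - x)) := by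
    refine hG.comp ?_
    fun_prop
  have h2 : (2 : ℝ≥0∞) ≠ 0 := by norm_num
  have h2' : (2 : ℝ≥0∞) ≠ ⊤ := by norm_num
  rw [← ENNReal.mul_right_inj h2 h2']
  have e1 := polar_sym d x 0 hG'
  have e2 := polar_sym d x 0 hG
  simp only [zero_sub] at e1 e2
  rw [e1, e2]
  refine lintegral_congr fun ω => ?_
  have hω : ‖(ω : V d)‖ = 1 := by
    simp
  have hl := inv_line c hc (g := fun t => G (x + t • (ω : V d)))
    (hG.comp (by fun_prop))
  simp only [zero_sub] at hl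
  rw [← hl]
  refine lintegral_congr fun t => ?_
  by_cases ht : t = 0
  · subst ht
    simp
  · have : x + (c / ‖x + t • (ω : V d) - x‖ ^ 2) • (x + t • (ω : V d) - x) =
        x + (c / t) • (ω : V d) := by
      rw [add_sub_cancel_left, norm_smul, hω, mul_one, Real.norm_eq_abs, sq_abs, smul_smul]
      congr 2
      field_simp
    rw [this]

end Pool.Agent.Lib.H16RA
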