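import Mathlib
import Pool.Agent.Lib.H16RA.Invert

set_option autoImplicit false

/-! # RA2 chunk RADA: `line_int`, `rad_one` -/


namespace Pool.Agent.Lib.H16RA

open MeasureTheory Set Metric
open scoped ENNReal Real RealInnerProductSpace

/-- one branch: `v ↦ -τ + S v`, `S v = √(τ² + v - A)` -/
theorem line_branch_pos (A τ : ℝ) (g : ℝ → ℝ≥0∞) :
    ∫⁻ t in Ioi (max 0 (-2 * τ)), g (t ^ 2 + 2 * t * τ + A) * ENNReal.ofReal (|t| ^ ((0 : ℝ) - 1)) =
      ∫⁻ v in Ioi A, g v * ENNReal.ofReal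
        ((-τ + √(τ ^ 2 + (v - A)))⁻¹ * (2 * √(τ ^ 2 + (v - A)))⁻¹) := by
  set f : ℝ → ℝ := fun v => -τ + √(τ ^ 2 + (v - A)) with hf
  have hS : ∀ v ∈ Ioi A, 0 < τ ^ 2 + (v - A) := by
    intro v hv
    have : 0 < v - A := sub_pos.mpr hv
    positivity
  have hf' : ∀ v ∈ Ioi A, HasDerivWithinAt f ((2 * √(τ ^ 2 + (v - A)))⁻¹) (Ioi A) v := by
    intro v hv
    have h1 : HasDerivAt (fun v : ℝ => τ ^ 2 + (v - A)) 1 v := by
      have := ((hasDerivAt_id v).sub_const A).const_add (τ ^ 2)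
      simpa using this
    have h2 := (h1.sqrt (hS v hv).ne').const_add (-τ)
    rw [one_div] at h2
    exact h2.hasDerivWithinAt
  have hinj : InjOn f (Ioi A) := by
    intro u hu v hv huv
    simp only [hf] at huv
    have h1 : √(τ ^ 2 + (u - A)) = √(τ ^ 2 + (v - A)) := by linarith
    have h2 := (Real.sqrt_inj (hS u hu).le (hS v hv).le).mp h1
    linarith
  have himg : f '' Ioi A = Ioi (max 0 (-2 * τ)) := by
    ext t
    constructor
    · rintro ⟨v, hv, rfl⟩
      have h1 : |τ| < √(τ ^ 2 + (v - A)) := by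
        rw [← Real.sqrt_sq_eq_abs]
        refine Real.sqrt_lt_sqrt (sq_nonneg _) ?_
        have : 0 < v - A := sub_pos.mpr hv
        linarith
      have h2 := abs_lt.mp h1
      rw [mem_Ioi, max_lt_iff]
      simp only [hf]
      constructor <;> linarith [h2.1, h2.2]
    · intro ht
      rw [mem_Ioi, max_lt_iff] at ht
      refine ⟨t ^ 2 + 2 * t * τ + A, ?_, ?_⟩
      · rw [mem_Ioi]
        nlinarith [mul_pos ht.1 (show 0 < t + 2 * τ by linarith [ht.2])]
      · simp only [hf]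
        have : τ ^ 2 + (t ^ 2 + 2 * t * τ + A - A) = (t + τ) ^ 2 := by ring
        rw [this, Real.sqrt_sq (by linarith [ht.1, ht.2])]
        ring
  have key := lintegral_image_eq_lintegral_abs_deriv_mul measurableSet_Ioi hf' hinj
    (fun t => g (t ^ 2 + 2 * t * τ + A) * ENNReal.ofReal (|t| ^ ((0 : ℝ) - 1)))
  rw [himg] at key
  rw [key]
  refine setLIntegral_congr_fun measurableSet_Ioi fun v hv => ?_
  have hSv := hS v hv
  have hs := Real.sqrt_pos.mpr hSv
  have hsq := Real.sq_sqrt hSv.le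
  have h1 : |τ| < √(τ ^ 2 + (v - A)) := by
    rw [← Real.sqrt_sq_eq_abs]
    refine Real.sqrt_lt_sqrt (sq_nonneg _) ?_
    have : 0 < v - A := sub_pos.mpr hv
    linarith
  have h2 := abs_lt.mp h1
  have hfpos : 0 < f v := by simp only [hf]; linarith [h2.2]
  have e1 : f v ^ 2 + 2 * f v * τ + A = v := by
    simp only [hf]
    linear_combination hsq
  rw [e1, abs_of_pos (by positivity), abs_of_pos hfpos, zero_sub, Real.rpow_neg_one, mul_left_comm,
    ← ENNReal.ofReal_mul (by positivity)]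
  congr 2
  simp only [hf]
  ring

theorem line_branch_neg (A τ : ℝ) (g : ℝ → ℝ≥0∞) :
    ∫⁻ t in Iio (min 0 (-2 * τ)), g (t ^ 2 + 2 * t * τ + A) * ENNReal.ofReal (|t| ^ ((0 : ℝ) - 1)) =
      ∫⁻ v in Ioi A, g v * ENNReal.ofReal
        ((τ + √(τ ^ 2 + (v - A)))⁻¹ * (2 * √(τ ^ 2 + (v - A)))⁻¹) := by
  have h := line_branch_pos A (-τ) g
  have h1 : ∫⁻ t in Iio (min 0 (-2 * τ)), g (t ^ 2 + 2 * t * τ + A) *
      ENNReal.ofReal (|t| ^ ((0 : ℝ) - 1)) =
      ∫⁻ t in Ioi (max 0 (-2 * -τ)), g (t ^ 2 + 2 * t * -τ + A) *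
      ENNReal.ofReal (|t| ^ ((0 : ℝ) - 1)) := by
    rw [← lintegral_indicator measurableSet_Iio, ← lintegral_indicator measurableSet_Ioi]
    rw [← lintegral_neg_eq_self]
    refine lintegral_congr fun t => ?_
    by_cases ht : t ∈ Ioi (max 0 (-2 * -τ))
    · rw [indicator_of_mem ht, indicator_of_mem]
      · rw [abs_neg]
        congr 2
        ring
      · rw [mem_Ioi, max_lt_iff] at ht
        rw [mem_Iio, lt_min_iff]
        constructor <;> linarith [ht.1, ht.2]
    · rw [indicator_of_notMem ht, indicator_of_notMem]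
      intro h2
      apply ht
      rw [mem_Iio, lt_min_iff] at h2
      rw [mem_Ioi, max_lt_iff]
      constructor <;> linarith [h2.1, h2.2]
  rw [h1, h]
  refine setLIntegral_congr_fun measurableSet_Ioi fun v hv => ?_
  simp only [neg_neg, neg_sq]

theorem line_int (A τ : ℝ) {g : ℝ → ℝ≥0∞} (hg : Measurable g) (hg0 : ∀ v ≤ A, g v = 0) :
    ∫⁻ t : ℝ, g (t ^ 2 + 2 * t * τ + A) * ENNReal.ofReal (|t| ^ ((0 : ℝ) - 1)) =
      ∫⁻ v in Ioi A, g v * ENNReal.ofReal ((v - A)⁻¹) := by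
  set G : ℝ → ℝ≥0∞ := fun t => g (t ^ 2 + 2 * t * τ + A) * ENNReal.ofReal (|t| ^ ((0 : ℝ) - 1))
    with hG
  have hGm : Measurable G := by
    simp only [hG]
    exact (hg.comp (by fun_prop)).mul (by fun_prop)
  have hsplit : ∫⁻ t : ℝ, G t = (∫⁻ t in Ioi (max 0 (-2 * τ)), G t) +
      ∫⁻ t in Iio (min 0 (-2 * τ)), G t := by
    rw [← lintegral_indicator measurableSet_Ioi, ← lintegral_indicator measurableSet_Iio,
      ← lintegral_add_left (hGm.indicator measurableSet_Ioi)]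
    refine lintegral_congr fun t => ?_
    by_cases h1 : t ∈ Ioi (max 0 (-2 * τ))
    · have h2 : t ∉ Iio (min 0 (-2 * τ)) := by
        intro h2
        rw [mem_Ioi, max_lt_iff] at h1
        rw [mem_Iio, lt_min_iff] at h2
        linarith [h1.1, h2.1]
      rw [indicator_of_mem h1, indicator_of_notMem h2, add_zero]
    · by_cases h2 : t ∈ Iio (min 0 (-2 * τ))
      · rw [indicator_of_notMem h1, indicator_of_mem h2, zero_add]
      · rw [indicator_of_notMem h1, indicator_of_notMem h2, add_zero]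
        simp only [hG]
        rw [hg0, zero_mul]
        rw [mem_Ioi, max_lt_iff, not_and_or, not_lt, not_lt] at h1
        rw [mem_Iio, lt_min_iff, not_and_or, not_lt, not_lt] at h2
        have : t * (t + 2 * τ) ≤ 0 := by
          rcases h1 with h1 | h1 <;> rcases h2 with h2 | h2
          · have : t = 0 := le_antisymm h1 h2
            rw [this, zero_mul]
          · exact mul_nonpos_of_nonpos_of_nonneg h1 (by linarith)
          · exact mul_nonpos_of_nonneg_of_nonpos h2 (by linarith)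
          · have : t + 2 * τ = 0 := by linarith
            rw [this, mul_zero]
        nlinarith
  rw [hsplit]
  simp only [hG]
  rw [line_branch_pos, line_branch_neg, ← lintegral_add_left]
  · refine setLIntegral_congr_fun measurableSet_Ioi fun v hv => ?_
    have hv0 : 0 < v - A := sub_pos.mpr hv
    have hSv : 0 < τ ^ 2 + (v - A) := by positivity
    have hs := Real.sqrt_pos.mpr hSv
    have hsq := Real.sq_sqrt hSv.le
    have h1 : |τ| < √(τ ^ 2 + (v - A)) := by
      rw [← Real.sqrt_sq_eq_abs]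
      exact Real.sqrt_lt_sqrt (sq_nonneg _) (by linarith)
    have h2 := abs_lt.mp h1
    have hp : 0 < -τ + √(τ ^ 2 + (v - A)) := by linarith [h2.2]
    have hq : 0 < τ + √(τ ^ 2 + (v - A)) := by linarith [h2.1]
    rw [← mul_add, ← ENNReal.ofReal_add (by positivity) (by positivity)]
    congr 2
    set S := √(τ ^ 2 + (v - A)) with hSdef
    have e1 : v - A = (-τ + S) * (τ + S) := by linear_combination -hsq
    rw [e1]
    field_simp
    ring
  · refine hg.mul ?_
    fun_prop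

theorem rad_one (d : ℕ) [NeZero d] (x : V d) {g : ℝ → ℝ≥0∞} (hg : Measurable g)
    (hg0 : ∀ v ≤ ‖x‖ ^ 2, g v = 0) :
    2 * ∫⁻ y : V d, g (‖y‖ ^ 2) * ‖y - x‖ₑ ^ (-(d : ℝ)) =
      sig d * ∫⁻ v in Ioi (‖x‖ ^ 2), g v * ENNReal.ofReal ((v - ‖x‖ ^ 2)⁻¹) := by
  have h := polar_sym d x 0 (G := fun y => g (‖y‖ ^ 2)) (hg.comp (by fun_prop))
  simp only [zero_sub] at h
  rw [h]
  have h2 : ∀ ω : sphere (0 : V d) 1, ∫⁻ t : ℝ, g (‖x + t • (ω : V d)‖ ^ 2) *
      ENNReal.ofReal (|t| ^ (-1 : ℝ)) =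
      ∫⁻ v in Ioi (‖x‖ ^ 2), g v * ENNReal.ofReal ((v - ‖x‖ ^ 2)⁻¹) := by
    intro ω
    have h3 := line_int (‖x‖ ^ 2) (inner ℝ x (ω : V d)) hg hg0
    rw [← h3]
    refine lintegral_congr fun t => ?_
    have hω : ‖(ω : V d)‖ = 1 := by simp
    have : ‖x + t • (ω : V d)‖ ^ 2 = t ^ 2 + 2 * t * inner ℝ x (ω : V d) + ‖x‖ ^ 2 := by
      rw [norm_add_sq_real, inner_smul_right, norm_smul, hω, mul_one, Real.norm_eq_abs, sq_abs]
      ring
    rw [this, zero_sub]
  simp_rw [h2]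
  rw [lintegral_const, mul_comm]
  rfl

end Pool.Agent.Lib.H16RA
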