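import Mathlib
import Pool.Agent.Lib.H16RA.RadialA

set_option autoImplicit false

/-!
# RA2 chunk RADB: radial functions inside the ball against `‖x - y‖ ^ (-d)`
-/

namespace Pool.Agent.Lib.H16RA

open MeasureTheory Set Metric
open scoped ENNReal Real RealInnerProductSpace

theorem enorm_rpow_of_ne {d : ℕ} {z : V d} (hz : z ≠ 0) (r : ℝ) :
    ‖z‖ₑ ^ r = ENNReal.ofReal (‖z‖ ^ r) := by
  rw [← ofReal_norm, ENNReal.ofReal_rpow_of_pos (norm_pos_iff.mpr hz)]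

theorem norm_inv_sub (d : ℕ) (x y : V d) (hx : x ≠ 0) :
    ‖(‖y‖ ^ 2 / ‖x‖ ^ 2) • x - y‖ = ‖y‖ * ‖x - y‖ / ‖x‖ := by
  have hx' : 0 < ‖x‖ := norm_pos_iff.mpr hx
  have h1 : ‖(‖y‖ ^ 2 / ‖x‖ ^ 2) • x - y‖ ^ 2 = (‖y‖ * ‖x - y‖ / ‖x‖) ^ 2 := by
    rw [@norm_sub_sq_real, norm_smul, inner_smul_left, div_pow, mul_pow (‖y‖), @norm_sub_sq_real]
    simp only [norm_div, norm_pow, norm_norm, RCLike.conj_to_real]
    field_simp
    ring
  have h2 : 0 ≤ ‖y‖ * ‖x - y‖ / ‖x‖ := by positivity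
  exact (sq_eq_sq₀ (norm_nonneg _) h2).mp h1

/-- the substitution `v = B ^ 2 / w` on `(B, ∞)` -/
theorem subst_inv (B : ℝ) (hB : 0 < B) (F : ℝ → ℝ≥0∞) :
    ∫⁻ v in Ioi B, F v = ∫⁻ w in Ioo 0 B, ENNReal.ofReal (B ^ 2 / w ^ 2) * F (B ^ 2 / w) := by
  have himg : (fun w : ℝ => B ^ 2 / w) '' Ioo 0 B = Ioi B := by
    ext v
    simp only [mem_image, mem_Ioo, mem_Ioi]
    constructor
    · rintro ⟨w, ⟨hw0, hwB⟩, rfl⟩
      rw [lt_div_iff₀ hw0]
      nlinarith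
    · intro hv
      have hv0 : 0 < v := hB.trans hv
      refine ⟨B ^ 2 / v, ⟨by positivity, ?_⟩, ?_⟩
      · rw [div_lt_iff₀ hv0]
        nlinarith
      · field_simp
  have hinj : InjOn (fun w : ℝ => B ^ 2 / w) (Ioo 0 B) := by
    intro s hs t ht hst
    simp only at hst
    rw [div_eq_div_iff hs.1.ne' ht.1.ne'] at hst
    exact (mul_left_cancel₀ (by positivity) hst).symm
  have hder : ∀ w ∈ Ioo 0 B,
      HasDerivWithinAt (fun w : ℝ => B ^ 2 / w) (-B ^ 2 / w ^ 2) (Ioo 0 B) w := by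
    intro w hw
    have h := ((hasDerivAt_const w (B ^ 2)).fun_div (hasDerivAt_id' w) hw.1.ne').hasDerivWithinAt
      (s := Ioo 0 B)
    have e : ((0 : ℝ) * w - B ^ 2 * 1) / w ^ 2 = -B ^ 2 / w ^ 2 := by ring
    rw [e] at h
    exact h
  rw [← himg, lintegral_image_eq_lintegral_abs_deriv_mul measurableSet_Ioo hder hinj]
  refine setLIntegral_congr_fun measurableSet_Ioo ?_
  intro w hw
  simp only
  congr 2
  rw [abs_div, abs_neg, abs_of_pos (by positivity : 0 < B ^ 2),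
    abs_of_pos (by have := hw.1; positivity : 0 < w ^ 2)]

/-- **RAD2.** Put `B = ‖y‖²` and apply `inversion` with centre `0` and power `B` to
`G x = 1_{‖x‖² < B} g(‖x‖²) ‖x - y‖ ^ (-d) ‖x‖ ^ d`; since `‖(B / ‖x‖²) x - y‖ = √B ‖x - y‖ / ‖x‖` the left side is
`2 ∫ g₁(‖x‖²) ‖x - y‖ ^ (-d)`, `g₁ v = 1_{v > B} g(B² / v) B ^ (d/2) v ^ (-d/2)`; apply `rad_one` at `y`
and substitute `v = B² / w`. -/
theorem rad_two' (d : ℕ) [NeZero d] (y : V d) (hy : y ≠ 0) {g : ℝ → ℝ≥0∞} (hg : Measurable g) :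
    2 * ∫⁻ x in {x : V d | ‖x‖ ^ 2 < ‖y‖ ^ 2}, g (‖x‖ ^ 2) * ‖x - y‖ₑ ^ (-(d : ℝ)) =
      sig d * ∫⁻ v in Ioo 0 (‖y‖ ^ 2), g v *
        ENNReal.ofReal (v ^ ((d : ℝ) / 2 - 1) * (‖y‖ ^ 2) ^ (1 - (d : ℝ) / 2) / (‖y‖ ^ 2 - v)) := by
  have hd : 0 < (d : ℝ) := by exact_mod_cast Nat.pos_of_ne_zero (NeZero.ne d)
  have hy' : 0 < ‖y‖ := norm_pos_iff.mpr hy
  set B : ℝ := ‖y‖ ^ 2 with hBdef
  have hB : 0 < B := by positivity
  have : Nontrivial (V d) := ⟨⟨y, 0, hy⟩⟩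
  have hSm : MeasurableSet {x : V d | ‖x‖ ^ 2 < B} := measurableSet_lt (by fun_prop) (by fun_prop)
  set G : V d → ℝ≥0∞ := {x : V d | ‖x‖ ^ 2 < B}.indicator
    (fun x => g (‖x‖ ^ 2) * ‖x - y‖ₑ ^ (-(d : ℝ)) * ‖x‖ₑ ^ (d : ℝ)) with hGdef
  have hG : Measurable G := by
    refine Measurable.indicator ?_ hSm
    refine Measurable.mul (Measurable.mul (hg.comp (by fun_prop)) (by fun_prop)) (by fun_prop)
  set g₁ : ℝ → ℝ≥0∞ := (Ioi B).indicator
    (fun v => g (B ^ 2 / v) * ENNReal.ofReal (B ^ ((d : ℝ) / 2) * v ^ (-((d : ℝ) / 2)))) with hg₁def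
  have hg₁ : Measurable g₁ := by
    refine Measurable.indicator ?_ measurableSet_Ioi
    refine Measurable.mul (hg.comp (by fun_prop)) (by fun_prop)
  have hinv := inversion d (0 : V d) B hB.ne' hG
  simp only [zero_add, sub_zero] at hinv
  -- right side of the inversion formula
  have hR : ∫⁻ x, G x * ‖x‖ₑ ^ (-(d : ℝ)) =
      ∫⁻ x in {x : V d | ‖x‖ ^ 2 < B}, g (‖x‖ ^ 2) * ‖x - y‖ₑ ^ (-(d : ℝ)) := by
    rw [← lintegral_indicator hSm]
    have hae : ∀ᵐ x : V d, x ≠ 0 := by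
      rw [ae_iff]
      simp
    refine lintegral_congr_ae ?_
    filter_upwards [hae] with x hx
    by_cases hxB : x ∈ {x : V d | ‖x‖ ^ 2 < B}
    · rw [hGdef]
      simp only [indicator_of_mem hxB]
      have hne : ‖x‖ₑ ≠ 0 := by simpa using hx
      have hnt : ‖x‖ₑ ≠ ⊤ := by simp
      rw [mul_assoc, ← ENNReal.rpow_add _ _ hne hnt]
      simp
    · rw [hGdef]
      simp only [indicator_of_notMem hxB, zero_mul]
  -- left side
  have hL : ∫⁻ x : V d, G ((B / ‖x‖ ^ 2) • x) * ‖x‖ₑ ^ (-(d : ℝ)) =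
      ∫⁻ x : V d, g₁ (‖x‖ ^ 2) * ‖x - y‖ₑ ^ (-(d : ℝ)) := by
    refine lintegral_congr fun x => ?_
    by_cases hx : x = 0
    · subst hx
      have h1 : G ((B / ‖(0 : V d)‖ ^ 2) • (0 : V d)) = 0 := by
        rw [smul_zero, hGdef]
        by_cases h0 : (0 : V d) ∈ {x : V d | ‖x‖ ^ 2 < B}
        · rw [indicator_of_mem h0]
          simp [ENNReal.zero_rpow_of_pos hd]
        · rw [indicator_of_notMem h0]
      have h2 : g₁ (‖(0 : V d)‖ ^ 2) = 0 := by
        rw [hg₁def, indicator_of_notMem]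
        simp only [norm_zero, mem_Ioi, not_lt]
        nlinarith
      rw [h1, h2, zero_mul, zero_mul]
    · have hx' : 0 < ‖x‖ := norm_pos_iff.mpr hx
      have hx2 : 0 < ‖x‖ ^ 2 := by positivity
      have hn : ‖(B / ‖x‖ ^ 2) • x‖ = B / ‖x‖ := by
        rw [norm_smul, Real.norm_eq_abs, abs_of_pos (by positivity)]
        field_simp
      by_cases hxB : B < ‖x‖ ^ 2
      · have hmem : ((B / ‖x‖ ^ 2) • x) ∈ {x : V d | ‖x‖ ^ 2 < B} := by
          simp only [mem_ofPred_eq]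
          rw [hn, div_pow, div_lt_iff₀ hx2]
          nlinarith
        have hmem2 : ‖x‖ ^ 2 ∈ Ioi B := hxB
        have hxy : x - y ≠ 0 := by
          intro h
          rw [sub_eq_zero] at h
          rw [h] at hxB
          exact lt_irrefl _ hxB
        have hxy' : 0 < ‖x - y‖ := norm_pos_iff.mpr hxy
        have hsub := norm_inv_sub d x y hx
        rw [← hBdef] at hsub
        have hsub' : (B / ‖x‖ ^ 2) • x - y ≠ 0 := by
          rw [← norm_pos_iff, hsub]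
          positivity
        have hx3 : (B / ‖x‖ ^ 2) • x ≠ 0 := by
          rw [← norm_pos_iff, hn]
          positivity
        rw [hGdef, hg₁def]
        simp only [indicator_of_mem hmem, indicator_of_mem hmem2]
        rw [enorm_rpow_of_ne hsub', enorm_rpow_of_ne hx3, enorm_rpow_of_ne hx, enorm_rpow_of_ne hxy,
          hn, hsub, mul_assoc, mul_assoc, mul_assoc]
        have hgeq : g ((B / ‖x‖) ^ 2) = g (B ^ 2 / ‖x‖ ^ 2) := by rw [div_pow]
        rw [hgeq]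
        congr 1
        rw [← ENNReal.ofReal_mul (by positivity), ← ENNReal.ofReal_mul (by positivity),
          ← ENNReal.ofReal_mul (by positivity)]
        congr 1
        have e1 : B ^ ((d : ℝ) / 2) = ‖y‖ ^ (d : ℝ) := by
          rw [hBdef, ← Real.rpow_natCast ‖y‖ 2, ← Real.rpow_mul hy'.le]
          congr 1
          push_cast
          ring
        have e2 : (‖x‖ ^ 2) ^ (-((d : ℝ) / 2)) = ‖x‖ ^ (-(d : ℝ)) := by
          rw [← Real.rpow_natCast ‖x‖ 2, ← Real.rpow_mul hx'.le]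
          congr 1
          push_cast
          ring
        rw [e1, e2, Real.div_rpow (by positivity) hx'.le, Real.div_rpow hB.le hx'.le,
          Real.mul_rpow hy'.le hxy'.le, hBdef, ← Real.rpow_natCast ‖y‖ 2, ← Real.rpow_mul hy'.le,
          Real.rpow_neg hx'.le, Real.rpow_neg hy'.le, Real.rpow_neg hxy'.le]
        have e3 : ‖y‖ ^ (((2 : ℕ) : ℝ) * (d : ℝ)) = ‖y‖ ^ (d : ℝ) * ‖y‖ ^ (d : ℝ) := by
          rw [← Real.rpow_add hy']
          congr 1
          push_cast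
          ring
        rw [e3]
        have p1 : 0 < ‖x‖ ^ (d : ℝ) := Real.rpow_pos_of_pos hx' _
        have p2 : 0 < ‖y‖ ^ (d : ℝ) := Real.rpow_pos_of_pos hy' _
        have p3 : 0 < ‖x - y‖ ^ (d : ℝ) := Real.rpow_pos_of_pos hxy' _
        field_simp
      · have hmem : ((B / ‖x‖ ^ 2) • x) ∉ {x : V d | ‖x‖ ^ 2 < B} := by
          simp only [mem_ofPred_eq, not_lt]
          rw [hn, div_pow, le_div_iff₀ hx2]
          nlinarith
        have hmem2 : ‖x‖ ^ 2 ∉ Ioi B := hxB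
        rw [hGdef, hg₁def]
        simp only [indicator_of_notMem hmem, indicator_of_notMem hmem2, zero_mul]
  have hg₁0 : ∀ v ≤ ‖y‖ ^ 2, g₁ v = 0 := by
    intro v hv
    rw [hg₁def, indicator_of_notMem]
    simpa using hv
  rw [← hR, ← hinv, hL, rad_one d y hg₁ hg₁0, ← hBdef, subst_inv B hB]
  congr 1
  refine setLIntegral_congr_fun measurableSet_Ioo ?_
  intro w hw
  have hw0 : 0 < w := hw.1
  have hwB : w < B := hw.2
  simp only
  have hmem : B ^ 2 / w ∈ Ioi B := by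
    simp only [mem_Ioi]
    rw [lt_div_iff₀ hw0]
    nlinarith
  have hgg : B ^ 2 / (B ^ 2 / w) = w := by field_simp
  rw [hg₁def, indicator_of_mem hmem, hgg, mul_comm (ENNReal.ofReal (B ^ 2 / w ^ 2)), mul_assoc, mul_assoc]
  congr 1
  have hpos1 : 0 < B ^ 2 / w - B := by
    rw [sub_pos, lt_div_iff₀ hw0]
    nlinarith
  rw [← ENNReal.ofReal_mul (by positivity), ← ENNReal.ofReal_mul (by positivity)]
  congr 1
  rw [Real.div_rpow (by positivity) hw0.le, Real.rpow_neg (by positivity), Real.rpow_neg hw0.le,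
    Real.rpow_sub hw0, Real.rpow_sub hB, Real.rpow_one, Real.rpow_one,
    ← Real.rpow_natCast B 2, ← Real.rpow_mul hB.le]
  have e3 : B ^ (((2 : ℕ) : ℝ) * ((d : ℝ) / 2)) = B ^ ((d : ℝ) / 2) * B ^ ((d : ℝ) / 2) := by
    rw [← Real.rpow_add hB]
    congr 1
    push_cast
    ring
  rw [e3, Real.rpow_natCast]
  have p1 : 0 < B ^ ((d : ℝ) / 2) := Real.rpow_pos_of_pos hB _
  have p2 : 0 < w ^ ((d : ℝ) / 2) := Real.rpow_pos_of_pos hw0 _
  have hBw : B - w ≠ 0 := (sub_pos.mpr hwB).ne'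
  have hBw2 : B ^ 2 / w - B = B * (B - w) / w := by field_simp
  rw [hBw2]
  field_simp

end Pool.Agent.Lib.H16RA
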