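import Mathlib
import Pool.Agent.Lib.H16RA.RadialB

set_option autoImplicit false

/-!
# RA2 chunk RAD: radial functions against `‖y - x‖ ^ (-d)`
-/

namespace Pool.Agent.Lib.H16RA

open MeasureTheory Set Metric
open scoped ENNReal Real RealInnerProductSpace

/-- **RAD2.** Put `B = ‖y‖²` and apply `inversion` with centre `0` and power `B` to
`G x = 1_{‖x‖² < B} g(‖x‖²) ‖x - y‖ ^ (-d) ‖x‖ ^ d`; since `‖(B / ‖x‖²) x - y‖ = √B ‖x - y‖ / ‖x‖` the left side is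
`2 ∫ g₁(‖x‖²) ‖x - y‖ ^ (-d)`, `g₁ v = 1_{v > B} g(B² / v) B ^ (d/2) v ^ (-d/2)`; apply `rad_one` at `y`
and substitute `v = B² / w`. -/
theorem rad_two (d : ℕ) [NeZero d] (y : V d) (hy : y ≠ 0) {g : ℝ → ℝ≥0∞} (hg : Measurable g) :
    2 * ∫⁻ x in {x : V d | ‖x‖ ^ 2 < ‖y‖ ^ 2}, g (‖x‖ ^ 2) * ‖x - y‖ₑ ^ (-(d : ℝ)) =
      sig d * ∫⁻ v in Ioo 0 (‖y‖ ^ 2), g v *
        ENNReal.ofReal (v ^ ((d : ℝ) / 2 - 1) * (‖y‖ ^ 2) ^ (1 - (d : ℝ) / 2) / (‖y‖ ^ 2 - v)) :=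
  rad_two' d y hy hg

end Pool.Agent.Lib.H16RA
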