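import Mathlib
import Pool.Agent.Lib.H16RA.Invert
import Pool.Agent.Lib.H16RA.Ball

set_option autoImplicit false

/-!
# RA2 chunk SWP: the two sweeping integrals, by inversion from the ball
-/

namespace Pool.Agent.Lib.H16RA

open MeasureTheory Set Metric
open scoped ENNReal Real RealInnerProductSpace

/-- **SWP1.** Inversion with centre `x` and power `‖x‖² - A` preserves the sphere `‖y‖² = A`. -/
theorem inv_sq {d : ℕ} {x y : V d} {A : ℝ} (hxy : y ≠ x) :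
    ‖x + ((‖x‖ ^ 2 - A) / ‖y - x‖ ^ 2) • (y - x)‖ ^ 2 - A =
      (‖x‖ ^ 2 - A) / ‖y - x‖ ^ 2 * (‖y‖ ^ 2 - A) := by
  have hn : ‖y - x‖ ^ 2 ≠ 0 := pow_ne_zero 2 (norm_ne_zero_iff.mpr (sub_ne_zero.mpr hxy))
  have h1 := norm_add_sq_real x (((‖x‖ ^ 2 - A) / ‖y - x‖ ^ 2) • (y - x))
  have h2 : ‖y‖ ^ 2 = ‖x‖ ^ 2 + 2 * inner ℝ x (y - x) + ‖y - x‖ ^ 2 := by
    have := norm_add_sq_real x (y - x)
    rwa [add_sub_cancel] at this
  rw [h1, h2, inner_smul_right, norm_smul, mul_pow, Real.norm_eq_abs, sq_abs]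
  generalize ‖y - x‖ ^ 2 = N at *
  generalize inner ℝ x (y - x) = I at *
  field_simp
  ring

/-- **SWP2.** Both sides squared are `c² / |a|² - 2 c ⟪a, b⟫ / |a|² + |b|²`, `a = y - x`, `b = z - x`. -/
theorem inv_dist {d : ℕ} {x y z : V d} {c : ℝ} (hxy : y ≠ x) (hxz : z ≠ x) :
    ‖x + (c / ‖y - x‖ ^ 2) • (y - x) - z‖ =
      ‖y - (x + (c / ‖z - x‖ ^ 2) • (z - x))‖ * ‖z - x‖ / ‖y - x‖ := by
  have hn : ‖y - x‖ ≠ 0 := norm_ne_zero_iff.mpr (sub_ne_zero.mpr hxy)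
  have hm : ‖z - x‖ ≠ 0 := norm_ne_zero_iff.mpr (sub_ne_zero.mpr hxz)
  have e1 : x + (c / ‖y - x‖ ^ 2) • (y - x) - z = (c / ‖y - x‖ ^ 2) • (y - x) - (z - x) := by
    abel
  have e2 : y - (x + (c / ‖z - x‖ ^ 2) • (z - x)) = (y - x) - (c / ‖z - x‖ ^ 2) • (z - x) := by
    abel
  rw [e1, e2]
  generalize y - x = a at *
  generalize z - x = b at *
  have hl : 0 ≤ ‖(c / ‖a‖ ^ 2) • a - b‖ := norm_nonneg _
  have hr : 0 ≤ ‖a - (c / ‖b‖ ^ 2) • b‖ * ‖b‖ / ‖a‖ := by positivity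
  have hsq : ‖(c / ‖a‖ ^ 2) • a - b‖ ^ 2 = (‖a - (c / ‖b‖ ^ 2) • b‖ * ‖b‖ / ‖a‖) ^ 2 := by
    rw [div_pow, mul_pow, norm_sub_sq_real, norm_sub_sq_real, inner_smul_left, inner_smul_right,
      norm_smul, norm_smul, mul_pow, mul_pow, Real.norm_eq_abs, Real.norm_eq_abs, sq_abs, sq_abs]
    simp only [conj_trivial]
    generalize inner ℝ a b = I
    field_simp
    ring
  exact (pow_left_inj₀ hl hr two_ne_zero).mp hsq

/-- the common form of the two sweeping integrals -/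
theorem sweep_aux (d : ℕ) [NeZero d] {α A : ℝ} (h0 : 0 < α) (h2 : α < 2) (hA : 0 < A)
    {x z : V d} {S : Set (V d)} (hS : MeasurableSet S) (hc : ‖x‖ ^ 2 ≠ A)
    (hz : (‖x‖ ^ 2 - A) * (‖z‖ ^ 2 - A) ≤ 0)
    (hmem : ∀ y : V d, y ≠ x →
      (x + ((‖x‖ ^ 2 - A) / ‖y - x‖ ^ 2) • (y - x) ∈ S ↔ ‖y‖ ^ 2 < A)) :
    ∫⁻ y in S, ENNReal.ofReal (|‖y‖ ^ 2 - A| ^ (-(α / 2))) * ‖y - x‖ₑ ^ (-(d : ℝ)) *
        ‖y - z‖ₑ ^ (α - d) =
      Cc d α * ENNReal.ofReal (|‖x‖ ^ 2 - A| ^ (-(α / 2))) * ‖x - z‖ₑ ^ (α - d) := by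
  have hc' : ‖x‖ ^ 2 - A ≠ 0 := sub_ne_zero.mpr hc
  have hzx : z ≠ x := by
    rintro rfl
    have : 0 < (‖z‖ ^ 2 - A) * (‖z‖ ^ 2 - A) := mul_self_pos.mpr hc'
    linarith
  have hv : 0 < ‖z - x‖ := norm_pos_iff.mpr (sub_ne_zero.mpr hzx)
  set c : ℝ := ‖x‖ ^ 2 - A with hcdef
  set zs : V d := x + (c / ‖z - x‖ ^ 2) • (z - x) with hzs
  have hzsA : ‖zs‖ ^ 2 ≤ A := by
    have h := inv_sq (A := A) hzx
    rw [← hcdef, ← hzs] at h
    have h3 : c / ‖z - x‖ ^ 2 * (‖z‖ ^ 2 - A) = (c * (‖z‖ ^ 2 - A)) / ‖z - x‖ ^ 2 := by ring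
    have h4 : (c * (‖z‖ ^ 2 - A)) / ‖z - x‖ ^ 2 ≤ 0 :=
      div_nonpos_of_nonpos_of_nonneg hz (by positivity)
    linarith
  set G : V d → ℝ≥0∞ := S.indicator fun y =>
    ENNReal.ofReal (|‖y‖ ^ 2 - A| ^ (-(α / 2))) * ‖y - z‖ₑ ^ (α - d) with hG
  have hGm : Measurable G := by
    refine Measurable.indicator ?_ hS
    fun_prop
  have hLHS : ∫⁻ y in S, ENNReal.ofReal (|‖y‖ ^ 2 - A| ^ (-(α / 2))) * ‖y - x‖ₑ ^ (-(d : ℝ)) *
      ‖y - z‖ₑ ^ (α - d) = ∫⁻ y, G y * ‖y - x‖ₑ ^ (-(d : ℝ)) := by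
    rw [← lintegral_indicator hS]
    refine lintegral_congr fun y => ?_
    by_cases hy : y ∈ S
    · simp only [hG, indicator_of_mem hy]
      ring
    · simp only [hG, indicator_of_notMem hy, zero_mul]
  rw [hLHS, ← inversion d x c hc' hGm]
  have hball := ball_potential d h0 h2 hA zs hzsA
  have hRHS : ∫⁻ y, G (x + (c / ‖y - x‖ ^ 2) • (y - x)) * ‖y - x‖ₑ ^ (-(d : ℝ)) =
      ∫⁻ y in {y : V d | ‖y‖ ^ 2 < A}, (ENNReal.ofReal (|c| ^ (-(α / 2))) *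
        ‖x - z‖ₑ ^ (α - d)) * (ENNReal.ofReal ((A - ‖y‖ ^ 2) ^ (-(α / 2))) *
          ‖y - zs‖ₑ ^ (α - d)) := by
    rw [← lintegral_indicator (measurableSet_lt (by fun_prop) (by fun_prop))]
    refine lintegral_congr_ae ?_
    have hne : ∀ᵐ y : V d, y ≠ x := by
      rw [ae_iff]
      simp
    filter_upwards [hne] with y hy
    have hu : 0 < ‖y - x‖ := norm_pos_iff.mpr (sub_ne_zero.mpr hy)
    by_cases hyA : ‖y‖ ^ 2 < A
    · have hyS : x + (c / ‖y - x‖ ^ 2) • (y - x) ∈ S := (hmem y hy).mpr hyA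
      rw [indicator_of_mem (show y ∈ {y : V d | ‖y‖ ^ 2 < A} from hyA)]
      simp only [hG, indicator_of_mem hyS]
      have e1 := inv_sq (A := A) hy
      rw [← hcdef] at e1
      have e2 := inv_dist (c := c) hy hzx
      rw [← hzs] at e2
      have hA' : 0 < A - ‖y‖ ^ 2 := by linarith
      have e3 : |‖x + (c / ‖y - x‖ ^ 2) • (y - x)‖ ^ 2 - A| ^ (-(α / 2)) =
          |c| ^ (-(α / 2)) * ‖y - x‖ ^ α * (A - ‖y‖ ^ 2) ^ (-(α / 2)) := by
        rw [e1, abs_mul, abs_div, abs_of_pos (show 0 < ‖y - x‖ ^ 2 by positivity),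
          abs_sub_comm (‖y‖ ^ 2) A, abs_of_pos hA',
          Real.mul_rpow (by positivity) hA'.le, Real.div_rpow (abs_nonneg c) (by positivity)]
        have e4 : (‖y - x‖ ^ 2) ^ (-(α / 2)) = (‖y - x‖ ^ α)⁻¹ := by
          rw [← Real.rpow_natCast, ← Real.rpow_mul hu.le, ← Real.rpow_neg hu.le]
          congr 1
          push_cast
          ring
        rw [e4, div_inv_eq_mul]
      have e5 : ‖x + (c / ‖y - x‖ ^ 2) • (y - x) - z‖ₑ =
          ‖y - zs‖ₑ * ENNReal.ofReal (‖z - x‖ / ‖y - x‖) := by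
        rw [← ofReal_norm, e2, mul_div_assoc, ENNReal.ofReal_mul (norm_nonneg _), ofReal_norm]
      have e6 : ‖x - z‖ₑ = ENNReal.ofReal ‖z - x‖ := by
        rw [← ofReal_norm, norm_sub_rev]
      rw [e3, e5, e6, ENNReal.mul_rpow_of_ne_top enorm_ne_top ENNReal.ofReal_ne_top,
        ENNReal.ofReal_rpow_of_pos (by positivity), ENNReal.ofReal_rpow_of_pos hv,
        Real.div_rpow hv.le hu.le, ← ofReal_norm (y - x), ENNReal.ofReal_rpow_of_pos hu]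
      have e7 : ENNReal.ofReal (|c| ^ (-(α / 2)) * ‖y - x‖ ^ α * (A - ‖y‖ ^ 2) ^ (-(α / 2))) =
          ENNReal.ofReal (|c| ^ (-(α / 2))) * ENNReal.ofReal (‖y - x‖ ^ α) *
            ENNReal.ofReal ((A - ‖y‖ ^ 2) ^ (-(α / 2))) := by
        rw [ENNReal.ofReal_mul (by positivity), ENNReal.ofReal_mul (by positivity)]
      have e8 : ENNReal.ofReal (‖z - x‖ ^ (α - d) / ‖y - x‖ ^ (α - d)) =
          ENNReal.ofReal (‖z - x‖ ^ (α - d)) * ENNReal.ofReal (‖y - x‖ ^ (d - α)) := by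
        rw [← ENNReal.ofReal_mul (by positivity), div_eq_mul_inv, ← Real.rpow_neg hu.le]
        congr 3
        ring
      have e9 : ENNReal.ofReal (‖y - x‖ ^ α) * ENNReal.ofReal (‖y - x‖ ^ (d - α)) *
          ENNReal.ofReal (‖y - x‖ ^ (-(d : ℝ))) = 1 := by
        rw [← ENNReal.ofReal_mul (by positivity), ← ENNReal.ofReal_mul (by positivity),
          ← Real.rpow_add hu, ← Real.rpow_add hu]
        have : α + (d - α) + -(d : ℝ) = 0 := by ring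
        rw [this, Real.rpow_zero, ENNReal.ofReal_one]
      rw [e7, e8]
      generalize ENNReal.ofReal (‖y - x‖ ^ α) = p1 at *
      generalize ENNReal.ofReal (‖y - x‖ ^ (d - α)) = p2 at *
      generalize ENNReal.ofReal (‖y - x‖ ^ (-(d : ℝ))) = p3 at *
      generalize ENNReal.ofReal (|c| ^ (-(α / 2))) = q1 at *
      generalize ENNReal.ofReal ((A - ‖y‖ ^ 2) ^ (-(α / 2))) = q2 at *
      generalize ENNReal.ofReal (‖z - x‖ ^ (α - d)) = q3 at *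
      generalize ‖y - zs‖ₑ ^ (α - d) = q4 at *
      calc q1 * p1 * q2 * (q4 * (q3 * p2)) * p3 = (q1 * q3 * (q2 * q4)) * (p1 * p2 * p3) := by ring
        _ = _ := by rw [e9, mul_one]
    · have hyS : x + (c / ‖y - x‖ ^ 2) • (y - x) ∉ S := fun h => hyA ((hmem y hy).mp h)
      rw [indicator_of_notMem (show y ∉ {y : V d | ‖y‖ ^ 2 < A} from hyA)]
      simp only [hG, indicator_of_notMem hyS, zero_mul]
  rw [hRHS, lintegral_const_mul _ (by fun_prop), hball]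
  ring

/-- **SWP3.** `c = ‖x‖² - A < 0`.  With `G y = 1_{A < ‖y‖²} (‖y‖² - A) ^ (-α/2) ‖y - z‖ ^ (α - d)` the left side is
`∫ G y ‖y - x‖ ^ (-d) = ∫ G (y*) ‖y - x‖ ^ (-d)` (`inversion`), `y* = x + (c / ‖y - x‖²) (y - x)`; by `inv_sq`,
`inv_dist` the integrand is
`|c| ^ (-α/2) ‖z - x‖ ^ (α - d) · 1_{‖y‖² < A} (A - ‖y‖²) ^ (-α/2) ‖y - z*‖ ^ (α - d)` (`y ≠ x`), and
`‖z*‖² ≤ A` by `inv_sq`; conclude by `ball_potential` with `B = A`. -/
theorem sweep_in (d : ℕ) [NeZero d] {α A : ℝ} (h0 : 0 < α) (h2 : α < 2) (hA : 0 < A)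
    {x z : V d} (hx : ‖x‖ ^ 2 < A) (hz : A ≤ ‖z‖ ^ 2) :
    ∫⁻ y in {y : V d | A < ‖y‖ ^ 2},
      ENNReal.ofReal ((‖y‖ ^ 2 - A) ^ (-(α / 2))) * ‖y - x‖ₑ ^ (-(d : ℝ)) * ‖y - z‖ₑ ^ (α - d) =
      Cc d α * ENNReal.ofReal ((A - ‖x‖ ^ 2) ^ (-(α / 2))) * ‖x - z‖ₑ ^ (α - d) := by
  have hS : MeasurableSet {y : V d | A < ‖y‖ ^ 2} := measurableSet_lt (by fun_prop) (by fun_prop)
  have h := sweep_aux d h0 h2 hA (x := x) (z := z) hS hx.ne
    (mul_nonpos_of_nonpos_of_nonneg (by linarith) (by linarith)) (by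
      intro y hy
      have e := inv_sq (A := A) hy
      have hu : 0 < ‖y - x‖ := norm_pos_iff.mpr (sub_ne_zero.mpr hy)
      have hneg : (‖x‖ ^ 2 - A) / ‖y - x‖ ^ 2 < 0 := div_neg_of_neg_of_pos (by linarith) (by positivity)
      rw [mem_ofPred_eq, ← sub_pos, e]
      constructor
      · intro h
        by_contra h'
        have := mul_nonpos_of_nonpos_of_nonneg hneg.le (sub_nonneg.mpr (not_lt.mp h'))
        linarith
      · intro h
        exact mul_pos_of_neg_of_neg hneg (by linarith))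
  rw [abs_sub_comm, abs_of_pos (sub_pos.mpr hx)] at h
  rw [← h]
  refine setLIntegral_congr_fun hS ?_
  intro y hy
  have hy' : 0 < ‖y‖ ^ 2 - A := sub_pos.mpr hy
  simp only [abs_of_pos hy']

/-- **SWP4.** The same with `c = ‖x‖² - B > 0`, which maps the ball to itself. -/
theorem sweep_out (d : ℕ) [NeZero d] {α B : ℝ} (h0 : 0 < α) (h2 : α < 2) (hB : 0 < B)
    {x z : V d} (hx : B < ‖x‖ ^ 2) (hz : ‖z‖ ^ 2 ≤ B) :
    ∫⁻ y in {y : V d | ‖y‖ ^ 2 < B},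
      ENNReal.ofReal ((B - ‖y‖ ^ 2) ^ (-(α / 2))) * ‖y - x‖ₑ ^ (-(d : ℝ)) * ‖y - z‖ₑ ^ (α - d) =
      Cc d α * ENNReal.ofReal ((‖x‖ ^ 2 - B) ^ (-(α / 2))) * ‖x - z‖ₑ ^ (α - d) := by
  have hS : MeasurableSet {y : V d | ‖y‖ ^ 2 < B} := measurableSet_lt (by fun_prop) (by fun_prop)
  have h := sweep_aux d h0 h2 hB (x := x) (z := z) hS hx.ne'
    (mul_nonpos_of_nonneg_of_nonpos (by linarith) (by linarith)) (by
      intro y hy
      have e := inv_sq (A := B) hy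
      have hu : 0 < ‖y - x‖ := norm_pos_iff.mpr (sub_ne_zero.mpr hy)
      have hpos : 0 < (‖x‖ ^ 2 - B) / ‖y - x‖ ^ 2 := div_pos (by linarith) (by positivity)
      rw [mem_ofPred_eq, ← sub_neg, e]
      constructor
      · intro h
        by_contra h'
        have := mul_nonneg hpos.le (sub_nonneg.mpr (not_lt.mp h'))
        linarith
      · intro h
        exact mul_neg_of_pos_of_neg hpos (by linarith))
  rw [abs_of_pos (sub_pos.mpr hx)] at h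
  rw [← h]
  refine setLIntegral_congr_fun hS ?_
  intro y hy
  have hy' : 0 < B - ‖y‖ ^ 2 := sub_pos.mpr hy
  have : |‖y‖ ^ 2 - B| = B - ‖y‖ ^ 2 := by rw [abs_sub_comm, abs_of_pos hy']
  simp only [this]

end Pool.Agent.Lib.H16RA
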