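import Mathlib
import Pool.Agent.Lib.H16RA.Sweep
import Pool.Agent.Lib.H16RA.Radial

set_option autoImplicit false

/-!
# RA2 chunks SWI, SWO: the two exchange identities
-/

namespace Pool.Agent.Lib.H16RA

open MeasureTheory Set Metric
open scoped ENNReal Real

theorem Cc_inv_mul (d : ℕ) [NeZero d] {α : ℝ} (h0 : 0 < α) (h2 : α < 2) {L J : ℝ≥0∞}
    (h : 2 * L = sig d * J) :
    (Cc d α)⁻¹ * L = ENNReal.ofReal (Real.sin (π * α / 2) / π) * J := by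
  have hP : ENNReal.ofReal (Real.sin (π * α / 2) / π) = (ENNReal.ofReal (Pc α))⁻¹ := by
    rw [← ENNReal.ofReal_inv_of_pos (Pc_pos h0 h2)]
    unfold Pc
    rw [inv_div]
  have h2' : (2 : ℝ≥0∞) ≠ 0 := by norm_num
  have h2'' : (2 : ℝ≥0∞) ≠ ⊤ := by norm_num
  have hL : L = sig d / 2 * J := by
    rw [← ENNReal.mul_right_inj h2' h2'', h, ← mul_assoc, ENNReal.mul_div_cancel h2' h2'']
  have hs0 : sig d / 2 ≠ 0 := (ENNReal.div_pos (sig_ne_zero d) (by norm_num)).ne'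
  have hst : sig d / 2 ≠ ⊤ := ENNReal.div_ne_top (sig_ne_top d) (by norm_num)
  rw [hL, hP]
  unfold Cc
  rw [ENNReal.mul_inv (Or.inl hs0) (Or.inl hst), mul_comm (sig d / 2)⁻¹, mul_assoc, ← mul_assoc _ _ J,
    ENNReal.inv_mul_cancel hs0 hst, one_mul]

/-- **SWI1.** For `B = ‖y‖² > κ`: `B ^ (-d/2) (T a) (1 / B) = C_d⁻¹ ∫_{‖x‖² < κ} ((κ - ‖x‖²) / (1 - κ ‖x‖²)) ^ (α/2) a(‖x‖²) ‖x - y‖ ^ (-d) dx`.
Proof: `rad_two` with `g v = 1_{v < κ} ((κ - v) / (1 - κ v)) ^ (α/2) a v` (so `{‖x‖² < B}` reduces to `{‖x‖² < κ}` and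
`(0, B)` to `(0, κ)`); `1 / (1 - v / B) = B / (B - v)`, `B ^ (-d/2) v ^ (d/2 - 1) B / (B - v)` is the weight there. -/
theorem T_in (d : ℕ) [NeZero d] {α κ : ℝ} (h0 : 0 < α) (h2 : α < 2) (hκ : 0 < κ) (hκ1 : κ < 1)
    {a : ℝ → ℝ≥0∞} (ha : Measurable a) {y : V d} (hy : κ < ‖y‖ ^ 2) :
    ENNReal.ofReal ((‖y‖ ^ 2) ^ (-((d : ℝ) / 2))) * T d α κ a (1 / ‖y‖ ^ 2) =
      (Cc d α)⁻¹ * ∫⁻ x in Din d κ, ENNReal.ofReal (((κ - ‖x‖ ^ 2) / (1 - κ * ‖x‖ ^ 2)) ^ (α / 2)) *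
        a (‖x‖ ^ 2) * ‖x - y‖ₑ ^ (-(d : ℝ)) := by
  obtain ⟨B, hB⟩ : ∃ B, B = ‖y‖ ^ 2 := ⟨_, rfl⟩
  rw [← hB] at hy
  have hB0 : 0 < B := hκ.trans hy
  have hy0 : y ≠ 0 := by
    rintro rfl
    rw [norm_zero] at hB
    norm_num at hB
    linarith
  have hrad := rad_two d y hy0 (g := (Iio κ).indicator
    fun v => ENNReal.ofReal (((κ - v) / (1 - κ * v)) ^ (α / 2)) * a v)
    (Measurable.indicator (by fun_prop) measurableSet_Iio)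
  rw [← hB] at hrad ⊢
  have e1 : ∫⁻ x in {x : V d | ‖x‖ ^ 2 < B}, (Iio κ).indicator
      (fun v => ENNReal.ofReal (((κ - v) / (1 - κ * v)) ^ (α / 2)) * a v) (‖x‖ ^ 2) *
        ‖x - y‖ₑ ^ (-(d : ℝ)) =
      ∫⁻ x in Din d κ, ENNReal.ofReal (((κ - ‖x‖ ^ 2) / (1 - κ * ‖x‖ ^ 2)) ^ (α / 2)) *
        a (‖x‖ ^ 2) * ‖x - y‖ₑ ^ (-(d : ℝ)) := by
    have hms : MeasurableSet {x : V d | ‖x‖ ^ 2 < B} := measurableSet_lt (by fun_prop) (by fun_prop)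
    rw [← lintegral_indicator hms, ← lintegral_indicator (measurableSet_Din d κ)]
    refine lintegral_congr fun x => ?_
    by_cases hx : x ∈ Din d κ
    · have hx' : ‖x‖ ^ 2 < κ := hx
      have hx2 : x ∈ {x : V d | ‖x‖ ^ 2 < B} := hx'.trans hy
      rw [indicator_of_mem hx, indicator_of_mem hx2, indicator_of_mem (show ‖x‖ ^ 2 ∈ Iio κ from hx')]
    · have hx' : ‖x‖ ^ 2 ∉ Iio κ := hx
      rw [indicator_of_notMem hx]
      by_cases hx2 : x ∈ {x : V d | ‖x‖ ^ 2 < B}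
      · rw [indicator_of_mem hx2, indicator_of_notMem hx', zero_mul]
      · rw [indicator_of_notMem hx2]
  have e2 : ∫⁻ v in Ioo 0 B, (Iio κ).indicator
      (fun v => ENNReal.ofReal (((κ - v) / (1 - κ * v)) ^ (α / 2)) * a v) v *
        ENNReal.ofReal (v ^ ((d : ℝ) / 2 - 1) * B ^ (1 - (d : ℝ) / 2) / (B - v)) =
      ENNReal.ofReal (B ^ (-((d : ℝ) / 2))) *
        ∫⁻ v in Ioo (0 : ℝ) κ, ENNReal.ofReal (wt d α κ v / (1 - 1 / B * v)) * a v := by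
    rw [← lintegral_const_mul _ (by unfold wt; fun_prop), ← lintegral_indicator measurableSet_Ioo,
      ← lintegral_indicator measurableSet_Ioo]
    refine lintegral_congr fun v => ?_
    by_cases hv : v ∈ Ioo (0 : ℝ) κ
    · have hv0 : 0 < v := hv.1
      have hvκ : v < κ := hv.2
      have hv2 : v ∈ Ioo 0 B := ⟨hv.1, hv.2.trans hy⟩
      have hBv : 0 < B - v := by linarith
      have h1v : 0 < 1 - κ * v := by nlinarith
      have hκv : 0 < κ - v := by linarith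
      rw [indicator_of_mem hv, indicator_of_mem hv2, indicator_of_mem (show v ∈ Iio κ from hv.2),
        mul_right_comm, ← mul_assoc, ← ENNReal.ofReal_mul (by positivity),
        ← ENNReal.ofReal_mul (by positivity)]
      congr 2
      unfold wt
      have e3 : 1 - 1 / B * v = (B - v) / B := by field_simp
      have e4 : B ^ (1 - (d : ℝ) / 2) = B ^ (-((d : ℝ) / 2)) * B := by
        nth_rewrite 3 [← Real.rpow_one B]
        rw [← Real.rpow_add hB0]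
        congr 1
        ring
      rw [e3, e4]
      field_simp
    · rw [indicator_of_notMem hv]
      by_cases hv2 : v ∈ Ioo 0 B
      · have hv3 : v ∉ Iio κ := fun h => hv ⟨hv2.1, h⟩
        rw [indicator_of_mem hv2, indicator_of_notMem hv3, zero_mul]
      · rw [indicator_of_notMem hv2]
  rw [e1, e2] at hrad
  rw [Cc_inv_mul d h0 h2 hrad]
  unfold T
  ring

/-- **SWI2.** Insert `T_in` in the right side, exchange the integrals (`lintegral_lintegral_swap`), use `sweep_in` with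
`A = κ`; `((κ - ‖x‖²) / (1 - κ ‖x‖²)) ^ (α/2) (κ - ‖x‖²) ^ (-α/2) = (1 - κ ‖x‖²) ^ (-α/2)`; `C_d⁻¹ C_d = 1`. -/
theorem swap_in (d : ℕ) [NeZero d] {α κ : ℝ} (h0 : 0 < α) (h2 : α < 2) (hκ : 0 < κ) (hκ1 : κ < 1)
    {a : ℝ → ℝ≥0∞} (ha : Measurable a) {z : V d} (hz : κ ≤ ‖z‖ ^ 2) :
    ∫⁻ x in Din d κ, Ain d α κ a x * ‖x - z‖ₑ ^ (α - d) =
      ∫⁻ y in Dco d κ, Bout d α κ (T d α κ a) y * ‖y - z‖ₑ ^ (α - d) := by
  have e1 : ∫⁻ y in Dco d κ, Bout d α κ (T d α κ a) y * ‖y - z‖ₑ ^ (α - d) =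
      ∫⁻ y in Dco d κ, ∫⁻ x in Din d κ, (Cc d α)⁻¹ * (ENNReal.ofReal ((‖y‖ ^ 2 - κ) ^ (-(α / 2))) *
        (ENNReal.ofReal (((κ - ‖x‖ ^ 2) / (1 - κ * ‖x‖ ^ 2)) ^ (α / 2)) *
        a (‖x‖ ^ 2) * ‖x - y‖ₑ ^ (-(d : ℝ))) * ‖y - z‖ₑ ^ (α - d)) := by
    refine setLIntegral_congr_fun (measurableSet_Dco d κ) fun y hy => ?_
    have hy' : κ < ‖y‖ ^ 2 := hy
    beta_reduce
    rw [lintegral_const_mul _ (by fun_prop), lintegral_mul_const _ (by fun_prop),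
      lintegral_const_mul _ (by fun_prop)]
    unfold Bout
    have hy1 : 0 ≤ (‖y‖ ^ 2 - κ) ^ (-(α / 2)) := Real.rpow_nonneg (by linarith) _
    rw [ENNReal.ofReal_mul hy1, mul_assoc (ENNReal.ofReal _) (ENNReal.ofReal _),
      T_in d h0 h2 hκ hκ1 ha hy']
    ring
  rw [e1, lintegral_lintegral_swap (by unfold Function.uncurry; fun_prop)]
  refine setLIntegral_congr_fun (measurableSet_Din d κ) fun x hx => ?_
  have hx' : ‖x‖ ^ 2 < κ := hx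
  have hx0 : 0 ≤ ‖x‖ ^ 2 := by positivity
  beta_reduce
  have e2 : ∫⁻ y in Dco d κ, (Cc d α)⁻¹ * (ENNReal.ofReal ((‖y‖ ^ 2 - κ) ^ (-(α / 2))) *
        (ENNReal.ofReal (((κ - ‖x‖ ^ 2) / (1 - κ * ‖x‖ ^ 2)) ^ (α / 2)) *
        a (‖x‖ ^ 2) * ‖x - y‖ₑ ^ (-(d : ℝ))) * ‖y - z‖ₑ ^ (α - d)) =
      (Cc d α)⁻¹ * (ENNReal.ofReal (((κ - ‖x‖ ^ 2) / (1 - κ * ‖x‖ ^ 2)) ^ (α / 2)) * a (‖x‖ ^ 2)) *
        ∫⁻ y in {y : V d | κ < ‖y‖ ^ 2}, ENNReal.ofReal ((‖y‖ ^ 2 - κ) ^ (-(α / 2))) *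
          ‖y - x‖ₑ ^ (-(d : ℝ)) * ‖y - z‖ₑ ^ (α - d) := by
    rw [← lintegral_const_mul _ (by fun_prop)]
    refine setLIntegral_congr_fun (measurableSet_Dco d κ) fun y hy => ?_
    beta_reduce
    rw [← enorm_neg (x - y), neg_sub]
    ring
  rw [e2, sweep_in d h0 h2 hκ hx' hz]
  have hC : (Cc d α)⁻¹ * Cc d α = 1 := ENNReal.inv_mul_cancel (Cc_ne_zero d h0 h2) (Cc_ne_top d α)
  have hk : 0 < κ - ‖x‖ ^ 2 := by linarith
  have h1 : 0 < 1 - κ * ‖x‖ ^ 2 := by nlinarith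
  have e3 : ENNReal.ofReal (((κ - ‖x‖ ^ 2) / (1 - κ * ‖x‖ ^ 2)) ^ (α / 2)) *
      ENNReal.ofReal ((κ - ‖x‖ ^ 2) ^ (-(α / 2))) =
      ENNReal.ofReal ((1 - κ * ‖x‖ ^ 2) ^ (-(α / 2))) := by
    rw [← ENNReal.ofReal_mul (by positivity)]
    congr 1
    rw [Real.div_rpow hk.le h1.le, Real.rpow_neg hk.le, Real.rpow_neg h1.le]
    have : (κ - ‖x‖ ^ 2) ^ (α / 2) ≠ 0 := by positivity
    field_simp
  unfold Ain
  rw [← e3]
  calc _ = 1 * (ENNReal.ofReal (((κ - ‖x‖ ^ 2) / (1 - κ * ‖x‖ ^ 2)) ^ (α / 2)) *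
        ENNReal.ofReal ((κ - ‖x‖ ^ 2) ^ (-(α / 2))) * a (‖x‖ ^ 2) * ‖x - z‖ₑ ^ (α - d)) := by
        rw [one_mul]
    _ = _ := by
        rw [← hC]
        ring

/-- **SWO1.** For `A = ‖y‖² < 1/κ`:
`(T b) A = C_d⁻¹ ∫_{κ ‖x‖² > 1} ‖x‖ ^ (-d) ((κ ‖x‖² - 1) / (‖x‖² - κ)) ^ (α/2) b(1 / ‖x‖²) ‖x - y‖ ^ (-d) dx`.
Proof: `rad_one` at `y` with `g u = 1_{κ u > 1} u ^ (-d/2) ((κ u - 1) / (u - κ)) ^ (α/2) b(1 / u)`, and substitute
`v = 1 / u` in the integral defining `T b`. -/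
theorem T_out (d : ℕ) [NeZero d] {α κ : ℝ} (h0 : 0 < α) (h2 : α < 2) (hκ : 0 < κ) (hκ1 : κ < 1)
    {b : ℝ → ℝ≥0∞} (hb : Measurable b) {y : V d} (hy : κ * ‖y‖ ^ 2 < 1) :
    T d α κ b (‖y‖ ^ 2) =
      (Cc d α)⁻¹ * ∫⁻ x in Dext d κ,
        ENNReal.ofReal ((‖x‖ ^ 2) ^ (-((d : ℝ) / 2)) *
          ((κ * ‖x‖ ^ 2 - 1) / (‖x‖ ^ 2 - κ)) ^ (α / 2)) *
        b (1 / ‖x‖ ^ 2) * ‖x - y‖ₑ ^ (-(d : ℝ)) := by
  obtain ⟨A, hA⟩ : ∃ A, A = ‖y‖ ^ 2 := ⟨_, rfl⟩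
  have hA0 : 0 ≤ A := by rw [hA]; positivity
  rw [← hA] at hy
  have hAκ : A < 1 / κ := by rw [lt_div_iff₀ hκ]; linarith
  set g : ℝ → ℝ≥0∞ := (Ioi (1 / κ)).indicator fun u =>
    ENNReal.ofReal (u ^ (-((d : ℝ) / 2)) * ((κ * u - 1) / (u - κ)) ^ (α / 2)) * b (1 / u) with hg
  have hgm : Measurable g := Measurable.indicator
    (Measurable.mul (by fun_prop) (hb.comp (by fun_prop))) measurableSet_Ioi
  have hrad := rad_one d y hgm (fun v hv => by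
    rw [hg]
    refine indicator_of_notMem (fun h => ?_) _
    have h' : 1 / κ < v := h
    rw [← hA] at hv
    linarith)
  rw [← hA] at hrad ⊢
  have e1 : ∫⁻ x : V d, g (‖x‖ ^ 2) * ‖x - y‖ₑ ^ (-(d : ℝ)) = ∫⁻ x in Dext d κ,
        ENNReal.ofReal ((‖x‖ ^ 2) ^ (-((d : ℝ) / 2)) *
          ((κ * ‖x‖ ^ 2 - 1) / (‖x‖ ^ 2 - κ)) ^ (α / 2)) *
        b (1 / ‖x‖ ^ 2) * ‖x - y‖ₑ ^ (-(d : ℝ)) := by
    rw [← lintegral_indicator (measurableSet_Dext d κ)]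
    refine lintegral_congr fun x => ?_
    by_cases hx : x ∈ Dext d κ
    · have hx' : 1 < κ * ‖x‖ ^ 2 := hx
      have hx2 : ‖x‖ ^ 2 ∈ Ioi (1 / κ) := by
        change 1 / κ < ‖x‖ ^ 2
        rw [div_lt_iff₀ hκ]
        linarith
      rw [indicator_of_mem hx, hg, indicator_of_mem hx2]
    · have hx2 : ‖x‖ ^ 2 ∉ Ioi (1 / κ) := by
        intro h
        apply hx
        have h' : 1 / κ < ‖x‖ ^ 2 := h
        rw [div_lt_iff₀ hκ] at h'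
        change 1 < κ * ‖x‖ ^ 2
        linarith
      rw [indicator_of_notMem hx, hg, indicator_of_notMem hx2, zero_mul]
  have e2 : ∫⁻ v in Ioi A, g v * ENNReal.ofReal ((v - A)⁻¹) =
      ∫⁻ w in Ioo (0 : ℝ) κ, ENNReal.ofReal (wt d α κ w / (1 - A * w)) * b w := by
    have e3 : ∫⁻ v in Ioi A, g v * ENNReal.ofReal ((v - A)⁻¹) =
        ∫⁻ u in Ioi (1 / κ), ENNReal.ofReal (u ^ (-((d : ℝ) / 2)) *
          ((κ * u - 1) / (u - κ)) ^ (α / 2)) * b (1 / u) * ENNReal.ofReal ((u - A)⁻¹) := by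
      rw [← lintegral_indicator measurableSet_Ioi, ← lintegral_indicator measurableSet_Ioi]
      refine lintegral_congr fun v => ?_
      by_cases hv : v ∈ Ioi (1 / κ)
      · have hv2 : v ∈ Ioi A := hAκ.trans hv
        rw [indicator_of_mem hv, indicator_of_mem hv2, hg, indicator_of_mem hv]
      · rw [indicator_of_notMem hv]
        by_cases hv2 : v ∈ Ioi A
        · rw [indicator_of_mem hv2, hg, indicator_of_notMem hv, zero_mul]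
        · rw [indicator_of_notMem hv2]
    have himg : (fun w : ℝ => w⁻¹) '' Ioo (0 : ℝ) κ = Ioi (1 / κ) := by
      ext u
      simp only [mem_image, mem_Ioo, mem_Ioi]
      constructor
      · rintro ⟨w, ⟨hw0, hw1⟩, rfl⟩
        rw [one_div]
        exact (inv_lt_inv₀ hκ hw0).mpr hw1
      · intro hu
        have hu0 : 0 < u := (by positivity : 0 < 1 / κ).trans hu
        refine ⟨u⁻¹, ⟨by positivity, ?_⟩, inv_inv u⟩
        rw [inv_lt_comm₀ hu0 hκ, ← one_div]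
        exact hu
    rw [e3, ← himg, lintegral_image_eq_lintegral_abs_deriv_mul (f' := fun w => -(w ^ 2)⁻¹)
      measurableSet_Ioo (fun w hw => (hasDerivAt_inv hw.1.ne').hasDerivWithinAt)
      (fun w _ w' _ h => inv_injective h)]
    refine setLIntegral_congr_fun measurableSet_Ioo fun w hw => ?_
    obtain ⟨hw0, hw1⟩ := hw
    have h1 : 0 < 1 - κ * w := by nlinarith
    have h3 : 0 < κ - w := by linarith
    have h4 : 0 < 1 - A * w := by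
      have : A * w ≤ A * κ := mul_le_mul_of_nonneg_left hw1.le hA0
      nlinarith
    have h5 : 0 < w⁻¹ - A := by
      have : w⁻¹ - A = (1 - A * w) / w := by field_simp
      rw [this]
      positivity
    beta_reduce
    have e4 : |(-(w ^ 2)⁻¹)| = (w ^ 2)⁻¹ := by rw [abs_neg, abs_of_pos (by positivity)]
    have e5 : (κ * w⁻¹ - 1) / (w⁻¹ - κ) = (κ - w) / (1 - κ * w) := by
      have h6 : w⁻¹ - κ = (1 - κ * w) / w := by field_simp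
      have h7 : κ * w⁻¹ - 1 = (κ - w) / w := by field_simp
      rw [h6, h7]
      field_simp
    rw [e4, e5, one_div, inv_inv, mul_right_comm, ← mul_assoc, ← ENNReal.ofReal_mul (by positivity),
      ← ENNReal.ofReal_mul (by positivity)]
    congr 2
    unfold wt
    have e6 : (w⁻¹) ^ (-((d : ℝ) / 2)) = w ^ ((d : ℝ) / 2 - 1) * w := by
      rw [Real.inv_rpow hw0.le, Real.rpow_neg hw0.le, inv_inv]
      nth_rewrite 3 [← Real.rpow_one w]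
      rw [← Real.rpow_add hw0]
      congr 1
      ring
    have e7 : (w⁻¹ - A)⁻¹ = w / (1 - A * w) := by
      have : w⁻¹ - A = (1 - A * w) / w := by field_simp
      rw [this, inv_div]
    rw [e6, e7]
    field_simp
  rw [e1, e2] at hrad
  rw [Cc_inv_mul d h0 h2 hrad]
  rfl

/-- **SWO2.** Insert `T_out` in the right side, exchange the integrals, use `sweep_out` with `B = 1 / κ`
(`(1 - κ ‖y‖²) = κ (1/κ - ‖y‖²)`, likewise for `κ ‖x‖² - 1`). -/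
theorem swap_out (d : ℕ) [NeZero d] {α κ : ℝ} (h0 : 0 < α) (h2 : α < 2) (hκ : 0 < κ) (hκ1 : κ < 1)
    {b : ℝ → ℝ≥0∞} (hb : Measurable b) {z : V d} (hz : κ * ‖z‖ ^ 2 ≤ 1) :
    ∫⁻ x in Dext d κ, Bout d α κ b x * ‖x - z‖ₑ ^ (α - d) =
      ∫⁻ y in Dball d κ, Ain d α κ (T d α κ b) y * ‖y - z‖ₑ ^ (α - d) := by
  have hDb : Dball d κ = {y : V d | ‖y‖ ^ 2 < 1 / κ} := by
    ext y
    change κ * ‖y‖ ^ 2 < 1 ↔ ‖y‖ ^ 2 < 1 / κ
    rw [lt_div_iff₀ hκ, mul_comm]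
  have hbm : Measurable fun x : V d => b (1 / ‖x‖ ^ 2) := hb.comp (by fun_prop)
  have hbm2 : Measurable fun x : V d × V d => b (1 / ‖x.2‖ ^ 2) := hb.comp (by fun_prop)
  have e1 : ∫⁻ y in Dball d κ, Ain d α κ (T d α κ b) y * ‖y - z‖ₑ ^ (α - d) =
      ∫⁻ y in Dball d κ, ∫⁻ x in Dext d κ, (Cc d α)⁻¹ *
        (ENNReal.ofReal ((1 - κ * ‖y‖ ^ 2) ^ (-(α / 2))) *
        (ENNReal.ofReal ((‖x‖ ^ 2) ^ (-((d : ℝ) / 2)) *
          ((κ * ‖x‖ ^ 2 - 1) / (‖x‖ ^ 2 - κ)) ^ (α / 2)) *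
        b (1 / ‖x‖ ^ 2) * ‖x - y‖ₑ ^ (-(d : ℝ))) * ‖y - z‖ₑ ^ (α - d)) := by
    refine setLIntegral_congr_fun (measurableSet_Dball d κ) fun y hy => ?_
    have hy' : κ * ‖y‖ ^ 2 < 1 := hy
    beta_reduce
    rw [lintegral_const_mul _ (by fun_prop), lintegral_mul_const _ (by fun_prop),
      lintegral_const_mul _ (by fun_prop)]
    unfold Ain
    rw [T_out d h0 h2 hκ hκ1 hb hy']
    ring
  rw [e1, lintegral_lintegral_swap (by unfold Function.uncurry; fun_prop)]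
  refine setLIntegral_congr_fun (measurableSet_Dext d κ) fun x hx => ?_
  have hx' : 1 < κ * ‖x‖ ^ 2 := hx
  have hx0 : 0 ≤ ‖x‖ ^ 2 := by positivity
  beta_reduce
  have e2 : ∫⁻ y in Dball d κ, (Cc d α)⁻¹ *
        (ENNReal.ofReal ((1 - κ * ‖y‖ ^ 2) ^ (-(α / 2))) *
        (ENNReal.ofReal ((‖x‖ ^ 2) ^ (-((d : ℝ) / 2)) *
          ((κ * ‖x‖ ^ 2 - 1) / (‖x‖ ^ 2 - κ)) ^ (α / 2)) *
        b (1 / ‖x‖ ^ 2) * ‖x - y‖ₑ ^ (-(d : ℝ))) * ‖y - z‖ₑ ^ (α - d)) =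
      (Cc d α)⁻¹ * (ENNReal.ofReal ((‖x‖ ^ 2) ^ (-((d : ℝ) / 2)) *
          ((κ * ‖x‖ ^ 2 - 1) / (‖x‖ ^ 2 - κ)) ^ (α / 2)) * b (1 / ‖x‖ ^ 2)) *
        ENNReal.ofReal (κ ^ (-(α / 2))) *
        ∫⁻ y in {y : V d | ‖y‖ ^ 2 < 1 / κ}, ENNReal.ofReal ((1 / κ - ‖y‖ ^ 2) ^ (-(α / 2))) *
          ‖y - x‖ₑ ^ (-(d : ℝ)) * ‖y - z‖ₑ ^ (α - d) := by
    rw [← lintegral_const_mul _ (by fun_prop), ← hDb]
    refine setLIntegral_congr_fun (measurableSet_Dball d κ) fun y hy => ?_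
    have hy' : κ * ‖y‖ ^ 2 < 1 := hy
    have hy2 : 0 < 1 / κ - ‖y‖ ^ 2 := by
      have : 1 / κ - ‖y‖ ^ 2 = (1 - κ * ‖y‖ ^ 2) / κ := by field_simp
      rw [this]
      exact div_pos (by linarith) hκ
    beta_reduce
    have e3 : ENNReal.ofReal ((1 - κ * ‖y‖ ^ 2) ^ (-(α / 2))) = ENNReal.ofReal (κ ^ (-(α / 2))) *
        ENNReal.ofReal ((1 / κ - ‖y‖ ^ 2) ^ (-(α / 2))) := by
      rw [← ENNReal.ofReal_mul (by positivity), ← Real.mul_rpow hκ.le hy2.le, mul_sub,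
        mul_one_div_cancel hκ.ne']
    rw [← enorm_neg (x - y), neg_sub, e3]
    ring
  have hxB : 1 / κ < ‖x‖ ^ 2 := by
    rw [div_lt_iff₀ hκ]
    linarith
  have hzB : ‖z‖ ^ 2 ≤ 1 / κ := by
    rw [le_div_iff₀ hκ]
    linarith
  rw [e2, sweep_out d h0 h2 (by positivity : 0 < 1 / κ) hxB hzB]
  have hC : (Cc d α)⁻¹ * Cc d α = 1 := ENNReal.inv_mul_cancel (Cc_ne_zero d h0 h2) (Cc_ne_top d α)
  have hk : 0 < κ * ‖x‖ ^ 2 - 1 := by linarith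
  have hu : 0 < ‖x‖ ^ 2 - 1 / κ := by linarith
  have hκκ : κ < 1 / κ := by
    rw [lt_div_iff₀ hκ]
    nlinarith
  have h1 : 0 < ‖x‖ ^ 2 - κ := by linarith
  have hx1 : 0 < ‖x‖ ^ 2 := by linarith
  have e4 : ENNReal.ofReal ((‖x‖ ^ 2) ^ (-((d : ℝ) / 2)) *
          ((κ * ‖x‖ ^ 2 - 1) / (‖x‖ ^ 2 - κ)) ^ (α / 2)) * ENNReal.ofReal (κ ^ (-(α / 2))) *
      ENNReal.ofReal ((‖x‖ ^ 2 - 1 / κ) ^ (-(α / 2))) =
      ENNReal.ofReal ((‖x‖ ^ 2 - κ) ^ (-(α / 2)) * (‖x‖ ^ 2) ^ (-((d : ℝ) / 2))) := by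
    rw [← ENNReal.ofReal_mul (by positivity), ← ENNReal.ofReal_mul (by positivity)]
    congr 1
    have e5 : κ ^ (-(α / 2)) * (‖x‖ ^ 2 - 1 / κ) ^ (-(α / 2)) = (κ * ‖x‖ ^ 2 - 1) ^ (-(α / 2)) := by
      rw [← Real.mul_rpow hκ.le hu.le, mul_sub, mul_one_div_cancel hκ.ne']
    rw [mul_assoc _ (κ ^ (-(α / 2))), e5, Real.div_rpow hk.le h1.le, Real.rpow_neg hk.le,
      Real.rpow_neg h1.le]
    have h7 : (κ * ‖x‖ ^ 2 - 1) ^ (α / 2) ≠ 0 := by positivity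
    generalize (κ * ‖x‖ ^ 2 - 1) ^ (α / 2) = P at h7 ⊢
    field_simp
  unfold Bout
  rw [← e4]
  calc _ = 1 * (ENNReal.ofReal ((‖x‖ ^ 2) ^ (-((d : ℝ) / 2)) *
          ((κ * ‖x‖ ^ 2 - 1) / (‖x‖ ^ 2 - κ)) ^ (α / 2)) * ENNReal.ofReal (κ ^ (-(α / 2))) *
      ENNReal.ofReal ((‖x‖ ^ 2 - 1 / κ) ^ (-(α / 2))) * b (1 / ‖x‖ ^ 2) *
        ‖x - z‖ₑ ^ (α - d)) := by
        rw [one_mul]
    _ = _ := by
        rw [← hC]
        ring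

end Pool.Agent.Lib.H16RA
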