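import Mathlib
import Pool.Agent.Lib.H16RA.Swap

set_option autoImplicit false

/-!
# RA2 chunk TEL: the telescoping identity
-/

namespace Pool.Agent.Lib.H16RA

open MeasureTheory Set Metric
open scoped ENNReal Real

theorem null_level (d : ℕ) {c : ℝ} (hc : 0 < c) :
    (volume : Measure (V d)) {y : V d | ‖y‖ ^ 2 = c} = 0 := by
  have h : {y : V d | ‖y‖ ^ 2 = c} ⊆ sphere (0 : V d) (√c) := by
    intro y hy
    have hy : ‖y‖ ^ 2 = c := hy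
    rw [mem_sphere_zero_iff_norm, ← hy, Real.sqrt_sq (norm_nonneg y)]
  refine measure_mono_null h ?_
  exact Measure.addHaar_sphere_of_ne_zero _ _ (Real.sqrt_pos.mpr hc).ne'

/-- **TEL1.** The spheres `‖y‖² = κ`, `κ ‖y‖² = 1` are null (`Measure.addHaar_sphere`); `0 < κ < 1`. -/
theorem split_ball (d : ℕ) [NeZero d] {κ : ℝ} (hκ : 0 < κ) (hκ1 : κ < 1) (G : V d → ℝ≥0∞) :
    ∫⁻ y in Dball d κ, G y = (∫⁻ y in Ann d κ, G y) + ∫⁻ y in Din d κ, G y := by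
  have hdisj : Disjoint (Ann d κ) (Din d κ) := by
    rw [Set.disjoint_left]
    intro y hy hy'
    exact absurd hy.1 (not_le.mpr hy')
  rw [← lintegral_union (measurableSet_Din d κ) hdisj]
  refine setLIntegral_congr ?_
  have hnull : (volume : Measure (V d)) {y : V d | ‖y‖ ^ 2 = 1 / κ} = 0 :=
    null_level d (by positivity)
  have hae : ∀ᵐ y : V d, ¬ (‖y‖ ^ 2 = 1 / κ) := by
    rw [ae_iff]
    simpa using hnull
  filter_upwards [hae] with y hy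
  refine propext ?_
  show κ * ‖y‖ ^ 2 < 1 ↔ ((κ ≤ ‖y‖ ^ 2 ∧ κ * ‖y‖ ^ 2 ≤ 1) ∨ ‖y‖ ^ 2 < κ)
  constructor
  · intro h
    by_cases h1 : κ ≤ ‖y‖ ^ 2
    · exact Or.inl ⟨h1, h.le⟩
    · exact Or.inr (not_le.mp h1)
  · rintro (⟨h1, h2⟩ | h)
    · refine lt_of_le_of_ne h2 ?_
      intro h3
      apply hy
      field_simp
      linarith
    · nlinarith [sq_nonneg ‖y‖]

theorem split_co (d : ℕ) [NeZero d] {κ : ℝ} (hκ : 0 < κ) (hκ1 : κ < 1) (G : V d → ℝ≥0∞) :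
    ∫⁻ y in Dco d κ, G y = (∫⁻ y in Ann d κ, G y) + ∫⁻ y in Dext d κ, G y := by
  have hdisj : Disjoint (Ann d κ) (Dext d κ) := by
    rw [Set.disjoint_left]
    intro y hy hy'
    exact absurd hy.2 (not_le.mpr hy')
  rw [← lintegral_union (measurableSet_Dext d κ) hdisj]
  refine setLIntegral_congr ?_
  have hnull : (volume : Measure (V d)) {y : V d | ‖y‖ ^ 2 = κ} = 0 :=
    null_level d hκ
  have hae : ∀ᵐ y : V d, ¬ (‖y‖ ^ 2 = κ) := by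
    rw [ae_iff]
    simpa using hnull
  filter_upwards [hae] with y hy
  refine propext ?_
  show κ < ‖y‖ ^ 2 ↔ ((κ ≤ ‖y‖ ^ 2 ∧ κ * ‖y‖ ^ 2 ≤ 1) ∨ 1 < κ * ‖y‖ ^ 2)
  constructor
  · intro h
    by_cases h1 : κ * ‖y‖ ^ 2 ≤ 1
    · exact Or.inl ⟨h.le, h1⟩
    · exact Or.inr (not_le.mp h1)
  · rintro (⟨h1, h2⟩ | h)
    · exact lt_of_le_of_ne h1 (Ne.symm hy)
    · by_contra h3
      push Not at h3
      nlinarith [sq_nonneg ‖y‖]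

/-- **TEL2.** `ball_potential` with `B = 1 / κ`. -/
theorem base_pot (d : ℕ) [NeZero d] {α κ : ℝ} (h0 : 0 < α) (h2 : α < 2) (hκ : 0 < κ) (hκ1 : κ < 1)
    {z : V d} (hz : κ * ‖z‖ ^ 2 ≤ 1) :
    ∫⁻ y in Dball d κ, Ain d α κ (fun _ => 1) y * ‖y - z‖ₑ ^ (α - d) = CK d α κ := by
  have hz' : ‖z‖ ^ 2 ≤ 1 / κ := by
    rw [le_div_iff₀ hκ]
    linarith
  have hb := ball_potential d h0 h2 (B := 1 / κ) (by positivity) z hz'
  have hset : Dball d κ = {y : V d | ‖y‖ ^ 2 < 1 / κ} := by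
    ext y
    show κ * ‖y‖ ^ 2 < 1 ↔ ‖y‖ ^ 2 < 1 / κ
    rw [lt_div_iff₀ hκ, mul_comm]
  unfold CK
  rw [← hb, hset, ← lintegral_const_mul' _ _ ENNReal.ofReal_ne_top]
  refine setLIntegral_congr_fun (measurableSet_lt (by fun_prop) (by fun_prop)) ?_
  intro y hy
  have hy' : ‖y‖ ^ 2 < 1 / κ := hy
  show ENNReal.ofReal ((1 - κ * ‖y‖ ^ 2) ^ (-(α / 2))) * 1 * ‖y - z‖ₑ ^ (α - d) =
    ENNReal.ofReal (κ ^ (-(α / 2))) * (ENNReal.ofReal ((1 / κ - ‖y‖ ^ 2) ^ (-(α / 2))) *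
      ‖y - z‖ₑ ^ (α - d))
  have h3 : (1 - κ * ‖y‖ ^ 2) = κ * (1 / κ - ‖y‖ ^ 2) := by
    field_simp
  rw [h3, Real.mul_rpow hκ.le (by linarith), ENNReal.ofReal_mul (by positivity), mul_one, mul_assoc]

/-- **TEL3.** Induction on `N`: the case `N = 0` is `base_pot` and `split_ball`; for the step
`∫_{Din} Ain (T^(2N) 1) = ∫_{Dco} Bout (T^(2N+1) 1)` (`swap_in`) `= ∫_{Ann} Bout (T^(2N+1) 1) + ∫_{Dext} Bout (T^(2N+1) 1)`
(`split_co`), `∫_{Dext} Bout (T^(2N+1) 1) = ∫_{Dball} Ain (T^(2N+2) 1)` (`swap_out`), and `split_ball`. -/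
theorem tele (d : ℕ) [NeZero d] {α κ : ℝ} (h0 : 0 < α) (h2 : α < 2) (hκ : 0 < κ) (hκ1 : κ < 1)
    {z : V d} (hz : z ∈ Ann d κ) (N : ℕ) :
    CK d α κ =
      (∑ n ∈ Finset.range (N + 1),
        ∫⁻ y in Ann d κ, Ain d α κ (it d α κ (2 * n)) y * ‖y - z‖ₑ ^ (α - d)) +
      (∑ n ∈ Finset.range N,
        ∫⁻ y in Ann d κ, Bout d α κ (it d α κ (2 * n + 1)) y * ‖y - z‖ₑ ^ (α - d)) +
      ∫⁻ y in Din d κ, Ain d α κ (it d α κ (2 * N)) y * ‖y - z‖ₑ ^ (α - d) := by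
  have hz1 : κ ≤ ‖z‖ ^ 2 := hz.1
  have hz2 : κ * ‖z‖ ^ 2 ≤ 1 := hz.2
  induction N with
  | zero =>
    rw [Finset.sum_range_one, Finset.sum_range_zero, add_zero, ← base_pot d h0 h2 hκ hκ1 hz2]
    exact split_ball d hκ hκ1 _
  | succ N ih =>
    rw [ih]
    have e1 : ∫⁻ y in Din d κ, Ain d α κ (it d α κ (2 * N)) y * ‖y - z‖ₑ ^ (α - d) =
        ∫⁻ y in Dco d κ, Bout d α κ (it d α κ (2 * N + 1)) y * ‖y - z‖ₑ ^ (α - d) :=
      swap_in d h0 h2 hκ hκ1 (it_meas d α κ (2 * N)) hz1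
    have e2 := split_co d hκ hκ1
      (fun y => Bout d α κ (it d α κ (2 * N + 1)) y * ‖y - z‖ₑ ^ (α - d))
    have e3 : ∫⁻ x in Dext d κ, Bout d α κ (it d α κ (2 * N + 1)) x * ‖x - z‖ₑ ^ (α - d) =
        ∫⁻ y in Dball d κ, Ain d α κ (it d α κ (2 * (N + 1))) y * ‖y - z‖ₑ ^ (α - d) :=
      swap_out d h0 h2 hκ hκ1 (it_meas d α κ (2 * N + 1)) hz2
    have e4 := split_ball d hκ hκ1
      (fun y => Ain d α κ (it d α κ (2 * (N + 1))) y * ‖y - z‖ₑ ^ (α - d))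
    rw [e1, e2, e3, e4, Finset.sum_range_succ _ (N + 1),
      Finset.sum_range_succ (fun n =>
        ∫⁻ y in Ann d κ, Bout d α κ (it d α κ (2 * n + 1)) y * ‖y - z‖ₑ ^ (α - d)) N]
    generalize (∑ n ∈ Finset.range (N + 1),
        ∫⁻ y in Ann d κ, Ain d α κ (it d α κ (2 * n)) y * ‖y - z‖ₑ ^ (α - d)) = S1
    generalize (∑ n ∈ Finset.range N,
        ∫⁻ y in Ann d κ, Bout d α κ (it d α κ (2 * n + 1)) y * ‖y - z‖ₑ ^ (α - d)) = S2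
    generalize (∫⁻ y in Ann d κ, Bout d α κ (it d α κ (2 * N + 1)) y * ‖y - z‖ₑ ^ (α - d)) = S3
    generalize (∫⁻ y in Ann d κ, Ain d α κ (it d α κ (2 * (N + 1))) y * ‖y - z‖ₑ ^ (α - d)) = S4
    generalize (∫⁻ y in Din d κ, Ain d α κ (it d α κ (2 * (N + 1))) y * ‖y - z‖ₑ ^ (α - d)) = S5
    ring

end Pool.Agent.Lib.H16RA
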