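import Mathlib
import Pool.Agent.Lib.H16RA.Tele
import Pool.Agent.Lib.H16RA.Contr

set_option autoImplicit false

/-!
# RA2 chunk POTA
-/

namespace Pool.Agent.Lib.H16RA

open MeasureTheory Set Metric
open scoped ENNReal Real

theorem rem_le_pf (d : ℕ) [NeZero d] {α κ : ℝ} (h0 : 0 < α) (h2 : α < 2) (hκ : 0 < κ) (hκ1 : κ < 1)
    {z : V d} (hz : κ * ‖z‖ ^ 2 ≤ 1) (N : ℕ) :
    ∫⁻ y in Din d κ, Ain d α κ (it d α κ (2 * N)) y * ‖y - z‖ₑ ^ (α - d) ≤
      ENNReal.ofReal (qq α κ ^ (2 * N) / (1 - κ ^ 2)) * CK d α κ := by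
  have hsub : Din d κ ⊆ Dball d κ := by
    intro y hy
    simp only [Din, Dball, mem_setOf_eq] at *
    nlinarith
  set c : ℝ≥0∞ := ENNReal.ofReal (qq α κ ^ (2 * N) / (1 - κ ^ 2)) with hc
  calc ∫⁻ y in Din d κ, Ain d α κ (it d α κ (2 * N)) y * ‖y - z‖ₑ ^ (α - d)
      ≤ ∫⁻ y in Din d κ, c * (Ain d α κ (fun _ => 1) y * ‖y - z‖ₑ ^ (α - d)) := by
        refine setLIntegral_mono' (measurableSet_Din d κ) fun y hy => ?_
        simp only [Din, mem_setOf_eq] at hy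
        have hx : κ * ‖y‖ ^ 2 ≤ κ ^ 2 := by nlinarith
        have hk2 : κ ^ 2 < 1 := by nlinarith
        have h1 := it_le d h0 h2 hκ hκ1 (2 * N) (x := ‖y‖ ^ 2) (by positivity) (by linarith)
        have h3 : it d α κ (2 * N) (‖y‖ ^ 2) ≤ c := by
          refine h1.trans (ENNReal.ofReal_le_ofReal ?_)
          have hq : 0 ≤ qq α κ ^ (2 * N) := (pow_pos (qq_pos h0 h2 hκ) _).le
          exact div_le_div_of_nonneg_left hq (by linarith) (by linarith)
        unfold Ain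
        calc ENNReal.ofReal ((1 - κ * ‖y‖ ^ 2) ^ (-(α / 2))) * it d α κ (2 * N) (‖y‖ ^ 2) *
              ‖y - z‖ₑ ^ (α - d)
            ≤ ENNReal.ofReal ((1 - κ * ‖y‖ ^ 2) ^ (-(α / 2))) * c * ‖y - z‖ₑ ^ (α - d) := by
              gcongr
          _ = _ := by ring
    _ ≤ ∫⁻ y in Dball d κ, c * (Ain d α κ (fun _ => 1) y * ‖y - z‖ₑ ^ (α - d)) :=
        lintegral_mono_set hsub
    _ = c * ∫⁻ y in Dball d κ, Ain d α κ (fun _ => 1) y * ‖y - z‖ₑ ^ (α - d) :=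
        lintegral_const_mul' _ _ ENNReal.ofReal_ne_top
    _ = _ := by rw [base_pot d h0 h2 hκ hκ1 hz]

theorem pot_pf (d : ℕ) [NeZero d] {α κ : ℝ} (h0 : 0 < α) (h2 : α < 2) (hκ : 0 < κ) (hκ1 : κ < 1)
    {z : V d} (hz : z ∈ Ann d κ) :
    ∫⁻ y in Ann d κ, (Ain d α κ (phi d α κ) y + Bout d α κ (chi d α κ) y) *
      ‖y - z‖ₑ ^ (α - d) = CK d α κ := by
  set A : ℕ → ℝ≥0∞ := fun n =>
    ∫⁻ y in Ann d κ, Ain d α κ (it d α κ (2 * n)) y * ‖y - z‖ₑ ^ (α - d) with hA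
  set B : ℕ → ℝ≥0∞ := fun n =>
    ∫⁻ y in Ann d κ, Bout d α κ (it d α κ (2 * n + 1)) y * ‖y - z‖ₑ ^ (α - d) with hB
  set r : ℕ → ℝ≥0∞ := fun N =>
    ∫⁻ y in Din d κ, Ain d α κ (it d α κ (2 * N)) y * ‖y - z‖ₑ ^ (α - d) with hr
  have hmA : ∀ n, Measurable fun y : V d =>
      Ain d α κ (it d α κ (2 * n)) y * ‖y - z‖ₑ ^ (α - d) := fun n =>
    (Ain_meas d α κ (it_meas d α κ _)).mul (kern_meas d _ z)
  have hmB : ∀ n, Measurable fun y : V d =>
      Bout d α κ (it d α κ (2 * n + 1)) y * ‖y - z‖ₑ ^ (α - d) := fun n =>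
    (Bout_meas d α κ (it_meas d α κ _)).mul (kern_meas d _ z)
  have hL : ∫⁻ y in Ann d κ, (Ain d α κ (phi d α κ) y + Bout d α κ (chi d α κ) y) *
      ‖y - z‖ₑ ^ (α - d) = (∑' n, A n) + ∑' n, B n := by
    have h1 : ∀ y : V d, (Ain d α κ (phi d α κ) y + Bout d α κ (chi d α κ) y) *
        ‖y - z‖ₑ ^ (α - d) =
        (∑' n, Ain d α κ (it d α κ (2 * n)) y * ‖y - z‖ₑ ^ (α - d)) +
        ∑' n, Bout d α κ (it d α κ (2 * n + 1)) y * ‖y - z‖ₑ ^ (α - d) := by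
      intro y
      rw [add_mul, ENNReal.tsum_mul_right, ENNReal.tsum_mul_right]
      congr 2
      · unfold Ain phi
        rw [ENNReal.tsum_mul_left]
      · unfold Bout chi
        rw [ENNReal.tsum_mul_left]
    simp_rw [h1]
    rw [lintegral_add_left (Measurable.ennreal_tsum hmA), lintegral_tsum fun n => (hmA n).aemeasurable,
      lintegral_tsum fun n => (hmB n).aemeasurable]
  rw [hL]
  have hzb : κ * ‖z‖ ^ 2 ≤ 1 := hz.2
  have hCK : CK d α κ ≠ ⊤ := by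
    unfold CK
    exact ENNReal.mul_ne_top ENNReal.ofReal_ne_top (Cc_ne_top d α)
  have hr0 : Filter.Tendsto r Filter.atTop (nhds 0) := by
    have hq0 := qq_pos h0 h2 hκ
    have hq1 := qq_lt_one h0 h2 hκ hκ1
    have hreal : Filter.Tendsto (fun N : ℕ => qq α κ ^ (2 * N) / (1 - κ ^ 2)) Filter.atTop
        (nhds (0 / (1 - κ ^ 2))) := by
      refine Filter.Tendsto.div_const ?_ _
      have h4 : Filter.Tendsto (fun N : ℕ => 2 * N) Filter.atTop Filter.atTop :=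
        Filter.tendsto_id.const_mul_atTop' (by norm_num)
      exact (tendsto_pow_atTop_nhds_zero_of_lt_one hq0.le hq1).comp h4
    have h5 := (ENNReal.tendsto_ofReal hreal)
    rw [zero_div, ENNReal.ofReal_zero] at h5
    have h6 := ENNReal.Tendsto.mul_const (b := CK d α κ) h5 (Or.inr hCK)
    rw [zero_mul] at h6
    exact tendsto_of_tendsto_of_tendsto_of_le_of_le tendsto_const_nhds h6
      (fun N => zero_le) (fun N => rem_le_pf d h0 h2 hκ hκ1 hzb N)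
  have hA' : Filter.Tendsto (fun N => ∑ n ∈ Finset.range (N + 1), A n) Filter.atTop
      (nhds (∑' n, A n)) :=
    (ENNReal.tendsto_nat_tsum A).comp (Filter.tendsto_add_atTop_nat 1)
  have hB' : Filter.Tendsto (fun N => ∑ n ∈ Finset.range N, B n) Filter.atTop
      (nhds (∑' n, B n)) := ENNReal.tendsto_nat_tsum B
  have hsum := (hA'.add hB').add hr0
  rw [add_zero] at hsum
  have hconst : (fun N => (∑ n ∈ Finset.range (N + 1), A n) + (∑ n ∈ Finset.range N, B n) + r N) =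
      fun _ => CK d α κ := by
    funext N
    exact (tele d h0 h2 hκ hκ1 hz N).symm
  rw [hconst] at hsum
  exact (tendsto_nhds_unique tendsto_const_nhds hsum).symm

end Pool.Agent.Lib.H16RA
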