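import Mathlib
import Pool.Agent.Lib.H16RA.Defs

set_option autoImplicit false

/-!
# RA2 chunk POTB: positivity and finiteness of the mass (generic forms used in `Pot.lean`)
-/

namespace Pool.Agent.Lib.H16RA

open MeasureTheory Set Metric
open scoped ENNReal Real

/-- a unit vector -/
noncomputable def e0 (d : ℕ) [NeZero d] : V d := EuclideanSpace.single (0 : Fin d) (1 : ℝ)

theorem norm_e0 (d : ℕ) [NeZero d] : ‖e0 d‖ = 1 := by
  unfold e0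
  rw [PiLp.norm_single, norm_one]

theorem e0_mem (d : ℕ) [NeZero d] {κ : ℝ} (hκ1 : κ < 1) : e0 d ∈ Ann d κ := by
  show κ ≤ ‖e0 d‖ ^ 2 ∧ κ * ‖e0 d‖ ^ 2 ≤ 1
  rw [norm_e0]
  constructor <;> linarith

theorem neg_e0_mem (d : ℕ) [NeZero d] {κ : ℝ} (hκ1 : κ < 1) : -e0 d ∈ Ann d κ := by
  show κ ≤ ‖-e0 d‖ ^ 2 ∧ κ * ‖-e0 d‖ ^ 2 ≤ 1
  rw [norm_neg, norm_e0]
  constructor <;> linarith

/-- `0 < ∫_{Ann} F` if `F ≥ (1 - κ ‖y‖²) ^ (-α/2)`. -/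
theorem mass_pos_gen (d : ℕ) [NeZero d] {α κ : ℝ} (h0 : 0 < α) (hκ : 0 < κ) (hκ1 : κ < 1)
    {F : V d → ℝ≥0∞} (hF : ∀ y, Ain d α κ (fun _ => 1) y ≤ F y) :
    0 < ∫⁻ y in Ann d κ, F y := by
  have hUo : IsOpen {y : V d | κ < ‖y‖ ^ 2 ∧ κ * ‖y‖ ^ 2 < 1} := by
    show IsOpen ({y : V d | κ < ‖y‖ ^ 2} ∩ {y : V d | κ * ‖y‖ ^ 2 < 1})
    exact (isOpen_lt (by fun_prop) (by fun_prop)).inter (isOpen_lt (by fun_prop) (by fun_prop))
  have hUne : ({y : V d | κ < ‖y‖ ^ 2 ∧ κ * ‖y‖ ^ 2 < 1} : Set (V d)).Nonempty := by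
    refine ⟨e0 d, ?_⟩
    show κ < ‖e0 d‖ ^ 2 ∧ κ * ‖e0 d‖ ^ 2 < 1
    rw [norm_e0]
    constructor <;> linarith
  have hpos : 0 < (volume : Measure (V d)) {y : V d | κ < ‖y‖ ^ 2 ∧ κ * ‖y‖ ^ 2 < 1} :=
    hUo.measure_pos _ hUne
  calc 0 < (volume : Measure (V d)) {y : V d | κ < ‖y‖ ^ 2 ∧ κ * ‖y‖ ^ 2 < 1} := hpos
    _ = ∫⁻ _y in {y : V d | κ < ‖y‖ ^ 2 ∧ κ * ‖y‖ ^ 2 < 1}, (1 : ℝ≥0∞) := by
        rw [setLIntegral_one]
    _ ≤ ∫⁻ y in {y : V d | κ < ‖y‖ ^ 2 ∧ κ * ‖y‖ ^ 2 < 1}, F y := by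
        refine setLIntegral_mono' hUo.measurableSet ?_
        intro y hy
        refine le_trans ?_ (hF y)
        show (1 : ℝ≥0∞) ≤ ENNReal.ofReal ((1 - κ * ‖y‖ ^ 2) ^ (-(α / 2))) * 1
        rw [mul_one, ENNReal.one_le_ofReal]
        have h1 : κ * ‖y‖ ^ 2 < 1 := hy.2
        have h2 : 0 ≤ κ * ‖y‖ ^ 2 := by positivity
        exact Real.one_le_rpow_of_pos_of_le_one_of_nonpos (by linarith) (by linarith) (by linarith)
    _ ≤ ∫⁻ y in Ann d κ, F y := by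
        refine lintegral_mono_set ?_
        intro y hy
        exact ⟨hy.1.le, hy.2.le⟩

theorem ann_norm_le (d : ℕ) {κ : ℝ} (hκ : 0 < κ) (hκ1 : κ < 1) {y : V d} (hy : y ∈ Ann d κ) :
    ‖y‖ ≤ 1 / κ := by
  have h1 : κ * ‖y‖ ^ 2 ≤ 1 := hy.2
  rw [le_div_iff₀ hκ]
  by_contra h
  push Not at h
  have h2 : 0 ≤ ‖y‖ := norm_nonneg y
  have h3 : 1 < ‖y‖ := by nlinarith
  nlinarith

/-- `∫_{Ann} F < ∞` if the potential of `F` is finite on the annulus. -/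
theorem mass_lt_top_gen (d : ℕ) [NeZero d] {e κ : ℝ} (hκ : 0 < κ) (hκ1 : κ < 1)
    {F : V d → ℝ≥0∞} (hFm : Measurable F)
    (hF : ∀ z ∈ Ann d κ, ∫⁻ y in Ann d κ, F y * ‖y - z‖ₑ ^ e < ⊤) :
    ∫⁻ y in Ann d κ, F y < ⊤ := by
  rcases le_or_gt e 0 with he | he
  · set L : ℝ := 1 / κ + 1 with hL
    have hLpos : 0 < L := by positivity
    set c : ℝ≥0∞ := ENNReal.ofReal L ^ e with hc
    have hLne : ENNReal.ofReal L ≠ 0 := (ENNReal.ofReal_pos.mpr hLpos).ne'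
    have hc0 : c ≠ 0 := by
      rw [hc]
      intro h
      rw [ENNReal.rpow_eq_zero_iff] at h
      rcases h with ⟨h, _⟩ | ⟨h, _⟩
      · exact hLne h
      · exact ENNReal.ofReal_ne_top h
    have hnorm : ∀ y ∈ Ann d κ, ‖y - e0 d‖ ≤ L := by
      intro y hy
      calc ‖y - e0 d‖ ≤ ‖y‖ + ‖e0 d‖ := norm_sub_le _ _
        _ ≤ 1 / κ + 1 := by
          rw [norm_e0]
          linarith [ann_norm_le d hκ hκ1 hy]
    have h1 : c * ∫⁻ y in Ann d κ, F y ≤ ∫⁻ y in Ann d κ, F y * ‖y - e0 d‖ₑ ^ e := by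
      rw [← lintegral_const_mul _ hFm]
      refine setLIntegral_mono' (measurableSet_Ann d κ) ?_
      intro y hy
      rw [mul_comm c]
      gcongr
      have hle : ‖y - e0 d‖ₑ ≤ ENNReal.ofReal L := by
        rw [← ofReal_norm]
        exact ENNReal.ofReal_le_ofReal (hnorm y hy)
      obtain ⟨t, ht, het⟩ : ∃ t : ℝ, 0 ≤ t ∧ e = -t := ⟨-e, by linarith, by ring⟩
      rw [hc, het, ENNReal.rpow_neg, ENNReal.rpow_neg]
      exact ENNReal.inv_le_inv.mpr (ENNReal.rpow_le_rpow hle ht)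
    have h2 := lt_of_le_of_lt h1 (hF (e0 d) (e0_mem d hκ1))
    by_contra h3
    have h4 : ∫⁻ y in Ann d κ, F y = ⊤ := not_lt_top_iff.mp h3
    rw [h4, ENNReal.mul_top hc0] at h2
    exact lt_irrefl _ h2
  · have h1 : ∫⁻ y in Ann d κ, F y ≤ (∫⁻ y in Ann d κ, F y * ‖y - e0 d‖ₑ ^ e) +
        ∫⁻ y in Ann d κ, F y * ‖y - -e0 d‖ₑ ^ e := by
      rw [← lintegral_add_left (by fun_prop)]
      refine setLIntegral_mono' (measurableSet_Ann d κ) ?_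
      intro y hy
      rw [← mul_add]
      conv_lhs => rw [← mul_one (F y)]
      gcongr
      have h2 : (1 : ℝ) ≤ ‖y - e0 d‖ ∨ (1 : ℝ) ≤ ‖y - -e0 d‖ := by
        by_contra h
        push Not at h
        have h3 : ‖(y - -e0 d) - (y - e0 d)‖ ≤ ‖y - -e0 d‖ + ‖y - e0 d‖ := norm_sub_le _ _
        have h4 : (y - -e0 d) - (y - e0 d) = (2 : ℝ) • e0 d := by
          rw [two_smul]
          abel
        rw [h4, norm_smul, norm_e0, Real.norm_eq_abs, abs_of_pos (by norm_num : (0 : ℝ) < 2)] at h3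
        linarith [h.1, h.2]
      have key : ∀ x : V d, (1 : ℝ) ≤ ‖x‖ → (1 : ℝ≥0∞) ≤ ‖x‖ₑ ^ e := by
        intro x hx
        refine ENNReal.one_le_rpow ?_ he
        rw [← ofReal_norm, ENNReal.one_le_ofReal]
        exact hx
      rcases h2 with h2 | h2
      · exact le_trans (key _ h2) le_self_add
      · exact le_trans (key _ h2) le_add_self
    refine lt_of_le_of_lt h1 ?_
    exact ENNReal.add_lt_top.mpr ⟨hF _ (e0_mem d hκ1), hF _ (neg_e0_mem d hκ1)⟩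

end Pool.Agent.Lib.H16RA
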