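import Mathlib
import Pool.Agent.Lib.H16RA.Tele
import Pool.Agent.Lib.H16RA.Contr
import Pool.Agent.Lib.H16RA.PotAx
import Pool.Agent.Lib.H16RA.PotB

set_option autoImplicit false

/-!
# RA2 chunk POT: the potential is constant on the annulus
-/

namespace Pool.Agent.Lib.H16RA

open MeasureTheory Set Metric
open scoped ENNReal Real

/-- the (unnormalised) density -/
noncomputable def FF (d : ℕ) (α κ : ℝ) (y : V d) : ℝ≥0∞ :=
  Ain d α κ (phi d α κ) y + Bout d α κ (chi d α κ) y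

/-- its mass on the annulus -/
noncomputable def MM (d : ℕ) (α κ : ℝ) : ℝ≥0∞ := ∫⁻ y in Ann d κ, FF d α κ y

/-- **POT1.** On `Din`, `κ ‖y‖² < κ²`, so `T^(2N) 1 (‖y‖²) ≤ q^(2N) / (1 - κ²)` (`it_le`); enlarge `Din` to `Dball` and use
`base_pot`. -/
theorem rem_le (d : ℕ) [NeZero d] {α κ : ℝ} (h0 : 0 < α) (h2 : α < 2) (hκ : 0 < κ) (hκ1 : κ < 1)
    {z : V d} (hz : κ * ‖z‖ ^ 2 ≤ 1) (N : ℕ) :
    ∫⁻ y in Din d κ, Ain d α κ (it d α κ (2 * N)) y * ‖y - z‖ₑ ^ (α - d) ≤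
      ENNReal.ofReal (qq α κ ^ (2 * N) / (1 - κ ^ 2)) * CK d α κ :=
  rem_le_pf d h0 h2 hκ hκ1 hz N

theorem FF_meas (d : ℕ) (α κ : ℝ) : Measurable (FF d α κ) := by
  have h1 : Measurable (phi d α κ) := by
    unfold phi
    exact Measurable.ennreal_tsum fun n => it_meas d α κ _
  have h2 : Measurable (chi d α κ) := by
    unfold chi
    exact Measurable.ennreal_tsum fun n => it_meas d α κ _
  unfold FF
  exact (Ain_meas d α κ h1).add (Bout_meas d α κ h2)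

/-- **POT2.** `∫_{Ann} FF(y) ‖y - z‖ ^ (α - d) dy = C_K` for all `z` in the annulus.
Proof: `FF = ∑' n, Ain (it (2n)) + ∑' n, Bout (it (2n+1))` (`ENNReal.tsum_mul_left`), so the left side is
`∑' n, ∫ Ain (it (2n)) K + ∑' n, ∫ Bout (it (2n+1)) K` (`lintegral_tsum`), the limit of the partial sums in `tele`
(`ENNReal.tendsto_nat_tsum`); the remainder tends to `0` by `rem_le`, `qq_lt_one`; `CK < ∞` (`Cc_ne_top`). -/
theorem pot (d : ℕ) [NeZero d] {α κ : ℝ} (h0 : 0 < α) (h2 : α < 2) (hκ : 0 < κ) (hκ1 : κ < 1)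
    {z : V d} (hz : z ∈ Ann d κ) :
    ∫⁻ y in Ann d κ, FF d α κ y * ‖y - z‖ₑ ^ (α - d) = CK d α κ :=
  pot_pf d h0 h2 hκ hκ1 hz

/-- **POT3.** `0 < M`: `FF y ≥ (1 - κ ‖y‖²) ^ (-α/2) · 1 > 0` on the interior of the annulus, which has positive volume. -/
theorem MM_pos (d : ℕ) [NeZero d] {α κ : ℝ} (h0 : 0 < α) (h2 : α < 2) (hκ : 0 < κ) (hκ1 : κ < 1) :
    0 < MM d α κ := by
  have _ := h2
  refine mass_pos_gen d h0 hκ hκ1 ?_
  intro y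
  have h1 : (1 : ℝ≥0∞) ≤ phi d α κ (‖y‖ ^ 2) := by
    have h3 := ENNReal.le_tsum (f := fun n => it d α κ (2 * n) (‖y‖ ^ 2)) 0
    exact h3
  unfold FF
  refine le_trans ?_ le_self_add
  show ENNReal.ofReal ((1 - κ * ‖y‖ ^ 2) ^ (-(α / 2))) * 1 ≤
    ENNReal.ofReal ((1 - κ * ‖y‖ ^ 2) ^ (-(α / 2))) * phi d α κ (‖y‖ ^ 2)
  gcongr

/-- **POT4.** `M < ∞`.  Proof from `pot`.  Let `L = 2 / √κ`, so `‖y - z‖ ≤ L` on the annulus; take `z` in the annulus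
(`exists_norm_eq` / a multiple of a unit vector, e.g. `‖z‖ = 1`).
If `α ≤ d`: `‖y - z‖ ^ (α - d) ≥ L ^ (α - d) > 0`, so `L ^ (α - d) M ≤ CK < ∞`.
If `α > d` (then `d = 1`): take `z` and `-z` with `‖z‖ = 1`; `‖y - z‖ + ‖y + z‖ ≥ 2`, so one of the two kernels is `≥ 1`
and `M ≤ 2 CK`. -/
theorem MM_lt_top (d : ℕ) [NeZero d] {α κ : ℝ} (h0 : 0 < α) (h2 : α < 2) (hκ : 0 < κ) (hκ1 : κ < 1) :
    MM d α κ < ⊤ := by
  refine mass_lt_top_gen d (e := α - d) hκ hκ1 (FF_meas d α κ) ?_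
  intro z hz
  rw [pot d h0 h2 hκ hκ1 hz]
  unfold CK
  exact (ENNReal.mul_ne_top ENNReal.ofReal_ne_top (Cc_ne_top d α)).lt_top

end Pool.Agent.Lib.H16RA
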