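import Mathlib
import Pool.Agent.Lib.H16RA.Pot
import Pool.Agent.Lib.H16RA.Main

set_option autoImplicit false

/-!
# RA2 chunk SCA: scaling to a general annulus
-/

namespace Pool.Agent.Lib.H16RA

open MeasureTheory Set Metric
open scoped ENNReal Real

/-- the unnormalised density on the annulus `r ≤ |x| ≤ R` -/
noncomputable def FR (d : ℕ) (s r R : ℝ) (x : V d) : ℝ≥0∞ :=
  FF d (d - s) (r / R) ((√(r * R))⁻¹ • x)

/-- its mass -/
noncomputable def MR (d : ℕ) (s r R : ℝ) : ℝ≥0∞ := ∫⁻ x in annulus d r R, FR d s r R x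

/-- **SCA1.** `x = c • y`, `c = √(r R)`: `c⁻¹ • x ∈ Ann d (r/R) ↔ x ∈ annulus d r R`. -/
theorem mem_Ann_iff (d : ℕ) {r R : ℝ} (hr : 0 < r) (hrR : r < R) (x : V d) :
    (√(r * R))⁻¹ • x ∈ Ann d (r / R) ↔ x ∈ annulus d r R := by
  have hR : 0 < R := hr.trans hrR
  have hrR' : 0 < r * R := mul_pos hr hR
  have hn : ‖(√(r * R))⁻¹ • x‖ ^ 2 = ‖x‖ ^ 2 / (r * R) := by
    rw [norm_smul, mul_pow, norm_inv, Real.norm_of_nonneg (Real.sqrt_nonneg _), inv_pow,
      Real.sq_sqrt hrR'.le]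
    field_simp
  simp only [Ann, annulus, mem_setOf_eq, hn]
  have h1 : r / R ≤ ‖x‖ ^ 2 / (r * R) ↔ r ≤ ‖x‖ := by
    rw [div_le_div_iff₀ hR hrR']
    rw [show r * (r * R) = r ^ 2 * R by ring, mul_le_mul_iff_left₀ hR,
      pow_le_pow_iff_left₀ hr.le (norm_nonneg _) two_ne_zero]
  have h2 : r / R * (‖x‖ ^ 2 / (r * R)) ≤ 1 ↔ ‖x‖ ≤ R := by
    have h3 : r / R * (‖x‖ ^ 2 / (r * R)) = ‖x‖ ^ 2 / R ^ 2 := by
      field_simp
    rw [h3, div_le_one (by positivity), pow_le_pow_iff_left₀ (norm_nonneg _) hR.le two_ne_zero]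
  rw [h1, h2]

/-- **SCA2.** change of variables `x = c • y` (`lintegral_comp_smul` / `Measure.addHaar_smul`):
`∫_{annulus} G(c⁻¹ x) dx = c^d ∫_{Ann} G(y) dy`. -/
theorem lintegral_annulus (d : ℕ) [NeZero d] {r R : ℝ} (hr : 0 < r) (hrR : r < R)
    {G : V d → ℝ≥0∞} (hG : Measurable G) :
    ∫⁻ x in annulus d r R, G ((√(r * R))⁻¹ • x) =
      ENNReal.ofReal ((√(r * R)) ^ (d : ℝ)) * ∫⁻ y in Ann d (r / R), G y := by
  have hR : 0 < R := hr.trans hrR
  have hc : 0 < √(r * R) := Real.sqrt_pos.mpr (mul_pos hr hR)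
  have hc' : (√(r * R))⁻¹ ≠ 0 := inv_ne_zero hc.ne'
  have hma : MeasurableSet (annulus d r R) := by
    show MeasurableSet ({x : V d | r ≤ ‖x‖} ∩ {x : V d | ‖x‖ ≤ R})
    exact (measurableSet_le (by fun_prop) (by fun_prop)).inter
      (measurableSet_le (by fun_prop) (by fun_prop))
  rw [← lintegral_indicator hma, ← lintegral_indicator (measurableSet_Ann d _)]
  have h1 : ∀ x : V d, (annulus d r R).indicator (fun x => G ((√(r * R))⁻¹ • x)) x =
      (Ann d (r / R)).indicator G ((√(r * R))⁻¹ • x) := by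
    intro x
    by_cases hx : x ∈ annulus d r R
    · rw [indicator_of_mem hx, indicator_of_mem ((mem_Ann_iff d hr hrR x).mpr hx)]
    · rw [indicator_of_notMem hx,
        indicator_of_notMem (fun h => hx ((mem_Ann_iff d hr hrR x).mp h))]
  simp_rw [h1]
  have hmG : Measurable ((Ann d (r / R)).indicator G) := hG.indicator (measurableSet_Ann d _)
  rw [← lintegral_map (f := (Ann d (r / R)).indicator G) (g := fun x : V d => (√(r * R))⁻¹ • x) hmG
    (measurable_const_smul _), Measure.map_addHaar_smul volume hc', lintegral_smul_measure]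
  rw [finrank_euclideanSpace, Fintype.card_fin, smul_eq_mul]
  congr 2
  rw [inv_pow, inv_inv, abs_of_pos (pow_pos hc _), Real.rpow_natCast]

/-- **SCA3.** From `lintegral_annulus` and `MM_pos`, `MM_lt_top`. -/
theorem MR_pos (d : ℕ) [NeZero d] {s r R : ℝ} (hs : (d : ℝ) - 2 < s) (hs' : s < d) (hr : 0 < r)
    (hrR : r < R) : 0 < MR d s r R := by
  have hR : 0 < R := hr.trans hrR
  have hc : 0 < √(r * R) := Real.sqrt_pos.mpr (mul_pos hr hR)
  have h := lintegral_annulus d hr hrR (FF_meas d (d - s) (r / R))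
  unfold MR FR
  rw [h]
  refine ENNReal.mul_pos ?_ ?_
  · exact (ENNReal.ofReal_pos.mpr (Real.rpow_pos_of_pos hc _)).ne'
  · exact (MM_pos d (by linarith) (by linarith) (div_pos hr hR) ((div_lt_one hR).mpr hrR)).ne'

theorem MR_lt_top (d : ℕ) [NeZero d] {s r R : ℝ} (hs : (d : ℝ) - 2 < s) (hs' : s < d) (hr : 0 < r)
    (hrR : r < R) : MR d s r R < ⊤ := by
  have hR : 0 < R := hr.trans hrR
  have h := lintegral_annulus d hr hrR (FF_meas d (d - s) (r / R))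
  unfold MR FR
  rw [h]
  exact ENNReal.mul_lt_top ENNReal.ofReal_lt_top
    (MM_lt_top d (by linarith) (by linarith) (div_pos hr hR) ((div_lt_one hR).mpr hrR))

/-- **SCA4.** From `lintegral_annulus` and `pot` at `c⁻¹ • z`:
`‖x - z‖ₑ ^ (-s) = c ^ (-s) ‖c⁻¹ x - c⁻¹ z‖ₑ ^ (-s)`, and
`c^d c^(-s) (r/R) ^ (-(d-s)/2) = (r R) ^ ((d-s)/2) (r/R) ^ (-(d-s)/2) = R ^ (d - s)`. -/
theorem potS (d : ℕ) [NeZero d] {s r R : ℝ} (hs : (d : ℝ) - 2 < s) (hs' : s < d) (hr : 0 < r)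
    (hrR : r < R) {z : V d} (hz : z ∈ annulus d r R) :
    ∫⁻ x in annulus d r R, FR d s r R x * ‖x - z‖ₑ ^ (-s) =
      ENNReal.ofReal (R ^ ((d : ℝ) - s)) * Cc d (d - s) := by
  have hR : 0 < R := hr.trans hrR
  have hrR' : 0 < r * R := mul_pos hr hR
  set c : ℝ := √(r * R) with hcdef
  have hc : 0 < c := Real.sqrt_pos.mpr hrR'
  set z' : V d := c⁻¹ • z with hz'
  have hz'A : z' ∈ Ann d (r / R) := (mem_Ann_iff d hr hrR z).mpr hz
  have hkey : ∀ x : V d, FR d s r R x * ‖x - z‖ₑ ^ (-s) =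
      (fun y : V d => ENNReal.ofReal (c ^ (-s)) *
        (FF d (d - s) (r / R) y * ‖y - z'‖ₑ ^ (((d : ℝ) - s) - d))) (c⁻¹ • x) := by
    intro x
    have h1 : x - z = c • (c⁻¹ • x - z') := by
      rw [hz', ← smul_sub, smul_smul, mul_inv_cancel₀ hc.ne', one_smul]
    have h2 : ‖x - z‖ₑ ^ (-s) = ENNReal.ofReal (c ^ (-s)) * ‖c⁻¹ • x - z'‖ₑ ^ (-s) := by
      rw [h1, enorm_smul, ENNReal.mul_rpow_of_ne_top enorm_ne_top enorm_ne_top,
        Real.enorm_of_nonneg hc.le, ENNReal.ofReal_rpow_of_pos hc]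
    show FF d (d - s) (r / R) (c⁻¹ • x) * ‖x - z‖ₑ ^ (-s) = _
    have h3 : ((d : ℝ) - s) - d = -s := by ring
    simp only [h3]
    rw [h2]
    ring
  have hm : Measurable (fun y : V d => ENNReal.ofReal (c ^ (-s)) *
        (FF d (d - s) (r / R) y * ‖y - z'‖ₑ ^ (((d : ℝ) - s) - d))) :=
    ((FF_meas d _ _).mul (kern_meas d _ z')).const_mul _
  simp_rw [hkey]
  rw [lintegral_annulus d hr hrR hm, lintegral_const_mul' _ _ ENNReal.ofReal_ne_top,
    pot d (by linarith) (by linarith) (div_pos hr hR) ((div_lt_one hR).mpr hrR) hz'A]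
  unfold CK
  rw [← mul_assoc, ← mul_assoc, ← ENNReal.ofReal_mul (Real.rpow_nonneg hc.le _),
    ← ENNReal.ofReal_mul (by positivity)]
  congr 2
  rw [← Real.rpow_add hc, show (d : ℝ) + -s = (d - s) by ring]
  have h4 : c ^ ((d : ℝ) - s) = (r * R) ^ (((d : ℝ) - s) / 2) := by
    rw [hcdef, Real.sqrt_eq_rpow, ← Real.rpow_mul hrR'.le]
    congr 1
    ring
  rw [h4, Real.rpow_neg (div_pos hr hR).le, Real.div_rpow hr.le hR.le, Real.mul_rpow hr.le hR.le]
  have h5 : 0 < r ^ (((d : ℝ) - s) / 2) := Real.rpow_pos_of_pos hr _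
  have h6 : 0 < R ^ (((d : ℝ) - s) / 2) := Real.rpow_pos_of_pos hR _
  have h7 : R ^ ((d : ℝ) - s) = R ^ (((d : ℝ) - s) / 2) * R ^ (((d : ℝ) - s) / 2) := by
    rw [← Real.rpow_add hR]
    congr 1
    ring
  rw [h7]
  field_simp

end Pool.Agent.Lib.H16RA
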