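import Mathlib
import Pool.Agent.Lib.H16RA.Scale

set_option autoImplicit false

/-!
# RA2 chunk RF: the real-valued form of the iterates
-/

namespace Pool.Agent.Lib.H16RA

open MeasureTheory Set Metric
open scoped ENNReal Real

/-- **RF1.** The real iterates are nonnegative and represent the `ℝ≥0∞`-valued ones on `[0, 1/κ)`.
Proof: induction; for `n + 1`, on `(0, κ)` the integrand of `it` is `ofReal` of the (nonnegative) integrand of `rit` by the
induction hypothesis (`κ y < κ² < 1`), `ofReal_integral_eq_lintegral_ofReal` needs integrability, which follows from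
measurability (a.e. strongly measurable as `toReal` of a measurable function on `(0, κ)`) and `it_le` (finite). -/
theorem rit_eq (d : ℕ) [NeZero d] {s κ : ℝ} (hs : (d : ℝ) - 2 < s) (hs' : s < d) (hκ : 0 < κ)
    (hκ1 : κ < 1) (n : ℕ) {x : ℝ} (hx0 : 0 ≤ x) (hx : κ * x < 1) :
    0 ≤ rit d s κ n x ∧ it d (d - s) κ n x = ENNReal.ofReal (rit d s κ n x) := by
  have h0 : (0 : ℝ) < d - s := by linarith
  have h2 : (d : ℝ) - s < 2 := by linarith
  induction n generalizing x with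
  | zero =>
    refine ⟨by simp [rit], ?_⟩
    simp [rit, it]
  | succ n ih =>
    set α : ℝ := (d : ℝ) - s with hα
    have hsin := sin_pos_of h0 h2
    set g : ℝ → ℝ := fun y =>
      y ^ ((d : ℝ) / 2 - 1) * ((κ - y) / (1 - κ * y)) ^ (((d : ℝ) - s) / 2) * rit d s κ n y /
        (1 - x * y) with hg
    have hrit : rit d s κ (n + 1) x = Real.sin (π * α / 2) / π * ∫ y in Ioo (0 : ℝ) κ, g y := rfl
    have hpt : ∀ y ∈ Ioo (0 : ℝ) κ, 0 ≤ g y ∧
        ENNReal.ofReal (wt d α κ y / (1 - x * y)) * it d α κ n y = ENNReal.ofReal (g y) := by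
      intro y hy
      have hy0 : 0 < y := hy.1
      have hyκ : y < κ := hy.2
      have hκy : κ * y < 1 := by nlinarith
      obtain ⟨hn0, hn1⟩ := ih hy0.le hκy
      have hxy : 0 < 1 - x * y := by
        have : x * y ≤ x * κ := mul_le_mul_of_nonneg_left hyκ.le hx0
        nlinarith
      have hw0 : 0 ≤ wt d α κ y := by
        unfold wt
        refine mul_nonneg (Real.rpow_nonneg hy0.le _) (Real.rpow_nonneg ?_ _)
        exact div_nonneg (by linarith) (by linarith)
      have hgw : g y = wt d α κ y / (1 - x * y) * rit d s κ n y := by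
        simp only [hg, wt, ← hα]
        ring
      refine ⟨?_, ?_⟩
      · rw [hgw]
        exact mul_nonneg (div_nonneg hw0 hxy.le) hn0
      · rw [hgw, hn1, ENNReal.ofReal_mul (div_nonneg hw0 hxy.le)]
    have hit : it d α κ (n + 1) x = ENNReal.ofReal (Real.sin (π * α / 2) / π) *
        ∫⁻ y in Ioo (0 : ℝ) κ, ENNReal.ofReal (g y) := by
      show T d α κ (it d α κ n) x = _
      unfold T
      congr 1
      refine setLIntegral_congr_fun measurableSet_Ioo ?_
      intro y hy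
      exact (hpt y hy).2
    have hc : 0 < Real.sin (π * α / 2) / π := div_pos hsin Real.pi_pos
    have hfin : (∫⁻ y in Ioo (0 : ℝ) κ, ENNReal.ofReal (g y)) ≠ ⊤ := by
      intro htop
      have hle := it_le d h0 h2 hκ hκ1 (n + 1) hx0 hx
      rw [hit, htop, ENNReal.mul_top (ENNReal.ofReal_pos.mpr hc).ne'] at hle
      exact ENNReal.ofReal_ne_top (top_le_iff.mp hle)
    have hmeas : AEStronglyMeasurable g (volume.restrict (Ioo (0 : ℝ) κ)) := by
      have hm : Measurable fun y : ℝ =>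
          (ENNReal.ofReal (wt d α κ y / (1 - x * y)) * it d α κ n y).toReal := by
        refine Measurable.ennreal_toReal (Measurable.mul ?_ (it_meas d α κ n))
        unfold wt
        fun_prop
      refine hm.aestronglyMeasurable.congr ?_
      filter_upwards [ae_restrict_mem measurableSet_Ioo] with y hy
      rw [(hpt y hy).2, ENNReal.toReal_ofReal (hpt y hy).1]
    have hint : ∫ y in Ioo (0 : ℝ) κ, g y =
        (∫⁻ y in Ioo (0 : ℝ) κ, ENNReal.ofReal (g y)).toReal := by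
      refine integral_eq_lintegral_of_nonneg_ae ?_ hmeas
      filter_upwards [ae_restrict_mem measurableSet_Ioo] with y hy
      exact (hpt y hy).1
    refine ⟨?_, ?_⟩
    · rw [hrit, hint]
      exact mul_nonneg hc.le ENNReal.toReal_nonneg
    · rw [hrit, hint, hit, ENNReal.ofReal_mul hc.le, ENNReal.ofReal_toReal hfin]

/-- **RF2.** `T^n 1 (x) ≤ q^n / (1 - κ x)`, from `it_le`. -/
theorem rit_le (d : ℕ) [NeZero d] {s κ : ℝ} (hs : (d : ℝ) - 2 < s) (hs' : s < d) (hκ : 0 < κ)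
    (hκ1 : κ < 1) (n : ℕ) {x : ℝ} (hx0 : 0 ≤ x) (hx : κ * x < 1) :
    rit d s κ n x ≤ qq (d - s) κ ^ n / (1 - κ * x) := by
  have h0 : (0 : ℝ) < d - s := by linarith
  have h2 : (d : ℝ) - s < 2 := by linarith
  have hle := it_le d h0 h2 hκ hκ1 n hx0 hx
  rw [(rit_eq d hs hs' hκ hκ1 n hx0 hx).2] at hle
  refine (ENNReal.ofReal_le_ofReal_iff ?_).mp hle
  exact div_nonneg (pow_nonneg (qq_pos h0 h2 hκ).le _) (by linarith)

theorem summable_rit (d : ℕ) [NeZero d] {s κ : ℝ} (hs : (d : ℝ) - 2 < s) (hs' : s < d) (hκ : 0 < κ)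
    (hκ1 : κ < 1) (j : ℕ) {x : ℝ} (hx0 : 0 ≤ x) (hx : κ * x < 1) :
    Summable fun n : ℕ => rit d s κ (2 * n + j) x := by
  have h0 : (0 : ℝ) < d - s := by linarith
  have h2 : (d : ℝ) - s < 2 := by linarith
  have hq0 := qq_pos h0 h2 hκ
  have hq1 := qq_lt_one h0 h2 hκ hκ1
  have hx1 : 0 < 1 - κ * x := by linarith
  refine Summable.of_nonneg_of_le (fun n => (rit_eq d hs hs' hκ hκ1 (2 * n + j) hx0 hx).1)
    (fun n => ?_) (f := fun n : ℕ => qq (d - s) κ ^ n * (1 / (1 - κ * x))) ?_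
  · refine (rit_le d hs hs' hκ hκ1 (2 * n + j) hx0 hx).trans ?_
    rw [div_eq_mul_one_div]
    refine mul_le_mul_of_nonneg_right ?_ (one_div_nonneg.mpr hx1.le)
    exact pow_le_pow_of_le_one hq0.le hq1.le (by omega)
  · exact (summable_geometric_of_lt_one hq0.le hq1).mul_right _

/-- **RF3.** Hence the series converge and `prof` is the real form of the density: for `κ < u`, `κ u < 1`, `‖y‖² = u`. -/
theorem prof_eq (d : ℕ) [NeZero d] {s κ : ℝ} (hs : (d : ℝ) - 2 < s) (hs' : s < d) (hκ : 0 < κ)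
    (hκ1 : κ < 1) {y : V d} (hy1 : κ < ‖y‖ ^ 2) (hy2 : κ * ‖y‖ ^ 2 < 1) :
    0 < prof d s κ (‖y‖ ^ 2) ∧ FF d (d - s) κ y = ENNReal.ofReal (prof d s κ (‖y‖ ^ 2)) := by
  unfold FF Ain Bout phi chi prof
  set u : ℝ := ‖y‖ ^ 2 with hu
  have hu0 : 0 < u := hκ.trans hy1
  have hiu0 : 0 ≤ 1 / u := by positivity
  have hiu : κ * (1 / u) < 1 := by
    rw [mul_one_div, div_lt_one hu0]
    exact hy1
  have s1 := summable_rit d hs hs' hκ hκ1 0 hu0.le hy2
  have s2 := summable_rit d hs hs' hκ hκ1 1 hiu0 hiu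
  simp only [add_zero] at s1
  have p1 : ∀ n, 0 ≤ rit d s κ (2 * n) u := fun n => (rit_eq d hs hs' hκ hκ1 (2 * n) hu0.le hy2).1
  have p2 : ∀ n, 0 ≤ rit d s κ (2 * n + 1) (1 / u) :=
    fun n => (rit_eq d hs hs' hκ hκ1 (2 * n + 1) hiu0 hiu).1
  have e1 : ∑' n, it d (d - s) κ (2 * n) u = ENNReal.ofReal (∑' n, rit d s κ (2 * n) u) := by
    rw [ENNReal.ofReal_tsum_of_nonneg p1 s1]
    exact tsum_congr fun n => (rit_eq d hs hs' hκ hκ1 (2 * n) hu0.le hy2).2
  have e2 : ∑' n, it d (d - s) κ (2 * n + 1) (1 / u) =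
      ENNReal.ofReal (∑' n, rit d s κ (2 * n + 1) (1 / u)) := by
    rw [ENNReal.ofReal_tsum_of_nonneg p2 s2]
    exact tsum_congr fun n => (rit_eq d hs hs' hκ hκ1 (2 * n + 1) hiu0 hiu).2
  have hS1 : 1 ≤ ∑' n, rit d s κ (2 * n) u := by
    have := s1.le_tsum 0 (fun n _ => p1 n)
    simpa [rit] using this
  have hS2 : 0 ≤ ∑' n, rit d s κ (2 * n + 1) (1 / u) := tsum_nonneg p2
  have hA : 0 < (1 - κ * u) ^ (-(((d : ℝ) - s) / 2)) := Real.rpow_pos_of_pos (by linarith) _
  have hB : 0 ≤ (u - κ) ^ (-(((d : ℝ) - s) / 2)) * u ^ (-((d : ℝ) / 2)) :=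
    mul_nonneg (Real.rpow_nonneg (by linarith) _) (Real.rpow_nonneg hu0.le _)
  refine ⟨?_, ?_⟩
  · have h1 := mul_pos hA (lt_of_lt_of_le one_pos hS1)
    have h2 := mul_nonneg hB hS2
    linarith
  · rw [e1, e2, ← ENNReal.ofReal_mul hA.le, ← ENNReal.ofReal_mul hB,
      ← ENNReal.ofReal_add (mul_nonneg hA.le (by linarith)) (mul_nonneg hB hS2)]

/-- **RF4.** The density on the general annulus: a.e. on `annulus d r R` (off the two boundary spheres) `FR = ofReal prof`. -/
theorem FR_eq (d : ℕ) [NeZero d] {s r R : ℝ} (hs : (d : ℝ) - 2 < s) (hs' : s < d) (hr : 0 < r)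
    (hrR : r < R) :
    ∀ᵐ x ∂(volume.restrict (annulus d r R)), 0 < prof d s (r / R) (‖x‖ ^ 2 / (r * R)) ∧
      FR d s r R x = ENNReal.ofReal (prof d s (r / R) (‖x‖ ^ 2 / (r * R))) := by
  have hR : 0 < R := hr.trans hrR
  have hrR0 : 0 < r * R := mul_pos hr hR
  have hκ : 0 < r / R := div_pos hr hR
  have hκ1 : r / R < 1 := (div_lt_one hR).mpr hrR
  have hmA : MeasurableSet (annulus d r R) := by
    show MeasurableSet ({x : V d | r ≤ ‖x‖} ∩ {x : V d | ‖x‖ ≤ R})
    exact (measurableSet_le (by fun_prop) (by fun_prop)).inter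
      (measurableSet_le (by fun_prop) (by fun_prop))
  have : Nontrivial (V d) := by
    have : Nonempty (Fin d) := ⟨⟨0, Nat.pos_of_ne_zero (NeZero.ne d)⟩⟩
    infer_instance
  have n1 : ∀ᵐ x ∂(volume.restrict (annulus d r R)), ‖x‖ ≠ r := by
    refine ae_restrict_of_ae ?_
    have : (volume : Measure (V d)) (sphere 0 r) = 0 := Measure.addHaar_sphere _ _ _
    refine (measure_eq_zero_iff_ae_notMem.mp this).mono fun x hx h => hx ?_
    simpa using h
  have n2 : ∀ᵐ x ∂(volume.restrict (annulus d r R)), ‖x‖ ≠ R := by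
    refine ae_restrict_of_ae ?_
    have : (volume : Measure (V d)) (sphere 0 R) = 0 := Measure.addHaar_sphere _ _ _
    refine (measure_eq_zero_iff_ae_notMem.mp this).mono fun x hx h => hx ?_
    simpa using h
  filter_upwards [ae_restrict_mem hmA, n1, n2] with x hx h1 h2
  have hx1 : r < ‖x‖ := lt_of_le_of_ne hx.1 (Ne.symm h1)
  have hx2 : ‖x‖ < R := lt_of_le_of_ne hx.2 h2
  have hny : ‖(√(r * R))⁻¹ • x‖ ^ 2 = ‖x‖ ^ 2 / (r * R) := by
    rw [norm_smul, mul_pow, Real.norm_eq_abs, sq_abs, inv_pow, Real.sq_sqrt hrR0.le]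
    field_simp
  have a1 : r / R < ‖(√(r * R))⁻¹ • x‖ ^ 2 := by
    rw [hny, div_lt_div_iff₀ hR hrR0]
    have : r ^ 2 < ‖x‖ ^ 2 := by nlinarith
    nlinarith
  have a2 : r / R * ‖(√(r * R))⁻¹ • x‖ ^ 2 < 1 := by
    rw [hny]
    have e : r / R * (‖x‖ ^ 2 / (r * R)) = ‖x‖ ^ 2 / R ^ 2 := by
      field_simp
    rw [e, div_lt_one (by positivity)]
    have h3 : 0 < ‖x‖ := hr.trans hx1
    nlinarith
  have := prof_eq d hs hs' hκ hκ1 a1 a2
  rw [hny] at this
  exact this

/-- **RF5.** `mass` is the real form of `MR`. -/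
theorem mass_eq (d : ℕ) [NeZero d] {s r R : ℝ} (hs : (d : ℝ) - 2 < s) (hs' : s < d) (hr : 0 < r)
    (hrR : r < R) : 0 < mass d s r R ∧ MR d s r R = ENNReal.ofReal (mass d s r R) := by
  have hae := FR_eq d hs hs' hr hrR
  have hMR : MR d s r R =
      ∫⁻ x in annulus d r R, ENNReal.ofReal (prof d s (r / R) (‖x‖ ^ 2 / (r * R))) := by
    unfold MR
    exact lintegral_congr_ae (hae.mono fun x hx => hx.2)
  have hFR : Measurable (FR d s r R) := by
    unfold FR
    exact (FF_meas d _ _).comp (measurable_const_smul _)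
  have hmeas : AEStronglyMeasurable (fun x : V d => prof d s (r / R) (‖x‖ ^ 2 / (r * R)))
      (volume.restrict (annulus d r R)) := by
    refine hFR.ennreal_toReal.aestronglyMeasurable.congr ?_
    filter_upwards [hae] with x hx
    rw [hx.2, ENNReal.toReal_ofReal hx.1.le]
  have hmass : mass d s r R = (MR d s r R).toReal := by
    unfold mass
    rw [integral_eq_lintegral_of_nonneg_ae (hae.mono fun x hx => hx.1.le) hmeas, hMR]
  have hpos := MR_pos d hs hs' hr hrR
  have hfin := MR_lt_top d hs hs' hr hrR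
  refine ⟨?_, ?_⟩
  · rw [hmass]
    exact ENNReal.toReal_pos hpos.ne' hfin.ne
  · rw [hmass, ENNReal.ofReal_toReal hfin.ne]

end Pool.Agent.Lib.H16RA
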