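import Mathlib
import Pool.Agent.Lib.H16RA.RealForm

set_option autoImplicit false

/-!
# RA2 chunk COEF: the power series of the iterates
-/

namespace Pool.Agent.Lib.H16RA

open MeasureTheory Set Metric
open scoped ENNReal Real

/-- the moments `a_k = (sin (π (d - s) / 2) / π) ∫_0^κ y^(d/2 - 1 + k) ((κ - y) / (1 - κ y))^((d - s)/2) dy` -/
noncomputable def acoef (d : ℕ) (s κ : ℝ) (k : ℕ) : ℝ :=
  Real.sin (π * (d - s) / 2) / π *
    ∫ y in Ioo (0 : ℝ) κ, y ^ ((d : ℝ) / 2 - 1 + k) * ((κ - y) / (1 - κ * y)) ^ (((d : ℝ) - s) / 2)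

/-- the vectors `A^n e_0`, `A` the Hankel matrix `(a_{j+k})` -/
noncomputable def vcoef (d : ℕ) (s κ : ℝ) : ℕ → ℕ → ℝ
  | 0 => fun k => if k = 0 then 1 else 0
  | n + 1 => fun k => ∑' m, acoef d s κ (k + m) * vcoef d s κ n m

/-- The moments are nonnegative and finite, and agree with the `ℝ≥0∞`-valued integrals. -/
theorem acoef_aux (d : ℕ) [NeZero d] {s κ : ℝ} (hs : (d : ℝ) - 2 < s) (hs' : s < d) (hκ : 0 < κ)
    (hκ1 : κ < 1) (k : ℕ) :
    0 ≤ acoef d s κ k ∧ ENNReal.ofReal (acoef d s κ k) =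
      ENNReal.ofReal (Real.sin (π * (d - s) / 2) / π) *
        ∫⁻ y in Ioo (0 : ℝ) κ, ENNReal.ofReal (wt d (d - s) κ y) * ENNReal.ofReal (y ^ k) := by
  have h0 : (0 : ℝ) < d - s := by linarith
  have h2 : (d : ℝ) - s < 2 := by linarith
  have hsin := sin_pos_of h0 h2
  have hpi := Real.pi_pos
  have hth : 0 < Real.sin (π * (d - s) / 2) / π := div_pos hsin hpi
  set f : ℝ → ℝ := fun y => y ^ ((d : ℝ) / 2 - 1 + k) *
    ((κ - y) / (1 - κ * y)) ^ (((d : ℝ) - s) / 2) with hf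
  have hfy : ∀ y ∈ Ioo (0 : ℝ) κ, f y = wt d (d - s) κ y * y ^ k := by
    intro y hy
    simp only [hf, wt]
    rw [Real.rpow_add hy.1, Real.rpow_natCast]
    ring
  have hf0 : ∀ y ∈ Ioo (0 : ℝ) κ, 0 ≤ f y := by
    intro y hy
    rw [hfy y hy]
    exact mul_nonneg (wt_nonneg' d hκ hκ1 hy.1 hy.2) (pow_nonneg hy.1.le _)
  have hlin : ∫⁻ y in Ioo (0 : ℝ) κ, ENNReal.ofReal (f y) =
      ∫⁻ y in Ioo (0 : ℝ) κ, ENNReal.ofReal (wt d (d - s) κ y) * ENNReal.ofReal (y ^ k) := by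
    refine setLIntegral_congr_fun measurableSet_Ioo ?_
    intro y hy
    simp only [hfy y hy]
    rw [ENNReal.ofReal_mul (wt_nonneg' d hκ hκ1 hy.1 hy.2)]
  have hfin : ∫⁻ y in Ioo (0 : ℝ) κ, ENNReal.ofReal (f y) ≠ ⊤ := by
    have h1 := it_le d h0 h2 hκ hκ1 1 (x := 0) le_rfl (by simp)
    have h3 : ∫⁻ y in Ioo (0 : ℝ) κ, ENNReal.ofReal (f y) ≤
        ∫⁻ y in Ioo (0 : ℝ) κ, ENNReal.ofReal (wt d (d - s) κ y / (1 - 0 * y)) * it d (d - s) κ 0 y := by
      refine setLIntegral_mono' measurableSet_Ioo ?_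
      intro y hy
      rw [hfy y hy]
      simp only [it, mul_one, zero_mul, sub_zero, div_one]
      refine ENNReal.ofReal_le_ofReal ?_
      refine mul_le_of_le_one_right (wt_nonneg' d hκ hκ1 hy.1 hy.2) ?_
      exact pow_le_one₀ hy.1.le (hy.2.le.trans hκ1.le)
    have h4 : ENNReal.ofReal (Real.sin (π * (d - s) / 2) / π) *
        ∫⁻ y in Ioo (0 : ℝ) κ, ENNReal.ofReal (wt d (d - s) κ y / (1 - 0 * y)) * it d (d - s) κ 0 y
        ≠ ⊤ := (lt_of_le_of_lt h1 ENNReal.ofReal_lt_top).ne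
    have h5 : ENNReal.ofReal (Real.sin (π * (d - s) / 2) / π) ≠ 0 := (ENNReal.ofReal_pos.mpr hth).ne'
    intro h6
    rw [h6] at h3
    rw [top_le_iff.mp h3, ENNReal.mul_top h5] at h4
    exact h4 rfl
  have hint : IntegrableOn f (Ioo (0 : ℝ) κ) := by
    refine ⟨Measurable.aestronglyMeasurable (by fun_prop), ?_⟩
    rw [hasFiniteIntegral_iff_ofReal]
    · exact lt_top_iff_ne_top.mpr hfin
    · filter_upwards [ae_restrict_mem measurableSet_Ioo] with y hy using hf0 y hy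
  have hI0 : 0 ≤ ∫ y in Ioo (0 : ℝ) κ, f y := setIntegral_nonneg measurableSet_Ioo hf0
  refine ⟨mul_nonneg hth.le hI0, ?_⟩
  show ENNReal.ofReal (Real.sin (π * (d - s) / 2) / π * ∫ y in Ioo (0 : ℝ) κ, f y) = _
  rw [ENNReal.ofReal_mul hth.le, ofReal_integral_eq_lintegral_ofReal hint, hlin]
  filter_upwards [ae_restrict_mem measurableSet_Ioo] with y hy using hf0 y hy

/-- One step: integrating a power series against the kernel. -/
theorem T_series (d : ℕ) [NeZero d] {s κ : ℝ} (hs : (d : ℝ) - 2 < s) (hs' : s < d) (hκ : 0 < κ)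
    (hκ1 : κ < 1) (v : ℕ → ℝ≥0∞) (g : ℝ → ℝ≥0∞)
    (hg : ∀ y ∈ Ioo (0 : ℝ) κ, ∑' m, v m * ENNReal.ofReal (y ^ m) = g y)
    {x : ℝ} (hx0 : 0 ≤ x) (hx : κ * x < 1) :
    T d (d - s) κ g x = ∑' k, (∑' m, ENNReal.ofReal (acoef d s κ (k + m)) * v m) *
      ENNReal.ofReal (x ^ k) := by
  have h0 : (0 : ℝ) < d - s := by linarith
  have h2 : (d : ℝ) - s < 2 := by linarith
  set th := ENNReal.ofReal (Real.sin (π * (d - s) / 2) / π) with hth
  have hker : ∀ y ∈ Ioo (0 : ℝ) κ, ENNReal.ofReal (wt d (d - s) κ y / (1 - x * y)) * g y =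
      ∑' k : ℕ, ∑' m : ℕ, ENNReal.ofReal (x ^ k) * v m *
        (ENNReal.ofReal (wt d (d - s) κ y) * ENNReal.ofReal (y ^ (k + m))) := by
    intro y hy
    have hw := wt_nonneg' d (α := d - s) hκ hκ1 hy.1 hy.2
    have hxy0 : 0 ≤ x * y := mul_nonneg hx0 hy.1.le
    have hxy1 : x * y < 1 := by
      have : x * y ≤ x * κ := mul_le_mul_of_nonneg_left hy.2.le hx0
      linarith [mul_comm x κ]
    have hgeo : ENNReal.ofReal (wt d (d - s) κ y / (1 - x * y)) =
        ∑' k : ℕ, ENNReal.ofReal (wt d (d - s) κ y) * ENNReal.ofReal ((x * y) ^ k) := by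
      rw [ENNReal.tsum_mul_left, div_eq_mul_inv, ENNReal.ofReal_mul hw,
        ← tsum_geometric_of_lt_one hxy0 hxy1,
        ENNReal.ofReal_tsum_of_nonneg (fun k => pow_nonneg hxy0 k)
          (summable_geometric_of_lt_one hxy0 hxy1)]
    rw [hgeo, ← hg y hy, ← ENNReal.tsum_mul_right]
    refine tsum_congr fun k => ?_
    rw [← ENNReal.tsum_mul_left]
    refine tsum_congr fun m => ?_
    rw [mul_pow, ENNReal.ofReal_mul (pow_nonneg hx0 k), pow_add,
      ENNReal.ofReal_mul (pow_nonneg hy.1.le k)]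
    ring
  unfold T
  rw [setLIntegral_congr_fun measurableSet_Ioo hker]
  rw [lintegral_tsum]
  swap
  · intro k
    refine Measurable.aemeasurable ?_
    refine Measurable.tsum fun m => ?_
    unfold wt
    fun_prop
  rw [← ENNReal.tsum_mul_left]
  refine tsum_congr fun k => ?_
  rw [lintegral_tsum]
  swap
  · intro m
    refine Measurable.aemeasurable ?_
    unfold wt
    fun_prop
  rw [← ENNReal.tsum_mul_left, ← ENNReal.tsum_mul_right]
  refine tsum_congr fun m => ?_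
  rw [(acoef_aux d hs hs' hκ hκ1 (k + m)).2, lintegral_const_mul _ (by unfold wt; fun_prop)]
  ring

theorem vcoef_aux (d : ℕ) [NeZero d] {s κ : ℝ} (hs : (d : ℝ) - 2 < s) (hs' : s < d) (hκ : 0 < κ)
    (hκ1 : κ < 1) (n : ℕ) :
    (∀ k, 0 ≤ vcoef d s κ n k) ∧ ∀ x : ℝ, 0 ≤ x → κ * x < 1 →
      ∑' k, ENNReal.ofReal (vcoef d s κ n k) * ENNReal.ofReal (x ^ k) = it d (d - s) κ n x := by
  have h0 : (0 : ℝ) < d - s := by linarith
  have h2 : (d : ℝ) - s < 2 := by linarith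
  induction n with
  | zero =>
    refine ⟨?_, ?_⟩
    · intro k
      simp only [vcoef]
      split_ifs <;> norm_num
    · intro x _ _
      rw [tsum_eq_single 0]
      · simp [vcoef, it]
      · intro k hk
        simp [vcoef, hk]
  | succ n ih =>
    obtain ⟨ih1, ih2⟩ := ih
    have hnn : ∀ k, 0 ≤ vcoef d s κ (n + 1) k := by
      intro k
      refine tsum_nonneg fun m => ?_
      exact mul_nonneg (acoef_aux d hs hs' hκ hκ1 _).1 (ih1 m)
    refine ⟨hnn, ?_⟩
    have key : ∀ x : ℝ, 0 ≤ x → κ * x < 1 → it d (d - s) κ (n + 1) x =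
        ∑' k, (∑' m, ENNReal.ofReal (acoef d s κ (k + m)) * ENNReal.ofReal (vcoef d s κ n m)) *
          ENNReal.ofReal (x ^ k) := by
      intro x hx0 hx
      refine T_series d hs hs' hκ hκ1 (fun m => ENNReal.ofReal (vcoef d s κ n m))
        (it d (d - s) κ n) ?_ hx0 hx
      intro y hy
      refine ih2 y hy.1.le ?_
      nlinarith [hy.1, hy.2]
    have hfin : ∀ k, ∑' m, ENNReal.ofReal (acoef d s κ (k + m)) *
        ENNReal.ofReal (vcoef d s κ n m) ≠ ⊤ := by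
      intro k
      have h1 := it_le d h0 h2 hκ hκ1 (n + 1) (x := 1) zero_le_one (by linarith)
      rw [key 1 zero_le_one (by linarith)] at h1
      have h3 := ENNReal.le_tsum (f := fun k => (∑' m, ENNReal.ofReal (acoef d s κ (k + m)) *
        ENNReal.ofReal (vcoef d s κ n m)) * ENNReal.ofReal ((1 : ℝ) ^ k)) k
      simp only [one_pow, ENNReal.ofReal_one, mul_one] at h3 h1
      exact (lt_of_le_of_lt (h3.trans h1) ENNReal.ofReal_lt_top).ne
    have hv : ∀ k, ENNReal.ofReal (vcoef d s κ (n + 1) k) =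
        ∑' m, ENNReal.ofReal (acoef d s κ (k + m)) * ENNReal.ofReal (vcoef d s κ n m) := by
      intro k
      have e1 : ∀ m, ENNReal.ofReal (acoef d s κ (k + m)) * ENNReal.ofReal (vcoef d s κ n m) =
          ENNReal.ofReal (acoef d s κ (k + m) * vcoef d s κ n m) := by
        intro m
        rw [ENNReal.ofReal_mul (acoef_aux d hs hs' hκ hκ1 _).1]
      have hnn' : ∀ m, 0 ≤ acoef d s κ (k + m) * vcoef d s κ n m := fun m =>
        mul_nonneg (acoef_aux d hs hs' hκ hκ1 _).1 (ih1 m)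
      have hf := hfin k
      simp_rw [e1] at hf ⊢
      have hsum : Summable fun m => acoef d s κ (k + m) * vcoef d s κ n m := by
        have h4 := ENNReal.summable_toReal hf
        refine h4.congr fun m => ?_
        rw [ENNReal.toReal_ofReal (hnn' m)]
      rw [← ENNReal.ofReal_tsum_of_nonneg hnn' hsum]
      rfl
    intro x hx0 hx
    rw [key x hx0 hx]
    refine tsum_congr fun k => ?_
    rw [hv k]

/-- **COEF.** `T^n 1 (x) = ∑_k (A^n e_0)_k x^k` for `0 ≤ x < 1/κ`.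
Proof: induction on `n`.  All terms are nonnegative, so one may compute in `ℝ≥0∞`: `1 / (1 - x y) = ∑_k x^k y^k`
(`|x y| < 1`), `T^n 1 (y) = ∑_m v_m y^m`; exchanging sums and integral (`lintegral_tsum`),
`T^(n+1) 1 (x) = ∑_k x^k ∑_m v_m a_{k+m}`; finiteness from `it_le`. -/
theorem rit_coef (d : ℕ) [NeZero d] {s κ : ℝ} (hs : (d : ℝ) - 2 < s) (hs' : s < d) (hκ : 0 < κ)
    (hκ1 : κ < 1) (n : ℕ) {x : ℝ} (hx0 : 0 ≤ x) (hx : κ * x < 1) :
    HasSum (fun k => vcoef d s κ n k * x ^ k) (rit d s κ n x) := by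
  obtain ⟨hnn, hsum⟩ := vcoef_aux d hs hs' hκ hκ1 n
  obtain ⟨hr0, hr⟩ := rit_eq d hs hs' hκ hκ1 n hx0 hx
  have h := hsum x hx0 hx
  rw [hr] at h
  have hne : ∑' k, ENNReal.ofReal (vcoef d s κ n k) * ENNReal.ofReal (x ^ k) ≠ ⊤ := by
    rw [h]
    exact ENNReal.ofReal_ne_top
  have h1 := ENNReal.hasSum_toReal hne
  have h2 : (fun k => (ENNReal.ofReal (vcoef d s κ n k) * ENNReal.ofReal (x ^ k)).toReal) =
      fun k => vcoef d s κ n k * x ^ k := by
    funext k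
    rw [ENNReal.toReal_mul, ENNReal.toReal_ofReal (hnn k), ENNReal.toReal_ofReal (pow_nonneg hx0 k)]
  rw [h2] at h1
  have h3 : ∑' k, vcoef d s κ n k * x ^ k = rit d s κ n x := by
    have h4 := congrArg ENNReal.toReal h
    rw [ENNReal.toReal_ofReal hr0, ENNReal.tsum_toReal_eq (fun k =>
      ENNReal.mul_ne_top ENNReal.ofReal_ne_top ENNReal.ofReal_ne_top)] at h4
    rw [← h4]
    exact tsum_congr fun k => (congrFun h2 k).symm
  rw [h3] at h1
  exact h1

end Pool.Agent.Lib.H16RA
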