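import Mathlib
import Pool.Agent.Lib.H16RA.Defs

set_option autoImplicit false

/-!
# RA2 chunk KER: the nonnegative kernel `k_{s,L}(x) = K_s(x) - K_s(L) = ∫_{|x|}^L ρ^(-s-1) dρ`
-/

namespace Pool.Agent.Lib.H16RA

open MeasureTheory Set Metric
open scoped ENNReal Real

/-- `k_{s,L}(x) = ∫_{|x|}^L ρ^(-s-1) dρ` -/
noncomputable def kk {d : ℕ} (s L : ℝ) (x : V d) : ℝ≥0∞ :=
  ∫⁻ ρ in Ioo ‖x‖ L, ENNReal.ofReal (ρ ^ (-s - 1))

/-- **KER1.** `a ↦ ∫_{(a, L)}` is antitone, hence measurable. -/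
theorem kk_meas {d : ℕ} (s L : ℝ) : Measurable (kk s L : V d → ℝ≥0∞) := by
  have h : Antitone (fun a : ℝ => ∫⁻ ρ in Ioo a L, ENNReal.ofReal (ρ ^ (-s - 1))) := by
    intro a b hab
    exact lintegral_mono_set (Ioo_subset_Ioo_left hab)
  exact h.measurable.comp measurable_norm

/-- the integral of the power over an interval away from the origin -/
theorem kkA_aux {s L a : ℝ} (hs : s ≠ 0) (ha : 0 < a) (haL : a ≤ L) :
    ∫⁻ ρ in Ioo a L, ENNReal.ofReal (ρ ^ (-s - 1)) =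
      ENNReal.ofReal ((a ^ (-s) - L ^ (-s)) / s) := by
  have hint : IntegrableOn (fun ρ : ℝ => ρ ^ (-s - 1)) (Ioo a L) := by
    have : ContinuousOn (fun ρ : ℝ => ρ ^ (-s - 1)) (Icc a L) := by
      refine ContinuousOn.rpow_const continuousOn_id ?_
      intro ρ hρ
      left
      exact (lt_of_lt_of_le ha hρ.1).ne'
    exact this.integrableOn_Icc.mono_set Ioo_subset_Icc_self
  rw [← ofReal_integral_eq_lintegral_ofReal hint]
  · congr 1
    rw [← integral_Ioc_eq_integral_Ioo, ← intervalIntegral.integral_of_le haL, integral_rpow]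
    · have : -s - 1 + 1 = -s := by ring
      rw [this]
      field_simp
      ring
    · right
      refine ⟨?_, ?_⟩
      · intro h
        apply hs
        linarith
      · rw [uIcc_of_le haL]
        intro h
        exact absurd h.1 (not_le.mpr ha)
  · filter_upwards [ae_restrict_mem measurableSet_Ioo] with ρ hρ
    exact Real.rpow_nonneg (lt_trans ha hρ.1).le _

theorem kkA_origin_pos {s L : ℝ} (hs : 0 < s) (hL : 0 < L) :
    ∫⁻ ρ in Ioo (0 : ℝ) L, ENNReal.ofReal (ρ ^ (-s - 1)) = ⊤ := by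
  by_contra hne
  have hint : IntegrableOn (fun ρ : ℝ => ρ ^ (-s - 1)) (Ioo 0 L) := by
    refine ⟨?_, ?_⟩
    · exact (Measurable.aestronglyMeasurable (by fun_prop))
    · rw [hasFiniteIntegral_iff_ofReal]
      · exact lt_of_le_of_ne le_top hne
      · filter_upwards [ae_restrict_mem measurableSet_Ioo] with ρ hρ
        exact Real.rpow_nonneg hρ.1.le _
  rw [intervalIntegral.integrableOn_Ioo_rpow_iff hL] at hint
  linarith

theorem kkA_origin_neg {s L : ℝ} (hs : s < 0) (hL : 0 < L) :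
    ∫⁻ ρ in Ioo (0 : ℝ) L, ENNReal.ofReal (ρ ^ (-s - 1)) =
      ENNReal.ofReal (L ^ (-s) / (-s)) := by
  have hint : IntegrableOn (fun ρ : ℝ => ρ ^ (-s - 1)) (Ioo 0 L) := by
    rw [intervalIntegral.integrableOn_Ioo_rpow_iff hL]
    linarith
  rw [← ofReal_integral_eq_lintegral_ofReal hint]
  · congr 1
    rw [← integral_Ioc_eq_integral_Ioo, ← intervalIntegral.integral_of_le hL.le, integral_rpow]
    · have : -s - 1 + 1 = -s := by ring
      rw [this, Real.zero_rpow (by linarith), sub_zero]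
    · left
      linarith
  · filter_upwards [ae_restrict_mem measurableSet_Ioo] with ρ hρ
    exact Real.rpow_nonneg hρ.1.le _

/-- **KER2.** `|x|^(-s) = s k(x) + L^(-s)` for `s > 0`, `‖x‖ ≤ L` (both sides `∞` at `x = 0`). -/
theorem kk_pos {d : ℕ} {s L : ℝ} (hs : 0 < s) (hL : 0 < L) {x : V d} (hx : ‖x‖ ≤ L) :
    ‖x‖ₑ ^ (-s) = ENNReal.ofReal s * kk s L x + ENNReal.ofReal (L ^ (-s)) := by
  rcases eq_or_ne x 0 with rfl | hx0
  · unfold kk
    rw [norm_zero, kkA_origin_pos hs hL]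
    rw [ENNReal.mul_top (by simpa using hs)]
    simp [hs]
  · have hn : 0 < ‖x‖ := norm_pos_iff.mpr hx0
    unfold kk
    rw [kkA_aux hs.ne' hn hx, ← ofReal_norm, ENNReal.ofReal_rpow_of_pos hn,
      ← ENNReal.ofReal_mul hs.le, ← ENNReal.ofReal_add]
    · congr 1
      field_simp
      ring
    · have h1 : L ^ (-s) ≤ ‖x‖ ^ (-s) :=
        Real.rpow_le_rpow_of_nonpos hn hx (by linarith)
      have : 0 ≤ (‖x‖ ^ (-s) - L ^ (-s)) / s := div_nonneg (by linarith) hs.le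
      positivity
    · positivity

/-- **KER3.** `|x|^(-s) + (-s) k(x) = L^(-s)` for `s < 0`, `‖x‖ ≤ L`. -/
theorem kk_neg {d : ℕ} {s L : ℝ} (hs : s < 0) (hL : 0 < L) {x : V d} (hx : ‖x‖ ≤ L) :
    ‖x‖ₑ ^ (-s) + ENNReal.ofReal (-s) * kk s L x = ENNReal.ofReal (L ^ (-s)) := by
  have hs' : 0 < -s := by linarith
  have hs0 : s ≠ 0 := hs.ne
  rcases eq_or_ne x 0 with rfl | hx0
  · unfold kk
    rw [norm_zero, kkA_origin_neg hs hL, enorm_zero, ENNReal.zero_rpow_of_pos hs', zero_add,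
      ← ENNReal.ofReal_mul hs'.le]
    congr 1
    field_simp
  · have hn : 0 < ‖x‖ := norm_pos_iff.mpr hx0
    unfold kk
    have h1 : ‖x‖ ^ (-s) ≤ L ^ (-s) := Real.rpow_le_rpow hn.le hx hs'.le
    rw [kkA_aux hs.ne hn hx, ← ofReal_norm, ENNReal.ofReal_rpow_of_pos hn,
      ← ENNReal.ofReal_mul hs'.le, ← ENNReal.ofReal_add (by positivity)]
    · congr 1
      field_simp
      ring
    · have : (‖x‖ ^ (-s) - L ^ (-s)) / s = (L ^ (-s) - ‖x‖ ^ (-s)) / (-s) := by
        field_simp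
        ring
      rw [this]
      have : 0 ≤ (L ^ (-s) - ‖x‖ ^ (-s)) / (-s) := div_nonneg (by linarith) hs'.le
      positivity

/-- **KER4.** `s = 0`: `k(x) = log (L / |x|)`; in the form `-log |x| + log L`, `x ≠ 0`. -/
theorem kk_zero {d : ℕ} {L : ℝ} (hL : 0 < L) {x : V d} (hx : ‖x‖ ≤ L) (hx0 : x ≠ 0) :
    kk 0 L x = ENNReal.ofReal (Real.log L - Real.log ‖x‖) := by
  have ha : 0 < ‖x‖ := norm_pos_iff.mpr hx0
  unfold kk
  generalize ‖x‖ = a at *
  have hint : IntegrableOn (fun ρ : ℝ => ρ⁻¹) (Ioc a L) := by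
    have : ContinuousOn (fun ρ : ℝ => ρ⁻¹) (Icc a L) :=
      continuousOn_inv₀.mono (fun y hy => (ha.trans_le hy.1).ne')
    exact this.integrableOn_Icc.mono_set Ioc_subset_Icc_self
  have h1 : ∫⁻ ρ in Ioo a L, ENNReal.ofReal (ρ ^ (-(0 : ℝ) - 1)) =
      ∫⁻ ρ in Ioc a L, ENNReal.ofReal (ρ⁻¹) := by
    rw [← setLIntegral_congr (Ioo_ae_eq_Ioc (μ := volume) (a := a) (b := L))]
    apply setLIntegral_congr_fun measurableSet_Ioo
    intro ρ _
    show ENNReal.ofReal (ρ ^ (-(0 : ℝ) - 1)) = ENNReal.ofReal ρ⁻¹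
    rw [show (-(0 : ℝ) - 1) = -1 by norm_num, Real.rpow_neg_one]
  rw [h1, ← ofReal_integral_eq_lintegral_ofReal hint]
  · congr 1
    rw [← intervalIntegral.integral_of_le hx, integral_inv_of_pos ha hL, Real.log_div hL.ne' ha.ne']
  · refine (ae_restrict_iff' measurableSet_Ioc).mpr (Filter.Eventually.of_forall ?_)
    intro y hy
    exact inv_nonneg.mpr (ha.trans hy.1).le

/-- **KER5.** at the origin, `s ≥ 0`: `∫_0^L ρ^(-s-1) dρ = ∞`. -/
theorem kk_origin {d : ℕ} {s L : ℝ} (hs : 0 ≤ s) (hL : 0 < L) : kk s L (0 : V d) = ⊤ := by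
  unfold kk
  rw [norm_zero]
  by_contra hne
  have hI : IntegrableOn (fun ρ : ℝ => ρ ^ (-s - 1)) (Ioo 0 L) := by
    refine ⟨?_, ?_⟩
    · exact (by fun_prop : Measurable (fun ρ : ℝ => ρ ^ (-s - 1))).aestronglyMeasurable
    · rw [hasFiniteIntegral_iff_ofReal]
      · exact lt_top_iff_ne_top.mpr hne
      · refine (ae_restrict_iff' measurableSet_Ioo).mpr (Filter.Eventually.of_forall ?_)
        intro y hy
        exact Real.rpow_nonneg hy.1.le _
  rw [intervalIntegral.integrableOn_Ioo_rpow_iff hL] at hI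
  linarith

end Pool.Agent.Lib.H16RA
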