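import Mathlib
import Pool.Agent.Lib.H16RA.Kern
import Pool.Agent.Lib.RieszAnnulus.Energy2

set_option autoImplicit false

/-!
# RA2 chunks EN1 - EN4: strict positive definiteness of `k_{s,L}` for all `s > -2`

Uses helper31's `gm`, `PP`, `gauss_conv`, `PP_le_one`, `eq_of_DD_eq_zero` (Pool.Agent.Lib.RieszAnnulus.Energy, Energy2).
-/

namespace Pool.Agent.Lib.H16RA

open MeasureTheory Set Metric
open scoped ENNReal Real
open Pool.Agent.Lib.RieszAnnulus (gm PP DD)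

/-- the constant `1 / (2 Γ(1 + s/2))` -/
noncomputable def gc (s : ℝ) : ℝ := (2 * Real.Gamma (1 + s / 2))⁻¹

theorem gc_pos {s : ℝ} (hs : -2 < s) : 0 < gc s := by
  unfold gc
  have := Real.Gamma_pos_of_pos (show 0 < 1 + s / 2 by linarith)
  positivity

theorem rpow_gauss {s ρ : ℝ} (hs : -2 < s) (hρ : 0 < ρ) : ENNReal.ofReal (ρ ^ (-s - 1)) =
      ENNReal.ofReal (Real.Gamma (1 + s / 2))⁻¹ *
        ∫⁻ t in Ioi (0 : ℝ), ENNReal.ofReal (t ^ (s / 2)) *
          ENNReal.ofReal (ρ * Real.exp (-t * ρ ^ 2)) := by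
  have ha : 0 < 1 + s / 2 := by linarith
  have hG := Real.Gamma_pos_of_pos ha
  have hI := Real.integral_rpow_mul_exp_neg_mul_Ioi ha (show 0 < ρ ^ 2 by positivity)
  have hI0 : (0 : ℝ) < (1 / ρ ^ 2) ^ (1 + s / 2) * Real.Gamma (1 + s / 2) := by positivity
  have hint : IntegrableOn (fun t : ℝ => t ^ (1 + s / 2 - 1) * Real.exp (-(ρ ^ 2 * t))) (Ioi 0) := by
    by_contra hc
    rw [integral_undef hc] at hI
    linarith
  have h1 : ∫⁻ t in Ioi (0 : ℝ), ENNReal.ofReal (t ^ (s / 2)) *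
          ENNReal.ofReal (ρ * Real.exp (-t * ρ ^ 2)) =
      ENNReal.ofReal ρ * ∫⁻ t in Ioi (0 : ℝ),
        ENNReal.ofReal (t ^ (1 + s / 2 - 1) * Real.exp (-(ρ ^ 2 * t))) := by
    rw [← lintegral_const_mul _ (by fun_prop)]
    refine setLIntegral_congr_fun measurableSet_Ioi fun t ht => ?_
    have ht0 : (0 : ℝ) < t := ht
    rw [← ENNReal.ofReal_mul (by positivity), ← ENNReal.ofReal_mul (by positivity)]
    congr 1
    rw [show 1 + s / 2 - 1 = s / 2 by ring, show -(ρ ^ 2 * t) = -t * ρ ^ 2 by ring]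
    ring
  rw [h1, ← ofReal_integral_eq_lintegral_ofReal hint, hI, ← ENNReal.ofReal_mul (by positivity),
    ← ENNReal.ofReal_mul (by positivity)]
  · congr 1
    have h2 : (1 / ρ ^ 2) ^ (1 + s / 2) = ρ ^ (-s - 1) / ρ := by
      rw [one_div, ← Real.rpow_natCast, ← Real.rpow_neg hρ.le, ← Real.rpow_mul hρ.le,
        ← Real.rpow_sub_one hρ.ne']
      congr 1
      push_cast
      ring
    rw [h2]
    generalize Real.Gamma (1 + s / 2) = G at hG
    field_simp
  · filter_upwards [ae_restrict_mem measurableSet_Ioi] with t ht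
    have ht0 : (0 : ℝ) < t := ht
    positivity

theorem inner_gauss {a L t : ℝ} (ha : 0 ≤ a) (haL : a ≤ L) (ht : 0 < t) :
    ∫⁻ ρ in Ioo a L, ENNReal.ofReal (ρ * Real.exp (-t * ρ ^ 2)) =
      ENNReal.ofReal ((Real.exp (-t * a ^ 2) - Real.exp (-t * L ^ 2)) / (2 * t)) := by
  have hc : Continuous fun ρ : ℝ => ρ * Real.exp (-t * ρ ^ 2) := by fun_prop
  rw [← ofReal_integral_eq_lintegral_ofReal]
  · congr 1
    rw [← integral_Ioc_eq_integral_Ioo, ← intervalIntegral.integral_of_le haL,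
      intervalIntegral.integral_eq_sub_of_hasDerivAt
        (f := fun ρ : ℝ => -(Real.exp (-t * ρ ^ 2)) / (2 * t))]
    · ring
    · intro ρ _
      have h1 : HasDerivAt (fun ρ : ℝ => -t * ρ ^ 2) (-t * (2 * ρ)) ρ := by
        have := (hasDerivAt_pow 2 ρ).const_mul (-t)
        simpa using this
      have h2 := (h1.exp.neg).div_const (2 * t)
      refine h2.congr_deriv ?_
      field_simp
    · exact hc.intervalIntegrable _ _
  · exact (hc.integrableOn_Icc (a := a) (b := L)).mono_set Ioo_subset_Icc_self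
  · filter_upwards [ae_restrict_mem measurableSet_Ioo] with ρ hρ
    have : 0 ≤ ρ := ha.trans hρ.1.le
    simp only [Pi.zero_apply]
    positivity

/-- **EN1.** `k_{s,L}(x) = (1 / (2 Γ(1 + s/2))) ∫_0^∞ t^(s/2 - 1) (e^(-t |x|²) - e^(-t L²)) dt` for `|x| ≤ L`.
Proof: for `ρ > 0`, `ρ^(-s-1) = (1 / Γ(1+s/2)) ∫_0^∞ ρ t^(s/2) e^(-t ρ²) dt` (`Real.integral_rpow_mul_exp_neg_mul_Ioi`);
Tonelli on `(|x|, L) × (0, ∞)`; `∫_{|x|}^L ρ e^(-t ρ²) dρ = (e^(-t |x|²) - e^(-t L²)) / (2 t)`. -/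
theorem kk_gauss {d : ℕ} {s L : ℝ} (hs : -2 < s) (hL : 0 < L) {x : V d} (hx : ‖x‖ ≤ L) :
    kk s L x = ENNReal.ofReal (gc s) * ∫⁻ t in Ioi (0 : ℝ),
      ENNReal.ofReal (t ^ (s / 2 - 1)) *
        ENNReal.ofReal (Real.exp (-t * ‖x‖ ^ 2) - Real.exp (-t * L ^ 2)) := by
  have hG := Real.Gamma_pos_of_pos (show 0 < 1 + s / 2 by linarith)
  have hn : 0 ≤ ‖x‖ := norm_nonneg x
  unfold kk
  have h1 : ∀ ρ ∈ Ioo ‖x‖ L, ENNReal.ofReal (ρ ^ (-s - 1)) =
      ENNReal.ofReal (Real.Gamma (1 + s / 2))⁻¹ *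
        ∫⁻ t in Ioi (0 : ℝ), ENNReal.ofReal (t ^ (s / 2)) *
          ENNReal.ofReal (ρ * Real.exp (-t * ρ ^ 2)) := by
    intro ρ hρ
    exact rpow_gauss hs (hn.trans_lt hρ.1)
  rw [setLIntegral_congr_fun measurableSet_Ioo h1]
  rw [lintegral_const_mul]
  swap
  · refine Measurable.lintegral_prod_right' (f := fun q : ℝ × ℝ =>
      ENNReal.ofReal (q.2 ^ (s / 2)) * ENNReal.ofReal (q.1 * Real.exp (-q.2 * q.1 ^ 2))) ?_
    fun_prop
  rw [lintegral_lintegral_swap]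
  swap
  · refine Measurable.aemeasurable ?_
    unfold Function.uncurry
    fun_prop
  have h2 : ∀ t ∈ Ioi (0 : ℝ), (∫⁻ ρ in Ioo ‖x‖ L, ENNReal.ofReal (t ^ (s / 2)) *
      ENNReal.ofReal (ρ * Real.exp (-t * ρ ^ 2))) = ENNReal.ofReal (1 / 2) *
        (ENNReal.ofReal (t ^ (s / 2 - 1)) *
        ENNReal.ofReal (Real.exp (-t * ‖x‖ ^ 2) - Real.exp (-t * L ^ 2))) := by
    intro t ht
    have ht0 : (0 : ℝ) < t := ht
    rw [lintegral_const_mul _ (by fun_prop), inner_gauss hn hx ht0,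
      ← ENNReal.ofReal_mul (by positivity), ← ENNReal.ofReal_mul (by positivity),
      ← ENNReal.ofReal_mul (by positivity)]
    congr 1
    rw [Real.rpow_sub_one ht0.ne']
    field_simp
  rw [setLIntegral_congr_fun measurableSet_Ioi h2, lintegral_const_mul _ (by fun_prop), ← mul_assoc,
    ← ENNReal.ofReal_mul (by positivity)]
  congr 2
  unfold gc
  field_simp

/-- Gaussian mutual energy -/
noncomputable def EE {d : ℕ} (μ ν : Measure (V d)) (t : ℝ) : ℝ≥0∞ :=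
  ∫⁻ x, ∫⁻ y, ENNReal.ofReal (Real.exp (-t * ‖x - y‖ ^ 2)) ∂ν ∂μ

/-- its defect -/
noncomputable def Dt {d : ℕ} (μ ν : Measure (V d)) (t : ℝ) : ℝ≥0∞ :=
  (gm d (4 * t))⁻¹ * ∫⁻ z, ENNReal.ofReal (((PP μ t z).toReal - (PP ν t z).toReal) ^ 2)

theorem EE_rep {d : ℕ} (μ ν : Measure (V d)) [IsProbabilityMeasure μ] [IsProbabilityMeasure ν]
    {t : ℝ} (ht : 0 < t) : EE μ ν t = (gm d (4 * t))⁻¹ * ∫⁻ z, PP μ t z * PP ν t z := by
  unfold EE
  have hμ := Pool.Agent.Lib.RieszAnnulus.PP_meas μ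
  have hν := Pool.Agent.Lib.RieszAnnulus.PP_meas ν
  have hμt : Measurable fun z => PP μ t z :=
    hμ.comp (f := fun z : (EuclideanSpace ℝ (Fin d)) => (t, z)) (by fun_prop)
  have hνt : Measurable fun z => PP ν t z :=
    hν.comp (f := fun z : (EuclideanSpace ℝ (Fin d)) => (t, z)) (by fun_prop)
  have h1 : ∀ x : V d, ∫⁻ y, ENNReal.ofReal (Real.exp (-t * ‖x - y‖ ^ 2)) ∂ν =
      (gm d (4 * t))⁻¹ *
        ∫⁻ z : V d, ENNReal.ofReal (Real.exp (-(2 * t) * ‖x - z‖ ^ 2)) * PP ν t z := by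
    intro x
    simp_rw [Pool.Agent.Lib.RieszAnnulus.gauss_conv ht x]
    rw [lintegral_const_mul]
    · congr 1
      rw [lintegral_lintegral_swap]
      · refine lintegral_congr fun z => ?_
        rw [lintegral_const_mul _ (by fun_prop)]
        rfl
      · refine Measurable.aemeasurable ?_
        unfold Function.uncurry
        fun_prop
    · refine Measurable.lintegral_prod_right' (f := fun q : V d × V d =>
        ENNReal.ofReal (Real.exp (-(2 * t) * ‖x - q.2‖ ^ 2)) *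
          ENNReal.ofReal (Real.exp (-(2 * t) * ‖q.1 - q.2‖ ^ 2))) ?_
      fun_prop
  simp_rw [h1]
  rw [lintegral_const_mul]
  · congr 1
    rw [lintegral_lintegral_swap]
    · refine lintegral_congr fun z => ?_
      rw [lintegral_mul_const _ (by fun_prop)]
      rfl
    · refine Measurable.aemeasurable ?_
      unfold Function.uncurry
      refine Measurable.mul (by fun_prop) ?_
      exact hνt.comp measurable_snd
  · refine Measurable.lintegral_prod_right' (f := fun q : V d × V d =>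
      ENNReal.ofReal (Real.exp (-(2 * t) * ‖q.1 - q.2‖ ^ 2)) * PP ν t q.2) ?_
    exact Measurable.mul (by fun_prop) (hνt.comp measurable_snd)

/-- **EN2.** `EE μ ν t = (gm (4t))⁻¹ ∫ PP μ t z * PP ν t z dz` (by `gauss_conv` and Tonelli), then
`PP μ² + PP ν² = 2 PP μ PP ν + (PP μ - PP ν)²` pointwise as in `BB_identity`. -/
theorem EE_identity {d : ℕ} (μ ν : Measure (V d)) [IsProbabilityMeasure μ] [IsProbabilityMeasure ν]
    {t : ℝ} (ht : 0 < t) : EE μ μ t + EE ν ν t = 2 * EE μ ν t + Dt μ ν t := by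
  rw [EE_rep μ μ ht, EE_rep ν ν ht, EE_rep μ ν ht]
  unfold Dt
  have hμ := Pool.Agent.Lib.RieszAnnulus.PP_meas μ
  have hν := Pool.Agent.Lib.RieszAnnulus.PP_meas ν
  rw [mul_left_comm, ← mul_add, ← mul_add]
  congr 1
  have hμt : Measurable fun z => PP μ t z :=
    hμ.comp (f := fun z : (EuclideanSpace ℝ (Fin d)) => (t, z)) (by fun_prop)
  have hνt : Measurable fun z => PP ν t z :=
    hν.comp (f := fun z : (EuclideanSpace ℝ (Fin d)) => (t, z)) (by fun_prop)
  have n1 : Measurable fun z => PP μ t z * PP μ t z := hμt.mul hμt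
  have n2 : Measurable fun z => PP μ t z * PP ν t z := hμt.mul hνt
  rw [← lintegral_add_left n1, ← lintegral_const_mul _ n2, ← lintegral_add_left (n2.const_mul 2)]
  refine lintegral_congr fun z => ?_
  have h1 : PP μ t z ≠ ⊤ :=
    ((Pool.Agent.Lib.RieszAnnulus.PP_le_one μ ht z).trans_lt ENNReal.one_lt_top).ne
  have h2 : PP ν t z ≠ ⊤ :=
    ((Pool.Agent.Lib.RieszAnnulus.PP_le_one ν ht z).trans_lt ENNReal.one_lt_top).ne
  set p := (PP μ t z).toReal with hp
  set q := (PP ν t z).toReal with hq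
  have hp0 : 0 ≤ p := ENNReal.toReal_nonneg
  have hq0 : 0 ≤ q := ENNReal.toReal_nonneg
  rw [← ENNReal.ofReal_toReal h1, ← ENNReal.ofReal_toReal h2, ← hp, ← hq]
  rw [← ENNReal.ofReal_mul hp0, ← ENNReal.ofReal_mul hq0, ← ENNReal.ofReal_mul hp0,
    show (2 : ℝ≥0∞) = ENNReal.ofReal 2 by simp, ← ENNReal.ofReal_mul (by norm_num),
    ← ENNReal.ofReal_add (by positivity) (by positivity),
    ← ENNReal.ofReal_add (by positivity) (by positivity)]
  congr 1
  ring

/-- the mutual energy for `k_{s,L}` -/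
noncomputable def BBk {d : ℕ} (s L : ℝ) (μ ν : Measure (V d)) : ℝ≥0∞ :=
  ∫⁻ x, ∫⁻ y, kk s L (x - y) ∂ν ∂μ

theorem exp_le_of {t L : ℝ} (ht : 0 < t) {x : ℝ} (hx : x ≤ L)
    (hx0 : 0 ≤ x) : Real.exp (-t * L ^ 2) ≤ Real.exp (-t * x ^ 2) := by
  rw [Real.exp_le_exp]
  have h1 : x ^ 2 ≤ L ^ 2 := pow_le_pow_left₀ hx0 hx 2
  have h2 : t * x ^ 2 ≤ t * L ^ 2 := mul_le_mul_of_nonneg_left h1 ht.le
  linarith

/-- **EN3.** Representation for measures carried by a set of diameter `≤ L` (truncated subtraction; `EE ≥ e^(-t L²)`).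
Proof: `kk_gauss` for a.e. pair, Tonelli twice (order of integration `x, y, t` to `t, x, y`), and for fixed `t`
`∫∫ ofReal (e^(-t |x-y|²) - e^(-t L²)) = EE μ ν t - ofReal (e^(-t L²))` (`lintegral_sub`, probability measures). -/
theorem BBk_rep {d : ℕ} {s L : ℝ} (hs : -2 < s) (hL : 0 < L) {K : Set (V d)}
    (hdiam : ∀ x ∈ K, ∀ y ∈ K, ‖x - y‖ ≤ L) (μ ν : Measure (V d)) [IsProbabilityMeasure μ]
    [IsProbabilityMeasure ν] (hμ : μ Kᶜ = 0) (hν : ν Kᶜ = 0) :
    BBk s L μ ν = ENNReal.ofReal (gc s) * ∫⁻ t in Ioi (0 : ℝ),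
      ENNReal.ofReal (t ^ (s / 2 - 1)) * (EE μ ν t - ENNReal.ofReal (Real.exp (-t * L ^ 2))) := by
  have hμ' : ∀ᵐ x ∂μ, x ∈ K := hμ
  have hν' : ∀ᵐ x ∂ν, x ∈ K := hν
  unfold BBk
  have h1 : ∀ᵐ x ∂μ, ∫⁻ y, kk s L (x - y) ∂ν = ENNReal.ofReal (gc s) * ∫⁻ t in Ioi (0 : ℝ),
      ENNReal.ofReal (t ^ (s / 2 - 1)) * ∫⁻ y,
        ENNReal.ofReal (Real.exp (-t * ‖x - y‖ ^ 2) - Real.exp (-t * L ^ 2)) ∂ν := by
    filter_upwards [hμ'] with x hx
    have h2 : ∀ᵐ y ∂ν, kk s L (x - y) = ENNReal.ofReal (gc s) * ∫⁻ t in Ioi (0 : ℝ),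
        ENNReal.ofReal (t ^ (s / 2 - 1)) *
        ENNReal.ofReal (Real.exp (-t * ‖x - y‖ ^ 2) - Real.exp (-t * L ^ 2)) := by
      filter_upwards [hν'] with y hy
      exact kk_gauss hs hL (hdiam x hx y hy)
    rw [lintegral_congr_ae h2, lintegral_const_mul]
    · congr 1
      rw [lintegral_lintegral_swap]
      · refine lintegral_congr fun t => ?_
        rw [lintegral_const_mul _ (by fun_prop)]
      · refine Measurable.aemeasurable ?_
        unfold Function.uncurry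
        fun_prop
    · refine Measurable.lintegral_prod_right' (f := fun q : V d × ℝ =>
        ENNReal.ofReal (q.2 ^ (s / 2 - 1)) *
        ENNReal.ofReal (Real.exp (-q.2 * ‖x - q.1‖ ^ 2) - Real.exp (-q.2 * L ^ 2))) ?_
      fun_prop
  have hm : Measurable fun q : V d × ℝ => ∫⁻ y,
        ENNReal.ofReal (Real.exp (-q.2 * ‖q.1 - y‖ ^ 2) - Real.exp (-q.2 * L ^ 2)) ∂ν := by
    refine Measurable.lintegral_prod_right' (f := fun q : (V d × ℝ) × V d =>
      ENNReal.ofReal (Real.exp (-q.1.2 * ‖q.1.1 - q.2‖ ^ 2) - Real.exp (-q.1.2 * L ^ 2))) ?_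
    fun_prop
  rw [lintegral_congr_ae h1, lintegral_const_mul]
  · congr 1
    rw [lintegral_lintegral_swap]
    · refine setLIntegral_congr_fun measurableSet_Ioi fun t ht => ?_
      have ht0 : (0 : ℝ) < t := ht
      rw [lintegral_const_mul]
      · congr 1
        refine ENNReal.eq_sub_of_add_eq ENNReal.ofReal_ne_top ?_
        unfold EE
        have h3 : ∀ᵐ x ∂μ, ∫⁻ y, ENNReal.ofReal (Real.exp (-t * ‖x - y‖ ^ 2)) ∂ν =
            ∫⁻ y, ENNReal.ofReal (Real.exp (-t * ‖x - y‖ ^ 2) - Real.exp (-t * L ^ 2)) ∂ν +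
              ENNReal.ofReal (Real.exp (-t * L ^ 2)) := by
          filter_upwards [hμ'] with x hx
          have h4 : ∀ᵐ y ∂ν, ENNReal.ofReal (Real.exp (-t * ‖x - y‖ ^ 2)) =
              ENNReal.ofReal (Real.exp (-t * ‖x - y‖ ^ 2) - Real.exp (-t * L ^ 2)) +
                ENNReal.ofReal (Real.exp (-t * L ^ 2)) := by
            filter_upwards [hν'] with y hy
            rw [← ENNReal.ofReal_add _ (Real.exp_pos _).le]
            · congr 1
              ring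
            · exact sub_nonneg.mpr (exp_le_of ht0 (hdiam x hx y hy) (norm_nonneg _))
          rw [lintegral_congr_ae h4, lintegral_add_right _ measurable_const, lintegral_const,
            measure_univ, mul_one]
        rw [lintegral_congr_ae h3, lintegral_add_right _ measurable_const, lintegral_const,
            measure_univ, mul_one]
      · exact hm.comp (f := fun x : V d => (x, t)) (by fun_prop)
    · refine Measurable.aemeasurable ?_
      unfold Function.uncurry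
      exact Measurable.mul (by fun_prop) hm
  · refine Measurable.lintegral_prod_right' (f := fun q : V d × ℝ =>
      ENNReal.ofReal (q.2 ^ (s / 2 - 1)) * ∫⁻ y,
        ENNReal.ofReal (Real.exp (-q.2 * ‖q.1 - y‖ ^ 2) - Real.exp (-q.2 * L ^ 2)) ∂ν) ?_
    exact Measurable.mul (by fun_prop) hm

/-- **EN3b.** -/
theorem EE_ge {d : ℕ} {L : ℝ} (hL : 0 < L) {K : Set (V d)}
    (hdiam : ∀ x ∈ K, ∀ y ∈ K, ‖x - y‖ ≤ L) (μ ν : Measure (V d)) [IsProbabilityMeasure μ]
    [IsProbabilityMeasure ν] (hμ : μ Kᶜ = 0) (hν : ν Kᶜ = 0) {t : ℝ} (ht : 0 < t) :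
    ENNReal.ofReal (Real.exp (-t * L ^ 2)) ≤ EE μ ν t ∧ EE μ ν t ≤ 1 := by
  have hμ' : ∀ᵐ x ∂μ, x ∈ K := hμ
  have hν' : ∀ᵐ x ∂ν, x ∈ K := hν
  unfold EE
  constructor
  · have h1 : ENNReal.ofReal (Real.exp (-t * L ^ 2)) =
        ∫⁻ _ : V d, ∫⁻ _ : V d, ENNReal.ofReal (Real.exp (-t * L ^ 2)) ∂ν ∂μ := by simp
    rw [h1]
    refine lintegral_mono_ae ?_
    filter_upwards [hμ'] with x hx
    refine lintegral_mono_ae ?_
    filter_upwards [hν'] with y hy
    exact ENNReal.ofReal_le_ofReal (exp_le_of ht (hdiam x hx y hy) (norm_nonneg _))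
  · calc ∫⁻ x, ∫⁻ y, ENNReal.ofReal (Real.exp (-t * ‖x - y‖ ^ 2)) ∂ν ∂μ
        ≤ ∫⁻ _ : V d, ∫⁻ _ : V d, 1 ∂ν ∂μ := by
          refine lintegral_mono fun x => lintegral_mono fun y => ?_
          rw [← ENNReal.ofReal_one]
          refine ENNReal.ofReal_le_ofReal ?_
          rw [Real.exp_le_one_iff]
          have : 0 ≤ t * ‖x - y‖ ^ 2 := by positivity
          linarith
      _ = 1 := by simp

theorem EE_meas {d : ℕ} (μ ν : Measure (V d)) [IsProbabilityMeasure μ]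
    [IsProbabilityMeasure ν] : Measurable (EE μ ν) := by
  unfold EE
  refine Measurable.lintegral_prod_right' (f := fun q : ℝ × V d =>
    ∫⁻ y, ENNReal.ofReal (Real.exp (-q.1 * ‖q.2 - y‖ ^ 2)) ∂ν) ?_
  refine Measurable.lintegral_prod_right' (f := fun q : (ℝ × V d) × V d =>
    ENNReal.ofReal (Real.exp (-q.1.1 * ‖q.1.2 - q.2‖ ^ 2))) ?_
  fun_prop

theorem Dt_meas {d : ℕ} (μ ν : Measure (V d)) [IsProbabilityMeasure μ]
    [IsProbabilityMeasure ν] : Measurable (Dt μ ν) := by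
  have hμ := Pool.Agent.Lib.RieszAnnulus.PP_meas μ
  have hν := Pool.Agent.Lib.RieszAnnulus.PP_meas ν
  have hgm : Measurable fun t : ℝ => (gm d (4 * t))⁻¹ := by
    refine Measurable.inv ?_
    unfold gm
    refine Measurable.lintegral_prod_right' (f := fun q : ℝ × (EuclideanSpace ℝ (Fin d)) =>
      ENNReal.ofReal (Real.exp (-(4 * q.1) * ‖q.2‖ ^ 2))) ?_
    fun_prop
  have hm : Measurable fun q : ℝ × (EuclideanSpace ℝ (Fin d)) =>
      ENNReal.ofReal (((PP μ q.1 q.2).toReal - (PP ν q.1 q.2).toReal) ^ 2) := by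
    refine Measurable.ennreal_ofReal ?_
    exact ((hμ.ennreal_toReal).sub (hν.ennreal_toReal)).pow_const 2
  exact hgm.mul (Measurable.lintegral_prod_right' hm)

/-- **EN4.** From `BBk_rep`, `EE_ge`, `EE_identity`: `D = gc s ∫ t^(s/2-1) Dt μ ν t dt`; if `D = 0` then `Dt μ ν t = 0` for a.e.
`t > 0`, so helper31's `DD μ ν = ∫ Dt = 0` and `eq_of_DD_eq_zero` applies. -/
theorem energy_identity {d : ℕ} {s L : ℝ} (hs : -2 < s) (hL : 0 < L) {K : Set (V d)}
    (hdiam : ∀ x ∈ K, ∀ y ∈ K, ‖x - y‖ ≤ L) (μ ν : Measure (V d)) [IsProbabilityMeasure μ]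
    [IsProbabilityMeasure ν] (hμ : μ Kᶜ = 0) (hν : ν Kᶜ = 0) :
    ∃ D : ℝ≥0∞, BBk s L μ μ + BBk s L ν ν = 2 * BBk s L μ ν + D ∧ (D = 0 → μ = ν) := by
  have hgc := gc_pos hs
  have hDt := Dt_meas μ ν
  refine ⟨ENNReal.ofReal (gc s) * ∫⁻ t in Ioi (0 : ℝ),
    ENNReal.ofReal (t ^ (s / 2 - 1)) * Dt μ ν t, ?_, ?_⟩
  · rw [BBk_rep hs hL hdiam μ μ hμ hμ, BBk_rep hs hL hdiam ν ν hν hν,
      BBk_rep hs hL hdiam μ ν hμ hν, mul_left_comm, ← mul_add, ← mul_add]
    congr 1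
    have hE : ∀ (α β : Measure (V d)) [IsProbabilityMeasure α] [IsProbabilityMeasure β],
        Measurable fun t : ℝ => ENNReal.ofReal (t ^ (s / 2 - 1)) *
          (EE α β t - ENNReal.ofReal (Real.exp (-t * L ^ 2))) := by
      intro α β _ _
      exact Measurable.mul (by fun_prop) ((EE_meas α β).sub (by fun_prop))
    rw [← lintegral_add_left (hE μ μ), ← lintegral_const_mul _ (hE μ ν),
      ← lintegral_add_left ((hE μ ν).const_mul 2)]
    refine setLIntegral_congr_fun measurableSet_Ioi fun t ht => ?_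
    have ht0 : (0 : ℝ) < t := ht
    rw [mul_left_comm, ← mul_add, ← mul_add]
    congr 1
    have hid := EE_identity μ ν ht0
    have hc : ENNReal.ofReal (Real.exp (-t * L ^ 2)) ≠ ⊤ := ENNReal.ofReal_ne_top
    have e1 := tsub_add_cancel_of_le (EE_ge hL hdiam μ μ hμ hμ ht0).1
    have e2 := tsub_add_cancel_of_le (EE_ge hL hdiam ν ν hν hν ht0).1
    have e3 := tsub_add_cancel_of_le (EE_ge hL hdiam μ ν hμ hν ht0).1
    generalize ENNReal.ofReal (Real.exp (-t * L ^ 2)) = c at hc e1 e2 e3 ⊢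
    generalize EE μ μ t - c = a at e1 ⊢
    generalize EE ν ν t - c = b at e2 ⊢
    generalize EE μ ν t - c = m at e3 ⊢
    rw [← e1, ← e2, ← e3] at hid
    have h3 : a + b + (c + c) = 2 * m + Dt μ ν t + (c + c) := by
      calc a + b + (c + c) = (a + c) + (b + c) := by ring
        _ = 2 * (m + c) + Dt μ ν t := hid
        _ = 2 * m + Dt μ ν t + (c + c) := by ring
    exact (ENNReal.add_left_inj (ENNReal.add_ne_top.mpr ⟨hc, hc⟩)).mp h3
  · intro h
    rw [mul_eq_zero] at h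
    rcases h with h | h
    · exact absurd h (ENNReal.ofReal_pos.mpr hgc).ne'
    · have hm : Measurable fun t : ℝ => ENNReal.ofReal (t ^ (s / 2 - 1)) * Dt μ ν t :=
        Measurable.mul (by fun_prop) hDt
      rw [lintegral_eq_zero_iff hm] at h
      refine Pool.Agent.Lib.RieszAnnulus.eq_of_DD_eq_zero μ ν ?_
      have h4 : DD μ ν = ∫⁻ t in Ioi (0 : ℝ), Dt μ ν t := rfl
      rw [h4, lintegral_eq_zero_iff hDt]
      filter_upwards [h, ae_restrict_mem measurableSet_Ioi] with t ht ht0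
      have ht0' : (0 : ℝ) < t := ht0
      simp only [Pi.zero_apply, mul_eq_zero] at ht
      rcases ht with ht | ht
      · exact absurd ht (ENNReal.ofReal_pos.mpr (by positivity)).ne'
      · exact ht

end Pool.Agent.Lib.H16RA
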