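import Mathlib
import Pool.Agent.Lib.H16RA.Main
import Pool.Agent.Lib.H16RA.Gauss

set_option autoImplicit false

/-!
# RA2 chunk ER: the extended-real energy in terms of `k_{s,L}`
-/

namespace Pool.Agent.Lib.H16RA

open MeasureTheory Set Metric
open scoped ENNReal Real

/-- the real number `K_s(L)` -/
noncomputable def Ks (s L : ℝ) : ℝ := if s = 0 then -Real.log L else 1 / (s * L ^ s)

theorem ER_coe {a : ℝ≥0∞} (ha : a ≠ ⊤) : (a : EReal) = ((a.toReal : ℝ) : EReal) := by
  lift a to NNReal using ha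
  rfl

/-- **ER1.** `K_s(x) = K_s(L) + k_{s,L}(x)` for `‖x‖ ≤ L` (cases `s > 0`: `kk_pos`, `s < 0`: `kk_neg`, `s = 0`: `kk_zero`, and
`kk_origin` at `x = 0`). -/
theorem rieszKernel_eq {d : ℕ} {s L : ℝ} (hL : 0 < L) {x : V d} (hx : ‖x‖ ≤ L) :
    rieszKernel s x = (Ks s L : EReal) + (kk s L x : EReal) := by
  unfold rieszKernel Ks
  rcases lt_trichotomy s 0 with hs | hs | hs
  · -- s < 0
    rw [if_neg hs.ne, if_neg hs.ne]
    have h1 := kk_neg hs hL hx
    have hA : ‖x‖ₑ ^ (-s) ≠ ⊤ := by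
      intro h
      rw [h, top_add] at h1
      exact ENNReal.ofReal_ne_top h1.symm
    have hk : kk s L x ≠ ⊤ := by
      intro h
      rw [h, ENNReal.mul_top (by simpa using hs), add_top] at h1
      exact ENNReal.ofReal_ne_top h1.symm
    have hr : (‖x‖ₑ ^ (-s)).toReal + (-s) * (kk s L x).toReal = L ^ (-s) := by
      have h2 := congrArg ENNReal.toReal h1
      rw [ENNReal.toReal_add hA (ENNReal.mul_ne_top ENNReal.ofReal_ne_top hk),
        ENNReal.toReal_mul, ENNReal.toReal_ofReal (by linarith),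
        ENNReal.toReal_ofReal (by positivity)] at h2
      exact h2
    have e1 := ER_coe hA
    have e2 := ER_coe hk
    rw [e1, e2, ← EReal.coe_mul, ← EReal.coe_add]
    congr 1
    rw [Real.rpow_neg hL.le] at hr
    have hLs : 0 < L ^ s := Real.rpow_pos_of_pos hL s
    have hs' : s ≠ 0 := hs.ne
    have : (‖x‖ₑ ^ (-s)).toReal = (L ^ s)⁻¹ + s * (kk s L x).toReal := by linarith
    rw [this]
    field_simp
  · subst hs
    rw [if_pos rfl, if_pos rfl]
    by_cases hx0 : x = 0
    · subst hx0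
      rw [kk_origin le_rfl hL]
      simp
    · have hn : 0 < ‖x‖ := norm_pos_iff.mpr hx0
      rw [kk_zero hL hx hx0]
      have h2 : ENNReal.log ‖x‖ₑ = ((Real.log ‖x‖ : ℝ) : EReal) := by
        rw [← ofReal_norm, ENNReal.log_ofReal_of_pos hn]
      have h3 : 0 ≤ Real.log L - Real.log ‖x‖ := by
        have := Real.log_le_log hn hx
        linarith
      rw [h2, EReal.coe_ennreal_ofReal, max_eq_left h3, ← EReal.coe_neg, ← EReal.coe_add]
      congr 1
      ring
  · rw [if_neg hs.ne', if_neg hs.ne']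
    rw [kk_pos hs hL hx]
    have e1 : ((s⁻¹ : ℝ) : EReal) = ((ENNReal.ofReal s⁻¹ : ℝ≥0∞) : EReal) := by
      rw [EReal.coe_ennreal_ofReal, max_eq_left (by positivity)]
    rw [e1, ← EReal.coe_ennreal_mul, mul_add, ← mul_assoc, ← ENNReal.ofReal_mul (by positivity),
      inv_mul_cancel₀ hs.ne', ENNReal.ofReal_one, one_mul, ← ENNReal.ofReal_mul (by positivity),
      EReal.coe_ennreal_add, add_comm]
    congr 1
    rw [EReal.coe_ennreal_ofReal, max_eq_left (by positivity)]
    congr 1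
    rw [Real.rpow_neg hL.le]
    have hLs : 0 < L ^ s := Real.rpow_pos_of_pos hL s
    field_simp

/-- pointwise identity of positive and negative parts -/
theorem ER_aux (a : ℝ) (k : ℝ≥0∞) :
    ((a : EReal) + (k : EReal)).toENNReal + ENNReal.ofReal (-a) =
      k + ENNReal.ofReal a + (-((a : EReal) + (k : EReal))).toENNReal := by
  by_cases hk : k = ⊤
  · subst hk
    simp
  · lift k to NNReal using hk
    have h1 : ((a : EReal) + (((k : ℝ≥0∞)) : EReal)) = ((a + (k : ℝ) : ℝ) : EReal) := by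
      rw [EReal.coe_add]; rfl
    rw [h1, ← EReal.coe_neg, EReal.toENNReal_of_ne_top (EReal.coe_ne_top _),
      EReal.toENNReal_of_ne_top (EReal.coe_ne_top _), EReal.toReal_coe, EReal.toReal_coe]
    have hk0 : (0 : ℝ) ≤ k := k.2
    have h2 : (k : ℝ≥0∞) = ENNReal.ofReal (k : ℝ) := by simp
    rw [h2]
    rcases le_total 0 a with ha | ha
    · rw [ENNReal.ofReal_of_nonpos (show -a ≤ 0 by linarith),
        ENNReal.ofReal_of_nonpos (show -(a + (k : ℝ)) ≤ 0 by linarith), add_zero, add_zero,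
        ← ENNReal.ofReal_add hk0 ha, add_comm]
    · rcases le_total 0 (a + k) with h | h
      · rw [ENNReal.ofReal_of_nonpos ha,
          ENNReal.ofReal_of_nonpos (show -(a + (k : ℝ)) ≤ 0 by linarith), add_zero, add_zero,
          ← ENNReal.ofReal_add h (by linarith)]
        congr 1; ring
      · rw [ENNReal.ofReal_of_nonpos ha, ENNReal.ofReal_of_nonpos h, zero_add, add_zero,
          ← ENNReal.ofReal_add hk0 (by linarith)]
        congr 1; ring

theorem ER_aux2 (a : ℝ) (k : ℝ≥0∞) :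
    (-((a : EReal) + (k : EReal))).toENNReal ≤ ENNReal.ofReal (-a) := by
  have h : (-((a : EReal) + (k : EReal))) ≤ ((-a : ℝ) : EReal) := by
    rw [EReal.coe_neg]
    apply EReal.neg_le_neg_iff.mpr
    exact le_add_of_nonneg_right (EReal.coe_ennreal_nonneg k)
  calc _ ≤ (((-a : ℝ) : EReal)).toENNReal := EReal.toENNReal_le_toENNReal h
    _ = ENNReal.ofReal (-a) := by
        rw [EReal.toENNReal_of_ne_top (EReal.coe_ne_top _), EReal.toReal_coe]

theorem ER_aux3 {a : ℝ} {P B N : ℝ≥0∞} (key : P + ENNReal.ofReal (-a) = B + ENNReal.ofReal a + N)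
    (hNtop : N ≠ ⊤) : ((P : EReal)) - (N : EReal) = (a : EReal) + (B : EReal) := by
  lift N to NNReal using hNtop
  by_cases hB : B = ⊤
  · subst hB
    have hPt : P = ⊤ := by
      by_contra h
      rw [top_add, top_add] at key
      exact (ENNReal.add_ne_top.mpr ⟨h, ENNReal.ofReal_ne_top⟩) key
    subst hPt
    rw [EReal.coe_ennreal_top, EReal.coe_add_top]
    exact EReal.top_sub_coe (N : ℝ)
  · lift B to NNReal using hB
    have hPt : P ≠ ⊤ := by
      intro h
      rw [h, top_add] at key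
      have : (B : ℝ≥0∞) + ENNReal.ofReal a + (N : ℝ≥0∞) ≠ ⊤ := by
        simp
      exact this key.symm
    lift P to NNReal using hPt
    have hr : (P : ℝ) + max (-a) 0 = (B : ℝ) + max a 0 + (N : ℝ) := by
      have h2 := congrArg ENNReal.toReal key
      rw [ENNReal.toReal_add ENNReal.coe_ne_top ENNReal.ofReal_ne_top,
        ENNReal.toReal_add (by simp) ENNReal.coe_ne_top,
        ENNReal.toReal_add ENNReal.coe_ne_top ENNReal.ofReal_ne_top, ENNReal.toReal_ofReal',
        ENNReal.toReal_ofReal'] at h2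
      exact h2
    have hm : max a 0 - max (-a) 0 = a := by
      rcases le_total 0 a with h | h
      · rw [max_eq_left h, max_eq_right (by linarith)]; ring
      · rw [max_eq_right h, max_eq_left (by linarith)]; ring
    have e : (P : ℝ) - (N : ℝ) = a + (B : ℝ) := by linarith
    show (((P : ℝ) : EReal)) - ((N : ℝ) : EReal) = (a : EReal) + ((B : ℝ) : EReal)
    rw [← EReal.coe_sub, ← EReal.coe_add, e]


theorem ER_aux4 {X : Type*} [MeasurableSpace X] (μ : Measure X) [IsProbabilityMeasure μ]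
    {f k g : X → X → ℝ≥0∞} {c₁ c₂ : ℝ≥0∞} (_hk : Measurable fun p : X × X => k p.1 p.2)
    (hg : Measurable fun p : X × X => g p.1 p.2)
    (h : ∀ x y, f x y + c₁ = k x y + c₂ + g x y) :
    (∫⁻ x, ∫⁻ y, f x y ∂μ ∂μ) + c₁ = (∫⁻ x, ∫⁻ y, k x y ∂μ ∂μ) + c₂ + ∫⁻ x, ∫⁻ y, g x y ∂μ ∂μ := by
  have hgx : ∀ x, Measurable (g x) := fun x => hg.comp (measurable_const.prodMk measurable_id)
  have l1 : (∫⁻ x, ∫⁻ y, (f x y + c₁) ∂μ ∂μ) = (∫⁻ x, ∫⁻ y, f x y ∂μ ∂μ) + c₁ := by
    have : ∀ x, (∫⁻ y, (f x y + c₁) ∂μ) = (∫⁻ y, f x y ∂μ) + c₁ := by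
      intro x
      rw [lintegral_add_right _ measurable_const, lintegral_const, measure_univ, mul_one]
    rw [lintegral_congr this]
    rw [lintegral_add_right _ measurable_const, lintegral_const, measure_univ, mul_one]
  have l2 : (∫⁻ x, ∫⁻ y, (k x y + c₂ + g x y) ∂μ ∂μ) =
      (∫⁻ x, ∫⁻ y, k x y ∂μ ∂μ) + c₂ + ∫⁻ x, ∫⁻ y, g x y ∂μ ∂μ := by
    have : ∀ x, (∫⁻ y, (k x y + c₂ + g x y) ∂μ) =
        (∫⁻ y, k x y ∂μ) + c₂ + ∫⁻ y, g x y ∂μ := by
      intro x
      rw [lintegral_add_right _ (hgx x), lintegral_add_right _ measurable_const, lintegral_const,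
        measure_univ, mul_one]
    rw [lintegral_congr this]
    rw [lintegral_add_right _ (hg.lintegral_prod_right), lintegral_add_right _ measurable_const,
      lintegral_const, measure_univ, mul_one]
  rw [← l1, ← l2]
  exact lintegral_congr fun x => lintegral_congr fun y => h x y

/-- **ER2.** For a probability measure carried by a set of diameter `≤ L`: `I_s(μ) = K_s(L) + ∬ k_{s,L}`.
Proof: with `a = K_s(L)` and `k ≥ 0`, `(a + k)⁺ + a⁻ = k + a⁺ + (a + k)⁻` in `ℝ≥0∞` and `(a + k)⁻ ≤ a⁻`; integrate. -/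
theorem energy_eq {d : ℕ} {s L : ℝ} (hL : 0 < L) {K : Set (V d)}
    (hdiam : ∀ x ∈ K, ∀ y ∈ K, ‖x - y‖ ≤ L) (μ : Measure (V d)) [IsProbabilityMeasure μ]
    (hμ : μ Kᶜ = 0) :
    rieszEnergy s μ = (Ks s L : EReal) + (BBk s L μ μ : EReal) := by
  have hae : ∀ᵐ x ∂μ, x ∈ K := by
    rw [ae_iff]; exact hμ
  have hkm : Measurable fun p : V d × V d => kk s L (p.1 - p.2) :=
    (kk_meas s L).comp (by fun_prop)
  have hknm : Measurable fun p : V d × V d =>
      (-((Ks s L : EReal) + (kk s L (p.1 - p.2) : EReal))).toENNReal := by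
    apply Measurable.ereal_toENNReal
    apply Measurable.neg
    exact (measurable_const.add hkm.coe_ereal_ennreal)
  have hP : (∫⁻ x, ∫⁻ y, (rieszKernel s (x - y)).toENNReal ∂μ ∂μ) =
      ∫⁻ x, ∫⁻ y, ((Ks s L : EReal) + (kk s L (x - y) : EReal)).toENNReal ∂μ ∂μ := by
    apply lintegral_congr_ae
    filter_upwards [hae] with x hx
    apply lintegral_congr_ae
    filter_upwards [hae] with y hy
    rw [rieszKernel_eq hL (hdiam x hx y hy)]
  have hN : (∫⁻ x, ∫⁻ y, (-(rieszKernel s (x - y))).toENNReal ∂μ ∂μ) =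
      ∫⁻ x, ∫⁻ y, (-((Ks s L : EReal) + (kk s L (x - y) : EReal))).toENNReal ∂μ ∂μ := by
    apply lintegral_congr_ae
    filter_upwards [hae] with x hx
    apply lintegral_congr_ae
    filter_upwards [hae] with y hy
    rw [rieszKernel_eq hL (hdiam x hx y hy)]
  have key := ER_aux4 (f := fun x y => ((Ks s L : EReal) + (kk s L (x - y) : EReal)).toENNReal)
    (k := fun x y => kk s L (x - y)) μ hkm hknm (fun x y => ER_aux (Ks s L) (kk s L (x - y)))
  have hNle : (∫⁻ x, ∫⁻ y, (-((Ks s L : EReal) + (kk s L (x - y) : EReal))).toENNReal ∂μ ∂μ) ≤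
      ENNReal.ofReal (-(Ks s L)) := by
    calc _ ≤ ∫⁻ _x, ∫⁻ _y, ENNReal.ofReal (-(Ks s L)) ∂μ ∂μ :=
          lintegral_mono fun x => lintegral_mono fun y => ER_aux2 (Ks s L) _
      _ = ENNReal.ofReal (-(Ks s L)) := by
          rw [lintegral_const, lintegral_const, measure_univ, mul_one, mul_one]
  unfold rieszEnergy
  rw [hP, hN]
  exact ER_aux3 key (ne_top_of_le_ne_top ENNReal.ofReal_ne_top hNle)

end Pool.Agent.Lib.H16RA
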