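import Mathlib
import Pool.Agent.Lib.H16RA.Scale
import Pool.Agent.Lib.H16RA.Kern

set_option autoImplicit false

/-!
# RA2 chunk PK: the potential for the kernel `k_{s,L}`, `s ≠ 0`
-/

namespace Pool.Agent.Lib.H16RA

open MeasureTheory Set Metric
open scoped ENNReal Real

theorem FR_meas_pk (d : ℕ) (s r R : ℝ) : Measurable (FR d s r R) := by
  unfold FR
  exact (FF_meas d (d - s) (r / R)).comp (measurable_const_smul _)

theorem measurableSet_annulus_pk (d : ℕ) (r R : ℝ) :
    MeasurableSet (annulus d r R : Set (V d)) := by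
  show MeasurableSet ({y : V d | r ≤ ‖y‖} ∩ {y : V d | ‖y‖ ≤ R})
  exact (measurableSet_le (by fun_prop) (by fun_prop)).inter
    (measurableSet_le (by fun_prop) (by fun_prop))

theorem annulus_diam_pk (d : ℕ) {r R L : ℝ} (hL : 2 * R ≤ L) {x z : V d}
    (hx : x ∈ annulus d r R) (hz : z ∈ annulus d r R) : ‖x - z‖ ≤ L := by
  have h1 : ‖x‖ ≤ R := hx.2
  have h2 : ‖z‖ ≤ R := hz.2
  linarith [norm_sub_le x z]

/-- **PK1.** `s > 0`: by `kk_pos` and `potS`,
`s ∫ FR k_{s,L}(x - z) + L^(-s) M = R^(d-s) C_d`; all terms are finite (`2 R ≤ L` bounds the diameter). -/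
theorem potK_pos (d : ℕ) [NeZero d] {s r R L : ℝ} (hs : (d : ℝ) - 2 < s) (hs' : s < d) (hr : 0 < r)
    (hrR : r < R) (hL : 2 * R ≤ L) (hs0 : 0 < s) {z : V d} (hz : z ∈ annulus d r R) :
    ENNReal.ofReal s * (∫⁻ x in annulus d r R, FR d s r R x * kk s L (x - z)) +
      ENNReal.ofReal (L ^ (-s)) * MR d s r R = ENNReal.ofReal (R ^ ((d : ℝ) - s)) * Cc d (d - s) := by
  have hL0 : 0 < L := by linarith
  have hF := FR_meas_pk d s r R
  have hk : Measurable fun x : V d => kk s L (x - z) :=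
    (kk_meas s L).comp (measurable_id.sub_const z)
  have hFk : Measurable fun x : V d => FR d s r R x * kk s L (x - z) := hF.mul hk
  rw [← potS d hs hs' hr hrR hz]
  unfold MR
  rw [← lintegral_const_mul _ hFk, ← lintegral_const_mul _ hF,
    ← lintegral_add_left (hFk.const_mul _)]
  refine setLIntegral_congr_fun (measurableSet_annulus_pk d r R) ?_
  intro x hx
  show ENNReal.ofReal s * (FR d s r R x * kk s L (x - z)) + ENNReal.ofReal (L ^ (-s)) * FR d s r R x =
    FR d s r R x * ‖x - z‖ₑ ^ (-s)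
  rw [kk_pos hs0 hL0 (annulus_diam_pk d hL hx hz)]
  ring

/-- **PK2.** `s < 0`. -/
theorem potK_neg (d : ℕ) [NeZero d] {s r R L : ℝ} (hs : (d : ℝ) - 2 < s) (hs' : s < d) (hr : 0 < r)
    (hrR : r < R) (hL : 2 * R ≤ L) (hs0 : s < 0) {z : V d} (hz : z ∈ annulus d r R) :
    ENNReal.ofReal (R ^ ((d : ℝ) - s)) * Cc d (d - s) +
      ENNReal.ofReal (-s) * (∫⁻ x in annulus d r R, FR d s r R x * kk s L (x - z)) =
      ENNReal.ofReal (L ^ (-s)) * MR d s r R := by
  have hL0 : 0 < L := by linarith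
  have hF := FR_meas_pk d s r R
  have hk : Measurable fun x : V d => kk s L (x - z) :=
    (kk_meas s L).comp (measurable_id.sub_const z)
  have hFk : Measurable fun x : V d => FR d s r R x * kk s L (x - z) := hF.mul hk
  rw [← potS d hs hs' hr hrR hz]
  unfold MR
  rw [← lintegral_const_mul _ hFk, ← lintegral_const_mul _ hF,
    ← lintegral_add_right _ (hFk.const_mul _)]
  refine setLIntegral_congr_fun (measurableSet_annulus_pk d r R) ?_
  intro x hx
  show FR d s r R x * ‖x - z‖ₑ ^ (-s) + ENNReal.ofReal (-s) * (FR d s r R x * kk s L (x - z)) =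
    ENNReal.ofReal (L ^ (-s)) * FR d s r R x
  rw [← kk_neg hs0 hL0 (annulus_diam_pk d hL hx hz)]
  ring

end Pool.Agent.Lib.H16RA
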