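import Mathlib
import Pool.Agent.Lib.H16RA.PotK

set_option autoImplicit false

/-!
# RA2 chunks Z1 - Z4: the remaining case `d = 1`, `s = 0` (logarithmic kernel), as the limit `s ↓ 0`

Everything here is for `d = 1`, `α = 1 - s ∈ [4/5, 1]`.
-/

namespace Pool.Agent.Lib.H16RA

open MeasureTheory Set Metric Filter Topology
open scoped ENNReal Real

/-! auxiliary facts -/

theorem Zx_pow_int {b e : ℝ} (hb : 0 < b) (he : -1 < e) :
    ∫⁻ y in Ioo (0 : ℝ) b, ENNReal.ofReal (y ^ e) < ⊤ := by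
  have h1 : IntervalIntegrable (fun y : ℝ => y ^ e) volume 0 b :=
    intervalIntegral.intervalIntegrable_rpow' he
  have h2 : IntegrableOn (fun y : ℝ => y ^ e) (Ioo 0 b) := by
    rw [intervalIntegrable_iff_integrableOn_Ioo_of_le hb.le] at h1
    exact h1
  exact (hasFiniteIntegral_iff_ofReal ((ae_restrict_iff' measurableSet_Ioo).2
    (Eventually.of_forall fun y hy => Real.rpow_nonneg hy.1.le _))).1 h2.2

theorem Zx_pow_int' {b e : ℝ} (hb : 0 < b) (he : -1 < e) :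
    ∫⁻ y in Ioo (0 : ℝ) b, ENNReal.ofReal ((b - y) ^ e) < ⊤ := by
  have h := lintegral_sub_left_eq_self
    (fun y : ℝ => (Ioo (0 : ℝ) b).indicator (fun y => ENNReal.ofReal (y ^ e)) y) b (μ := volume)
  have h2 : (fun y : ℝ => (Ioo (0 : ℝ) b).indicator (fun y => ENNReal.ofReal (y ^ e)) (b - y)) =
      (Ioo (0 : ℝ) b).indicator (fun y => ENNReal.ofReal ((b - y) ^ e)) := by
    funext y
    by_cases hy : y ∈ Ioo (0 : ℝ) b
    · rw [indicator_of_mem hy, indicator_of_mem]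
      exact ⟨by linarith [hy.2], by linarith [hy.1]⟩
    · rw [indicator_of_notMem hy, indicator_of_notMem]
      intro h3
      exact hy ⟨by linarith [h3.2], by linarith [h3.1]⟩
  rw [h2, lintegral_indicator measurableSet_Ioo, lintegral_indicator measurableSet_Ioo] at h
  rw [h]
  exact Zx_pow_int hb he

/-- the base `(κ - y) / (1 - κ y)` -/
theorem Zx_base {κ y : ℝ} (hκ : 0 < κ) (hκ1 : κ < 1) (hy0 : 0 < y) (hy : y < κ) :
    0 < 1 - κ * y ∧ 0 < (κ - y) / (1 - κ * y) ∧ (κ - y) / (1 - κ * y) ≤ 1 ∧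
      (κ - y) / (1 - κ * y) ≤ (κ - y) / (1 - κ) := by
  have h1 : κ * y < κ := by nlinarith
  have h2 : 0 < 1 - κ * y := by linarith
  refine ⟨h2, div_pos (by linarith) h2, ?_, ?_⟩
  · rw [div_le_one h2]
    nlinarith
  · exact div_le_div_of_nonneg_left (by linarith) (by linarith) (by linarith)

theorem Zx_qq_le {α κ : ℝ} (hκ : 0 < κ) (hκ1 : κ < 1) (hα : 4 / 5 ≤ α) (hα1 : α ≤ 1) :
    qq α κ ≤ κ ^ (2 / 5 : ℝ) := by
  have h1 : κ ^ (α / 2) ≤ κ ^ (2 / 5 : ℝ) := Real.rpow_le_rpow_of_exponent_ge hκ hκ1.le (by linarith)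
  have h2 : Real.sin (π * α / 2) ≤ 1 := Real.sin_le_one _
  have h3 := sin_pos_of (show 0 < α by linarith) (show α < 2 by linarith)
  have h4 : 0 ≤ κ ^ (α / 2) := (Real.rpow_pos_of_pos hκ _).le
  unfold qq
  nlinarith

theorem Zx_wt {κ y α x : ℝ} (hκ : 0 < κ) (hκ1 : κ < 1) (hy0 : 0 < y) (hy : y < κ) (hα : 4 / 5 ≤ α)
    (hx : κ * x < 1) :
    wt 1 α κ y / (1 - x * y) ≤ κ * (1 - κ) ^ (-(2 / 5) : ℝ) *
      (y ^ (-(1 / 2) : ℝ) * (κ - y) ^ (-(3 / 5) : ℝ)) := by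
  obtain ⟨h1, h2, h3, h4⟩ := Zx_base hκ hκ1 hy0 hy
  have hky : 0 < κ - y := by linarith
  have h5 : (κ - y) / κ < 1 - x * y := by
    rw [div_lt_iff₀ hκ]
    nlinarith
  have h6 : 0 < (κ - y) / κ := div_pos hky hκ
  have h7 : ((κ - y) / (1 - κ * y)) ^ (α / 2) ≤ ((κ - y) / (1 - κ)) ^ (2 / 5 : ℝ) := by
    calc ((κ - y) / (1 - κ * y)) ^ (α / 2) ≤ ((κ - y) / (1 - κ * y)) ^ (2 / 5 : ℝ) :=
          Real.rpow_le_rpow_of_exponent_ge h2 h3 (by linarith)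
      _ ≤ _ := Real.rpow_le_rpow h2.le h4 (by norm_num)
  have h8 : wt 1 α κ y ≤ y ^ (-(1 / 2) : ℝ) * ((κ - y) / (1 - κ)) ^ (2 / 5 : ℝ) := by
    unfold wt
    have : ((1 : ℕ) : ℝ) / 2 - 1 = -(1 / 2) := by norm_num
    rw [this]
    exact mul_le_mul_of_nonneg_left h7 (Real.rpow_nonneg hy0.le _)
  have h9 : 0 ≤ y ^ (-(1 / 2) : ℝ) * ((κ - y) / (1 - κ)) ^ (2 / 5 : ℝ) := by
    have : 0 < 1 - κ := by linarith
    positivity
  calc wt 1 α κ y / (1 - x * y) ≤ (y ^ (-(1 / 2) : ℝ) * ((κ - y) / (1 - κ)) ^ (2 / 5 : ℝ)) / ((κ - y) / κ) :=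
        div_le_div₀ h9 h8 h6 h5.le
    _ = κ * (1 - κ) ^ (-(2 / 5) : ℝ) * (y ^ (-(1 / 2) : ℝ) * (κ - y) ^ (-(3 / 5) : ℝ)) := by
        have hk1 : 0 < 1 - κ := by linarith
        rw [Real.div_rpow hky.le hk1.le, Real.rpow_neg hk1.le]
        have : (κ - y) ^ (2 / 5 : ℝ) / (κ - y) = (κ - y) ^ (-(3 / 5) : ℝ) := by
          rw [← Real.rpow_sub_one hky.ne']
          norm_num
        rw [← this]
        field_simp

/-- the uniform integral bound -/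
theorem Zx_int {κ : ℝ} (hκ : 0 < κ) (_hκ1 : κ < 1) :
    ∫⁻ y in Ioo (0 : ℝ) κ, ENNReal.ofReal (y ^ (-(1 / 2) : ℝ) * (κ - y) ^ (-(3 / 5) : ℝ)) < ⊤ := by
  have hb : ∀ y ∈ Ioo (0 : ℝ) κ, ENNReal.ofReal (y ^ (-(1 / 2) : ℝ) * (κ - y) ^ (-(3 / 5) : ℝ)) ≤
      ENNReal.ofReal ((κ / 2) ^ (-(3 / 5) : ℝ)) * ENNReal.ofReal (y ^ (-(1 / 2) : ℝ)) +
      ENNReal.ofReal ((κ / 2) ^ (-(1 / 2) : ℝ)) * ENNReal.ofReal ((κ - y) ^ (-(3 / 5) : ℝ)) := by
    intro y hy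
    have hy0 := hy.1
    have hy1 := hy.2
    have hky : 0 < κ - y := by linarith
    rw [← ENNReal.ofReal_mul (by positivity), ← ENNReal.ofReal_mul (by positivity),
      ← ENNReal.ofReal_add (by positivity) (by positivity)]
    apply ENNReal.ofReal_le_ofReal
    rcases le_total y (κ / 2) with h | h
    · have h1 : (κ - y) ^ (-(3 / 5) : ℝ) ≤ (κ / 2) ^ (-(3 / 5) : ℝ) :=
        Real.rpow_le_rpow_of_nonpos (by linarith) (by linarith) (by norm_num)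
      have h2 : y ^ (-(1 / 2) : ℝ) * (κ - y) ^ (-(3 / 5) : ℝ) ≤ y ^ (-(1 / 2) : ℝ) * (κ / 2) ^ (-(3 / 5) : ℝ) :=
        mul_le_mul_of_nonneg_left h1 (by positivity)
      have h3 : 0 ≤ (κ / 2) ^ (-(1 / 2) : ℝ) * (κ - y) ^ (-(3 / 5) : ℝ) := by positivity
      linarith
    · have h1 : y ^ (-(1 / 2) : ℝ) ≤ (κ / 2) ^ (-(1 / 2) : ℝ) :=
        Real.rpow_le_rpow_of_nonpos (by linarith) h (by norm_num)
      have h2 : y ^ (-(1 / 2) : ℝ) * (κ - y) ^ (-(3 / 5) : ℝ) ≤ (κ / 2) ^ (-(1 / 2) : ℝ) * (κ - y) ^ (-(3 / 5) : ℝ) :=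
        mul_le_mul_of_nonneg_right h1 (by positivity)
      have h3 : 0 ≤ (κ / 2) ^ (-(3 / 5) : ℝ) * y ^ (-(1 / 2) : ℝ) := by positivity
      linarith
  refine (setLIntegral_mono' measurableSet_Ioo hb).trans_lt ?_
  rw [lintegral_add_left (by fun_prop), lintegral_const_mul' _ _ ENNReal.ofReal_ne_top,
    lintegral_const_mul' _ _ ENNReal.ofReal_ne_top]
  exact ENNReal.add_lt_top.2 ⟨ENNReal.mul_lt_top ENNReal.ofReal_lt_top (Zx_pow_int hκ (by norm_num)),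
    ENNReal.mul_lt_top ENNReal.ofReal_lt_top (Zx_pow_int' hκ (by norm_num))⟩

theorem it_unif {κ : ℝ} (hκ : 0 < κ) (hκ1 : κ < 1) :
    ∃ C : ℝ≥0∞, C ≠ ⊤ ∧ ∃ q : ℝ≥0∞, q < 1 ∧ ∀ α ∈ Icc (4 / 5 : ℝ) 1, ∀ n : ℕ, ∀ x : ℝ,
      0 ≤ x → κ * x < 1 → it 1 α κ n x ≤ C * q ^ n := by
  set I : ℝ≥0∞ := ∫⁻ y in Ioo (0 : ℝ) κ, ENNReal.ofReal (y ^ (-(1 / 2) : ℝ) * (κ - y) ^ (-(3 / 5) : ℝ)) with hI
  have hIt : I < ⊤ := Zx_int hκ hκ1
  set q : ℝ≥0∞ := ENNReal.ofReal (κ ^ (2 / 5 : ℝ)) with hq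
  have hq0 : q ≠ 0 := by
    rw [hq]
    simpa using Real.rpow_pos_of_pos hκ _
  have hq1 : q < 1 := by
    rw [hq, ← ENNReal.ofReal_one]
    exact (ENNReal.ofReal_lt_ofReal_iff (by norm_num)).2 (Real.rpow_lt_one hκ.le hκ1 (by norm_num))
  set c : ℝ := κ * (1 - κ) ^ (-(2 / 5) : ℝ) with hc
  have hk1 : 0 < 1 - κ := by linarith
  have hc0 : 0 ≤ c := by positivity
  have hk2 : 0 < 1 - κ ^ 2 := by nlinarith
  set A : ℝ≥0∞ := ENNReal.ofReal c * I * ENNReal.ofReal (1 / (1 - κ ^ 2)) with hA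
  have hAt : A ≠ ⊤ := ENNReal.mul_ne_top (ENNReal.mul_ne_top ENNReal.ofReal_ne_top hIt.ne) ENNReal.ofReal_ne_top
  refine ⟨1 + A / q, ENNReal.add_ne_top.2 ⟨ENNReal.one_ne_top, ENNReal.div_ne_top hAt hq0⟩, q, hq1, ?_⟩
  intro α hα n x hx0 hx
  rcases n with _ | n
  · simp only [it, pow_zero, mul_one]
    exact le_self_add
  · have hα0 : 0 < α := by linarith [hα.1]
    have hα2 : α < 2 := by linarith [hα.2]
    have hit : ∀ y ∈ Ioo (0 : ℝ) κ, it 1 α κ n y ≤ q ^ n * ENNReal.ofReal (1 / (1 - κ ^ 2)) := by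
      intro y hy
      refine (it_le 1 hα0 hα2 hκ hκ1 n hy.1.le (by nlinarith [hy.1, hy.2])).trans ?_
      rw [hq, ← ENNReal.ofReal_pow (Real.rpow_nonneg hκ.le _), ← ENNReal.ofReal_mul (by positivity)]
      apply ENNReal.ofReal_le_ofReal
      rw [div_eq_mul_one_div]
      have h1 : qq α κ ^ n ≤ (κ ^ (2 / 5 : ℝ)) ^ n :=
        pow_le_pow_left₀ (qq_pos hα0 hα2 hκ).le (Zx_qq_le hκ hκ1 hα.1 hα.2) n
      have h2 : 1 / (1 - κ * y) ≤ 1 / (1 - κ ^ 2) :=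
        one_div_le_one_div_of_le hk2 (by nlinarith [hy.1, hy.2])
      have h3 : 0 < 1 - κ * y := by nlinarith [hy.1, hy.2]
      exact mul_le_mul h1 h2 (by positivity) (by positivity)
    have hT : it 1 α κ (n + 1) x ≤ 1 * ∫⁻ y in Ioo (0 : ℝ) κ,
        (ENNReal.ofReal c * (q ^ n * ENNReal.ofReal (1 / (1 - κ ^ 2)))) *
          ENNReal.ofReal (y ^ (-(1 / 2) : ℝ) * (κ - y) ^ (-(3 / 5) : ℝ)) := by
      show T 1 α κ (it 1 α κ n) x ≤ _
      unfold T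
      refine mul_le_mul' ?_ (setLIntegral_mono' measurableSet_Ioo fun y hy => ?_)
      · rw [← ENNReal.ofReal_one]
        apply ENNReal.ofReal_le_ofReal
        rw [div_le_one Real.pi_pos]
        linarith [Real.sin_le_one (π * α / 2), Real.pi_gt_three]
      · have h1 : ENNReal.ofReal (wt 1 α κ y / (1 - x * y)) ≤
            ENNReal.ofReal c * ENNReal.ofReal (y ^ (-(1 / 2) : ℝ) * (κ - y) ^ (-(3 / 5) : ℝ)) := by
          rw [← ENNReal.ofReal_mul hc0]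
          exact ENNReal.ofReal_le_ofReal (Zx_wt hκ hκ1 hy.1 hy.2 hα.1 hx)
        calc ENNReal.ofReal (wt 1 α κ y / (1 - x * y)) * it 1 α κ n y ≤
              (ENNReal.ofReal c * ENNReal.ofReal (y ^ (-(1 / 2) : ℝ) * (κ - y) ^ (-(3 / 5) : ℝ))) *
                (q ^ n * ENNReal.ofReal (1 / (1 - κ ^ 2))) := mul_le_mul' h1 (hit y hy)
          _ = _ := by ring
    refine hT.trans ?_
    rw [one_mul, lintegral_const_mul' _ _ (ENNReal.mul_ne_top ENNReal.ofReal_ne_top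
      (ENNReal.mul_ne_top (ENNReal.pow_ne_top (ne_top_of_lt hq1)) ENNReal.ofReal_ne_top)), ← hI]
    calc ENNReal.ofReal c * (q ^ n * ENNReal.ofReal (1 / (1 - κ ^ 2))) * I = A * q ^ n := by
          rw [hA]; ring
      _ = A / q * q ^ (n + 1) := by
          rw [pow_succ, mul_comm (q ^ n) q, ← mul_assoc, ENNReal.div_mul_cancel hq0 (ne_top_of_lt hq1)]
      _ ≤ (1 + A / q) * q ^ (n + 1) := mul_le_mul' le_add_self le_rfl

theorem it_cont {κ : ℝ} (hκ : 0 < κ) (hκ1 : κ < 1) (n : ℕ) {x : ℝ} (hx0 : 0 ≤ x) (hx : κ * x < 1) :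
    Tendsto (fun α => it 1 α κ n x) (𝓝[Icc (4 / 5 : ℝ) 1] 1) (𝓝 (it 1 1 κ n x)) := by
  obtain ⟨C, hC, q, hq, hunif⟩ := it_unif hκ hκ1
  induction n generalizing x with
  | zero => exact tendsto_const_nhds
  | succ n ih =>
    have hκx : 0 < 1 - κ * x := by linarith
    have hsin : Tendsto (fun α : ℝ => ENNReal.ofReal (Real.sin (π * α / 2) / π)) (𝓝[Icc (4 / 5 : ℝ) 1] 1)
        (𝓝 (ENNReal.ofReal (Real.sin (π * 1 / 2) / π))) := by
      refine ENNReal.tendsto_ofReal (Tendsto.mono_left (Continuous.tendsto ?_ 1) nhdsWithin_le_nhds)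
      fun_prop
    have hint : Tendsto (fun α : ℝ => ∫⁻ y in Ioo (0 : ℝ) κ,
        ENNReal.ofReal (wt 1 α κ y / (1 - x * y)) * it 1 α κ n y) (𝓝[Icc (4 / 5 : ℝ) 1] 1)
        (𝓝 (∫⁻ y in Ioo (0 : ℝ) κ, ENNReal.ofReal (wt 1 1 κ y / (1 - x * y)) * it 1 1 κ n y)) := by
      refine tendsto_lintegral_filter_of_dominated_convergence
        (fun y => ENNReal.ofReal (1 / (1 - κ * x)) * (C * q ^ n) * ENNReal.ofReal (y ^ (-(1 / 2) : ℝ)))
        (Eventually.of_forall fun α => ?_) ?_ ?_ ?_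
      · refine Measurable.mul ?_ (it_meas 1 α κ n)
        unfold wt
        fun_prop
      · refine eventually_nhdsWithin_of_forall fun α hα => (ae_restrict_iff' measurableSet_Ioo).2
          (Eventually.of_forall fun y hy => ?_)
        have h1 : ENNReal.ofReal (wt 1 α κ y / (1 - x * y)) ≤
            ENNReal.ofReal (1 / (1 - κ * x)) * ENNReal.ofReal (y ^ (-(1 / 2) : ℝ)) := by
          rw [← ENNReal.ofReal_mul (by positivity)]
          apply ENNReal.ofReal_le_ofReal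
          obtain ⟨h1, h2, h3, h4⟩ := Zx_base hκ hκ1 hy.1 hy.2
          have h5 : 1 - κ * x ≤ 1 - x * y := by nlinarith [hy.1, hy.2]
          have h6 : ((κ - y) / (1 - κ * y)) ^ (α / 2) ≤ 1 :=
            Real.rpow_le_one h2.le h3 (by linarith [hα.1])
          have h7 : wt 1 α κ y ≤ y ^ (-(1 / 2) : ℝ) := by
            unfold wt
            have : ((1 : ℕ) : ℝ) / 2 - 1 = -(1 / 2) := by norm_num
            rw [this]
            exact mul_le_of_le_one_right (Real.rpow_nonneg hy.1.le _) h6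
          calc wt 1 α κ y / (1 - x * y) ≤ y ^ (-(1 / 2) : ℝ) / (1 - κ * x) :=
                div_le_div₀ (Real.rpow_nonneg hy.1.le _) h7 hκx h5
            _ = _ := by ring
        calc ENNReal.ofReal (wt 1 α κ y / (1 - x * y)) * it 1 α κ n y ≤
              (ENNReal.ofReal (1 / (1 - κ * x)) * ENNReal.ofReal (y ^ (-(1 / 2) : ℝ))) * (C * q ^ n) :=
              mul_le_mul' h1 (hunif α hα n y hy.1.le (by nlinarith [hy.1, hy.2]))
          _ = _ := by ring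
      · rw [lintegral_const_mul' _ _ (ENNReal.mul_ne_top ENNReal.ofReal_ne_top
          (ENNReal.mul_ne_top hC (ENNReal.pow_ne_top (ne_top_of_lt hq))))]
        exact (ENNReal.mul_lt_top (ENNReal.mul_lt_top ENNReal.ofReal_lt_top (ENNReal.mul_lt_top hC.lt_top
          (ENNReal.pow_lt_top (hq.trans ENNReal.one_lt_top)))) (Zx_pow_int hκ (by norm_num))).ne
      · refine (ae_restrict_iff' measurableSet_Ioo).2 (Eventually.of_forall fun y hy => ?_)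
        obtain ⟨h1, h2, h3, h4⟩ := Zx_base hκ hκ1 hy.1 hy.2
        have hy1 : κ * y < 1 := by linarith
        refine ENNReal.Tendsto.mul ?_ (Or.inr ?_) (ih hy.1.le hy1) (Or.inr ENNReal.ofReal_ne_top)
        · refine ENNReal.tendsto_ofReal (Tendsto.mono_left ?_ nhdsWithin_le_nhds)
          unfold wt
          refine Tendsto.div_const (Tendsto.const_mul _ ?_) _
          have : Continuous fun α : ℝ => ((κ - y) / (1 - κ * y)) ^ (α / 2) :=
            Continuous.rpow continuous_const (by fun_prop) (fun α => Or.inl h2.ne')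
          exact this.tendsto 1
        · exact ne_top_of_le_ne_top (ENNReal.mul_ne_top hC (ENNReal.pow_ne_top (ne_top_of_lt hq)))
            (hunif 1 ⟨by norm_num, le_rfl⟩ n y hy.1.le hy1)
    show Tendsto (fun α => T 1 α κ (it 1 α κ n) x) _ (𝓝 (T 1 1 κ (it 1 1 κ n) x))
    unfold T
    refine ENNReal.Tendsto.mul hsin (Or.inr ?_) hint (Or.inr ENNReal.ofReal_ne_top)
    -- finiteness of the limit integral
    have hfin := hunif 1 ⟨by norm_num, le_rfl⟩ (n + 1) x hx0 hx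
    intro htop
    have h1 : it 1 1 κ (n + 1) x = ⊤ := by
      show T 1 1 κ (it 1 1 κ n) x = ⊤
      unfold T
      rw [htop]
      refine ENNReal.mul_top ?_
      have : 0 < Real.sin (π * 1 / 2) / π := div_pos (sin_pos_of one_pos one_lt_two) Real.pi_pos
      simpa using this
    rw [h1] at hfin
    exact (ENNReal.mul_lt_top hC.lt_top (ENNReal.pow_lt_top (hq.trans ENNReal.one_lt_top))).ne (top_le_iff.1 hfin)


/-- series of iterates: convergence -/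
theorem Zx_tsum {κ : ℝ} (hκ : 0 < κ) (hκ1 : κ < 1) (g : ℕ → ℕ) (hg : ∀ n, n ≤ g n) {x : ℝ} (hx0 : 0 ≤ x)
    (hx : κ * x < 1) :
    Tendsto (fun α => ∑' n, it 1 α κ (g n) x) (𝓝[Icc (4 / 5 : ℝ) 1] 1) (𝓝 (∑' n, it 1 1 κ (g n) x)) := by
  obtain ⟨C, hC, q, hq, hunif⟩ := it_unif hκ hκ1
  have h := tendsto_lintegral_filter_of_dominated_convergence (μ := (Measure.count : Measure ℕ))
    (l := 𝓝[Icc (4 / 5 : ℝ) 1] 1) (F := fun α n => it 1 α κ (g n) x) (f := fun n => it 1 1 κ (g n) x)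
    (fun n => C * q ^ n) (Eventually.of_forall fun α => measurable_from_top) ?_ ?_ ?_
  · simp only [lintegral_count] at h
    exact h
  · refine eventually_nhdsWithin_of_forall fun α hα => Eventually.of_forall fun n => ?_
    exact (hunif α hα (g n) x hx0 hx).trans (mul_le_mul' le_rfl (pow_le_pow_right_of_le_one' hq.le (hg n)))
  · rw [lintegral_count, ENNReal.tsum_mul_left, ENNReal.tsum_geometric]
    exact ENNReal.mul_ne_top hC (ENNReal.inv_ne_top.2 (tsub_pos_of_lt hq).ne')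
  · exact Eventually.of_forall fun n => it_cont hκ hκ1 (g n) hx0 hx

/-- series of iterates: bound -/
theorem Zx_tsum_le {κ : ℝ} (hκ : 0 < κ) (hκ1 : κ < 1) :
    ∃ C : ℝ≥0∞, C ≠ ⊤ ∧ ∀ α ∈ Icc (4 / 5 : ℝ) 1, ∀ x : ℝ, 0 ≤ x → κ * x < 1 →
      phi 1 α κ x ≤ C ∧ chi 1 α κ x ≤ C := by
  obtain ⟨C, hC, q, hq, hunif⟩ := it_unif hκ hκ1
  have hgen : ∀ g : ℕ → ℕ, (∀ n, n ≤ g n) → ∀ α ∈ Icc (4 / 5 : ℝ) 1, ∀ x : ℝ, 0 ≤ x → κ * x < 1 →
      ∑' n, it 1 α κ (g n) x ≤ C * (1 - q)⁻¹ := by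
    intro g hg α hα x hx0 hx
    rw [← ENNReal.tsum_geometric, ← ENNReal.tsum_mul_left]
    exact ENNReal.tsum_le_tsum fun n => (hunif α hα (g n) x hx0 hx).trans
      (mul_le_mul' le_rfl (pow_le_pow_right_of_le_one' hq.le (hg n)))
  refine ⟨C * (1 - q)⁻¹, ENNReal.mul_ne_top hC (ENNReal.inv_ne_top.2 (tsub_pos_of_lt hq).ne'), ?_⟩
  intro α hα x hx0 hx
  exact ⟨hgen (fun n => 2 * n) (fun n => by omega) α hα x hx0 hx,
    hgen (fun n => 2 * n + 1) (fun n => by omega) α hα x hx0 hx⟩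

theorem FF_cont {κ : ℝ} (hκ : 0 < κ) (hκ1 : κ < 1) {y : V 1} (hy1 : κ < ‖y‖ ^ 2)
    (hy2 : κ * ‖y‖ ^ 2 < 1) :
    Tendsto (fun α => FF 1 α κ y) (𝓝[Icc (4 / 5 : ℝ) 1] 1) (𝓝 (FF 1 1 κ y)) := by
  obtain ⟨C, hC, hb⟩ := Zx_tsum_le hκ hκ1
  have hu : 0 < ‖y‖ ^ 2 := hκ.trans hy1
  have hx2 : κ * (1 / ‖y‖ ^ 2) < 1 := by
    rw [mul_one_div, div_lt_one hu]
    exact hy1
  have h1 := Zx_tsum hκ hκ1 (fun n => 2 * n) (fun n => by omega) hu.le hy2
  have h2 := Zx_tsum hκ hκ1 (fun n => 2 * n + 1) (fun n => by omega) (x := 1 / ‖y‖ ^ 2) (by positivity) hx2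
  have hb1 := (hb 1 ⟨by norm_num, le_rfl⟩ (‖y‖ ^ 2) hu.le hy2).1
  have hb2 := (hb 1 ⟨by norm_num, le_rfl⟩ (1 / ‖y‖ ^ 2) (by positivity) hx2).2
  unfold FF Ain Bout
  refine Tendsto.add ?_ ?_
  · refine ENNReal.Tendsto.mul ?_ (Or.inr (ne_top_of_le_ne_top hC hb1)) h1 (Or.inr ENNReal.ofReal_ne_top)
    refine ENNReal.tendsto_ofReal (Tendsto.mono_left ?_ nhdsWithin_le_nhds)
    have : Continuous fun α : ℝ => (1 - κ * ‖y‖ ^ 2) ^ (-(α / 2)) :=
      Continuous.rpow continuous_const (by fun_prop) (fun α => Or.inl (sub_pos.2 hy2).ne')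
    exact this.tendsto 1
  · refine ENNReal.Tendsto.mul ?_ (Or.inr (ne_top_of_le_ne_top hC hb2)) h2 (Or.inr ENNReal.ofReal_ne_top)
    refine ENNReal.tendsto_ofReal (Tendsto.mono_left ?_ nhdsWithin_le_nhds)
    have : Continuous fun α : ℝ => (‖y‖ ^ 2 - κ) ^ (-(α / 2)) * (‖y‖ ^ 2) ^ (-(((1 : ℕ) : ℝ) / 2)) := by
      refine Continuous.mul (Continuous.rpow continuous_const (by fun_prop) (fun α => Or.inl ?_)) continuous_const
      exact (sub_pos.2 hy1).ne'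
    exact this.tendsto 1

theorem FF_dom {κ : ℝ} (hκ : 0 < κ) (hκ1 : κ < 1) :
    ∃ C : ℝ≥0∞, C ≠ ⊤ ∧ ∀ α ∈ Icc (4 / 5 : ℝ) 1, ∀ y : V 1, κ < ‖y‖ ^ 2 → κ * ‖y‖ ^ 2 < 1 →
      FF 1 α κ y ≤ C * ENNReal.ofReal
        ((1 - κ * ‖y‖ ^ 2) ^ (-(1 / 2) : ℝ) + (‖y‖ ^ 2 - κ) ^ (-(1 / 2) : ℝ) + 1) := by
  obtain ⟨C, hC, hb⟩ := Zx_tsum_le hκ hκ1
  refine ⟨C * ENNReal.ofReal (κ ^ (-(1 / 2) : ℝ)), ENNReal.mul_ne_top hC ENNReal.ofReal_ne_top, ?_⟩
  intro α hα y hy1 hy2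
  set u := ‖y‖ ^ 2 with hu'
  have hu : 0 < u := hκ.trans hy1
  have hx2 : κ * (1 / u) < 1 := by
    rw [mul_one_div, div_lt_one hu]
    exact hy1
  have hb1 := (hb α hα u hu.le hy2).1
  have hb2 := (hb α hα (1 / u) (by positivity) hx2).2
  have hpos1 : 0 < 1 - κ * u := by linarith
  have hpos2 : 0 < u - κ := by linarith
  have hk : 1 ≤ κ ^ (-(1 / 2) : ℝ) := Real.one_le_rpow_of_pos_of_le_one_of_nonpos hκ hκ1.le (by norm_num)
  have e1 : (1 - κ * u) ^ (-(α / 2)) ≤ κ ^ (-(1 / 2) : ℝ) * (1 - κ * u) ^ (-(1 / 2) : ℝ) := by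
    have h1 : (1 - κ * u) ^ (-(α / 2)) ≤ (1 - κ * u) ^ (-(1 / 2) : ℝ) :=
      Real.rpow_le_rpow_of_exponent_ge hpos1 (by nlinarith) (by linarith [hα.2])
    have h2 : 0 ≤ (1 - κ * u) ^ (-(1 / 2) : ℝ) := by positivity
    nlinarith
  have e2 : (u - κ) ^ (-(α / 2)) * u ^ (-(((1 : ℕ) : ℝ) / 2)) ≤
      κ ^ (-(1 / 2) : ℝ) * ((u - κ) ^ (-(1 / 2) : ℝ) + 1) := by
    have h1 : (u - κ) ^ (-(α / 2)) ≤ (u - κ) ^ (-(1 / 2) : ℝ) + 1 := by
      rcases le_total (u - κ) 1 with h | h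
      · have := Real.rpow_le_rpow_of_exponent_ge hpos2 h (show (-(1 / 2) : ℝ) ≤ -(α / 2) by linarith [hα.2])
        linarith
      · have := Real.rpow_le_one_of_one_le_of_nonpos h (show -(α / 2) ≤ 0 by linarith [hα.1])
        have h3 : 0 ≤ (u - κ) ^ (-(1 / 2) : ℝ) := by positivity
        linarith
    have h2 : u ^ (-(((1 : ℕ) : ℝ) / 2)) ≤ κ ^ (-(1 / 2) : ℝ) := by
      rw [Nat.cast_one]
      exact Real.rpow_le_rpow_of_nonpos hκ hy1.le (by norm_num)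
    calc (u - κ) ^ (-(α / 2)) * u ^ (-(((1 : ℕ) : ℝ) / 2)) ≤
          ((u - κ) ^ (-(1 / 2) : ℝ) + 1) * κ ^ (-(1 / 2) : ℝ) :=
          mul_le_mul h1 h2 (by positivity) (by positivity)
      _ = _ := mul_comm _ _
  unfold FF Ain Bout
  rw [← hu']
  calc ENNReal.ofReal ((1 - κ * u) ^ (-(α / 2))) * phi 1 α κ u +
        ENNReal.ofReal ((u - κ) ^ (-(α / 2)) * u ^ (-(((1 : ℕ) : ℝ) / 2))) * chi 1 α κ (1 / u)
      ≤ ENNReal.ofReal (κ ^ (-(1 / 2) : ℝ) * (1 - κ * u) ^ (-(1 / 2) : ℝ)) * C +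
        ENNReal.ofReal (κ ^ (-(1 / 2) : ℝ) * ((u - κ) ^ (-(1 / 2) : ℝ) + 1)) * C :=
        add_le_add (mul_le_mul' (ENNReal.ofReal_le_ofReal e1) hb1) (mul_le_mul' (ENNReal.ofReal_le_ofReal e2) hb2)
    _ = _ := by
        rw [← add_mul, ← ENNReal.ofReal_add (by positivity) (by positivity), ← mul_add,
          ENNReal.ofReal_mul (by positivity), ← add_assoc]
        ring

theorem kk_cont {L : ℝ} (_hL : 0 < L) {x : V 1} (hx : x ≠ 0) :
    Tendsto (fun α : ℝ => kk (1 - α) L x) (𝓝[Icc (4 / 5 : ℝ) 1] 1) (𝓝 (kk 0 L x)) := by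
  have hn : 0 < ‖x‖ := norm_pos_iff.2 hx
  have h0 : (0 : ℝ) = 1 - 1 := by norm_num
  rw [h0]
  unfold kk
  refine tendsto_lintegral_filter_of_dominated_convergence
    (fun _ => ENNReal.ofReal (‖x‖ ^ (-(1 : ℝ)) + ‖x‖ ^ (-(6 / 5) : ℝ) + 1)) (Eventually.of_forall fun α => by fun_prop)
    ?_ ?_ ?_
  · refine eventually_nhdsWithin_of_forall fun α hα => (ae_restrict_iff' measurableSet_Ioo).2
      (Eventually.of_forall fun ρ hρ => ENNReal.ofReal_le_ofReal ?_)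
    have hρ0 : 0 < ρ := hn.trans hρ.1
    have he : -(1 - α) - 1 = α - 2 := by ring
    rw [he]
    have h3 : 0 ≤ ‖x‖ ^ (-(1 : ℝ)) := by positivity
    have h4 : 0 ≤ ‖x‖ ^ (-(6 / 5) : ℝ) := by positivity
    rcases le_total ρ 1 with h | h
    · have h1 : ρ ^ (α - 2) ≤ ρ ^ (-(6 / 5) : ℝ) :=
        Real.rpow_le_rpow_of_exponent_ge hρ0 h (by linarith [hα.1])
      have h2 : ρ ^ (-(6 / 5) : ℝ) ≤ ‖x‖ ^ (-(6 / 5) : ℝ) :=
        Real.rpow_le_rpow_of_nonpos hn hρ.1.le (by norm_num)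
      linarith
    · have h1 : ρ ^ (α - 2) ≤ 1 := Real.rpow_le_one_of_one_le_of_nonpos h (by linarith [hα.2])
      linarith
  · rw [lintegral_const]
    refine ENNReal.mul_ne_top ENNReal.ofReal_ne_top ?_
    simp
  · refine (ae_restrict_iff' measurableSet_Ioo).2 (Eventually.of_forall fun ρ hρ => ?_)
    have hρ0 : 0 < ρ := hn.trans hρ.1
    refine ENNReal.tendsto_ofReal (Tendsto.mono_left ?_ nhdsWithin_le_nhds)
    have : Continuous fun α : ℝ => ρ ^ (-(1 - α) - 1) :=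
      Continuous.rpow continuous_const (by fun_prop) (fun α => Or.inl hρ0.ne')
    exact this.tendsto 1

theorem kk_dom {L : ℝ} (_hL : 0 < L) :
    ∃ C : ℝ≥0∞, C ≠ ⊤ ∧ ∀ s ∈ Icc (0 : ℝ) (1 / 5), ∀ x : V 1, ‖x‖ ≤ L →
      kk s L x ≤ C * ENNReal.ofReal (‖x‖ ^ (-(1 / 5) : ℝ)) ∨ x = 0 := by
  refine ⟨ENNReal.ofReal ((max 1 L) ^ (1 / 5 : ℝ)) * ENNReal.ofReal 5,
    ENNReal.mul_ne_top ENNReal.ofReal_ne_top ENNReal.ofReal_ne_top, fun s hs x _ => ?_⟩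
  by_cases hx : x = 0
  · exact Or.inr hx
  refine Or.inl ?_
  have hn : 0 < ‖x‖ := norm_pos_iff.2 hx
  have hm : 1 ≤ max 1 L := le_max_left _ _
  unfold kk
  have h1 : ∀ ρ ∈ Ioo ‖x‖ L, ENNReal.ofReal (ρ ^ (-s - 1)) ≤
      ENNReal.ofReal ((max 1 L) ^ (1 / 5 : ℝ)) * ENNReal.ofReal (ρ ^ (-(6 / 5) : ℝ)) := by
    intro ρ hρ
    have hρ0 : 0 < ρ := hn.trans hρ.1
    rw [← ENNReal.ofReal_mul (by positivity)]
    apply ENNReal.ofReal_le_ofReal
    have e : ρ ^ (-s - 1) = ρ ^ (1 / 5 - s) * ρ ^ (-(6 / 5) : ℝ) := by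
      rw [← Real.rpow_add hρ0]
      congr 1
      ring
    rw [e]
    refine mul_le_mul_of_nonneg_right ?_ (by positivity)
    calc ρ ^ (1 / 5 - s) ≤ (max 1 L) ^ (1 / 5 - s) :=
          Real.rpow_le_rpow hρ0.le (hρ.2.le.trans (le_max_right _ _)) (by linarith [hs.2])
      _ ≤ (max 1 L) ^ (1 / 5 : ℝ) := Real.rpow_le_rpow_of_exponent_le hm (by linarith [hs.1])
  have h2 : ∫⁻ ρ in Ioi ‖x‖, ENNReal.ofReal (ρ ^ (-(6 / 5) : ℝ)) =
      ENNReal.ofReal (5 * ‖x‖ ^ (-(1 / 5) : ℝ)) := by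
    have hint := integrableOn_Ioi_rpow_of_lt (show (-(6 / 5) : ℝ) < -1 by norm_num) hn
    have hval := integral_Ioi_rpow_of_lt (show (-(6 / 5) : ℝ) < -1 by norm_num) hn
    rw [← ofReal_integral_eq_lintegral_ofReal hint, hval]
    · congr 1
      rw [show (-(6 / 5) : ℝ) + 1 = -(1 / 5) by norm_num]
      ring
    · refine (ae_restrict_iff' measurableSet_Ioi).2 (Eventually.of_forall fun ρ hρ => ?_)
      exact Real.rpow_nonneg (hn.trans hρ).le _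
  calc ∫⁻ ρ in Ioo ‖x‖ L, ENNReal.ofReal (ρ ^ (-s - 1)) ≤
        ∫⁻ ρ in Ioo ‖x‖ L, ENNReal.ofReal ((max 1 L) ^ (1 / 5 : ℝ)) * ENNReal.ofReal (ρ ^ (-(6 / 5) : ℝ)) :=
        setLIntegral_mono' measurableSet_Ioo h1
    _ ≤ ∫⁻ ρ in Ioi ‖x‖, ENNReal.ofReal ((max 1 L) ^ (1 / 5 : ℝ)) * ENNReal.ofReal (ρ ^ (-(6 / 5) : ℝ)) :=
        lintegral_mono_set Ioo_subset_Ioi_self
    _ = _ := by
        rw [lintegral_const_mul' _ _ ENNReal.ofReal_ne_top, h2, ENNReal.ofReal_mul (by norm_num), mul_assoc]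

/-- transfer to the line -/
theorem Zx_line (F : ℝ → ℝ≥0∞) (hF : Measurable F) :
    ∫⁻ y : V 1, F ‖y‖ = ∫⁻ t : ℝ, F |t| := by
  have h1 := EuclideanSpace.volume_preserving_symm_measurableEquiv_toLp (Fin 1)
  have h2 := volume_preserving_funUnique (Fin 1) ℝ
  have h3 := h2.comp h1
  have h4 := h3.lintegral_comp (f := fun t => F |t|) (by fun_prop)
  rw [← h4]
  refine lintegral_congr fun y => ?_
  congr 1
  rw [EuclideanSpace.norm_eq]
  simp [Real.sqrt_sq_eq_abs]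

theorem Zx_rad {a b e : ℝ} (hab : a < b) (he : -1 < e) :
    ∫⁻ t in Ioo a b, ENNReal.ofReal ((t - a) ^ e) < ⊤ ∧ ∫⁻ t in Ioo a b, ENNReal.ofReal ((b - t) ^ e) < ⊤ := by
  have hba : 0 < b - a := by linarith
  constructor
  · have h := lintegral_sub_right_eq_self
      (fun y : ℝ => (Ioo (0 : ℝ) (b - a)).indicator (fun y => ENNReal.ofReal (y ^ e)) y) a (μ := volume)
    have h2 : (fun y : ℝ => (Ioo (0 : ℝ) (b - a)).indicator (fun y => ENNReal.ofReal (y ^ e)) (y - a)) =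
        (Ioo a b).indicator (fun y => ENNReal.ofReal ((y - a) ^ e)) := by
      funext y
      by_cases hy : y ∈ Ioo a b
      · rw [indicator_of_mem hy, indicator_of_mem]
        exact ⟨by linarith [hy.1], by linarith [hy.2]⟩
      · rw [indicator_of_notMem hy, indicator_of_notMem]
        intro h3
        exact hy ⟨by linarith [h3.1], by linarith [h3.2]⟩
    rw [h2, lintegral_indicator measurableSet_Ioo, lintegral_indicator measurableSet_Ioo] at h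
    rw [h]
    exact Zx_pow_int hba he
  · have h := lintegral_sub_left_eq_self
      (fun y : ℝ => (Ioo (0 : ℝ) (b - a)).indicator (fun y => ENNReal.ofReal (y ^ e)) y) b (μ := volume)
    have h2 : (fun y : ℝ => (Ioo (0 : ℝ) (b - a)).indicator (fun y => ENNReal.ofReal (y ^ e)) (b - y)) =
        (Ioo a b).indicator (fun y => ENNReal.ofReal ((b - y) ^ e)) := by
      funext y
      by_cases hy : y ∈ Ioo a b
      · rw [indicator_of_mem hy, indicator_of_mem]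
        exact ⟨by linarith [hy.2], by linarith [hy.1]⟩
      · rw [indicator_of_notMem hy, indicator_of_notMem]
        intro h3
        exact hy ⟨by linarith [h3.2], by linarith [h3.1]⟩
    rw [h2, lintegral_indicator measurableSet_Ioo, lintegral_indicator measurableSet_Ioo] at h
    rw [h]
    exact Zx_pow_int hba he

/-- radial functions on `V 1` supported in an interval `[a, b]`, `0 ≤ a` -/
theorem Zx_radial {a b : ℝ} (F : ℝ → ℝ≥0∞) (hF : Measurable F)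
    (hfin : ∫⁻ t in Ioo a b, F t < ⊤) :
    ∫⁻ y in {y : V 1 | a ≤ ‖y‖ ∧ ‖y‖ ≤ b}, F ‖y‖ < ⊤ := by
  have hms : MeasurableSet {y : V 1 | a ≤ ‖y‖ ∧ ‖y‖ ≤ b} :=
    (measurableSet_le measurable_const measurable_norm).inter (measurableSet_le measurable_norm measurable_const)
  have h1 : ∫⁻ y in {y : V 1 | a ≤ ‖y‖ ∧ ‖y‖ ≤ b}, F ‖y‖ = ∫⁻ y : V 1, (Icc a b).indicator F ‖y‖ := by
    rw [← lintegral_indicator hms]
    refine lintegral_congr fun y => ?_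
    by_cases hy : a ≤ ‖y‖ ∧ ‖y‖ ≤ b
    · rw [indicator_of_mem (show y ∈ {y : V 1 | a ≤ ‖y‖ ∧ ‖y‖ ≤ b} from hy), indicator_of_mem (show ‖y‖ ∈ Icc a b from hy)]
    · rw [indicator_of_notMem (show y ∉ {y : V 1 | a ≤ ‖y‖ ∧ ‖y‖ ≤ b} from hy),
        indicator_of_notMem (show ‖y‖ ∉ Icc a b from hy)]
  have hFi : Measurable ((Icc a b).indicator F) := hF.indicator measurableSet_Icc
  rw [h1, Zx_line _ hFi]
  have h2 : ∀ t : ℝ, (Icc a b).indicator F |t| ≤ (Icc a b).indicator F t + (Icc a b).indicator F (-t) := by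
    intro t
    rcases abs_choice t with h | h
    · rw [h]; exact le_self_add
    · rw [h]; exact le_add_self
  refine (lintegral_mono h2).trans_lt ?_
  rw [lintegral_add_left hFi, lintegral_neg_eq_self, lintegral_indicator measurableSet_Icc,
    ← setLIntegral_congr (Ioo_ae_eq_Icc)]
  exact ENNReal.add_lt_top.2 ⟨hfin, hfin⟩

theorem Zx_young {a b : ℝ} (ha : 0 ≤ a) (hb : 0 ≤ b) : a * b ≤ a ^ (3 / 2 : ℝ) + b ^ 3 := by
  have h1 : a ^ (3 / 2 : ℝ) = a * a ^ (1 / 2 : ℝ) := by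
    rcases ha.eq_or_lt with h | h
    · rw [← h]; simp
    · rw [show (3 / 2 : ℝ) = 1 + 1 / 2 by norm_num, Real.rpow_add h, Real.rpow_one]
  have h0 : 0 ≤ a ^ (1 / 2 : ℝ) := Real.rpow_nonneg ha _
  have h2 : (a ^ (1 / 2 : ℝ)) ^ 2 = a := by
    rw [← Real.rpow_natCast, ← Real.rpow_mul ha]
    norm_num
  have hb3 : 0 ≤ b ^ 3 := by positivity
  rcases le_total b (a ^ (1 / 2 : ℝ)) with h | h
  · rw [h1]
    have := mul_le_mul_of_nonneg_left h ha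
    linarith
  · have h3 : a ≤ b ^ 2 := by
      rw [← h2]
      exact pow_le_pow_left₀ h0 h 2
    have h4 : a * b ≤ b ^ 2 * b := mul_le_mul_of_nonneg_right h3 hb
    have h5 : 0 ≤ a ^ (3 / 2 : ℝ) := Real.rpow_nonneg ha _
    nlinarith

theorem dom_int {κ : ℝ} (hκ : 0 < κ) (hκ1 : κ < 1) (z : V 1) :
    ∫⁻ y in Ann 1 κ, ENNReal.ofReal
        ((1 - κ * ‖y‖ ^ 2) ^ (-(1 / 2) : ℝ) + (‖y‖ ^ 2 - κ) ^ (-(1 / 2) : ℝ) + 1) *
      ENNReal.ofReal (‖y - z‖ ^ (-(1 / 5) : ℝ)) < ⊤ := by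
  have hsκ : 0 < √κ := Real.sqrt_pos.2 hκ
  have hss : √κ * √κ = κ := Real.mul_self_sqrt hκ.le
  have hs1 : √κ < 1 := by
    rw [Real.sqrt_lt' one_pos]; simpa using hκ1
  set b : ℝ := (√κ)⁻¹ with hb
  have hb0 : 0 < b := inv_pos.2 hsκ
  have hsb : √κ * b = 1 := mul_inv_cancel₀ hsκ.ne'
  have hab : √κ < b := by nlinarith
  have hAnn : Ann 1 κ = {y : V 1 | √κ ≤ ‖y‖ ∧ ‖y‖ ≤ b} := by
    ext y
    have hy0 := norm_nonneg y
    simp only [Ann, Set.mem_ofPred_eq]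
    constructor
    · rintro ⟨h1, h2⟩
      refine ⟨?_, ?_⟩
      · rw [Real.sqrt_le_left hy0]; exact h1
      · by_contra h
        push Not at h
        have h3 : √κ * ‖y‖ > 1 := by nlinarith
        nlinarith
    · rintro ⟨h1, h2⟩
      refine ⟨by nlinarith, ?_⟩
      have h3 : √κ * ‖y‖ ≤ 1 := by nlinarith
      have h4 : 0 ≤ √κ * ‖y‖ := by positivity
      nlinarith
  -- the four pieces
  have hI1 : ∫⁻ y in Ann 1 κ, ENNReal.ofReal ((1 - κ * ‖y‖ ^ 2) ^ (-(3 / 4) : ℝ)) < ⊤ := by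
    rw [hAnn]
    refine Zx_radial (fun t => ENNReal.ofReal ((1 - κ * t ^ 2) ^ (-(3 / 4) : ℝ))) (by fun_prop) ?_
    refine (setLIntegral_mono' measurableSet_Ioo (g := fun t => ENNReal.ofReal ((√κ) ^ (-(3 / 4) : ℝ)) *
      ENNReal.ofReal ((b - t) ^ (-(3 / 4) : ℝ))) fun t ht => ?_).trans_lt ?_
    · rw [← ENNReal.ofReal_mul (by positivity)]
      apply ENNReal.ofReal_le_ofReal
      have h1 : 0 < b - t := by linarith [ht.2]
      rw [← Real.mul_rpow hsκ.le h1.le]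
      have h2 : √κ * (b - t) ≤ 1 - κ * t ^ 2 := by
        have ht0 : 0 < t := hsκ.trans ht.1
        have h3 : √κ * t < 1 := by nlinarith [ht.2]
        have h4 : 0 < √κ * t := by positivity
        nlinarith
      exact Real.rpow_le_rpow_of_nonpos (by positivity) h2 (by norm_num)
    · rw [lintegral_const_mul' _ _ ENNReal.ofReal_ne_top]
      exact ENNReal.mul_lt_top ENNReal.ofReal_lt_top (Zx_rad hab (by norm_num)).2
  have hI2 : ∫⁻ y in Ann 1 κ, ENNReal.ofReal ((‖y‖ ^ 2 - κ) ^ (-(3 / 4) : ℝ)) < ⊤ := by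
    rw [hAnn]
    refine Zx_radial (fun t => ENNReal.ofReal ((t ^ 2 - κ) ^ (-(3 / 4) : ℝ))) (by fun_prop) ?_
    refine (setLIntegral_mono' measurableSet_Ioo (g := fun t => ENNReal.ofReal ((√κ) ^ (-(3 / 4) : ℝ)) *
      ENNReal.ofReal ((t - √κ) ^ (-(3 / 4) : ℝ))) fun t ht => ?_).trans_lt ?_
    · rw [← ENNReal.ofReal_mul (by positivity)]
      apply ENNReal.ofReal_le_ofReal
      have h1 : 0 < t - √κ := by linarith [ht.1]
      rw [← Real.mul_rpow hsκ.le h1.le]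
      have h2 : √κ * (t - √κ) ≤ t ^ 2 - κ := by
        have ht0 : 0 < t := hsκ.trans ht.1
        nlinarith
      exact Real.rpow_le_rpow_of_nonpos (by positivity) h2 (by norm_num)
    · rw [lintegral_const_mul' _ _ ENNReal.ofReal_ne_top]
      exact ENNReal.mul_lt_top ENNReal.ofReal_lt_top (Zx_rad hab (by norm_num)).1
  have hAsub : Ann 1 κ ⊆ Metric.closedBall 0 b := by
    intro y hy
    rw [hAnn] at hy
    rw [mem_closedBall_zero_iff]
    exact hy.2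
  have hI3 : ∫⁻ y in Ann 1 κ, (1 : ℝ≥0∞) < ⊤ := by
    rw [lintegral_const, one_mul, Measure.restrict_apply MeasurableSet.univ, univ_inter]
    exact (measure_mono hAsub).trans_lt measure_closedBall_lt_top
  have hI4 : ∫⁻ y in Ann 1 κ, ENNReal.ofReal (‖y - z‖ ^ (-(3 / 5) : ℝ)) < ⊤ := by
    set M : ℝ := b + ‖z‖ with hM
    have hMp : 0 < M := by positivity
    set G : V 1 → ℝ≥0∞ := fun y => {y : V 1 | 0 ≤ ‖y‖ ∧ ‖y‖ ≤ M}.indicator
      (fun y => ENNReal.ofReal (‖y‖ ^ (-(3 / 5) : ℝ))) y with hG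
    have h1 : ∫⁻ y in Ann 1 κ, ENNReal.ofReal (‖y - z‖ ^ (-(3 / 5) : ℝ)) ≤ ∫⁻ y : V 1, G (y - z) := by
      rw [← lintegral_indicator (measurableSet_Ann 1 κ)]
      refine lintegral_mono fun y => ?_
      by_cases hy : y ∈ Ann 1 κ
      · rw [indicator_of_mem hy]
        have h2 : ‖y‖ ≤ b := by rw [hAnn] at hy; exact hy.2
        have h3 : y - z ∈ {y : V 1 | 0 ≤ ‖y‖ ∧ ‖y‖ ≤ M} :=
          ⟨norm_nonneg _, (norm_sub_le y z).trans (by rw [hM]; linarith)⟩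
        simp only [hG]
        rw [indicator_of_mem h3]
      · rw [indicator_of_notMem hy]
        exact bot_le
    refine h1.trans_lt ?_
    rw [lintegral_sub_right_eq_self G z]
    have hms : MeasurableSet {y : V 1 | 0 ≤ ‖y‖ ∧ ‖y‖ ≤ M} :=
      (measurableSet_le measurable_const measurable_norm).inter (measurableSet_le measurable_norm measurable_const)
    simp only [hG]
    rw [lintegral_indicator hms]
    exact Zx_radial (fun t => ENNReal.ofReal (t ^ (-(3 / 5) : ℝ))) (by fun_prop) (Zx_pow_int hMp (by norm_num))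
  -- pointwise bound
  have hpt : ∀ y ∈ Ann 1 κ, ENNReal.ofReal
        ((1 - κ * ‖y‖ ^ 2) ^ (-(1 / 2) : ℝ) + (‖y‖ ^ 2 - κ) ^ (-(1 / 2) : ℝ) + 1) *
      ENNReal.ofReal (‖y - z‖ ^ (-(1 / 5) : ℝ)) ≤
      ENNReal.ofReal ((1 - κ * ‖y‖ ^ 2) ^ (-(3 / 4) : ℝ)) + ENNReal.ofReal ((‖y‖ ^ 2 - κ) ^ (-(3 / 4) : ℝ)) + 1 +
        3 * ENNReal.ofReal (‖y - z‖ ^ (-(3 / 5) : ℝ)) := by
    intro y hy
    have hp1 : 0 ≤ 1 - κ * ‖y‖ ^ 2 := sub_nonneg.2 hy.2
    have hp2 : 0 ≤ ‖y‖ ^ 2 - κ := sub_nonneg.2 hy.1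
    have hn := norm_nonneg (y - z)
    set a1 := (1 - κ * ‖y‖ ^ 2) ^ (-(1 / 2) : ℝ) with ha1
    set a2 := (‖y‖ ^ 2 - κ) ^ (-(1 / 2) : ℝ) with ha2
    set c := ‖y - z‖ ^ (-(1 / 5) : ℝ) with hc
    have e1 : a1 ^ (3 / 2 : ℝ) = (1 - κ * ‖y‖ ^ 2) ^ (-(3 / 4) : ℝ) := by
      rw [ha1, ← Real.rpow_mul hp1]; norm_num
    have e2 : a2 ^ (3 / 2 : ℝ) = (‖y‖ ^ 2 - κ) ^ (-(3 / 4) : ℝ) := by
      rw [ha2, ← Real.rpow_mul hp2]; norm_num
    have e3 : c ^ 3 = ‖y - z‖ ^ (-(3 / 5) : ℝ) := by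
      rw [hc, ← Real.rpow_natCast, ← Real.rpow_mul hn]; norm_num
    have n1 : 0 ≤ a1 := Real.rpow_nonneg hp1 _
    have n2 : 0 ≤ a2 := Real.rpow_nonneg hp2 _
    have n3 : 0 ≤ c := Real.rpow_nonneg hn _
    have y1 := Zx_young n1 n3
    have y2 := Zx_young n2 n3
    have y3 := Zx_young zero_le_one n3
    rw [Real.one_rpow] at y3
    rw [← e1, ← e2, ← e3, ← ENNReal.ofReal_mul (by positivity), ← ENNReal.ofReal_add (by positivity) (by positivity),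
      show (1 : ℝ≥0∞) = ENNReal.ofReal 1 by simp, ← ENNReal.ofReal_add (by positivity) (by positivity),
      show (3 : ℝ≥0∞) = ENNReal.ofReal 3 by simp, ← ENNReal.ofReal_mul (by positivity),
      ← ENNReal.ofReal_add (by positivity) (by positivity)]
    apply ENNReal.ofReal_le_ofReal
    nlinarith
  refine (setLIntegral_mono' (measurableSet_Ann 1 κ) hpt).trans_lt ?_
  rw [lintegral_add_left (by fun_prop), lintegral_add_left (by fun_prop), lintegral_add_left (by fun_prop),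
    lintegral_const_mul' _ _ (by norm_num)]
  exact ENNReal.add_lt_top.2 ⟨ENNReal.add_lt_top.2 ⟨ENNReal.add_lt_top.2 ⟨hI1, hI2⟩, hI3⟩,
    ENNReal.mul_lt_top (by norm_num) hI4⟩

theorem Zx_ae {r R : ℝ} (hr : 0 < r) (hrR : r < R) (z : V 1) :
    ∀ᵐ x : V 1, x ∈ annulus 1 r R →
      (r / R < ‖(√(r * R))⁻¹ • x‖ ^ 2 ∧ r / R * ‖(√(r * R))⁻¹ • x‖ ^ 2 < 1 ∧ x - z ≠ 0) := by
  have hR : 0 < R := hr.trans hrR
  have h1 : ∀ᵐ x : V 1, x ∉ Metric.sphere (0 : V 1) r :=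
    measure_eq_zero_iff_ae_notMem.1 (Measure.addHaar_sphere volume 0 r)
  have h2 : ∀ᵐ x : V 1, x ∉ Metric.sphere (0 : V 1) R :=
    measure_eq_zero_iff_ae_notMem.1 (Measure.addHaar_sphere volume 0 R)
  have h3 : ∀ᵐ x : V 1, x ∉ ({z} : Set (V 1)) :=
    measure_eq_zero_iff_ae_notMem.1 (measure_singleton z)
  filter_upwards [h1, h2, h3] with x hx1 hx2 hx3 hx
  rw [mem_sphere_zero_iff_norm] at hx1 hx2
  have hrx : r < ‖x‖ := lt_of_le_of_ne hx.1 (Ne.symm hx1)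
  have hxR : ‖x‖ < R := lt_of_le_of_ne hx.2 hx2
  have hrR0 : 0 < r * R := by positivity
  have hn : ‖(√(r * R))⁻¹ • x‖ ^ 2 = ‖x‖ ^ 2 / (r * R) := by
    rw [norm_smul, mul_pow, norm_inv, inv_pow, Real.norm_of_nonneg (Real.sqrt_nonneg _), Real.sq_sqrt hrR0.le]
    rw [div_eq_inv_mul]
  rw [hn]
  refine ⟨?_, ?_, ?_⟩
  · rw [div_lt_div_iff₀ hR hrR0]
    nlinarith [mul_pos hR hr, mul_pos (sub_pos.2 hrx) hR]
  · rw [div_mul_div_comm, div_lt_one (by positivity)]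
    have h5 : ‖x‖ ^ 2 < R ^ 2 := by nlinarith [norm_nonneg x]
    nlinarith
  · intro h
    exact hx3 (sub_eq_zero.1 h)

theorem potK_zero {r R L : ℝ} (hr : 0 < r) (hrR : r < R) (hL : 2 * R ≤ L) :
    ∃ c : ℝ≥0∞, c ≠ ⊤ ∧ ∀ z ∈ annulus 1 r R,
      ∫⁻ x in annulus 1 r R, FR 1 0 r R x * kk 0 L (x - z) = c := by
  have hR : 0 < R := hr.trans hrR
  have hL0 : 0 < L := by linarith
  set κ : ℝ := r / R with hκ'
  have hκ : 0 < κ := div_pos hr hR
  have hκ1 : κ < 1 := (div_lt_one hR).2 hrR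
  set c : ℝ := √(r * R) with hc'
  have hc : 0 < c := Real.sqrt_pos.2 (by positivity)
  obtain ⟨C1, hC1, hd1⟩ := FF_dom hκ hκ1
  obtain ⟨C2, hC2, hd2⟩ := kk_dom hL0
  set J : ℝ → V 1 → ℝ≥0∞ := fun α z =>
    ∫⁻ x in annulus 1 r R, FF 1 α κ (c⁻¹ • x) * kk (1 - α) L (x - z) with hJ
  have hms : MeasurableSet (annulus 1 r R) :=
    (measurableSet_le measurable_const measurable_norm).inter (measurableSet_le measurable_norm measurable_const)
  -- the dominating function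
  set G : V 1 → V 1 → ℝ≥0∞ := fun z y => ENNReal.ofReal
        ((1 - κ * ‖y‖ ^ 2) ^ (-(1 / 2) : ℝ) + (‖y‖ ^ 2 - κ) ^ (-(1 / 2) : ℝ) + 1) *
      ENNReal.ofReal (‖c • y - z‖ ^ (-(1 / 5) : ℝ)) with hG
  have hGm : ∀ z, Measurable (G z) := by
    intro z
    simp only [hG]
    fun_prop
  have hGfin : ∀ z, ∫⁻ x in annulus 1 r R, C1 * C2 * G z (c⁻¹ • x) < ⊤ := by
    intro z
    rw [lintegral_const_mul' _ _ (ENNReal.mul_ne_top hC1 hC2)]
    refine ENNReal.mul_lt_top (ENNReal.mul_lt_top hC1.lt_top hC2.lt_top) ?_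
    rw [lintegral_annulus 1 hr hrR (hGm z)]
    refine ENNReal.mul_lt_top ENNReal.ofReal_lt_top ?_
    have h1 : ∀ y : V 1, G z y = ENNReal.ofReal (c ^ (-(1 / 5) : ℝ)) * (ENNReal.ofReal
        ((1 - κ * ‖y‖ ^ 2) ^ (-(1 / 2) : ℝ) + (‖y‖ ^ 2 - κ) ^ (-(1 / 2) : ℝ) + 1) *
      ENNReal.ofReal (‖y - c⁻¹ • z‖ ^ (-(1 / 5) : ℝ))) := by
      intro y
      have h2 : ‖c • y - z‖ = c * ‖y - c⁻¹ • z‖ := by
        have : c • y - z = c • (y - c⁻¹ • z) := by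
          rw [smul_sub, smul_inv_smul₀ hc.ne']
        rw [this, norm_smul, Real.norm_of_nonneg hc.le]
      simp only [hG]
      rw [h2, Real.mul_rpow hc.le (norm_nonneg _), ENNReal.ofReal_mul (by positivity)]
      ring
    simp_rw [h1]
    rw [lintegral_const_mul' _ _ ENNReal.ofReal_ne_top]
    exact ENNReal.mul_lt_top ENNReal.ofReal_lt_top (dom_int hκ hκ1 _)
  have hbound : ∀ z ∈ annulus 1 r R, ∀ α ∈ Icc (4 / 5 : ℝ) 1, ∀ᵐ x ∂(volume.restrict (annulus 1 r R)),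
      FF 1 α κ (c⁻¹ • x) * kk (1 - α) L (x - z) ≤ C1 * C2 * G z (c⁻¹ • x) := by
    intro z hz α hα
    refine (ae_restrict_iff' hms).2 ?_
    filter_upwards [Zx_ae hr hrR z] with x hx hxa
    obtain ⟨h1, h2, h3⟩ := hx hxa
    have h4 := hd1 α hα (c⁻¹ • x) h1 h2
    have hxz : ‖x - z‖ ≤ L := (norm_sub_le x z).trans (by linarith [hxa.2, hz.2])
    have h5 := (hd2 (1 - α) ⟨by linarith [hα.2], by linarith [hα.1]⟩ (x - z) hxz).resolve_right h3
    calc FF 1 α κ (c⁻¹ • x) * kk (1 - α) L (x - z) ≤ _ := mul_le_mul' h4 h5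
      _ = C1 * C2 * G z (c⁻¹ • x) := by
        simp only [hG]
        rw [smul_inv_smul₀ hc.ne']
        ring
  have hJfin : ∀ z ∈ annulus 1 r R, ∀ α ∈ Icc (4 / 5 : ℝ) 1, J α z < ⊤ := fun z hz α hα =>
    (lintegral_mono_ae (hbound z hz α hα)).trans_lt (hGfin z)
  have hJlim : ∀ z ∈ annulus 1 r R, Tendsto (fun α => J α z) (𝓝[Icc (4 / 5 : ℝ) 1] 1) (𝓝 (J 1 z)) := by
    intro z hz
    refine tendsto_lintegral_filter_of_dominated_convergence (fun x => C1 * C2 * G z (c⁻¹ • x))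
      (Eventually.of_forall fun α => ?_) (eventually_nhdsWithin_of_forall fun α hα => hbound z hz α hα)
      (hGfin z).ne ?_
    · exact ((FF_meas 1 α κ).comp (measurable_const_smul _)).mul ((kk_meas _ _).comp (measurable_id.sub_const z))
    · refine (ae_restrict_iff' hms).2 ?_
      filter_upwards [Zx_ae hr hrR z] with x hx hxa
      obtain ⟨h1, h2, h3⟩ := hx hxa
      have hmem : (1 : ℝ) ∈ Icc (4 / 5 : ℝ) 1 := ⟨by norm_num, le_rfl⟩
      have h4 := hd1 1 hmem (c⁻¹ • x) h1 h2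
      have hxz : ‖x - z‖ ≤ L := (norm_sub_le x z).trans (by linarith [hxa.2, hz.2])
      have h5 := (hd2 0 ⟨le_rfl, by norm_num⟩ (x - z) hxz).resolve_right h3
      have h6 := kk_cont hL0 h3
      have e : (1 : ℝ) - 1 = 0 := by norm_num
      rw [e]
      refine ENNReal.Tendsto.mul (FF_cont hκ hκ1 h1 h2) (Or.inr ?_) h6 (Or.inr ?_)
      · exact ne_top_of_le_ne_top (ENNReal.mul_ne_top hC2 ENNReal.ofReal_ne_top) h5
      · exact ne_top_of_le_ne_top (ENNReal.mul_ne_top hC1 ENNReal.ofReal_ne_top) h4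
  have hJeq : ∀ z ∈ annulus 1 r R, ∀ z' ∈ annulus 1 r R, ∀ α ∈ Ioo (4 / 5 : ℝ) 1, J α z = J α z' := by
    intro z hz z' hz' α hα
    have hs0 : 0 < 1 - α := by linarith [hα.2]
    have hFR : ∀ x, FR 1 (1 - α) r R x = FF 1 α κ (c⁻¹ • x) := by
      intro x
      unfold FR
      rw [Nat.cast_one, show (1 : ℝ) - (1 - α) = α by ring]
    have hs : ((1 : ℕ) : ℝ) - 2 < 1 - α := by push_cast; linarith [hα.2]
    have hs' : 1 - α < ((1 : ℕ) : ℝ) := by push_cast; linarith [hα.1]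
    have h1 := potK_pos 1 hs hs' hr hrR hL hs0 hz
    have h2 := potK_pos 1 hs hs' hr hrR hL hs0 hz'
    have h3 := h1.trans h2.symm
    have hfin : ENNReal.ofReal (L ^ (-(1 - α))) * MR 1 (1 - α) r R ≠ ⊤ :=
      ENNReal.mul_ne_top ENNReal.ofReal_ne_top (MR_lt_top 1 hs hs' hr hrR).ne
    have h4 := (ENNReal.add_left_inj hfin).1 h3
    have h5 := (ENNReal.mul_right_inj (ENNReal.ofReal_pos.2 hs0).ne' ENNReal.ofReal_ne_top).1 h4
    simp_rw [hFR] at h5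
    exact h5
  have hmem : (1 : ℝ) ∈ Icc (4 / 5 : ℝ) 1 := ⟨by norm_num, le_rfl⟩
  have hJ1 : ∀ z ∈ annulus 1 r R, ∀ z' ∈ annulus 1 r R, J 1 z = J 1 z' := by
    intro z hz z' hz'
    have hle : 𝓝[Ioo (4 / 5 : ℝ) 1] 1 ≤ 𝓝[Icc (4 / 5 : ℝ) 1] 1 := nhdsWithin_mono _ Ioo_subset_Icc_self
    haveI : (𝓝[Ioo (4 / 5 : ℝ) 1] (1 : ℝ)).NeBot := by
      rw [nhdsWithin_Ioo_eq_nhdsLT (by norm_num)]
      infer_instance
    have t1 := (hJlim z hz).mono_left hle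
    have t2 := (hJlim z' hz').mono_left hle
    refine tendsto_nhds_unique t1 (t2.congr' ?_)
    exact eventually_nhdsWithin_of_forall fun α hα => (hJeq z hz z' hz' α hα).symm
  have hJ0 : ∀ z, ∫⁻ x in annulus 1 r R, FR 1 0 r R x * kk 0 L (x - z) = J 1 z := by
    intro z
    simp only [hJ]
    unfold FR
    rw [Nat.cast_one, sub_zero, sub_self]
  -- a point of the annulus
  obtain ⟨z0, hz0⟩ : ∃ z0 : V 1, ‖z0‖ = R := by
    refine ⟨EuclideanSpace.single 0 R, ?_⟩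
    rw [EuclideanSpace.norm_single, Real.norm_of_nonneg hR.le]
  have hz0a : z0 ∈ annulus 1 r R := ⟨by rw [hz0]; exact hrR.le, hz0.le⟩
  refine ⟨J 1 z0, (hJfin z0 hz0a 1 hmem).ne, fun z hz => ?_⟩
  rw [hJ0, hJ1 z hz z0 hz0a]

end Pool.Agent.Lib.H16RA
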