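import Mathlib
import Pool.Agent.Lib.H16RA.Zero
import Pool.Agent.Lib.H16RA.Ener
import Pool.Agent.Lib.H16RA.RealForm
import Pool.Agent.Lib.H16RA.Coef

set_option autoImplicit false

/-!
# RA2 chunk FIN: the final theorem
-/

namespace Pool.Agent.Lib.H16RA

open MeasureTheory Set Metric Filter
open scoped ENNReal Real

theorem measurableSet_annulus (d : ℕ) (r R : ℝ) : MeasurableSet (annulus d r R) := by
  show MeasurableSet ({x : V d | r ≤ ‖x‖} ∩ {x : V d | ‖x‖ ≤ R})
  exact (measurableSet_le (by fun_prop) (by fun_prop)).inter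
    (measurableSet_le (by fun_prop) (by fun_prop))

theorem FR_meas (d : ℕ) (s r R : ℝ) : Measurable (FR d s r R) := by
  unfold FR
  exact (FF_meas d _ _).comp (by fun_prop)

theorem muStar_eq (d : ℕ) [NeZero d] {s r R : ℝ} (hs : (d : ℝ) - 2 < s) (hs' : s < d)
    (hr : 0 < r) (hrR : r < R) :
    muStar d s r R = volume.withDensity
      ((annulus d r R).indicator fun x => (MR d s r R)⁻¹ * FR d s r R x) := by
  unfold muStar
  refine withDensity_congr_ae ?_
  have hm := mass_eq d hs hs' hr hrR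
  have h := (ae_restrict_iff' (measurableSet_annulus d r R)).mp (FR_eq d hs hs' hr hrR)
  filter_upwards [h] with x hx
  by_cases hxa : x ∈ annulus d r R
  · obtain ⟨h1, h2⟩ := hx hxa
    rw [indicator_of_mem hxa]
    unfold dens
    rw [indicator_of_mem hxa, h2, hm.2, ENNReal.ofReal_div_of_pos hm.1, ENNReal.div_eq_inv_mul]
  · rw [indicator_of_notMem hxa]
    unfold dens
    rw [indicator_of_notMem hxa, ENNReal.ofReal_zero]

/-- **FIN1.** Integration against `muStar`. -/
theorem lintegral_muStar (d : ℕ) [NeZero d] {s r R : ℝ} (hs : (d : ℝ) - 2 < s) (hs' : s < d)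
    (hr : 0 < r) (hrR : r < R) {g : V d → ℝ≥0∞} (hg : Measurable g) :
    ∫⁻ x, g x ∂(muStar d s r R) = (MR d s r R)⁻¹ * ∫⁻ x in annulus d r R, FR d s r R x * g x := by
  have hA := measurableSet_annulus d r R
  have hF := FR_meas d s r R
  rw [muStar_eq d hs hs' hr hrR, lintegral_withDensity_eq_lintegral_mul _
    ((hF.const_mul _).indicator hA) hg,
    ← lintegral_const_mul (μ := volume.restrict (annulus d r R)) (f := fun x => FR d s r R x * g x)
      (MR d s r R)⁻¹ (hF.mul hg), ← lintegral_indicator hA]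
  refine lintegral_congr fun x => ?_
  by_cases hx : x ∈ annulus d r R
  · rw [Pi.mul_apply, indicator_of_mem hx, indicator_of_mem hx, mul_assoc]
  · rw [Pi.mul_apply, indicator_of_notMem hx, indicator_of_notMem hx, zero_mul]

theorem annulus_nonempty (d : ℕ) [NeZero d] {r R : ℝ} (hr : 0 < r) (hrR : r < R) :
    ∃ z : V d, z ∈ annulus d r R := by
  refine ⟨r • EuclideanSpace.single (0 : Fin d) (1 : ℝ), ?_, ?_⟩
  · rw [norm_smul, PiLp.norm_single, norm_one, mul_one, Real.norm_of_nonneg hr.le]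
  · rw [norm_smul, PiLp.norm_single, norm_one, mul_one, Real.norm_of_nonneg hr.le]
    exact hrR.le

theorem E_ne_top (d : ℕ) (α x : ℝ) : ENNReal.ofReal x * Cc d α ≠ ⊤ :=
  ENNReal.mul_ne_top ENNReal.ofReal_ne_top (Cc_ne_top d α)

/-- **FIN2.** -/
theorem potK_all (d : ℕ) [NeZero d] {s r R L : ℝ} (hs : (d : ℝ) - 2 < s) (hs' : s < d)
    (hr : 0 < r) (hrR : r < R) (hL : 2 * R ≤ L) :
    ∃ c : ℝ≥0∞, c ≠ ⊤ ∧ ∀ z ∈ annulus d r R,
      ∫⁻ x in annulus d r R, FR d s r R x * kk s L (x - z) = c := by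
  obtain ⟨z0, hz0⟩ := annulus_nonempty d hr hrR
  have hL0 : 0 < L := by linarith
  have hLs : 0 < L ^ (-s) := Real.rpow_pos_of_pos hL0 _
  have hMR := MR_lt_top d hs hs' hr hrR
  rcases lt_trichotomy s 0 with h | h | h
  · refine ⟨∫⁻ x in annulus d r R, FR d s r R x * kk s L (x - z0), ?_, fun z hz => ?_⟩
    · have h1 := potK_neg d hs hs' hr hrR hL h hz0
      intro htop
      rw [htop, ENNReal.mul_top (ENNReal.ofReal_pos.mpr (by linarith)).ne', add_top] at h1
      exact (ENNReal.mul_ne_top ENNReal.ofReal_ne_top hMR.ne) h1.symm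
    · have h1 := potK_neg d hs hs' hr hrR hL h hz0
      have h2 := potK_neg d hs hs' hr hrR hL h hz
      rw [← h1] at h2
      have h3 := (ENNReal.add_right_inj (E_ne_top d _ _)).mp h2
      exact (ENNReal.mul_right_inj (ENNReal.ofReal_pos.mpr (by linarith)).ne'
        ENNReal.ofReal_ne_top).mp h3
  · subst h
    have hd : d = 1 := by
      have h1 : (d : ℝ) < 2 := by linarith
      have h2 : d < 2 := by exact_mod_cast h1
      have h3 : d ≠ 0 := NeZero.ne d
      omega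
    subst hd
    exact potK_zero hr hrR hL
  · refine ⟨∫⁻ x in annulus d r R, FR d s r R x * kk s L (x - z0), ?_, fun z hz => ?_⟩
    · have h1 := potK_pos d hs hs' hr hrR hL h hz0
      intro htop
      rw [htop, ENNReal.mul_top (ENNReal.ofReal_pos.mpr h).ne', top_add] at h1
      exact E_ne_top d _ _ h1.symm
    · have h1 := potK_pos d hs hs' hr hrR hL h hz0
      have h2 := potK_pos d hs hs' hr hrR hL h hz
      rw [← h1] at h2
      have h3 := (ENNReal.add_left_inj (ENNReal.mul_ne_top ENNReal.ofReal_ne_top hMR.ne)).mp h2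
      exact (ENNReal.mul_right_inj (ENNReal.ofReal_pos.mpr h).ne'
        ENNReal.ofReal_ne_top).mp h3

theorem muStar_prob (d : ℕ) [NeZero d] {s r R : ℝ} (hs : (d : ℝ) - 2 < s) (hs' : s < d)
    (hr : 0 < r) (hrR : r < R) : IsProbabilityMeasure (muStar d s r R) := by
  constructor
  have h := lintegral_muStar d hs hs' hr hrR (g := fun _ => 1) measurable_const
  rw [lintegral_one] at h
  rw [h]
  simp only [mul_one]
  exact ENNReal.inv_mul_cancel (MR_pos d hs hs' hr hrR).ne' (MR_lt_top d hs hs' hr hrR).ne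

theorem muStar_carried (d : ℕ) [NeZero d] {s r R : ℝ} (hs : (d : ℝ) - 2 < s) (hs' : s < d)
    (hr : 0 < r) (hrR : r < R) : muStar d s r R (annulus d r R)ᶜ = 0 := by
  have hA := measurableSet_annulus d r R
  rw [← lintegral_indicator_one hA.compl,
    lintegral_muStar d hs hs' hr hrR (measurable_one.indicator hA.compl)]
  rw [setLIntegral_congr_fun hA (g := fun _ => 0)]
  · simp
  · intro x hx
    have : x ∉ (annulus d r R)ᶜ := fun h => h hx
    simp only
    rw [indicator_of_notMem this, mul_zero]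

theorem annulus_diam (d : ℕ) {r R L : ℝ} (hL : 2 * R ≤ L) :
    ∀ x ∈ annulus d r R, ∀ y ∈ annulus d r R, ‖x - y‖ ≤ L := by
  intro x hx y hy
  have := norm_sub_le x y
  linarith [hx.2, hy.2]

theorem kk_symm {d : ℕ} (s L : ℝ) (x y : V d) : kk s L (x - y) = kk s L (y - x) := by
  unfold kk
  rw [norm_sub_rev]

theorem BBk_cross (d : ℕ) [NeZero d] {s r R L : ℝ} (hs : (d : ℝ) - 2 < s) (hs' : s < d)
    (hr : 0 < r) (hrR : r < R) {c : ℝ≥0∞}
    (hc : ∀ z ∈ annulus d r R, ∫⁻ x in annulus d r R, FR d s r R x * kk s L (x - z) = c)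
    (ν : Measure (V d)) [IsProbabilityMeasure ν] (hν : ν (annulus d r R)ᶜ = 0) :
    BBk s L ν (muStar d s r R) = (MR d s r R)⁻¹ * c := by
  unfold BBk
  have h : ∀ᵐ x ∂ν, ∫⁻ y, kk s L (x - y) ∂(muStar d s r R) = (MR d s r R)⁻¹ * c := by
    have h1 : ∀ᵐ x ∂ν, x ∈ annulus d r R := by
      rw [ae_iff]
      exact hν
    filter_upwards [h1] with x hx
    have hkm : Measurable fun y : V d => kk s L (x - y) :=
      (kk_meas s L).comp (measurable_const.sub measurable_id)
    rw [lintegral_muStar d hs hs' hr hrR hkm, ← hc x hx]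
    congr 1
    refine lintegral_congr fun y => ?_
    rw [kk_symm]
  rw [lintegral_congr_ae h]
  simp

theorem core (d : ℕ) [NeZero d] {s r R : ℝ} (hs : (d : ℝ) - 2 < s) (hs' : s < d)
    (hr : 0 < r) (hrR : r < R) : ∃ c : ℝ≥0∞, c ≠ ⊤ ∧
      (∀ z ∈ annulus d r R, ∫⁻ x in annulus d r R, FR d s r R x * kk s (2 * R) (x - z) = c) ∧
      BBk s (2 * R) (muStar d s r R) (muStar d s r R) = (MR d s r R)⁻¹ * c ∧
      ∀ (ν : Measure (V d)) [IsProbabilityMeasure ν], ν (annulus d r R)ᶜ = 0 →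
        ∃ D : ℝ≥0∞, BBk s (2 * R) ν ν = (MR d s r R)⁻¹ * c + D ∧ (D = 0 → ν = muStar d s r R) := by
  obtain ⟨c, hc, hpot⟩ := potK_all d hs hs' hr hrR (le_refl (2 * R))
  have hprob := muStar_prob d hs hs' hr hrR
  have hcar := muStar_carried d hs hs' hr hrR
  have hself := BBk_cross d hs hs' hr hrR hpot (muStar d s r R) hcar
  have hR0 : 0 < 2 * R := by linarith
  have hs2 : -2 < s := by
    have : (1 : ℝ) ≤ d := by exact_mod_cast Nat.one_le_iff_ne_zero.mpr (NeZero.ne d)
    linarith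
  have hMi : (MR d s r R)⁻¹ * c ≠ ⊤ :=
    ENNReal.mul_ne_top (ENNReal.inv_ne_top.mpr (MR_pos d hs hs' hr hrR).ne') hc
  refine ⟨c, hc, hpot, hself, ?_⟩
  intro ν _ hν
  obtain ⟨D, hD, hD0⟩ := energy_identity hs2 hR0 (annulus_diam d (le_refl (2 * R))) ν
    (muStar d s r R) hν hcar
  rw [hself, BBk_cross d hs hs' hr hrR hpot ν hν] at hD
  refine ⟨D, ?_, hD0⟩
  have h2 : BBk s (2 * R) ν ν + (MR d s r R)⁻¹ * c =
      ((MR d s r R)⁻¹ * c + D) + (MR d s r R)⁻¹ * c := by
    rw [hD]; ring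
  exact (ENNReal.add_left_inj hMi).1 h2

/-- **FIN3.** equilibrium and uniqueness -/
theorem equilibrium (d : ℕ) [NeZero d] {s r R : ℝ} (hs : (d : ℝ) - 2 < s) (hs' : s < d)
    (hr : 0 < r) (hrR : r < R) :
    IsEquilibrium s (annulus d r R) (muStar d s r R) ∧
      ∀ ν : Measure (V d), IsEquilibrium s (annulus d r R) ν → ν = muStar d s r R := by
  obtain ⟨c, hc, -, hself, hcore⟩ := core d hs hs' hr hrR
  have hprob := muStar_prob d hs hs' hr hrR
  have hcar := muStar_carried d hs hs' hr hrR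
  have hR0 : 0 < 2 * R := by linarith
  have hdiam := annulus_diam d (r := r) (le_refl (2 * R))
  have hMi : (MR d s r R)⁻¹ * c ≠ ⊤ :=
    ENNReal.mul_ne_top (ENNReal.inv_ne_top.mpr (MR_pos d hs hs' hr hrR).ne') hc
  have hEm := energy_eq (s := s) hR0 hdiam (muStar d s r R) hcar
  rw [hself] at hEm
  constructor
  · refine ⟨hprob, hcar, fun ν hν hν0 => ?_⟩
    obtain ⟨D, hD, -⟩ := hcore ν hν0
    rw [hEm, energy_eq (s := s) hR0 hdiam ν hν0, hD]
    exact add_le_add le_rfl (EReal.coe_ennreal_le_coe_ennreal_iff.mpr le_self_add)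
  · intro ν hν
    have hνp := hν.prob
    obtain ⟨D, hD, hD0⟩ := hcore ν hν.carried
    apply hD0
    have h1 := hν.min (muStar d s r R) hprob hcar
    rw [hEm, energy_eq (s := s) hR0 hdiam ν hν.carried, hD] at h1
    have h2 : (((MR d s r R)⁻¹ * c + D : ℝ≥0∞) : EReal) ≤ (((MR d s r R)⁻¹ * c : ℝ≥0∞) : EReal) := by
      have h3 := add_le_add_right h1 ((-(Ks s (2 * R)) : ℝ) : EReal)
      rw [← add_assoc, ← add_assoc, ← EReal.coe_add, neg_add_cancel, EReal.coe_zero, zero_add,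
        zero_add] at h3
      exact h3
    rw [EReal.coe_ennreal_le_coe_ennreal_iff] at h2
    have h3 : (MR d s r R)⁻¹ * c + D ≤ (MR d s r R)⁻¹ * c + 0 := by rwa [add_zero]
    exact le_antisymm ((ENNReal.add_le_add_iff_left hMi).mp h3) bot_le

theorem sig_eq (d : ℕ) [NeZero d] :
    sig d = ENNReal.ofReal (2 * π ^ ((d : ℝ) / 2) / Real.Gamma ((d : ℝ) / 2)) := by
  unfold sig
  have hd : (0 : ℝ) < d := by exact_mod_cast Nat.pos_of_ne_zero (NeZero.ne d)
  have hG : 0 < Real.Gamma ((d : ℝ) / 2) := Real.Gamma_pos_of_pos (by positivity)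
  rw [Measure.toSphere_apply_univ, finrank_euclideanSpace, Fintype.card_fin,
    EuclideanSpace.volume_ball, Fintype.card_fin, ENNReal.ofReal_one, one_pow, one_mul,
    Real.Gamma_add_one (by positivity)]
  rw [show (d : ℝ≥0∞) = ENNReal.ofReal (d : ℝ) by simp, ← ENNReal.ofReal_mul hd.le]
  congr 1
  have : √π ^ d = π ^ ((d : ℝ) / 2) := by
    rw [Real.sqrt_eq_rpow, ← Real.rpow_natCast, ← Real.rpow_mul Real.pi_pos.le]
    congr 1
    ring
  rw [this]
  field_simp

theorem Cc_eq (d : ℕ) [NeZero d] {α : ℝ} (h0 : 0 < α) (h2 : α < 2) :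
    Cc d α = ENNReal.ofReal (π ^ ((d : ℝ) / 2 + 1) /
      (Real.Gamma ((d : ℝ) / 2) * Real.sin (π * α / 2))) := by
  have hd : (0 : ℝ) < d := by exact_mod_cast Nat.pos_of_ne_zero (NeZero.ne d)
  have hG : 0 < Real.Gamma ((d : ℝ) / 2) := Real.Gamma_pos_of_pos (by positivity)
  have hsin := sin_pos_of h0 h2
  unfold Cc
  rw [sig_eq, show (2 : ℝ≥0∞) = ENNReal.ofReal 2 by simp,
    ← ENNReal.ofReal_div_of_pos (by norm_num), ← ENNReal.ofReal_mul (by positivity)]
  congr 1
  unfold Pc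
  rw [Real.rpow_add Real.pi_pos, Real.rpow_one]
  field_simp

/-- **FIN4.** energy value for `s ≠ 0` -/
theorem energy_value (d : ℕ) [NeZero d] {s r R : ℝ} (hs : (d : ℝ) - 2 < s) (hs' : s < d)
    (hr : 0 < r) (hrR : r < R) (hs0 : s ≠ 0) :
    rieszEnergy s (muStar d s r R) =
      ((R ^ ((d : ℝ) - s) * π ^ ((d : ℝ) / 2 + 1) /
        (s * Real.Gamma ((d : ℝ) / 2) * Real.sin (π * (d - s) / 2) * mass d s r R) : ℝ) : EReal) := by
  obtain ⟨c, hc, hpot, hself, -⟩ := core d hs hs' hr hrR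
  have hcar := muStar_carried d hs hs' hr hrR
  have hprob := muStar_prob d hs hs' hr hrR
  have hR : 0 < R := by linarith
  have hR0 : 0 < 2 * R := by linarith
  have hdiam := annulus_diam d (r := r) (le_refl (2 * R))
  have hd : (0 : ℝ) < d := by exact_mod_cast Nat.pos_of_ne_zero (NeZero.ne d)
  have hG : 0 < Real.Gamma ((d : ℝ) / 2) := Real.Gamma_pos_of_pos (by positivity)
  have h0 : 0 < (d : ℝ) - s := by linarith
  have h2 : (d : ℝ) - s < 2 := by linarith
  have hsin := sin_pos_of h0 h2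
  have hm := mass_eq d hs hs' hr hrR
  obtain ⟨z0, hz0⟩ := annulus_nonempty d hr hrR
  rw [energy_eq (s := s) hR0 hdiam (muStar d s r R) hcar, hself, hm.2]
  obtain ⟨c', hc'0, rfl⟩ : ∃ c' : ℝ, 0 ≤ c' ∧ c = ENNReal.ofReal c' :=
    ⟨c.toReal, ENNReal.toReal_nonneg, (ENNReal.ofReal_toReal hc).symm⟩
  have hLs : 0 < (2 * R) ^ (-s) := Real.rpow_pos_of_pos hR0 _
  rw [← ENNReal.ofReal_inv_of_pos hm.1, ← ENNReal.ofReal_mul (inv_nonneg.mpr hm.1.le),
    EReal.coe_ennreal_ofReal, max_eq_left (mul_nonneg (inv_nonneg.mpr hm.1.le) hc'0),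
    ← EReal.coe_add]
  congr 1
  have hKs : Ks s (2 * R) = (2 * R) ^ (-s) / s := by
    unfold Ks
    rw [if_neg hs0, Real.rpow_neg hR0.le]
    field_simp
  rw [hKs]
  have hEp : 0 < R ^ ((d : ℝ) - s) := Real.rpow_pos_of_pos hR _
  -- the linear relation
  have key : s * c' + (2 * R) ^ (-s) * mass d s r R = R ^ ((d : ℝ) - s) *
      (π ^ ((d : ℝ) / 2 + 1) / (Real.Gamma ((d : ℝ) / 2) * Real.sin (π * (d - s) / 2))) := by
    rcases lt_or_gt_of_ne hs0 with h | h
    · have h1 := potK_neg d hs hs' hr hrR (le_refl (2 * R)) h hz0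
      rw [hpot z0 hz0, hm.2, Cc_eq d h0 h2, ← ENNReal.ofReal_mul hEp.le,
        ← ENNReal.ofReal_mul (by linarith), ← ENNReal.ofReal_add (by positivity)
          (mul_nonneg (by linarith) hc'0), ← ENNReal.ofReal_mul hLs.le,
        ENNReal.ofReal_eq_ofReal_iff (add_nonneg (by positivity)
          (mul_nonneg (by linarith) hc'0)) (mul_nonneg hLs.le hm.1.le)] at h1
      linarith
    · have h1 := potK_pos d hs hs' hr hrR (le_refl (2 * R)) h hz0
      rw [hpot z0 hz0, hm.2, Cc_eq d h0 h2, ← ENNReal.ofReal_mul hEp.le,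
        ← ENNReal.ofReal_mul h.le, ← ENNReal.ofReal_mul hLs.le,
        ← ENNReal.ofReal_add (mul_nonneg h.le hc'0) (mul_nonneg hLs.le hm.1.le),
        ENNReal.ofReal_eq_ofReal_iff (add_nonneg (mul_nonneg h.le hc'0)
          (mul_nonneg hLs.le hm.1.le)) (by positivity)] at h1
      linarith
  have hmne := hm.1.ne'
  have e1 : (2 * R) ^ (-s) / s + (mass d s r R)⁻¹ * c' =
      (s * c' + (2 * R) ^ (-s) * mass d s r R) / (s * mass d s r R) := by
    field_simp
    ring
  rw [e1, key]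
  field_simp

end Pool.Agent.Lib.H16RA
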