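import Mathlib
import Pool.Agent.Lib.H16RA.Coef
set_option autoImplicit false

/-!
# RA2, second part: the moments as explicit series of quotients of Gamma functions
-/

namespace Pool.Agent.Lib.H16RA
open MeasureTheory Set Metric
open scoped ENNReal Real

/-- The binomial coefficients in terms of the Gamma function. -/
theorem choose_gamma {a : ℝ} (ha : 0 < a) (n : ℕ) :
    Ring.choose (a + n - 1) n = Real.Gamma (a + n) / (Real.Gamma a * n.factorial) := by
  have hG : Real.Gamma a ≠ 0 := (Real.Gamma_pos_of_pos ha).ne'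
  have hf : (n.factorial : ℝ) ≠ 0 := by exact_mod_cast n.factorial_ne_zero
  have key : ∀ m : ℕ, Real.Gamma (a + m) = (ascPochhammer ℝ m).eval a * Real.Gamma a := by
    intro m
    induction m with
    | zero => simp
    | succ m ih =>
      rw [ascPochhammer_succ_eval, Nat.cast_succ, ← add_assoc, Real.Gamma_add_one (by positivity), ih]
      ring
  rw [key, Ring.choose_eq_smul, Polynomial.descPochhammer_smeval_eq_ascPochhammer,
    Polynomial.ascPochhammer_smeval_eq_eval]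
  have : a + n - 1 - n + 1 = a := by ring
  rw [this]
  simp only [smul_eq_mul]
  field_simp

/-- The binomial series `(1 - z)^(-a) = ∑ Γ(a + l) / (Γ(a) l!) z^l`. -/
theorem binom_gamma {a : ℝ} (ha : 0 < a) {z : ℝ} (hz0 : 0 ≤ z) (hz : z < 1) :
    HasSum (fun l : ℕ => Real.Gamma (a + l) / (Real.Gamma a * l.factorial) * z ^ l)
      ((1 - z) ^ (-a)) := by
  have h := (Real.one_div_one_sub_rpow_hasFPowerSeriesOnBall_zero a).hasSum (y := z) (by
    simp only [Metric.mem_eball, edist_zero_right]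
    rw [Real.enorm_eq_ofReal hz0]
    exact ENNReal.ofReal_lt_one.mpr hz)
  rw [zero_add, one_div, ← Real.rpow_neg (by linarith)] at h
  have e : (fun n : ℕ => (FormalMultilinearSeries.ofScalars ℝ
      fun n : ℕ => Ring.choose (a + n - 1) n) n fun _ => z) =
      fun l : ℕ => Real.Gamma (a + l) / (Real.Gamma a * l.factorial) * z ^ l := by
    funext n
    rw [FormalMultilinearSeries.ofScalars_apply_eq, choose_gamma ha, smul_eq_mul]
  rw [e] at h
  exact h

/-- Beta integral on `(0, κ)`. -/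
theorem beta_scaled {p q κ : ℝ} (hp : 0 < p) (hq : 0 < q) (hκ : 0 < κ) :
    ∫⁻ y in Ioo (0 : ℝ) κ, ENNReal.ofReal (y ^ (p - 1) * (κ - y) ^ (q - 1)) =
      ENNReal.ofReal (κ ^ (p + q - 1) * (Real.Gamma p * Real.Gamma q / Real.Gamma (p + q))) := by
  have h := ProbabilityTheory.lintegral_betaPDF_eq_one hp hq
  rw [ProbabilityTheory.lintegral_betaPDF] at h
  have hBp : 0 < ProbabilityTheory.beta p q := ProbabilityTheory.beta_pos hp hq
  have h1 : ∫⁻ w in Ioo (0 : ℝ) 1, ENNReal.ofReal (w ^ (p - 1) * (1 - w) ^ (q - 1)) =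
      ENNReal.ofReal (ProbabilityTheory.beta p q) := by
    have h2 : ∀ w : ℝ, ENNReal.ofReal (1 / ProbabilityTheory.beta p q * w ^ (p - 1) *
        (1 - w) ^ (q - 1)) =
        ENNReal.ofReal (1 / ProbabilityTheory.beta p q) *
          ENNReal.ofReal (w ^ (p - 1) * (1 - w) ^ (q - 1)) := by
      intro w
      rw [← ENNReal.ofReal_mul (by positivity), mul_assoc]
    simp_rw [h2] at h
    rw [lintegral_const_mul' _ _ ENNReal.ofReal_ne_top] at h
    have h3 : ENNReal.ofReal (ProbabilityTheory.beta p q) *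
        ENNReal.ofReal (1 / ProbabilityTheory.beta p q) = 1 := by
      rw [← ENNReal.ofReal_mul hBp.le, mul_one_div_cancel hBp.ne', ENNReal.ofReal_one]
    calc ∫⁻ w in Ioo (0 : ℝ) 1, ENNReal.ofReal (w ^ (p - 1) * (1 - w) ^ (q - 1))
        = (ENNReal.ofReal (ProbabilityTheory.beta p q) *
        ENNReal.ofReal (1 / ProbabilityTheory.beta p q)) *
          ∫⁻ w in Ioo (0 : ℝ) 1, ENNReal.ofReal (w ^ (p - 1) * (1 - w) ^ (q - 1)) := by
          rw [h3, one_mul]
      _ = ENNReal.ofReal (ProbabilityTheory.beta p q) := by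
          rw [mul_assoc, h, mul_one]
  -- the substitution `y = κ w`
  have himg : (fun w : ℝ => κ * w) '' Ioo (0 : ℝ) 1 = Ioo (0 : ℝ) κ := by
    rw [Set.image_mul_left_Ioo hκ]
    simp
  rw [← himg, lintegral_image_eq_lintegral_abs_deriv_mul measurableSet_Ioo
    (fun x _ => (hasDerivAt_const_mul κ).hasDerivWithinAt)
    (fun x _ y _ hxy => mul_left_cancel₀ hκ.ne' hxy)]
  have e1 : ∀ w ∈ Ioo (0 : ℝ) 1, ENNReal.ofReal |κ| *
      ENNReal.ofReal ((κ * w) ^ (p - 1) * (κ - κ * w) ^ (q - 1)) =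
      ENNReal.ofReal (κ ^ (p + q - 1)) * ENNReal.ofReal (w ^ (p - 1) * (1 - w) ^ (q - 1)) := by
    intro w hw
    rw [abs_of_pos hκ, ← ENNReal.ofReal_mul hκ.le, ← ENNReal.ofReal_mul (Real.rpow_nonneg hκ.le _)]
    congr 1
    rw [Real.mul_rpow hκ.le hw.1.le, show κ - κ * w = κ * (1 - w) by ring,
      Real.mul_rpow hκ.le (by linarith [hw.2]),
      show p + q - 1 = 1 + (p - 1) + (q - 1) by ring, Real.rpow_add hκ, Real.rpow_add hκ,
      Real.rpow_one]
    ring
  rw [setLIntegral_congr_fun measurableSet_Ioo e1, lintegral_const_mul' _ _ ENNReal.ofReal_ne_top, h1,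
    ← ENNReal.ofReal_mul (Real.rpow_nonneg hκ.le _)]
  rfl

/-- The explicit coefficients
`g_{k,l} = (α sin (π α / 2) / (2 π)) Γ(α/2 + l) Γ(d/2 + k + l) / (l! Γ((d + α)/2 + 1 + k + l)) κ^((d + α)/2 + k + 2 l)`,
`α = d - s`. -/
noncomputable def gcoef (d : ℕ) (s κ : ℝ) (k l : ℕ) : ℝ :=
  ((d : ℝ) - s) * Real.sin (π * (d - s) / 2) / (2 * π) *
    (Real.Gamma (((d : ℝ) - s) / 2 + l) * Real.Gamma ((d : ℝ) / 2 + k + l) /
      (l.factorial * Real.Gamma ((d : ℝ) - s / 2 + 1 + k + l))) *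
    κ ^ ((d : ℝ) - s / 2 + k + 2 * l)

theorem gcoef_nonneg (d : ℕ) [NeZero d] {s κ : ℝ} (hs : (d : ℝ) - 2 < s) (hs' : s < d) (hκ : 0 < κ)
    (k l : ℕ) : 0 ≤ gcoef d s κ k l := by
  have h0 : (0 : ℝ) < d - s := by linarith
  have h2 : (d : ℝ) - s < 2 := by linarith
  have hd : (0 : ℝ) < d := by exact_mod_cast Nat.pos_of_ne_zero (NeZero.ne d)
  have hsin := sin_pos_of h0 h2
  have hpi := Real.pi_pos
  have g1 : 0 < Real.Gamma (((d : ℝ) - s) / 2 + l) := Real.Gamma_pos_of_pos (by positivity)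
  have g2 : 0 < Real.Gamma ((d : ℝ) / 2 + k + l) := Real.Gamma_pos_of_pos (by positivity)
  have g3 : 0 < Real.Gamma ((d : ℝ) - s / 2 + 1 + k + l) := by
    refine Real.Gamma_pos_of_pos ?_
    have e : (d : ℝ) - s / 2 + 1 + k + l = (d : ℝ) / 2 + (d - s) / 2 + 1 + k + l := by ring
    rw [e]
    positivity
  unfold gcoef
  positivity

theorem acoef_gcoef (d : ℕ) [NeZero d] {s κ : ℝ} (hs : (d : ℝ) - 2 < s) (hs' : s < d) (hκ : 0 < κ)
    (hκ1 : κ < 1) (k : ℕ) :
    ENNReal.ofReal (acoef d s κ k) = ∑' l, ENNReal.ofReal (gcoef d s κ k l) := by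
  have h0 : (0 : ℝ) < d - s := by linarith
  have h2 : (d : ℝ) - s < 2 := by linarith
  have hd : (0 : ℝ) < d := by exact_mod_cast Nat.pos_of_ne_zero (NeZero.ne d)
  have hsin := sin_pos_of h0 h2
  have hpi := Real.pi_pos
  set a : ℝ := ((d : ℝ) - s) / 2 with ha
  have ha0 : 0 < a := by rw [ha]; linarith
  rw [(acoef_aux d hs hs' hκ hκ1 k).2]
  have hGa : 0 < Real.Gamma a := Real.Gamma_pos_of_pos ha0
  set c : ℕ → ℝ := fun l => Real.Gamma (a + l) / (Real.Gamma a * l.factorial) with hc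
  have hc0 : ∀ l, 0 ≤ c l := fun l => by
    have : 0 < Real.Gamma (a + l) := Real.Gamma_pos_of_pos (by positivity)
    simp only [hc]
    positivity
  have hpt : ∀ y ∈ Ioo (0 : ℝ) κ, ENNReal.ofReal (wt d (d - s) κ y) * ENNReal.ofReal (y ^ k) =
      ∑' l : ℕ, ENNReal.ofReal (c l * κ ^ l) *
        ENNReal.ofReal (y ^ ((d : ℝ) / 2 + k + l - 1) * (κ - y) ^ (a + 1 - 1)) := by
    intro y hy
    have hy0 : 0 < y := hy.1
    have hκy0 : 0 ≤ κ * y := (mul_pos hκ hy0).le
    have hκy : κ * y < 1 := by nlinarith [hy.2]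
    have hky : 0 < κ - y := by linarith [hy.2]
    have hb := binom_gamma ha0 hκy0 hκy
    have hw : wt d (d - s) κ y * y ^ k =
        y ^ ((d : ℝ) / 2 + k - 1) * (κ - y) ^ a * (1 - κ * y) ^ (-a) := by
      unfold wt
      rw [Real.div_rpow hky.le (by linarith), Real.rpow_neg (by linarith), ← ha,
        show (d : ℝ) / 2 + k - 1 = ((d : ℝ) / 2 - 1) + k by ring, Real.rpow_add hy0,
        Real.rpow_natCast]
      field_simp
    rw [← ENNReal.ofReal_mul (wt_nonneg' d hκ hκ1 hy.1 hy.2), hw, ← hb.tsum_eq,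
      ENNReal.ofReal_mul (by positivity),
      ENNReal.ofReal_tsum_of_nonneg (fun l => mul_nonneg (hc0 l) (pow_nonneg hκy0 l)) hb.summable,
      ← ENNReal.tsum_mul_left]
    refine tsum_congr fun l => ?_
    rw [← ENNReal.ofReal_mul (by positivity),
      ← ENNReal.ofReal_mul (mul_nonneg (hc0 l) (pow_nonneg hκ.le l))]
    congr 1
    rw [show (d : ℝ) / 2 + k + l - 1 = ((d : ℝ) / 2 + k - 1) + l by ring, Real.rpow_add hy0,
      Real.rpow_natCast, show a + 1 - 1 = a by ring, mul_pow]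
    simp only [hc]
    ring
  rw [setLIntegral_congr_fun measurableSet_Ioo hpt, lintegral_tsum (fun l => by fun_prop),
    ← ENNReal.tsum_mul_left]
  refine tsum_congr fun l => ?_
  rw [lintegral_const_mul' _ _ ENNReal.ofReal_ne_top,
    beta_scaled (p := (d : ℝ) / 2 + k + l) (q := a + 1) (by positivity) (by positivity) hκ]
  have hG1 : 0 < Real.Gamma (a + 1) := Real.Gamma_pos_of_pos (by positivity)
  have hG2 : 0 < Real.Gamma ((d : ℝ) / 2 + k + l) := Real.Gamma_pos_of_pos (by positivity)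
  have hG3 : 0 < Real.Gamma ((d : ℝ) / 2 + k + l + (a + 1)) := Real.Gamma_pos_of_pos (by positivity)
  have hcl : 0 ≤ c l * κ ^ l := mul_nonneg (hc0 l) (pow_nonneg hκ.le l)
  rw [← ENNReal.ofReal_mul hcl, ← ENNReal.ofReal_mul (div_pos hsin hpi).le]
  congr 1
  unfold gcoef
  have e1 : (d : ℝ) - s / 2 + k + 2 * l = ((d : ℝ) / 2 + k + l + (a + 1) - 1) + l := by
    rw [ha]; ring
  have e2 : (d : ℝ) - s / 2 + 1 + k + l = (d : ℝ) / 2 + k + l + (a + 1) := by
    rw [ha]; ring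
  have e3 : (d : ℝ) - s = 2 * a := by rw [ha]; ring
  rw [e1, e2, Real.rpow_add hκ, Real.rpow_natCast, Real.Gamma_add_one ha0.ne', e3]
  simp only [hc]
  rw [show 2 * a / 2 = a by ring]
  field_simp

/-- **The moments are explicit**: a series of quotients of Gamma functions. -/
theorem acoef_hasSum (d : ℕ) [NeZero d] {s κ : ℝ} (hs : (d : ℝ) - 2 < s) (hs' : s < d) (hκ : 0 < κ)
    (hκ1 : κ < 1) (k : ℕ) : HasSum (gcoef d s κ k) (acoef d s κ k) := by
  have h := acoef_gcoef d hs hs' hκ hκ1 k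
  have hne : ∑' l, ENNReal.ofReal (gcoef d s κ k l) ≠ ⊤ := by
    rw [← h]
    exact ENNReal.ofReal_ne_top
  have h1 := ENNReal.hasSum_toReal hne
  have h2 : (fun l => (ENNReal.ofReal (gcoef d s κ k l)).toReal) = gcoef d s κ k := by
    funext l
    exact ENNReal.toReal_ofReal (gcoef_nonneg d hs hs' hκ k l)
  rw [h2] at h1
  have h3 : ∑' l, gcoef d s κ k l = acoef d s κ k := by
    rw [← ENNReal.toReal_ofReal (acoef_aux d hs hs' hκ hκ1 k).1, h,
      ENNReal.tsum_toReal_eq (fun l => ENNReal.ofReal_ne_top)]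
    exact tsum_congr fun l => (congrFun h2 l).symm
  rw [h3] at h1
  exact h1

end Pool.Agent.Lib.H16RA
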