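import Mathlib
import Pool.Agent.Lib.H16RA.Gam
import Pool.Agent.Lib.H16RA.Final
set_option autoImplicit false

/-!
# RA2, second part: the profile as an explicit double series
-/

namespace Pool.Agent.Lib.H16RA
open MeasureTheory Set Metric
open scoped ENNReal Real

/-- the entries `A_m = ∑_l g_{m,l}` of the Hankel matrix `(A_{j+m})` -/
noncomputable def hank (d : ℕ) (s κ : ℝ) (m : ℕ) : ℝ := ∑' l, gcoef d s κ m l

/-- `V_n = A^n e_0`: `V_0 = (1, 0, 0, …)`, `V_{n+1}(j) = ∑_m A_{j+m} V_n(m)` -/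
noncomputable def vec (d : ℕ) (s κ : ℝ) : ℕ → ℕ → ℝ
  | 0 => fun j => if j = 0 then 1 else 0
  | n + 1 => fun j => ∑' m, hank d s κ (j + m) * vec d s κ n m

theorem hank_eq (d : ℕ) [NeZero d] {s κ : ℝ} (hs : (d : ℝ) - 2 < s) (hs' : s < d) (hκ : 0 < κ)
    (hκ1 : κ < 1) (m : ℕ) : hank d s κ m = acoef d s κ m :=
  (acoef_hasSum d hs hs' hκ hκ1 m).tsum_eq

theorem vec_eq (d : ℕ) [NeZero d] {s κ : ℝ} (hs : (d : ℝ) - 2 < s) (hs' : s < d) (hκ : 0 < κ)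
    (hκ1 : κ < 1) (n : ℕ) : vec d s κ n = vcoef d s κ n := by
  induction n with
  | zero => rfl
  | succ n ih =>
    funext j
    simp only [vec, vcoef]
    refine tsum_congr fun m => ?_
    rw [hank_eq d hs hs' hκ hκ1, ih]

theorem vec_nonneg (d : ℕ) [NeZero d] {s κ : ℝ} (hs : (d : ℝ) - 2 < s) (hs' : s < d) (hκ : 0 < κ)
    (hκ1 : κ < 1) (n j : ℕ) : 0 ≤ vec d s κ n j := by
  rw [vec_eq d hs hs' hκ hκ1]
  exact (vcoef_aux d hs hs' hκ hκ1 n).1 j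

theorem hank_nonneg (d : ℕ) [NeZero d] {s κ : ℝ} (hs : (d : ℝ) - 2 < s) (hs' : s < d) (hκ : 0 < κ)
    (hκ1 : κ < 1) (m : ℕ) : 0 ≤ hank d s κ m := by
  rw [hank_eq d hs hs' hκ hκ1]
  exact (acoef_aux d hs hs' hκ hκ1 m).1

/-- `A_{j+m} ≤ κ^j A_m` -/
theorem hank_le (d : ℕ) [NeZero d] {s κ : ℝ} (hs : (d : ℝ) - 2 < s) (hs' : s < d) (hκ : 0 < κ)
    (hκ1 : κ < 1) (j m : ℕ) : hank d s κ (j + m) ≤ κ ^ j * hank d s κ m := by
  rw [hank_eq d hs hs' hκ hκ1, hank_eq d hs hs' hκ hκ1]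
  obtain ⟨h1, e1⟩ := acoef_aux d hs hs' hκ hκ1 (j + m)
  obtain ⟨h2, e2⟩ := acoef_aux d hs hs' hκ hκ1 m
  rw [← ENNReal.ofReal_le_ofReal_iff (mul_nonneg (pow_nonneg hκ.le j) h2),
    ENNReal.ofReal_mul (pow_nonneg hκ.le j), e1, e2, mul_left_comm]
  refine mul_le_mul_right ?_ _
  rw [← lintegral_const_mul' _ _ ENNReal.ofReal_ne_top]
  refine setLIntegral_mono' measurableSet_Ioo ?_
  intro y hy
  rw [mul_left_comm, ← ENNReal.ofReal_mul (pow_nonneg hκ.le j)]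
  refine mul_le_mul_right (ENNReal.ofReal_le_ofReal ?_) _
  rw [pow_add]
  exact mul_le_mul_of_nonneg_right (pow_le_pow_left₀ hy.1.le hy.2.le j) (pow_nonneg hy.1.le m)

theorem vec_hasSum (d : ℕ) [NeZero d] {s κ : ℝ} (hs : (d : ℝ) - 2 < s) (hs' : s < d) (hκ : 0 < κ)
    (hκ1 : κ < 1) (n : ℕ) {x : ℝ} (hx0 : 0 ≤ x) (hx : κ * x < 1) :
    HasSum (fun j => vec d s κ n j * x ^ j) (rit d s κ n x) := by
  rw [vec_eq d hs hs' hκ hκ1]
  exact rit_coef d hs hs' hκ hκ1 n hx0 hx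

theorem vec_zero_eq (d : ℕ) [NeZero d] {s κ : ℝ} (hs : (d : ℝ) - 2 < s) (hs' : s < d) (hκ : 0 < κ)
    (hκ1 : κ < 1) (n : ℕ) : vec d s κ n 0 = rit d s κ n 0 := by
  have h := (vec_hasSum d hs hs' hκ hκ1 n (x := 0) le_rfl (by simp)).tsum_eq
  rw [← h, tsum_eq_single 0]
  · simp
  · intro j hj
    simp [hj]

/-- the series defining `V_{n+1}` converge -/
theorem vec_summable (d : ℕ) [NeZero d] {s κ : ℝ} (hs : (d : ℝ) - 2 < s) (hs' : s < d) (hκ : 0 < κ)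
    (hκ1 : κ < 1) (n j : ℕ) : Summable fun m => hank d s κ (j + m) * vec d s κ n m := by
  have h1 := (vec_hasSum d hs hs' hκ hκ1 n (x := 1) zero_le_one (by linarith)).summable
  simp only [one_pow, mul_one] at h1
  refine Summable.of_nonneg_of_le (fun m => mul_nonneg (hank_nonneg d hs hs' hκ hκ1 _)
    (vec_nonneg d hs hs' hκ hκ1 n m)) (fun m => ?_) (h1.mul_left (hank d s κ j))
  refine mul_le_mul_of_nonneg_right ?_ (vec_nonneg d hs hs' hκ hκ1 n m)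
  have := hank_le d hs hs' hκ hκ1 m j
  rw [add_comm] at this
  refine this.trans ?_
  exact mul_le_of_le_one_left (hank_nonneg d hs hs' hκ hκ1 j) (pow_le_one₀ hκ.le hκ1.le)

/-- `V_n(j) ≤ q^n κ^j`, `q = κ^(α/2) sin (π α / 2)` -/
theorem vec_le (d : ℕ) [NeZero d] {s κ : ℝ} (hs : (d : ℝ) - 2 < s) (hs' : s < d) (hκ : 0 < κ)
    (hκ1 : κ < 1) (n j : ℕ) : vec d s κ n j ≤ qq (d - s) κ ^ n * κ ^ j := by
  cases n with
  | zero =>
    simp only [vec, pow_zero, one_mul]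
    split_ifs with h
    · rw [h, pow_zero]
    · exact pow_nonneg hκ.le j
  | succ n =>
    have h0 : vec d s κ (n + 1) 0 ≤ qq (d - s) κ ^ (n + 1) := by
      rw [vec_zero_eq d hs hs' hκ hκ1]
      have := rit_le d hs hs' hκ hκ1 (n + 1) (x := 0) le_rfl (by simp)
      simpa using this
    have h1 : vec d s κ (n + 1) j ≤ κ ^ j * vec d s κ (n + 1) 0 := by
      simp only [vec]
      rw [← tsum_mul_left]
      refine (vec_summable d hs hs' hκ hκ1 n j).tsum_le_tsum (fun m => ?_)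
        ((vec_summable d hs hs' hκ hκ1 n 0).mul_left _)
      rw [zero_add, ← mul_assoc]
      exact mul_le_mul_of_nonneg_right (hank_le d hs hs' hκ hκ1 j m) (vec_nonneg d hs hs' hκ hκ1 n m)
    refine h1.trans ?_
    rw [mul_comm]
    exact mul_le_mul_of_nonneg_right h0 (pow_nonneg hκ.le j)

theorem vec_summable2 (d : ℕ) [NeZero d] {s κ : ℝ} (hs : (d : ℝ) - 2 < s) (hs' : s < d) (hκ : 0 < κ)
    (hκ1 : κ < 1) (i : ℕ) {x : ℝ} (hx0 : 0 ≤ x) (hx : κ * x < 1) :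
    Summable fun p : ℕ × ℕ => vec d s κ (2 * p.1 + i) p.2 * x ^ p.2 := by
  have h0 : (0 : ℝ) < d - s := by linarith
  have h2 : (d : ℝ) - s < 2 := by linarith
  have hq0 := qq_pos h0 h2 hκ
  have hq1 := qq_lt_one h0 h2 hκ hκ1
  have hκx : 0 ≤ κ * x := mul_nonneg hκ.le hx0
  refine Summable.of_nonneg_of_le (fun p => mul_nonneg (vec_nonneg d hs hs' hκ hκ1 _ _)
    (pow_nonneg hx0 _)) (fun p => ?_)
    ((summable_geometric_of_lt_one hq0.le hq1).mul_of_nonneg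
      (summable_geometric_of_lt_one hκx hx) (fun n => pow_nonneg hq0.le n)
      (fun n => pow_nonneg hκx n))
  have h3 := vec_le d hs hs' hκ hκ1 (2 * p.1 + i) p.2
  calc vec d s κ (2 * p.1 + i) p.2 * x ^ p.2
      ≤ (qq (d - s) κ ^ (2 * p.1 + i) * κ ^ p.2) * x ^ p.2 :=
        mul_le_mul_of_nonneg_right h3 (pow_nonneg hx0 _)
    _ = qq (d - s) κ ^ (2 * p.1 + i) * (κ * x) ^ p.2 := by rw [mul_pow]; ring
    _ ≤ qq (d - s) κ ^ p.1 * (κ * x) ^ p.2 := by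
        refine mul_le_mul_of_nonneg_right ?_ (pow_nonneg hκx _)
        exact pow_le_pow_of_le_one hq0.le hq1.le (by omega)

/-- the profile
`F(u) = (1 - κ u)^(-α/2) ∑_{n,j} V_{2n}(j) u^j + (u - κ)^(-α/2) u^(-d/2) ∑_{n,j} V_{2n+1}(j) u^(-j)`, `α = d - s` -/
noncomputable def profile (d : ℕ) (s κ u : ℝ) : ℝ :=
  (1 - κ * u) ^ (-(((d : ℝ) - s) / 2)) * ∑' p : ℕ × ℕ, vec d s κ (2 * p.1) p.2 * u ^ p.2 +
    (u - κ) ^ (-(((d : ℝ) - s) / 2)) * u ^ (-((d : ℝ) / 2)) *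
      ∑' p : ℕ × ℕ, vec d s κ (2 * p.1 + 1) p.2 * (1 / u) ^ p.2

theorem profile_eq (d : ℕ) [NeZero d] {s κ : ℝ} (hs : (d : ℝ) - 2 < s) (hs' : s < d) (hκ : 0 < κ)
    (hκ1 : κ < 1) {u : ℝ} (hu1 : κ < u) (hu2 : κ * u < 1) : profile d s κ u = prof d s κ u := by
  have hu0 : 0 < u := hκ.trans hu1
  have hiu0 : 0 ≤ 1 / u := by positivity
  have hiu : κ * (1 / u) < 1 := by
    rw [mul_one_div, div_lt_one hu0]
    exact hu1
  unfold profile prof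
  have s1 := vec_summable2 d hs hs' hκ hκ1 0 hu0.le hu2
  have s2 := vec_summable2 d hs hs' hκ hκ1 1 hiu0 hiu
  simp only [add_zero] at s1
  rw [s1.tsum_prod, s2.tsum_prod]
  congr 2
  · exact tsum_congr fun n => (vec_hasSum d hs hs' hκ hκ1 (2 * n) hu0.le hu2).tsum_eq
  · exact tsum_congr fun n => (vec_hasSum d hs hs' hκ hκ1 (2 * n + 1) hiu0 hiu).tsum_eq

end Pool.Agent.Lib.H16RA
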