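import Mathlib
import Pool.Agent.Lib.H16RA.Gam2
set_option autoImplicit false

/-!
# RA2, second part: the total mass as an explicit double series
-/

namespace Pool.Agent.Lib.H16RA
open MeasureTheory Set Metric
open scoped ENNReal Real

/-- integration of a radial function over the normalised annulus -/
theorem radial_Ann (d : ℕ) [NeZero d] (κ : ℝ) {G : ℝ → ℝ≥0∞} (hG : Measurable G) :
    ∫⁻ y in Ann d κ, G (‖y‖ ^ 2) =
      sig d * ∫⁻ t in {t : ℝ | 0 < t ∧ κ ≤ t ^ 2 ∧ κ * t ^ 2 ≤ 1},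
        G (t ^ 2) * ENNReal.ofReal (t ^ (d - 1)) := by
  have hA := measurableSet_Ann d κ
  rw [← lintegral_indicator hA]
  have hm : Measurable ((Ann d κ).indicator fun y : V d => G (‖y‖ ^ 2)) :=
    Measurable.indicator (by fun_prop) hA
  rw [polar d 0 hm]
  have hS : MeasurableSet {t : ℝ | 0 < t ∧ κ ≤ t ^ 2 ∧ κ * t ^ 2 ≤ 1} := by
    show MeasurableSet ({t : ℝ | 0 < t} ∩ ({t : ℝ | κ ≤ t ^ 2} ∩ {t : ℝ | κ * t ^ 2 ≤ 1}))
    exact (measurableSet_lt (by fun_prop) (by fun_prop)).inter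
      ((measurableSet_le (by fun_prop) (by fun_prop)).inter
        (measurableSet_le (by fun_prop) (by fun_prop)))
  have hin : ∀ ω : sphere (0 : V d) 1, ∫⁻ t in Ioi (0 : ℝ),
      (Ann d κ).indicator (fun y : V d => G (‖y‖ ^ 2)) (0 + t • (ω : V d)) *
        ENNReal.ofReal (t ^ (d - 1)) =
      ∫⁻ t in {t : ℝ | 0 < t ∧ κ ≤ t ^ 2 ∧ κ * t ^ 2 ≤ 1},
        G (t ^ 2) * ENNReal.ofReal (t ^ (d - 1)) := by
    intro ω
    rw [← lintegral_indicator measurableSet_Ioi, ← lintegral_indicator hS]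
    refine lintegral_congr fun t => ?_
    have hω : ‖(ω : V d)‖ = 1 := norm_eq_of_mem_sphere ω
    have hn : ‖(0 : V d) + t • (ω : V d)‖ ^ 2 = t ^ 2 := by
      rw [zero_add, norm_smul, hω, mul_one, Real.norm_eq_abs, sq_abs]
    by_cases ht : 0 < t
    · rw [indicator_of_mem (mem_Ioi.mpr ht)]
      by_cases h2 : κ ≤ t ^ 2 ∧ κ * t ^ 2 ≤ 1
      · have h3 : (0 : V d) + t • (ω : V d) ∈ Ann d κ := by
          simp only [Ann, mem_ofPred_eq, hn]
          exact h2
        rw [indicator_of_mem h3, hn]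
        rw [indicator_of_mem (show t ∈ {t : ℝ | 0 < t ∧ κ ≤ t ^ 2 ∧ κ * t ^ 2 ≤ 1} from ⟨ht, h2⟩)]
      · have h3 : (0 : V d) + t • (ω : V d) ∉ Ann d κ := by
          simp only [Ann, mem_ofPred_eq, hn]
          exact h2
        rw [indicator_of_notMem h3, zero_mul]
        rw [indicator_of_notMem (show t ∉ {t : ℝ | 0 < t ∧ κ ≤ t ^ 2 ∧ κ * t ^ 2 ≤ 1} from
          fun h => h2 h.2)]
    · rw [indicator_of_notMem (show t ∉ Ioi (0 : ℝ) from ht)]
      rw [indicator_of_notMem (show t ∉ {t : ℝ | 0 < t ∧ κ ≤ t ^ 2 ∧ κ * t ^ 2 ≤ 1} from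
          fun h => ht h.1)]
  simp_rw [hin]
  rw [lintegral_const, mul_comm]
  rfl

/-- up to a null set the range of `t` is `(√κ, 1/√κ)` -/
theorem range_ae {κ : ℝ} (hκ : 0 < κ) (f : ℝ → ℝ≥0∞) :
    ∫⁻ t in {t : ℝ | 0 < t ∧ κ ≤ t ^ 2 ∧ κ * t ^ 2 ≤ 1}, f t =
      ∫⁻ t in Ioo (√κ) (1 / √κ), f t := by
  have hs : 0 < √κ := Real.sqrt_pos.mpr hκ
  have e : {t : ℝ | 0 < t ∧ κ ≤ t ^ 2 ∧ κ * t ^ 2 ≤ 1} = Icc (√κ) (1 / √κ) := by
    ext t
    simp only [mem_ofPred_eq, mem_Icc]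
    constructor
    · rintro ⟨h1, h2, h3⟩
      refine ⟨Real.sqrt_le_iff.mpr ⟨h1.le, h2⟩, ?_⟩
      rw [le_div_iff₀ hs]
      have : (t * √κ) ^ 2 ≤ 1 := by rw [mul_pow, Real.sq_sqrt hκ.le]; linarith
      exact (sq_le_one_iff₀ (by positivity)).mp this
    · rintro ⟨h1, h2⟩
      have ht : 0 < t := hs.trans_le h1
      refine ⟨ht, ?_, ?_⟩
      · have := pow_le_pow_left₀ hs.le h1 2
        rwa [Real.sq_sqrt hκ.le] at this
      · rw [le_div_iff₀ hs] at h2
        have := pow_le_one₀ (n := 2) (by positivity) h2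
        rw [mul_pow, Real.sq_sqrt hκ.le] at this
        linarith
  rw [e]
  exact setLIntegral_congr Ioo_ae_eq_Icc.symm

/-- the incomplete Beta integral `∫_0^(1-κ²) w^(-a) (1-w)^(p-1) dw` -/
noncomputable def incB (κ a p : ℝ) : ℝ≥0∞ :=
  ∫⁻ w in Ioo (0 : ℝ) (1 - κ ^ 2), ENNReal.ofReal (w ^ (-a) * (1 - w) ^ (p - 1))

theorem incB_one {κ a p : ℝ} (hκ : 0 < κ) (_hκ1 : κ < 1) :
    incB κ a p = ENNReal.ofReal (2 * κ ^ p) *
      ∫⁻ t in Ioo (√κ) (1 / √κ), ENNReal.ofReal ((1 - κ * t ^ 2) ^ (-a) * t ^ (2 * p - 1)) := by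
  have hs : 0 < √κ := Real.sqrt_pos.mpr hκ
  have himg : (fun t : ℝ => 1 - κ * t ^ 2) '' Ioo (√κ) (1 / √κ) = Ioo (0 : ℝ) (1 - κ ^ 2) := by
    ext w
    simp only [mem_image, mem_Ioo]
    constructor
    · rintro ⟨t, ⟨h1, h2⟩, rfl⟩
      have ht : 0 < t := hs.trans h1
      have h3 : κ < t ^ 2 := by
        have := pow_lt_pow_left₀ h1 hs.le two_ne_zero
        rwa [Real.sq_sqrt hκ.le] at this
      have h4 : κ * t ^ 2 < 1 := by
        rw [lt_div_iff₀ hs] at h2
        have := pow_lt_one₀ (by positivity) h2 two_ne_zero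
        rw [mul_pow, Real.sq_sqrt hκ.le] at this
        linarith
      constructor
      · linarith
      · nlinarith
    · rintro ⟨h1, h2⟩
      have h3 : 0 < (1 - w) / κ := div_pos (by nlinarith [sq_nonneg κ, pow_pos hκ 2]) hκ
      refine ⟨√((1 - w) / κ), ⟨?_, ?_⟩, ?_⟩
      · refine Real.sqrt_lt_sqrt hκ.le ?_
        rw [lt_div_iff₀ hκ]
        nlinarith
      · rw [one_div, ← Real.sqrt_inv]
        refine Real.sqrt_lt_sqrt h3.le ?_
        rw [inv_eq_one_div, div_lt_div_iff_of_pos_right hκ]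
        linarith
      · rw [Real.sq_sqrt h3.le]
        field_simp
        ring
  unfold incB
  rw [← himg, lintegral_image_eq_lintegral_abs_deriv_mul measurableSet_Ioo
    (f' := fun t => -(κ * (2 * t)))
    (fun t _ => ?_) (fun x hx y hy hxy => ?_)]
  · rw [← lintegral_const_mul' _ _ ENNReal.ofReal_ne_top]
    refine setLIntegral_congr_fun measurableSet_Ioo ?_
    intro t ht
    have ht0 : 0 < t := hs.trans ht.1
    have h5 : |(-(κ * (2 * t)))| = κ * (2 * t) := by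
      rw [abs_neg, abs_of_pos (by positivity)]
    simp only
    rw [h5, ← ENNReal.ofReal_mul (by positivity), ← ENNReal.ofReal_mul (by positivity)]
    congr 1
    rw [show 1 - (1 - κ * t ^ 2) = κ * t ^ 2 by ring, Real.mul_rpow hκ.le (by positivity),
      ← Real.rpow_natCast t 2, ← Real.rpow_mul ht0.le]
    have e1 : κ ^ p = κ * κ ^ (p - 1) := by
      have h6 := Real.rpow_add hκ 1 (p - 1)
      rw [Real.rpow_one] at h6
      rw [← h6]
      congr 1
      ring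
    have e2 : t ^ (2 * p - 1) = t * t ^ (((2 : ℕ) : ℝ) * (p - 1)) := by
      nth_rewrite 2 [← Real.rpow_one t]
      rw [← Real.rpow_add ht0]
      congr 1
      push_cast
      ring
    rw [e1, e2]
    ring
  · have h1 : HasDerivAt (fun t : ℝ => 1 - κ * t ^ 2) (-(κ * (2 * t))) t := by
      have := ((hasDerivAt_pow 2 t).const_mul κ).const_sub 1
      simpa using this
    exact h1.hasDerivWithinAt
  · have hx0 : 0 < x := hs.trans hx.1
    have hy0 : 0 < y := hs.trans hy.1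
    have h2 : x ^ 2 = y ^ 2 := by
      have : κ * x ^ 2 = κ * y ^ 2 := by simpa using hxy
      exact mul_left_cancel₀ hκ.ne' this
    exact (pow_left_inj₀ hx0.le hy0.le two_ne_zero).mp h2

theorem incB_two {κ a p : ℝ} (hκ : 0 < κ) (_hκ1 : κ < 1) :
    incB κ a p = ENNReal.ofReal (2 * κ ^ p) *
      ∫⁻ t in Ioo (√κ) (1 / √κ), ENNReal.ofReal ((t ^ 2 - κ) ^ (-a) * t ^ (2 * a - 1 - 2 * p)) := by
  have hs : 0 < √κ := Real.sqrt_pos.mpr hκ
  have hbd : ∀ t ∈ Ioo (√κ) (1 / √κ), 0 < t ∧ κ < t ^ 2 ∧ κ * t ^ 2 < 1 := by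
    rintro t ⟨h1, h2⟩
    have ht : 0 < t := hs.trans h1
    refine ⟨ht, ?_, ?_⟩
    · have := pow_lt_pow_left₀ h1 hs.le two_ne_zero
      rwa [Real.sq_sqrt hκ.le] at this
    · rw [lt_div_iff₀ hs] at h2
      have := pow_lt_one₀ (by positivity) h2 two_ne_zero
      rw [mul_pow, Real.sq_sqrt hκ.le] at this
      linarith
  have himg : (fun t : ℝ => 1 - κ / t ^ 2) '' Ioo (√κ) (1 / √κ) = Ioo (0 : ℝ) (1 - κ ^ 2) := by
    ext w
    simp only [mem_image]
    constructor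
    · rintro ⟨t, ht, rfl⟩
      obtain ⟨h0, h3, h4⟩ := hbd t ht
      have h5 : 0 < t ^ 2 := by positivity
      constructor
      · have : κ / t ^ 2 < 1 := (div_lt_one h5).mpr h3
        linarith
      · have : κ ^ 2 < κ / t ^ 2 := by
          rw [lt_div_iff₀ h5]
          nlinarith
        linarith
    · rintro ⟨h1, h2⟩
      have hw : 0 < 1 - w := by nlinarith [pow_pos hκ 2]
      have h3 : 0 < κ / (1 - w) := div_pos hκ hw
      refine ⟨√(κ / (1 - w)), ⟨?_, ?_⟩, ?_⟩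
      · refine Real.sqrt_lt_sqrt hκ.le ?_
        rw [lt_div_iff₀ hw]
        nlinarith
      · rw [one_div, ← Real.sqrt_inv]
        refine Real.sqrt_lt_sqrt h3.le ?_
        rw [inv_eq_one_div, div_lt_div_iff₀ hw hκ]
        nlinarith
      · rw [Real.sq_sqrt h3.le]
        field_simp
        ring
  unfold incB
  rw [← himg, lintegral_image_eq_lintegral_abs_deriv_mul measurableSet_Ioo
    (f' := fun t => 2 * κ / t ^ 3)
    (fun t ht => ?_) (fun x hx y hy hxy => ?_)]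
  · rw [← lintegral_const_mul' _ _ ENNReal.ofReal_ne_top]
    refine setLIntegral_congr_fun measurableSet_Ioo ?_
    intro t ht
    obtain ⟨ht0, h3, h4⟩ := hbd t ht
    have h5 : |2 * κ / t ^ 3| = 2 * κ / t ^ 3 := abs_of_pos (by positivity)
    simp only
    rw [h5, ← ENNReal.ofReal_mul (by positivity), ← ENNReal.ofReal_mul (by positivity)]
    congr 1
    have h6 : 1 - κ / t ^ 2 = (t ^ 2 - κ) / t ^ 2 := by
      field_simp
    have h7 : 0 < t ^ 2 := by positivity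
    rw [show 1 - (1 - κ / t ^ 2) = κ / t ^ 2 by ring, h6,
      Real.div_rpow (by linarith) h7.le, Real.div_rpow hκ.le h7.le,
      ← Real.rpow_natCast t 2, ← Real.rpow_mul ht0.le, ← Real.rpow_mul ht0.le,
      ← Real.rpow_natCast t 3]
    have e1 : κ ^ p = κ * κ ^ (p - 1) := by
      have h6 := Real.rpow_add hκ 1 (p - 1)
      rw [Real.rpow_one] at h6
      rw [← h6]
      congr 1
      ring
    have e2 : t ^ (2 * a - 1 - 2 * p) = (t ^ ((3 : ℕ) : ℝ))⁻¹ *
        (t ^ (((2 : ℕ) : ℝ) * -a))⁻¹ * (t ^ (((2 : ℕ) : ℝ) * (p - 1)))⁻¹ := by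
      rw [← Real.rpow_neg ht0.le, ← Real.rpow_neg ht0.le, ← Real.rpow_neg ht0.le,
        ← Real.rpow_add ht0, ← Real.rpow_add ht0]
      congr 1
      push_cast
      ring
    rw [e1, e2]
    simp only [div_eq_mul_inv]
    ring
  · obtain ⟨ht0, h3, h4⟩ := hbd t ht
    have h1 : HasDerivAt (fun t : ℝ => 1 - κ / t ^ 2) (2 * κ / t ^ 3) t := by
      have h2 := (((hasDerivAt_pow 2 t).inv (by positivity)).const_mul κ).const_sub 1
      have e : (fun t : ℝ => 1 - κ / t ^ 2) = fun x => 1 - κ * ((fun x : ℝ => x ^ 2)⁻¹ x) := by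
        funext x
        simp [div_eq_mul_inv]
      rw [e]
      refine h2.congr_deriv ?_
      field_simp
      push_cast
      ring
    exact h1.hasDerivWithinAt
  · obtain ⟨hx0, -, -⟩ := hbd x hx
    obtain ⟨hy0, -, -⟩ := hbd y hy
    have h2 : x ^ 2 = y ^ 2 := by
      have h3 : κ / x ^ 2 = κ / y ^ 2 := by simpa using hxy
      rw [div_eq_div_iff (by positivity) (by positivity)] at h3
      exact (mul_left_cancel₀ hκ.ne' h3).symm
    exact (pow_left_inj₀ hx0.le hy0.le two_ne_zero).mp h2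

end Pool.Agent.Lib.H16RA
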