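import Mathlib
import Pool.Agent.Lib.H16RA.Gam3
set_option autoImplicit false

/-!
# RA2, second part: the total mass as an explicit double series, continued
-/

namespace Pool.Agent.Lib.H16RA
open MeasureTheory Set Metric
open scoped ENNReal Real

theorem incB_one' {κ a p : ℝ} (hκ : 0 < κ) (hκ1 : κ < 1) :
    ∫⁻ t in Ioo (√κ) (1 / √κ), ENNReal.ofReal ((1 - κ * t ^ 2) ^ (-a) * t ^ (2 * p - 1)) =
      ENNReal.ofReal (κ ^ (-p) / 2) * incB κ a p := by
  rw [incB_one hκ hκ1, ← mul_assoc, ← ENNReal.ofReal_mul (by positivity)]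
  have h : κ ^ (-p) / 2 * (2 * κ ^ p) = 1 := by
    rw [Real.rpow_neg hκ.le]
    have : κ ^ p ≠ 0 := (Real.rpow_pos_of_pos hκ p).ne'
    field_simp
  rw [h, ENNReal.ofReal_one, one_mul]

theorem incB_two' {κ a p : ℝ} (hκ : 0 < κ) (hκ1 : κ < 1) :
    ∫⁻ t in Ioo (√κ) (1 / √κ), ENNReal.ofReal ((t ^ 2 - κ) ^ (-a) * t ^ (2 * a - 1 - 2 * p)) =
      ENNReal.ofReal (κ ^ (-p) / 2) * incB κ a p := by
  rw [incB_two hκ hκ1, ← mul_assoc, ← ENNReal.ofReal_mul (by positivity)]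
  have h : κ ^ (-p) / 2 * (2 * κ ^ p) = 1 := by
    rw [Real.rpow_neg hκ.le]
    have : κ ^ p ≠ 0 := (Real.rpow_pos_of_pos hκ p).ne'
    field_simp
  rw [h, ENNReal.ofReal_one, one_mul]

theorem mem_range {κ : ℝ} (hκ : 0 < κ) {t : ℝ} (ht : t ∈ Ioo (√κ) (1 / √κ)) :
    0 < t ∧ κ < t ^ 2 ∧ κ * t ^ 2 < 1 := by
  have hs : 0 < √κ := Real.sqrt_pos.mpr hκ
  obtain ⟨h1, h2⟩ := ht
  have ht : 0 < t := hs.trans h1
  refine ⟨ht, ?_, ?_⟩
  · have := pow_lt_pow_left₀ h1 hs.le two_ne_zero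
    rwa [Real.sq_sqrt hκ.le] at this
  · rw [lt_div_iff₀ hs] at h2
    have := pow_lt_one₀ (by positivity) h2 two_ne_zero
    rw [mul_pow, Real.sq_sqrt hκ.le] at this
    linarith

/-- the mass of the normalised density as a double series in `ℝ≥0∞` -/
theorem MM_series (d : ℕ) [NeZero d] {s κ : ℝ} (hs : (d : ℝ) - 2 < s) (hs' : s < d) (hκ : 0 < κ)
    (hκ1 : κ < 1) :
    ∫⁻ y in Ann d κ, FF d (d - s) κ y = sig d * ∑' p : ℕ × ℕ,
      (ENNReal.ofReal (vec d s κ (2 * p.1) p.2) * (ENNReal.ofReal (κ ^ (-((d : ℝ) / 2 + p.2)) / 2) *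
        incB κ (((d : ℝ) - s) / 2) ((d : ℝ) / 2 + p.2)) +
      ENNReal.ofReal (vec d s κ (2 * p.1 + 1) p.2) *
        (ENNReal.ofReal (κ ^ (-(((d : ℝ) - s) / 2 + p.2)) / 2) *
        incB κ (((d : ℝ) - s) / 2) (((d : ℝ) - s) / 2 + p.2))) := by
  set a : ℝ := ((d : ℝ) - s) / 2 with ha
  have hd1 : 1 ≤ d := Nat.one_le_iff_ne_zero.mpr (NeZero.ne d)
  have hG : Measurable fun u : ℝ =>
      ENNReal.ofReal ((1 - κ * u) ^ (-a)) * phi d (d - s) κ u +
      ENNReal.ofReal ((u - κ) ^ (-a) * u ^ (-((d : ℝ) / 2))) * chi d (d - s) κ (1 / u) := by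
    have h1 : Measurable (phi d (d - s) κ) := by
      unfold phi
      exact Measurable.tsum fun n => it_meas d _ κ _
    have h2 : Measurable (chi d (d - s) κ) := by
      unfold chi
      exact Measurable.tsum fun n => it_meas d _ κ _
    refine Measurable.add (Measurable.mul (by fun_prop) h1) (Measurable.mul (by fun_prop) ?_)
    exact h2.comp (by fun_prop)
  have h0 := radial_Ann d κ hG
  have h1 : ∫⁻ y in Ann d κ, FF d (d - s) κ y =
      ∫⁻ y in Ann d κ, (ENNReal.ofReal ((1 - κ * ‖y‖ ^ 2) ^ (-a)) * phi d (d - s) κ (‖y‖ ^ 2) +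
      ENNReal.ofReal ((‖y‖ ^ 2 - κ) ^ (-a) * (‖y‖ ^ 2) ^ (-((d : ℝ) / 2))) *
        chi d (d - s) κ (1 / ‖y‖ ^ 2)) := rfl
  rw [h1, h0, range_ae hκ]
  congr 1
  have hpt : ∀ t ∈ Ioo (√κ) (1 / √κ),
      (ENNReal.ofReal ((1 - κ * t ^ 2) ^ (-a)) * phi d (d - s) κ (t ^ 2) +
      ENNReal.ofReal ((t ^ 2 - κ) ^ (-a) * (t ^ 2) ^ (-((d : ℝ) / 2))) *
        chi d (d - s) κ (1 / t ^ 2)) * ENNReal.ofReal (t ^ (d - 1)) =
      ∑' p : ℕ × ℕ, (ENNReal.ofReal (vec d s κ (2 * p.1) p.2) *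
        ENNReal.ofReal ((1 - κ * t ^ 2) ^ (-a) * t ^ (2 * ((d : ℝ) / 2 + p.2) - 1)) +
        ENNReal.ofReal (vec d s κ (2 * p.1 + 1) p.2) *
        ENNReal.ofReal ((t ^ 2 - κ) ^ (-a) * t ^ (2 * a - 1 - 2 * (a + p.2)))) := by
    intro t ht
    obtain ⟨ht0, h3, h4⟩ := mem_range hκ ht
    have ht2 : 0 < t ^ 2 := by positivity
    have hit : κ * (1 / t ^ 2) < 1 := by
      rw [mul_one_div, div_lt_one ht2]
      exact h3
    have hphi : phi d (d - s) κ (t ^ 2) = ∑' p : ℕ × ℕ, ENNReal.ofReal (vec d s κ (2 * p.1) p.2) *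
        ENNReal.ofReal ((t ^ 2) ^ p.2) := by
      rw [ENNReal.tsum_prod (f := fun n j => ENNReal.ofReal (vec d s κ (2 * n) j) *
        ENNReal.ofReal ((t ^ 2) ^ j))]
      unfold phi
      refine tsum_congr fun n => ?_
      rw [vec_eq d hs hs' hκ hκ1]
      exact ((vcoef_aux d hs hs' hκ hκ1 (2 * n)).2 (t ^ 2) ht2.le h4).symm
    have hchi : chi d (d - s) κ (1 / t ^ 2) =
        ∑' p : ℕ × ℕ, ENNReal.ofReal (vec d s κ (2 * p.1 + 1) p.2) *
        ENNReal.ofReal ((1 / t ^ 2) ^ p.2) := by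
      rw [ENNReal.tsum_prod (f := fun n j => ENNReal.ofReal (vec d s κ (2 * n + 1) j) *
        ENNReal.ofReal ((1 / t ^ 2) ^ j))]
      unfold chi
      refine tsum_congr fun n => ?_
      rw [vec_eq d hs hs' hκ hκ1]
      exact ((vcoef_aux d hs hs' hκ hκ1 (2 * n + 1)).2 (1 / t ^ 2) (by positivity) hit).symm
    have hA : 0 ≤ (1 - κ * t ^ 2) ^ (-a) := Real.rpow_nonneg (by linarith) _
    have hB : 0 ≤ (t ^ 2 - κ) ^ (-a) * (t ^ 2) ^ (-((d : ℝ) / 2)) :=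
      mul_nonneg (Real.rpow_nonneg (by linarith) _) (Real.rpow_nonneg ht2.le _)
    have hB' : 0 ≤ (t ^ 2 - κ) ^ (-a) := Real.rpow_nonneg (by linarith) _
    have hC : 0 ≤ t ^ (d - 1) := by positivity
    have hcast : ((d - 1 : ℕ) : ℝ) = (d : ℝ) - 1 := by rw [Nat.cast_sub hd1, Nat.cast_one]
    rw [hphi, hchi, add_mul, ENNReal.tsum_add]
    congr 1
    · rw [← ENNReal.tsum_mul_left, ← ENNReal.tsum_mul_right]
      refine tsum_congr fun p => ?_
      rw [mul_assoc, mul_left_comm, mul_assoc, ← ENNReal.ofReal_mul hA,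
        ← ENNReal.ofReal_mul (by positivity : 0 ≤ (t ^ 2) ^ p.2), mul_left_comm]
      congr 3
      rw [← pow_mul, ← pow_add, ← Real.rpow_natCast]
      congr 1
      push_cast
      rw [hcast]
      ring
    · rw [← ENNReal.tsum_mul_left, ← ENNReal.tsum_mul_right]
      refine tsum_congr fun p => ?_
      rw [mul_assoc, mul_left_comm, mul_assoc, ← ENNReal.ofReal_mul hB,
        ← ENNReal.ofReal_mul (by positivity : 0 ≤ (1 / t ^ 2) ^ p.2), mul_assoc ((t ^ 2 - κ) ^ (-a)),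
        mul_left_comm]
      congr 3
      have e1 : (t ^ 2) ^ (-((d : ℝ) / 2)) = t ^ (-(d : ℝ)) := by
        rw [← Real.rpow_natCast t 2, ← Real.rpow_mul ht0.le]
        congr 1
        push_cast
        ring
      have e2 : (1 / t ^ 2) ^ p.2 = t ^ (-(2 * (p.2 : ℝ))) := by
        rw [Real.rpow_neg ht0.le, one_div, inv_pow, ← pow_mul, ← Real.rpow_natCast]
        push_cast
        rfl
      have e3 : t ^ (d - 1) = t ^ ((d : ℝ) - 1) := by
        rw [← hcast, Real.rpow_natCast]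
      rw [e1, e2, e3, ← Real.rpow_add ht0, ← Real.rpow_add ht0]
      congr 1
      ring
  rw [setLIntegral_congr_fun measurableSet_Ioo hpt, lintegral_tsum]
  · refine tsum_congr fun p => ?_
    rw [lintegral_add_left (by fun_prop), lintegral_const_mul' _ _ ENNReal.ofReal_ne_top,
      lintegral_const_mul' _ _ ENNReal.ofReal_ne_top, incB_one' hκ hκ1, incB_two' hκ hκ1]
  · intro p
    fun_prop

end Pool.Agent.Lib.H16RA
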