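import Mathlib
import Pool.Agent.Lib.H16RA.Gam4
set_option autoImplicit false

/-!
# RA2, second part: the mass, the density and the measure in terms of the explicit coefficients
-/

namespace Pool.Agent.Lib.H16RA
open MeasureTheory Set Metric
open scoped ENNReal Real

/-- the incomplete Beta function `B(1 - κ²; 1 - a, p) = ∫_0^(1-κ²) w^(-a) (1-w)^(p-1) dw` -/
noncomputable def incBeta (κ a p : ℝ) : ℝ :=
  ∫ w in Ioo (0 : ℝ) (1 - κ ^ 2), w ^ (-a) * (1 - w) ^ (p - 1)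

theorem incB_eq {κ a p : ℝ} (hκ : 0 < κ) (_hκ1 : κ < 1) (ha : a < 1) (hp : 0 < p) :
    0 ≤ incBeta κ a p ∧ incB κ a p = ENNReal.ofReal (incBeta κ a p) := by
  have h1 : Ioo (0 : ℝ) (1 - κ ^ 2) ⊆ Ioo (0 : ℝ) 1 :=
    Ioo_subset_Ioo_right (by nlinarith [pow_pos hκ 2])
  have hnn : ∀ w ∈ Ioo (0 : ℝ) (1 - κ ^ 2), 0 ≤ w ^ (-a) * (1 - w) ^ (p - 1) := fun w hw =>
    mul_nonneg (Real.rpow_nonneg hw.1.le _) (Real.rpow_nonneg (by linarith [(h1 hw).2]) _)
  have hfin : incB κ a p ≠ ⊤ := by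
    have h2 := beta_scaled (p := 1 - a) (q := p) (κ := 1) (by linarith) hp one_pos
    have h3 : incB κ a p ≤ ∫⁻ y in Ioo (0 : ℝ) 1, ENNReal.ofReal (y ^ (1 - a - 1) * (1 - y) ^ (p - 1)) := by
      unfold incB
      rw [show 1 - a - 1 = -a by ring]
      exact lintegral_mono_set h1
    rw [h2] at h3
    exact (lt_of_le_of_lt h3 ENNReal.ofReal_lt_top).ne
  have hint : IntegrableOn (fun w : ℝ => w ^ (-a) * (1 - w) ^ (p - 1)) (Ioo (0 : ℝ) (1 - κ ^ 2)) := by
    refine ⟨Measurable.aestronglyMeasurable (by fun_prop), ?_⟩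
    rw [hasFiniteIntegral_iff_ofReal]
    · exact lt_top_iff_ne_top.mpr hfin
    · filter_upwards [ae_restrict_mem measurableSet_Ioo] with w hw using hnn w hw
  refine ⟨setIntegral_nonneg measurableSet_Ioo hnn, ?_⟩
  unfold incBeta
  rw [ofReal_integral_eq_lintegral_ofReal hint]
  · rfl
  · filter_upwards [ae_restrict_mem measurableSet_Ioo] with w hw using hnn w hw

theorem sqrt_rR {r R : ℝ} (hr : 0 < r) (hrR : r < R) (d : ℕ) :
    √(r * R) ^ (d : ℝ) = R ^ d * (r / R) ^ ((d : ℝ) / 2) := by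
  have hR : 0 < R := hr.trans hrR
  have h1 : r * R = R ^ 2 * (r / R) := by field_simp
  have hκ : 0 < r / R := div_pos hr hR
  rw [h1, Real.sqrt_mul (by positivity), Real.sqrt_sq hR.le, Real.mul_rpow hR.le (by positivity),
    Real.rpow_natCast, Real.sqrt_eq_rpow, ← Real.rpow_mul hκ.le]
  congr 2
  ring

/-- **The mass is explicit.** -/
theorem mass_series (d : ℕ) [NeZero d] {s r R : ℝ} (hs : (d : ℝ) - 2 < s) (hs' : s < d) (hr : 0 < r)
    (hrR : r < R) :
    HasSum (fun p : ℕ × ℕ => π ^ ((d : ℝ) / 2) * R ^ d / Real.Gamma ((d : ℝ) / 2) * (R / r) ^ p.2 *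
      (vec d s (r / R) (2 * p.1) p.2 * incBeta (r / R) (((d : ℝ) - s) / 2) ((d : ℝ) / 2 + p.2) +
        (r / R) ^ (s / 2) * vec d s (r / R) (2 * p.1 + 1) p.2 *
          incBeta (r / R) (((d : ℝ) - s) / 2) (((d : ℝ) - s) / 2 + p.2))) (mass d s r R) := by
  have hR : 0 < R := hr.trans hrR
  have hκ : 0 < r / R := div_pos hr hR
  have hκ1 : r / R < 1 := (div_lt_one hR).mpr hrR
  have hd : (0 : ℝ) < d := by exact_mod_cast Nat.pos_of_ne_zero (NeZero.ne d)
  have hG : 0 < Real.Gamma ((d : ℝ) / 2) := Real.Gamma_pos_of_pos (by positivity)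
  have hpi := Real.pi_pos
  have h0 : (0 : ℝ) < d - s := by linarith
  set κ := r / R with hκd
  set a : ℝ := ((d : ℝ) - s) / 2 with ha
  have ha0 : 0 < a := by rw [ha]; linarith
  have ha1 : a < 1 := by rw [ha]; linarith
  have hb1 : ∀ j : ℕ, 0 ≤ incBeta κ a ((d : ℝ) / 2 + j) ∧
      incB κ a ((d : ℝ) / 2 + j) = ENNReal.ofReal (incBeta κ a ((d : ℝ) / 2 + j)) := fun j =>
    incB_eq hκ hκ1 ha1 (by positivity)
  have hb2 : ∀ j : ℕ, 0 ≤ incBeta κ a (a + j) ∧
      incB κ a (a + j) = ENNReal.ofReal (incBeta κ a (a + j)) := fun j =>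
    incB_eq hκ hκ1 ha1 (by positivity)
  have hv : ∀ n j, 0 ≤ vec d s κ n j := fun n j => vec_nonneg d hs hs' hκ hκ1 n j
  set term : ℕ × ℕ → ℝ := fun p => π ^ ((d : ℝ) / 2) * R ^ d / Real.Gamma ((d : ℝ) / 2) *
    (R / r) ^ p.2 * (vec d s κ (2 * p.1) p.2 * incBeta κ a ((d : ℝ) / 2 + p.2) +
        κ ^ (s / 2) * vec d s κ (2 * p.1 + 1) p.2 * incBeta κ a (a + p.2)) with hterm
  have hterm0 : ∀ p, 0 ≤ term p := by
    intro p
    have h1 := (hb1 p.2).1
    have h2 := (hb2 p.2).1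
    have h3 := hv (2 * p.1) p.2
    have h4 := hv (2 * p.1 + 1) p.2
    simp only [hterm]
    positivity
  have hMR : MR d s r R = ∑' p, ENNReal.ofReal (term p) := by
    unfold MR FR
    rw [lintegral_annulus d hr hrR (FF_meas d (d - s) (r / R)), MM_series d hs hs' hκ hκ1, sig_eq,
      sqrt_rR hr hrR, ← mul_assoc, ← ENNReal.ofReal_mul (by positivity), ← ENNReal.tsum_mul_left]
    refine tsum_congr fun p => ?_
    have h1 := (hb1 p.2).1
    have h2 := (hb2 p.2).1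
    have h3 := hv (2 * p.1) p.2
    have h4 := hv (2 * p.1 + 1) p.2
    rw [(hb1 p.2).2, (hb2 p.2).2, ← ENNReal.ofReal_mul (by positivity),
      ← ENNReal.ofReal_mul (by positivity), ← ENNReal.ofReal_mul (by positivity),
      ← ENNReal.ofReal_mul (by positivity), ← ENNReal.ofReal_add (by positivity) (by positivity),
      ← ENNReal.ofReal_mul (by positivity)]
    congr 1
    simp only [hterm]
    have e1 : (R / r) ^ p.2 = κ ^ (-(p.2 : ℝ)) := by
      rw [Real.rpow_neg hκ.le, Real.rpow_natCast, ← inv_pow, hκd, inv_div]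
    have e2 : κ ^ ((d : ℝ) / 2) * κ ^ (-((d : ℝ) / 2 + p.2)) = κ ^ (-(p.2 : ℝ)) := by
      rw [← Real.rpow_add hκ]
      congr 1
      ring
    have e3 : κ ^ ((d : ℝ) / 2) * κ ^ (-(a + p.2)) = κ ^ (-(p.2 : ℝ)) * κ ^ (s / 2) := by
      rw [← Real.rpow_add hκ, ← Real.rpow_add hκ]
      congr 1
      rw [ha]
      ring
    rw [e1]
    calc R ^ d * κ ^ ((d : ℝ) / 2) * (2 * π ^ ((d : ℝ) / 2) / Real.Gamma ((d : ℝ) / 2)) *
          (vec d s κ (2 * p.1) p.2 * (κ ^ (-((d : ℝ) / 2 + p.2)) / 2 *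
            incBeta κ a ((d : ℝ) / 2 + p.2)) +
          vec d s κ (2 * p.1 + 1) p.2 * (κ ^ (-(a + p.2)) / 2 * incBeta κ a (a + p.2)))
        = R ^ d * (π ^ ((d : ℝ) / 2) / Real.Gamma ((d : ℝ) / 2)) *
          (vec d s κ (2 * p.1) p.2 * (κ ^ ((d : ℝ) / 2) * κ ^ (-((d : ℝ) / 2 + p.2))) *
            incBeta κ a ((d : ℝ) / 2 + p.2) +
          vec d s κ (2 * p.1 + 1) p.2 * (κ ^ ((d : ℝ) / 2) * κ ^ (-(a + p.2))) *
            incBeta κ a (a + p.2)) := by ring
      _ = _ := by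
        rw [e2, e3]
        ring
  have hm := mass_eq d hs hs' hr hrR
  have hne : ∑' p, ENNReal.ofReal (term p) ≠ ⊤ := by
    rw [← hMR]
    exact (MR_lt_top d hs hs' hr hrR).ne
  have h1 := ENNReal.hasSum_toReal hne
  have h2 : (fun p => (ENNReal.ofReal (term p)).toReal) = term := by
    funext p
    exact ENNReal.toReal_ofReal (hterm0 p)
  rw [h2] at h1
  have h3 : ∑' p, term p = mass d s r R := by
    rw [← ENNReal.toReal_ofReal hm.1.le, ← hm.2, hMR, ENNReal.tsum_toReal_eq (fun p => ENNReal.ofReal_ne_top)]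
    exact tsum_congr fun p => (congrFun h2 p).symm
  rw [h3] at h1
  exact h1

/-- the total mass of `F(|x|² / (r R))` -/
noncomputable def total (d : ℕ) (s r R : ℝ) : ℝ :=
  ∫ x in annulus d r R, profile d s (r / R) (‖x‖ ^ 2 / (r * R))

/-- the explicit probability density -/
noncomputable def density (d : ℕ) (s r R : ℝ) (x : EuclideanSpace ℝ (Fin d)) : ℝ :=
  (annulus d r R).indicator (fun x => profile d s (r / R) (‖x‖ ^ 2 / (r * R)) / total d s r R) x

/-- the explicit measure -/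
noncomputable def mu (d : ℕ) (s r R : ℝ) : Measure (EuclideanSpace ℝ (Fin d)) :=
  volume.withDensity fun x => ENNReal.ofReal (density d s r R x)

theorem profile_ae (d : ℕ) [NeZero d] {s r R : ℝ} (hs : (d : ℝ) - 2 < s) (hs' : s < d) (hr : 0 < r)
    (hrR : r < R) :
    ∀ᵐ x ∂(volume.restrict (annulus d r R)), profile d s (r / R) (‖x‖ ^ 2 / (r * R)) =
      prof d s (r / R) (‖x‖ ^ 2 / (r * R)) := by
  have hR : 0 < R := hr.trans hrR
  have hrR0 : 0 < r * R := mul_pos hr hR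
  have hκ : 0 < r / R := div_pos hr hR
  have hκ1 : r / R < 1 := (div_lt_one hR).mpr hrR
  have hmA := measurableSet_annulus d r R
  have : Nontrivial (V d) := by
    have : Nonempty (Fin d) := ⟨⟨0, Nat.pos_of_ne_zero (NeZero.ne d)⟩⟩
    infer_instance
  have n1 : ∀ᵐ x ∂(volume.restrict (annulus d r R)), ‖x‖ ≠ r := by
    refine ae_restrict_of_ae ?_
    have : (volume : Measure (V d)) (sphere 0 r) = 0 := Measure.addHaar_sphere _ _ _
    refine (measure_eq_zero_iff_ae_notMem.mp this).mono fun x hx h => hx ?_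
    simpa using h
  have n2 : ∀ᵐ x ∂(volume.restrict (annulus d r R)), ‖x‖ ≠ R := by
    refine ae_restrict_of_ae ?_
    have : (volume : Measure (V d)) (sphere 0 R) = 0 := Measure.addHaar_sphere _ _ _
    refine (measure_eq_zero_iff_ae_notMem.mp this).mono fun x hx h => hx ?_
    simpa using h
  filter_upwards [ae_restrict_mem hmA, n1, n2] with x hx h1 h2
  have hx1 : r < ‖x‖ := lt_of_le_of_ne hx.1 (Ne.symm h1)
  have hx2 : ‖x‖ < R := lt_of_le_of_ne hx.2 h2
  have a1 : r / R < ‖x‖ ^ 2 / (r * R) := by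
    rw [div_lt_div_iff₀ hR hrR0]
    have : r ^ 2 < ‖x‖ ^ 2 := by nlinarith
    nlinarith
  have a2 : r / R * (‖x‖ ^ 2 / (r * R)) < 1 := by
    have e : r / R * (‖x‖ ^ 2 / (r * R)) = ‖x‖ ^ 2 / R ^ 2 := by
      field_simp
    rw [e, div_lt_one (by positivity)]
    have h3 : 0 < ‖x‖ := hr.trans hx1
    nlinarith
  exact profile_eq d hs hs' hκ hκ1 a1 a2

theorem total_eq (d : ℕ) [NeZero d] {s r R : ℝ} (hs : (d : ℝ) - 2 < s) (hs' : s < d) (hr : 0 < r)
    (hrR : r < R) : total d s r R = mass d s r R :=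
  integral_congr_ae (profile_ae d hs hs' hr hrR)

theorem mu_eq (d : ℕ) [NeZero d] {s r R : ℝ} (hs : (d : ℝ) - 2 < s) (hs' : s < d) (hr : 0 < r)
    (hrR : r < R) : mu d s r R = muStar d s r R := by
  unfold mu muStar
  refine withDensity_congr_ae ?_
  have h := (ae_restrict_iff' (measurableSet_annulus d r R)).mp (profile_ae d hs hs' hr hrR)
  filter_upwards [h] with x hx
  unfold density dens
  rw [total_eq d hs hs' hr hrR]
  by_cases hxa : x ∈ annulus d r R
  · rw [indicator_of_mem hxa, indicator_of_mem hxa, hx hxa]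
  · rw [indicator_of_notMem hxa, indicator_of_notMem hxa]

end Pool.Agent.Lib.H16RA
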