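import Mathlib
import Pool.Agent.Lib.H16RA.Kern

set_option autoImplicit false

/-!
# RA2 chunk KERB: the kernel for `s = 0` and at the origin
-/

namespace Pool.Agent.Lib.H16RA

open MeasureTheory Set Metric
open scoped ENNReal Real

theorem kk_zero' {d : ℕ} {L : ℝ} (hL : 0 < L) {x : V d} (hx : ‖x‖ ≤ L) (hx0 : x ≠ 0) :
    kk 0 L x = ENNReal.ofReal (Real.log L - Real.log ‖x‖) := by
  have ha : 0 < ‖x‖ := norm_pos_iff.mpr hx0
  unfold kk
  generalize ‖x‖ = a at *
  have hint : IntegrableOn (fun ρ : ℝ => ρ⁻¹) (Ioc a L) := by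
    have : ContinuousOn (fun ρ : ℝ => ρ⁻¹) (Icc a L) :=
      continuousOn_inv₀.mono (fun y hy => (ha.trans_le hy.1).ne')
    exact this.integrableOn_Icc.mono_set Ioc_subset_Icc_self
  have h1 : ∫⁻ ρ in Ioo a L, ENNReal.ofReal (ρ ^ (-(0 : ℝ) - 1)) =
      ∫⁻ ρ in Ioc a L, ENNReal.ofReal (ρ⁻¹) := by
    rw [← setLIntegral_congr (Ioo_ae_eq_Ioc (μ := volume) (a := a) (b := L))]
    apply setLIntegral_congr_fun measurableSet_Ioo
    intro ρ _
    show ENNReal.ofReal (ρ ^ (-(0 : ℝ) - 1)) = ENNReal.ofReal ρ⁻¹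
    rw [show (-(0 : ℝ) - 1) = -1 by norm_num, Real.rpow_neg_one]
  rw [h1, ← ofReal_integral_eq_lintegral_ofReal hint]
  · congr 1
    rw [← intervalIntegral.integral_of_le hx, integral_inv_of_pos ha hL, Real.log_div hL.ne' ha.ne']
  · refine (ae_restrict_iff' measurableSet_Ioc).mpr (Filter.Eventually.of_forall ?_)
    intro y hy
    exact inv_nonneg.mpr (ha.trans hy.1).le

theorem kk_origin' {d : ℕ} {s L : ℝ} (hs : 0 ≤ s) (hL : 0 < L) : kk s L (0 : V d) = ⊤ := by
  unfold kk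
  rw [norm_zero]
  by_contra hne
  have hI : IntegrableOn (fun ρ : ℝ => ρ ^ (-s - 1)) (Ioo 0 L) := by
    refine ⟨?_, ?_⟩
    · exact (by fun_prop : Measurable (fun ρ : ℝ => ρ ^ (-s - 1))).aestronglyMeasurable
    · rw [hasFiniteIntegral_iff_ofReal]
      · exact lt_top_iff_ne_top.mpr hne
      · refine (ae_restrict_iff' measurableSet_Ioo).mpr (Filter.Eventually.of_forall ?_)
        intro y hy
        exact Real.rpow_nonneg hy.1.le _
  rw [intervalIntegral.integrableOn_Ioo_rpow_iff hL] at hI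
  linarith

end Pool.Agent.Lib.H16RA
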